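import Mathlib
import Pool.Agent.Lib.MP_9083e4_al.Lie

/-!
# Simple Lie algebras over separably closed fields all of whose proper subalgebras are nilpotent:
definitions
-/

set_option autoImplicit false

namespace Pool.Agent.MP9083S

open Module Pool.Agent.MP9083

/-! ### Definitions used in the final statement -/

/-- The elements `u i j` (`i, j ∈ ℕ`) form a standard family of the Lie algebra `L` over the field
`E` of characteristic `p` with parameters `a, b ∈ E`: `u 0 0 = 0`, `u (i+p) j = a u i j`,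
`u i (j+p) = b u i j`, `[u i j, u k l] = (i l - j k) u (i+k) (j+l)`, and the `p ^ 2 - 1` elements
`u i j` with `0 ≤ i, j < p`, `(i, j) ≠ (0, 0)`, are a basis of `L` over `E`. -/
structure StdBasis (p : ℕ) (E L : Type*) [Field E] [LieRing L] [LieAlgebra E L] (a b : E)
    (u : ℕ → ℕ → L) : Prop where
  zero : u 0 0 = 0
  left : ∀ i j, u (i + p) j = a • u i j
  right : ∀ i j, u i (j + p) = b • u i j
  lie : ∀ i j k l, ⁅u i j, u k l⁆ = ((i : E) * l - j * k) • u (i + k) (j + l)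
  indep : LinearIndependent E (fun x : {x : Fin p × Fin p // (x.1 : ℕ) + x.2 ≠ 0} =>
    u x.1.1 x.1.2)
  span : Submodule.span E (Set.range fun x : {x : Fin p × Fin p // (x.1 : ℕ) + x.2 ≠ 0} =>
    u x.1.1 x.1.2) = ⊤

/-- `a` and `b` are `p`-independent in the field `E` of characteristic `p`: the elements
`a ^ i * b ^ j`, `0 ≤ i, j < p`, are linearly independent over the subfield of `p`-th powers. -/
def PInd (p : ℕ) {E : Type*} [Field E] (a b : E) : Prop :=
  ∀ c : Fin p → Fin p → E, ∑ i, ∑ j, c i j ^ p * a ^ (i : ℕ) * b ^ (j : ℕ) = 0 → c = 0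

/-! ### Definitions for the proof -/

/-- the determinant of two vectors of the plane over the field with `p` elements -/
def dt {p : ℕ} (χ φ : ZMod p × ZMod p) : ZMod p := χ.1 * φ.2 - χ.2 * φ.1

/-- the inclusion of the prime field -/
noncomputable def ct {p : ℕ} (F : Type*) [Field F] [CharP F p] : ZMod p →+* F :=
  ZMod.castHom (dvd_refl p) F

/-- a grading of `L` by the plane over the field with `p` elements with `V 0 = 0` such that for
every nonzero homogeneous `v` of degree `χ` the map `(ad v) ^ (p ^ N)` is multiplication by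
`l * det (χ, φ)` on the part of degree `φ` -/
structure Frame (p : ℕ) [NeZero p] (F L : Type*) [Field F] [CharP F p] [LieRing L]
    [LieAlgebra F L] where
  V : ZMod p × ZMod p → Submodule F L
  P : ZMod p × ZMod p → L →ₗ[F] L
  N : ℕ
  N_ne : N ≠ 0
  mem : ∀ χ x, P χ x ∈ V χ
  sum : ∀ x, ∑ χ, P χ x = x
  self : ∀ {χ x}, x ∈ V χ → P χ x = x
  ne : ∀ {χ ψ x}, x ∈ V χ → χ ≠ ψ → P ψ x = 0
  zero : V 0 = ⊥
  lie : ∀ {χ ψ x y}, x ∈ V χ → y ∈ V ψ → ⁅x, y⁆ ∈ V (χ + ψ)
  pow : ∀ {χ v}, v ∈ V χ → v ≠ 0 → ∃ l : F, l ≠ 0 ∧ ∀ φ, ∀ x ∈ V φ,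
    ((LieAlgebra.ad F L v) ^ (p ^ N)) x = (l * ct F (dt χ φ)) • x

variable {p : ℕ} [NeZero p] {F L : Type*} [Field F] [CharP F p] [LieRing L] [LieAlgebra F L]

/-- all parts of degree different from `0` have the same dimension `d > 0` -/
def Frame.Full (Fr : Frame p F L) (d : ℕ) : Prop :=
  0 < d ∧ ∀ χ, χ ≠ 0 → finrank F (Fr.V χ) = d

/-- homogeneous elements with proportional degrees commute -/
def Frame.Ab (Fr : Frame p F L) : Prop :=
  ∀ χ ψ : ZMod p × ZMod p, dt χ ψ = 0 → ∀ x ∈ Fr.V χ, ∀ y ∈ Fr.V ψ, ⁅x, y⁆ = 0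

/-- `(ad v) ^ (p ^ N)` is multiplication by `l * det (χ, φ)` on the part of degree `φ` -/
def Frame.Lam (Fr : Frame p F L) (χ : ZMod p × ZMod p) (v : L) (l : F) : Prop :=
  ∀ φ, ∀ x ∈ Fr.V φ, ((LieAlgebra.ad F L v) ^ (p ^ Fr.N)) x = (l * ct F (dt χ φ)) • x

/-- `L` is central: the centroid is the ground field -/
def Central (F L : Type*) [Field F] [LieRing L] [LieAlgebra F L] : Prop :=
  ∀ T : L →ₗ[F] L, (∀ x y, T ⁅x, y⁆ = ⁅T x, y⁆) → ∃ c : F, ∀ x, T x = c • x

end Pool.Agent.MP9083S
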