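import Mathlib
import Pool.Agent.Lib.MP_9083e4_al.S.Defs

/-! Rows E. The centroid. -/

set_option autoImplicit false

namespace Pool.Agent.MP9083S

open Module Pool.Agent.MP9083

universe u v

-- BEGIN exists_centroid
/-- the algebra of the maps which commute with the bracket -/
private def E1_sub (F : Type u) (L : Type v) [Field F] [LieRing L] [LieAlgebra F L] :
    Subalgebra F (Module.End F L) where
  carrier := {T | ∀ x y, T ⁅x, y⁆ = ⁅T x, y⁆}
  mul_mem' := by
    intro S T hS hT x y
    rw [Module.End.mul_apply, Module.End.mul_apply, hT, hS]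
  add_mem' := by
    intro S T hS hT x y
    rw [LinearMap.add_apply, LinearMap.add_apply, hT, hS, add_lie]
  algebraMap_mem' := by
    intro c x y
    rw [Module.algebraMap_end_apply, Module.algebraMap_end_apply, smul_lie]

private theorem E1_left {F : Type u} {L : Type v} [Field F] [LieRing L] [LieAlgebra F L]
    (T : E1_sub F L) (x y : L) : T.1 ⁅x, y⁆ = ⁅T.1 x, y⁆ := T.2 x y

private theorem E1_right {F : Type u} {L : Type v} [Field F] [LieRing L] [LieAlgebra F L]
    (T : E1_sub F L) (x y : L) : T.1 ⁅x, y⁆ = ⁅x, T.1 y⁆ := by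
  rw [← lie_skew, map_neg, E1_left, lie_skew]

private theorem E1_span (F : Type u) (L : Type v) [Field F] [LieRing L] [LieAlgebra F L]
    [LieAlgebra.IsSimple F L] (z : L) : z ∈ Submodule.span F {w : L | ∃ x y : L, ⁅x, y⁆ = w} := by
  let I : LieIdeal F L :=
    { Submodule.span F {w : L | ∃ x y : L, ⁅x, y⁆ = w} with
      lie_mem := fun {x m} _ => Submodule.subset_span ⟨x, m, rfl⟩ }
  rcases LieAlgebra.IsSimple.eq_bot_or_eq_top I with h | h
  · exfalso
    apply LieAlgebra.IsSimple.non_abelian F (L := L)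
    constructor
    intro x y
    have h1 : ⁅x, y⁆ ∈ I := Submodule.subset_span ⟨x, y, rfl⟩
    rw [h] at h1
    exact (LieSubmodule.mem_bot _).1 h1
  · have h1 : z ∈ I := by
      rw [h]
      exact LieSubmodule.mem_top _
    exact h1

private theorem E1_comm {F : Type u} {L : Type v} [Field F] [LieRing L] [LieAlgebra F L]
    [LieAlgebra.IsSimple F L] (S T : E1_sub F L) : S * T = T * S := by
  ext z
  have hz := E1_span F L z
  induction hz using Submodule.span_induction with
  | mem w hw =>
    obtain ⟨x, y, rfl⟩ := hw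
    change S.1 (T.1 ⁅x, y⁆) = T.1 (S.1 ⁅x, y⁆)
    rw [E1_right T, E1_left S, E1_left S, E1_right T]
  | zero => simp
  | add x y _ _ hx hy => rw [map_add, map_add, hx, hy]
  | smul a x _ hx => rw [map_smul, map_smul, hx]

private noncomputable abbrev E1_ring (F : Type u) (L : Type v) [Field F] [LieRing L]
    [LieAlgebra F L] [LieAlgebra.IsSimple F L] : CommRing (E1_sub F L) :=
  { (inferInstance : Ring (E1_sub F L)) with mul_comm := E1_comm }

private theorem E1_inj {F : Type u} {L : Type v} [Field F] [LieRing L] [LieAlgebra F L]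
    [LieAlgebra.IsSimple F L] (T : E1_sub F L) (hT : T ≠ 0) (x : L) (hx : T.1 x = 0) : x = 0 := by
  let I : LieIdeal F L :=
    { LinearMap.ker T.1 with
      lie_mem := by
        intro y m hm
        have hm' : T.1 m = 0 := hm
        change T.1 ⁅y, m⁆ = 0
        rw [E1_right, hm', lie_zero] }
  have hI : ∀ y, y ∈ I ↔ T.1 y = 0 := fun y => Iff.rfl
  rcases LieAlgebra.IsSimple.eq_bot_or_eq_top I with h | h
  · have h1 := (hI x).2 hx
    rw [h] at h1
    exact (LieSubmodule.mem_bot _).1 h1
  · exfalso
    apply hT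
    ext y
    have h1 : y ∈ I := by
      rw [h]
      exact LieSubmodule.mem_top _
    simpa using (hI y).1 h1

private theorem E1_field (F : Type u) (L : Type v) [Field F] [LieRing L] [LieAlgebra F L]
    [FiniteDimensional F L] [LieAlgebra.IsSimple F L] [Nontrivial L] :
    ∃ (E : Type v) (_ : Field E) (_ : Algebra F E) (ρ : E →ₐ[F] Module.End F L),
      FiniteDimensional F E ∧ (∀ T x y, ρ T ⁅x, y⁆ = ⁅ρ T x, y⁆) ∧
        ∀ T : Module.End F L, (∀ x y, T ⁅x, y⁆ = ⁅T x, y⁆) → ∃ e, ρ e = T := by
  classical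
  letI iR : CommRing (E1_sub F L) := E1_ring F L
  letI iA : Algebra F (E1_sub F L) := (E1_sub F L).algebra
  have hfin : FiniteDimensional F (E1_sub F L) :=
    inferInstanceAs (FiniteDimensional F (Subalgebra.toSubmodule (E1_sub F L)))
  have hnt : Nontrivial (E1_sub F L) := by
    refine ⟨⟨0, 1, fun h => ?_⟩⟩
    obtain ⟨x, hx⟩ := exists_ne (0 : L)
    apply hx
    have h1 : (0 : E1_sub F L).1 x = (1 : E1_sub F L).1 x := by rw [h]
    exact h1.symm
  have hdom : NoZeroDivisors (E1_sub F L) := by
    refine ⟨fun {S T} h => ?_⟩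
    by_contra hc
    push Not at hc
    apply hc.2
    ext x
    have h1 : S.1 (T.1 x) = 0 := by
      have : (S * T).1 x = (0 : E1_sub F L).1 x := by rw [h]
      exact this
    simpa using E1_inj S hc.1 _ h1
  have hdom' : IsDomain (E1_sub F L) := NoZeroDivisors.to_isDomain _
  letI iF : Field (E1_sub F L) := fieldOfFiniteDimensional F (E1_sub F L)
  refine ⟨E1_sub F L, iF, iA, (E1_sub F L).val, hfin, fun T x y => T.2 x y, fun T hT => ?_⟩
  exact ⟨⟨T, hT⟩, rfl⟩

/-- Row E1. `E` = the subalgebra of `Module.End F L` of all `T` with `T ⁅x, y⁆ = ⁅T x, y⁆` (then also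
`T ⁅x, y⁆ = ⁅x, T y⁆`). It is commutative, as `T T' ⁅x, y⁆ = ⁅T x, T' y⁆ = T' T ⁅x, y⁆` and
`⁅L, L⁆ = L`; the kernel and the range of `T` are ideals, so `E` is a field. An `E`-linear `T` with
`T ⁅x, y⁆ = ⁅T x, y⁆` is in `E`, so `L` is central over `E`. An ideal over `E` is an ideal over
`F`. -/
theorem exists_centroid (F : Type u) (L : Type v) [Field F] [LieRing L] [LieAlgebra F L]
    [FiniteDimensional F L] [LieAlgebra.IsSimple F L] :
    ∃ (E : Type v) (_ : Field E) (_ : Algebra F E) (_ : LieAlgebra E L)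
      (_ : IsScalarTower F E L), FiniteDimensional F E ∧ FiniteDimensional E L ∧
        LieAlgebra.IsSimple E L ∧ Central E L := by
  classical
  have hL : Nontrivial L := by
    by_contra h
    rw [not_nontrivial_iff_subsingleton] at h
    apply LieAlgebra.IsSimple.non_abelian F (L := L)
    exact ⟨fun x y => Subsingleton.elim _ _⟩
  obtain ⟨E, iF, iA, ρ, hfin, hρ, hρ'⟩ := E1_field F L
  letI iM : Module E L := Module.compHom L ρ.toRingHom
  have hsmul : ∀ (T : E) (x : L), T • x = ρ T x := fun T x => rfl
  letI iL : LieAlgebra E L :=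
    { iM with
      lie_smul := fun T x y => by
        change ⁅x, ρ T y⁆ = ρ T ⁅x, y⁆
        rw [← lie_skew, ← hρ, ← map_neg, lie_skew] }
  have hst : IsScalarTower F E L := by
    refine ⟨fun c T x => ?_⟩
    rw [hsmul, hsmul, map_smul]
    rfl
  have hfin' : FiniteDimensional E L := Module.Finite.of_restrictScalars_finite F E L
  refine ⟨E, iF, iA, iL, hst, hfin, hfin', ?_, ?_⟩
  · refine ⟨fun I => ?_, LieAlgebra.IsSimple.non_abelian F⟩
    let J : LieIdeal F L :=
      { carrier := I
        add_mem' := I.add_mem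
        zero_mem' := I.zero_mem
        smul_mem' := fun c x hx => by
          rw [← algebraMap_smul E c x]
          exact I.smul_mem _ hx
        lie_mem := I.lie_mem }
    have hJ : ∀ x, x ∈ J ↔ x ∈ I := fun x => Iff.rfl
    rcases LieAlgebra.IsSimple.eq_bot_or_eq_top J with h | h
    · left
      rw [LieSubmodule.eq_bot_iff]
      intro x hx
      have h1 := (hJ x).2 hx
      rw [h] at h1
      exact (LieSubmodule.mem_bot _).1 h1
    · right
      rw [eq_top_iff]
      intro x _
      apply (hJ x).1
      rw [h]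
      exact LieSubmodule.mem_top _
  · intro T hT
    obtain ⟨e, he⟩ := hρ' (T.restrictScalars F) hT
    refine ⟨e, fun x => ?_⟩
    rw [hsmul, he]
    rfl
-- END exists_centroid

section

variable {F E L : Type*} [Field F] [Field E] [Algebra F E] [LieRing L] [LieAlgebra F L]
  [LieAlgebra E L] [IsScalarTower F E L]

/-- a subalgebra over `E` is a subalgebra over `F` -/
def resAlg (F : Type*) {E L : Type*} [Field F] [Field E] [Algebra F E] [LieRing L]
    [LieAlgebra F L] [LieAlgebra E L] [IsScalarTower F E L] (S : LieSubalgebra E L) :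
    LieSubalgebra F L where
  carrier := S
  add_mem' := S.add_mem
  zero_mem' := S.zero_mem
  smul_mem' := fun c x hx => by
    rw [← algebraMap_smul E c x]
    exact S.smul_mem _ hx
  lie_mem' := S.lie_mem

-- BEGIN propNil_ext
private theorem E2_ne {S : LieSubalgebra E L} (hS : S ≠ ⊤) : resAlg F S ≠ ⊤ := by
  intro h
  apply hS
  rw [eq_top_iff]
  intro x _
  have : x ∈ resAlg F S := by rw [h]; trivial
  exact this

/-- Row E2. -/
theorem propNil_ext (H : PropNil F L) : PropNil E L := by
  intro S hS
  have h1 := H (resAlg F S) (E2_ne hS)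
  exact h1
-- END propNil_ext

-- BEGIN abelian_ext
/-- Row E2. -/
theorem abelian_ext (H : ∀ S : LieSubalgebra F L, S ≠ ⊤ → IsLieAbelian S) :
    ∀ S : LieSubalgebra E L, S ≠ ⊤ → IsLieAbelian S := by
  intro S hS
  have h1 := H (resAlg F S) (E2_ne hS)
  exact ⟨fun x y => Subtype.ext (congrArg Subtype.val (h1.trivial ⟨x.1, x.2⟩ ⟨y.1, y.2⟩))⟩
-- END abelian_ext

-- BEGIN simple_res
/-- Row E2. If `I ≠ 0` is an ideal over `F`, then the `F`-span of the `⁅y, x⁆`, `x ∈ I`, is an ideal
over `E`, contained in `I` and not `0` (the center of `L` is `0`). -/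
theorem simple_res (F E : Type*) {L : Type*} [Field F] [Field E] [Algebra F E] [LieRing L]
    [LieAlgebra F L] [LieAlgebra E L] [IsScalarTower F E L] [LieAlgebra.IsSimple E L] :
    LieAlgebra.IsSimple F L := by
  have hs : LieAlgebra.IsSimple E L := inferInstance
  refine ⟨fun I => ?_, hs.non_abelian⟩
  by_cases hI : I = ⊥
  · exact Or.inl hI
  right
  -- J : the F-span of the brackets ⁅y, x⁆, x ∈ I
  let J : LieIdeal E L :=
    { carrier := (Submodule.span F {z : L | ∃ y : L, ∃ x ∈ I, ⁅y, x⁆ = z} : Set L)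
      add_mem' := fun ha hb => Submodule.add_mem _ ha hb
      zero_mem' := Submodule.zero_mem _
      smul_mem' := by
        intro c z hz
        change z ∈ Submodule.span F _ at hz
        change c • z ∈ Submodule.span F _
        induction hz using Submodule.span_induction with
        | mem z hz =>
          obtain ⟨y, x, hx, rfl⟩ := hz
          refine Submodule.subset_span ⟨c • y, x, hx, ?_⟩
          rw [smul_lie]
        | zero => rw [smul_zero]; exact Submodule.zero_mem _
        | add a b _ _ ha hb => rw [smul_add]; exact Submodule.add_mem _ ha hb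
        | smul a b _ hb => rw [smul_comm]; exact Submodule.smul_mem _ _ hb
      lie_mem := by
        intro w z hz
        change z ∈ Submodule.span F _ at hz
        change ⁅w, z⁆ ∈ Submodule.span F _
        induction hz using Submodule.span_induction with
        | mem z hz =>
          obtain ⟨y, x, hx, rfl⟩ := hz
          exact Submodule.subset_span ⟨w, ⁅y, x⁆, I.lie_mem hx, rfl⟩
        | zero => rw [lie_zero]; exact Submodule.zero_mem _
        | add a b _ _ ha hb => rw [lie_add]; exact Submodule.add_mem _ ha hb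
        | smul a b _ hb => rw [lie_smul]; exact Submodule.smul_mem _ _ hb }
  have hmem : ∀ z, z ∈ J ↔ z ∈ Submodule.span F {z : L | ∃ y : L, ∃ x ∈ I, ⁅y, x⁆ = z} :=
    fun _ => Iff.rfl
  have hle : ∀ z ∈ J, z ∈ I := by
    intro z hz
    rw [hmem] at hz
    have h1 : Submodule.span F {z : L | ∃ y : L, ∃ x ∈ I, ⁅y, x⁆ = z} ≤ I.toSubmodule := by
      rw [Submodule.span_le]
      rintro _ ⟨y, x, hx, rfl⟩
      exact I.lie_mem hx
    exact h1 hz
  rcases hs.eq_bot_or_eq_top J with hJ | hJ
  · exfalso
    apply hI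
    rw [eq_bot_iff]
    intro x hx
    have h2 : ∀ y : L, ⁅y, x⁆ = 0 := by
      intro y
      have h3 : ⁅y, x⁆ ∈ J := (hmem _).2 (Submodule.subset_span ⟨y, x, hx, rfl⟩)
      rw [hJ] at h3
      exact (LieSubmodule.mem_bot _).1 h3
    have h4 : x ∈ LieAlgebra.center E L := by
      rw [LieModule.mem_maxTrivSubmodule]
      exact h2
    rw [LieAlgebra.center_eq_bot] at h4
    exact (LieSubmodule.mem_bot _).2 ((LieSubmodule.mem_bot _).1 h4)
  · rw [eq_top_iff]
    intro x _
    exact hle x (by rw [hJ]; trivial)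
-- END simple_res

end

end Pool.Agent.MP9083S
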