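import Mathlib
import Pool.Agent.Lib.MP_9083e4_al.S.Defs

/-! Rows C1. First properties of the grading. -/

set_option autoImplicit false

namespace Pool.Agent.MP9083S

open Module Pool.Agent.MP9083

variable {p : ℕ} [Fact p.Prime] {F L : Type*} [Field F] [CharP F p] [LieRing L]
  [LieAlgebra F L] (Fr : Frame p F L)

-- BEGIN Frame.inj
/-- Row C1a. `p • χ = 0`; `(ad v) ^ (p ^ N) x = l * dt χ φ • x` with `l ≠ 0` -/
theorem Frame.inj {χ φ : ZMod p × ZMod p} (h : dt χ φ ≠ 0) {v x : L} (hv : v ∈ Fr.V χ)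
    (hv0 : v ≠ 0) (hx : x ∈ Fr.V φ) (h0 : ⁅v, x⁆ = 0) : x = 0 := by
  obtain ⟨l, hl, hpow⟩ := Fr.pow hv hv0
  have h1 := hpow φ x hx
  have h2 : ((LieAlgebra.ad F L v) ^ (p ^ Fr.N)) x = 0 := by
    obtain ⟨m, hm⟩ : ∃ m, p ^ Fr.N = m + 1 :=
      Nat.exists_eq_succ_of_ne_zero (pow_ne_zero _ (Fact.out : p.Prime).ne_zero)
    rw [hm, pow_succ, Module.End.mul_apply, LieAlgebra.ad_apply, h0, map_zero]
  rw [h2] at h1
  rcases smul_eq_zero.1 h1.symm with h3 | h3
  · exfalso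
    rcases mul_eq_zero.1 h3 with h4 | h4
    · exact hl h4
    · exact h ((map_eq_zero (ct F)).1 h4)
  · exact h3
-- END Frame.inj

-- BEGIN Frame.pow_mem
/-- Row C1a. -/
theorem Frame.pow_mem {χ φ : ZMod p × ZMod p} {v x : L} (hv : v ∈ Fr.V χ) (hx : x ∈ Fr.V φ)
    (k : ℕ) : ((LieAlgebra.ad F L v) ^ k) x ∈ Fr.V (φ + (k : ZMod p × ZMod p) * χ) := by
  induction k with
  | zero =>
    rw [pow_zero, Nat.cast_zero, zero_mul, add_zero]
    exact hx
  | succ k ih =>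
    rw [pow_succ', Module.End.mul_apply, LieAlgebra.ad_apply]
    have h1 := Fr.lie hv ih
    have h2 : χ + (φ + (k : ZMod p × ZMod p) * χ) =
        φ + ((k + 1 : ℕ) : ZMod p × ZMod p) * χ := by
      rw [Nat.cast_succ]
      ring
    rwa [h2] at h1
-- END Frame.pow_mem

-- BEGIN Frame.surj
/-- Row C1b. By `Frame.inj` and the linear map `w ↦ ⁅w, x⁆` from `V χ` to `V (χ + φ)`, injective
between spaces of the same dimension. -/
theorem Frame.surj [FiniteDimensional F L] {d : ℕ} (hd : Fr.Full d) {χ φ : ZMod p × ZMod p}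
    (h : dt χ φ ≠ 0) {x : L} (hx : x ∈ Fr.V φ) (hx0 : x ≠ 0) {y : L} (hy : y ∈ Fr.V (χ + φ)) :
    ∃ w ∈ Fr.V χ, ⁅w, x⁆ = y := by
  have hχ : χ ≠ 0 := by
    rintro rfl
    apply h
    simp [dt]
  have hs : χ + φ ≠ 0 := by
    intro h0
    apply h
    have h1 : φ = -χ := (neg_eq_of_add_eq_zero_right h0).symm
    rw [h1]
    simp only [dt, Prod.snd_neg, Prod.fst_neg]
    ring
  have h' : dt φ χ ≠ 0 := by
    intro h0
    apply h
    have h1 : dt χ φ = - dt φ χ := by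
      simp only [dt]
      ring
    rw [h1, h0, neg_zero]
  let f : Fr.V χ →ₗ[F] Fr.V (χ + φ) :=
    { toFun := fun w => ⟨⁅(w : L), x⁆, Fr.lie w.2 hx⟩
      map_add' := by
        intro a b
        apply Subtype.ext
        simp only [Submodule.coe_add, add_lie]
      map_smul' := by
        intro c a
        apply Subtype.ext
        simp only [Submodule.coe_smul, smul_lie, RingHom.id_apply] }
  have hf : Function.Injective f := by
    rw [injective_iff_map_eq_zero]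
    intro w hw
    have h1 : ⁅(w : L), x⁆ = 0 := congrArg Subtype.val hw
    have h2 : ⁅x, (w : L)⁆ = 0 := by rw [← lie_skew, h1, neg_zero]
    exact Subtype.ext (Fr.inj h' hx hx0 w.2 h2)
  have hfr : finrank F (Fr.V χ) = finrank F (Fr.V (χ + φ)) := by
    rw [hd.2 χ hχ, hd.2 (χ + φ) hs]
  have hsurj := (LinearMap.injective_iff_surjective_of_finrank_eq_finrank hfr).1 hf
  obtain ⟨w, hw⟩ := hsurj ⟨y, hy⟩
  exact ⟨w, w.2, congrArg Subtype.val hw⟩
-- END Frame.surj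

-- BEGIN exists_full
private theorem C1c_le [FiniteDimensional F L] {χ φ : ZMod p × ZMod p} (h : dt χ φ ≠ 0) {v : L}
    (hv : v ∈ Fr.V χ) (hv0 : v ≠ 0) : finrank F (Fr.V φ) ≤ finrank F (Fr.V (φ + χ)) := by
  have hmem : ∀ x ∈ Fr.V φ, (LieAlgebra.ad F L v) x ∈ Fr.V (φ + χ) := by
    intro x hx
    rw [LieAlgebra.ad_apply, add_comm]
    exact Fr.lie hv hx
  apply LinearMap.finrank_le_finrank_of_injective
    (f := (LieAlgebra.ad F L v).restrict hmem)
  rw [← LinearMap.ker_eq_bot, LinearMap.ker_eq_bot']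
  intro x hx
  have h0 : ⁅v, (x : L)⁆ = 0 := by
    have := congrArg Subtype.val hx
    simpa using this
  exact Subtype.ext (Frame.inj Fr h hv hv0 x.2 h0)

private theorem C1c_dt {χ φ : ZMod p × ZMod p} (k : ZMod p) :
    dt χ (φ + (k * χ.1, k * χ.2)) = dt χ φ := by
  simp only [dt, Prod.fst_add, Prod.snd_add]
  ring

private theorem C1c_eq [FiniteDimensional F L] {χ φ : ZMod p × ZMod p} (h : dt χ φ ≠ 0)
    (hχ : finrank F (Fr.V χ) ≠ 0) (k : ZMod p) :
    finrank F (Fr.V (φ + (k * χ.1, k * χ.2))) = finrank F (Fr.V φ) := by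
  have hne : Fr.V χ ≠ ⊥ := by
    intro h0
    exact hχ (by rw [h0]; exact finrank_bot F L)
  obtain ⟨v, hv, hv0⟩ := (Submodule.ne_bot_iff _).1 hne
  have hmono : Monotone fun n : ℕ => finrank F (Fr.V (φ + ((n : ZMod p) * χ.1, (n : ZMod p) * χ.2))) := by
    apply monotone_nat_of_le_succ
    intro n
    have h' : dt χ (φ + ((n : ZMod p) * χ.1, (n : ZMod p) * χ.2)) ≠ 0 := by
      rw [C1c_dt]; exact h
    have := C1c_le Fr h' hv hv0
    have he : φ + ((n : ZMod p) * χ.1, (n : ZMod p) * χ.2) + χ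
        = φ + (((n + 1 : ℕ) : ZMod p) * χ.1, ((n + 1 : ℕ) : ZMod p) * χ.2) := by
      ext
      · simp only [Prod.fst_add]; push_cast; ring
      · simp only [Prod.snd_add]; push_cast; ring
    rw [he] at this
    exact this
  have hp : 1 ≤ p := (Fact.out : p.Prime).one_lt.le
  have h0 : φ + (((0 : ℕ) : ZMod p) * χ.1, ((0 : ℕ) : ZMod p) * χ.2) = φ := by
    ext <;> simp
  have h1 : φ + (((k.val * p : ℕ) : ZMod p) * χ.1, ((k.val * p : ℕ) : ZMod p) * χ.2) = φ := by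
    ext <;> simp
  have h2 : φ + (((k.val : ℕ) : ZMod p) * χ.1, ((k.val : ℕ) : ZMod p) * χ.2)
      = φ + (k * χ.1, k * χ.2) := by
    rw [ZMod.natCast_zmod_val]
  have ha := hmono (Nat.zero_le k.val)
  have hb := hmono (Nat.le_mul_of_pos_right k.val hp)
  simp only at ha hb
  rw [h0, h2] at ha
  rw [h1, h2] at hb
  exact le_antisymm hb ha

include Fr in
/-- Row C1c. If `V χ ≠ 0` and `dt χ φ ≠ 0`, then `ad v` (`v ∈ V χ`, `v ≠ 0`) gives injections
`V φ → V (φ + χ) → ... → V (φ + p χ) = V φ`, so `dim V φ = dim V (φ + χ)`. Let `φ = (a, b)`, `b ≠ 0`,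
`V φ ≠ 0`. Using `(1, 0)`: `V (i, b) ≠ 0` for all `i`. Using `(i, b)`: `dim V ((1, 0) + k (i, b))` is
constant in `k`; so all `V (j, c)` with `c ≠ 0` have dimension `dim V (1, 0)`; and
`dim V (j, 0) = dim V ((j, 0) + (i, b))` for `j ≠ 0`. -/
theorem exists_full [FiniteDimensional F L] (h1 : ∃ v ∈ Fr.V (1, 0), v ≠ 0)
    (h2 : ∃ φ : ZMod p × ZMod p, φ.2 ≠ 0 ∧ ∃ y ∈ Fr.V φ, y ≠ 0) : ∃ d, Fr.Full d := by
  have key : ∀ χ : ZMod p × ZMod p, (∃ v ∈ Fr.V χ, v ≠ 0) → finrank F (Fr.V χ) ≠ 0 := by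
    rintro χ ⟨v, hv, hv0⟩ h0
    have := Submodule.finrank_eq_zero.1 h0
    rw [this] at hv
    exact hv0 ((Submodule.mem_bot F).1 hv)
  have hd := key _ h1
  obtain ⟨⟨a, b⟩, hb, hy⟩ := h2
  have hab := key _ hy
  simp only at hb
  -- all `V (i, b)` are nonzero
  have hib : ∀ i, finrank F (Fr.V (i, b)) ≠ 0 := by
    intro i
    have hdt : dt ((1, 0) : ZMod p × ZMod p) (a, b) ≠ 0 := by
      simp only [dt]; simpa using hb
    have := C1c_eq Fr hdt hd (i - a)
    have he : ((a, b) : ZMod p × ZMod p) + ((i - a) * ((1, 0) : ZMod p × ZMod p).1,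
        (i - a) * ((1, 0) : ZMod p × ZMod p).2) = (i, b) := by
      ext <;> simp
    rw [he] at this
    rw [this]
    exact hab
  have hjc : ∀ j c, c ≠ 0 → finrank F (Fr.V (j, c)) = finrank F (Fr.V (1, 0)) := by
    intro j c hc
    have hk : c / b ≠ 0 := div_ne_zero hc hb
    have hdt : dt (((j - 1) / (c / b), b) : ZMod p × ZMod p) (1, 0) ≠ 0 := by
      simp only [dt]; simpa using hb
    have := C1c_eq Fr hdt (hib _) (c / b)
    have he : ((1, 0) : ZMod p × ZMod p)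
        + ((c / b) * (((j - 1) / (c / b), b) : ZMod p × ZMod p).1,
        (c / b) * (((j - 1) / (c / b), b) : ZMod p × ZMod p).2) = (j, c) := by
      ext
      · simp only [Prod.fst_add]; field_simp; ring
      · simp only [Prod.snd_add]; field_simp; ring
    rw [he] at this
    exact this
  refine ⟨finrank F (Fr.V (1, 0)), Nat.pos_of_ne_zero hd, ?_⟩
  rintro ⟨j, c⟩ hne
  by_cases hc : c = 0
  · subst hc
    have hj : j ≠ 0 := by
      rintro rfl
      exact hne rfl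
    have hdt : dt ((0, b) : ZMod p × ZMod p) (j, 0) ≠ 0 := by
      simp only [dt]; simp [hb, hj]
    have := C1c_eq Fr hdt (hib 0) 1
    have he : ((j, 0) : ZMod p × ZMod p) + (1 * ((0, b) : ZMod p × ZMod p).1,
        1 * ((0, b) : ZMod p × ZMod p).2) = (j, b) := by
      ext <;> simp
    rw [he] at this
    rw [← this]
    exact hjc j b hb
  · exact hjc j c hc
-- END exists_full

-- BEGIN lam_add
/-- Row C1d. The relation `Lam` is additive on commuting elements. -/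
theorem lam_add (hab : Fr.Ab) {χ : ZMod p × ZMod p} {v w : L} (hv : v ∈ Fr.V χ) (hw : w ∈ Fr.V χ)
    {l m : F} (hl : Fr.Lam χ v l) (hm : Fr.Lam χ w m) : Fr.Lam χ (v + w) (l + m) := by
  intro φ x hx
  have hvw : ⁅v, w⁆ = 0 := hab χ χ (by unfold dt; ring) v hv w hw
  have hcomm : Commute (LieAlgebra.ad F L v) (LieAlgebra.ad F L w) := by
    ext y
    have h := leibniz_lie v w y
    rw [hvw, zero_lie, zero_add] at h
    simpa only [Module.End.mul_apply, LieAlgebra.ad_apply] using h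
  obtain ⟨r, hr⟩ := Commute.exists_add_pow_prime_pow_eq (Fact.out : p.Prime) hcomm Fr.N
  have hp0 : ∀ y : L, ((p : Module.End F L)) y = 0 := by
    intro y
    rw [Module.End.natCast_apply, ← Nat.cast_smul_eq_nsmul F, CharP.cast_eq_zero, zero_smul]
  rw [map_add, hr, LinearMap.add_apply, LinearMap.add_apply, hl φ x hx, hm φ x hx,
    mul_assoc (p : Module.End F L), mul_assoc (p : Module.End F L), Module.End.mul_apply, hp0,
    add_zero, add_mul, add_smul]
-- END lam_add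

-- BEGIN lam_smul
/-- Row C1d. -/
theorem lam_smul {χ : ZMod p × ZMod p} {v : L} {l : F} (hl : Fr.Lam χ v l) (c : F) :
    Fr.Lam χ (c • v) (c ^ p ^ Fr.N * l) := by
  intro φ x hx
  rw [map_smul, smul_pow, LinearMap.smul_apply, hl φ x hx, smul_smul, mul_assoc]
-- END lam_smul

-- BEGIN exists_lam
/-- Row C1d. -/
theorem exists_lam {χ : ZMod p × ZMod p} {v : L} (hv : v ∈ Fr.V χ) : ∃ l, Fr.Lam χ v l := by
  by_cases hv0 : v = 0
  · refine ⟨0, fun φ x _ => ?_⟩
    have hp : p ^ Fr.N ≠ 0 := pow_ne_zero _ (Fact.out : p.Prime).ne_zero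
    rw [hv0, map_zero, zero_pow hp, LinearMap.zero_apply, zero_mul, zero_smul]
  · obtain ⟨l, _, h⟩ := Fr.pow hv hv0
    exact ⟨l, h⟩
-- END exists_lam

-- BEGIN lam_unique
private theorem C1d_exists_dt {χ : ZMod p × ZMod p} (hχ : χ ≠ 0) :
    ∃ φ : ZMod p × ZMod p, dt χ φ ≠ 0 := by
  by_cases h1 : χ.1 = 0
  · have h2 : χ.2 ≠ 0 := fun h => hχ (Prod.ext h1 h)
    refine ⟨(1, 0), ?_⟩
    unfold dt
    simpa using h2
  · refine ⟨(0, 1), ?_⟩
    unfold dt
    simpa using h1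

/-- Row C1d. choose `φ` with `dt χ φ ≠ 0` and `0 ≠ x ∈ V φ` -/
theorem lam_unique {d : ℕ} (hd : Fr.Full d) {χ : ZMod p × ZMod p} (hχ : χ ≠ 0) {v : L} {l m : F}
    (hl : Fr.Lam χ v l) (hm : Fr.Lam χ v m) : l = m := by
  obtain ⟨φ, hφ⟩ := C1d_exists_dt hχ
  have hφ0 : φ ≠ 0 := by
    rintro rfl
    apply hφ
    unfold dt
    simp
  have hpos : 0 < finrank F (Fr.V φ) := by rw [hd.2 φ hφ0]; exact hd.1
  have hnt : Nontrivial (Fr.V φ) := Module.nontrivial_of_finrank_pos hpos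
  obtain ⟨x, hx0⟩ := exists_ne (0 : Fr.V φ)
  have hx0' : (x : L) ≠ 0 := fun h => hx0 (Subtype.ext h)
  have h := (hl φ x x.2).symm.trans (hm φ x x.2)
  have h2 := smul_left_injective F hx0' h
  have hct : ct F (dt χ φ) ≠ 0 := fun h0 => hφ ((map_eq_zero (ct F)).mp h0)
  exact mul_right_cancel₀ hct h2
-- END lam_unique

-- BEGIN lam_ne
/-- Row C1d. -/
theorem lam_ne {d : ℕ} (hd : Fr.Full d) {χ : ZMod p × ZMod p} {v : L} (hv : v ∈ Fr.V χ)
    (hv0 : v ≠ 0) {l : F} (hl : Fr.Lam χ v l) : l ≠ 0 := by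
  have hχ : χ ≠ 0 := by
    rintro rfl
    rw [Fr.zero] at hv
    exact hv0 ((Submodule.mem_bot F).mp hv)
  obtain ⟨m, hm0, hm⟩ := Fr.pow hv hv0
  rw [lam_unique Fr hd hχ hl hm]
  exact hm0
-- END lam_ne

end Pool.Agent.MP9083S
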