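import Mathlib
import Pool.Agent.Lib.MP_9083e4_al.S.Defs

/-! Rows D. The parameters of a standard basis are `p`-independent. -/

set_option autoImplicit false

namespace Pool.Agent.MP9083S

open Module Pool.Agent.MP9083

section basic

variable {p : ℕ} [Fact p.Prime] {E L : Type*} [Field E] [LieRing L] [LieAlgebra E L] {a b : E}
  {u : ℕ → ℕ → L}

-- BEGIN StdBasis.finrank_eq
private theorem D1_card : Fintype.card {x : Fin p × Fin p // (x.1 : ℕ) + x.2 ≠ 0} = p ^ 2 - 1 := by
  have hp : 0 < p := (Fact.out : p.Prime).pos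
  have h1 : Fintype.card {x : Fin p × Fin p // (x.1 : ℕ) + x.2 = 0} = 1 := by
    rw [Fintype.card_eq_one_iff]
    refine ⟨⟨(⟨0, hp⟩, ⟨0, hp⟩), rfl⟩, ?_⟩
    rintro ⟨⟨i, j⟩, hij⟩
    have hi : (i : ℕ) = 0 := by simp only at hij; omega
    have hj : (j : ℕ) = 0 := by simp only at hij; omega
    apply Subtype.ext
    exact Prod.ext (Fin.ext hi) (Fin.ext hj)
  have h2 := Fintype.card_subtype_compl (fun x : Fin p × Fin p => (x.1 : ℕ) + x.2 = 0)
  rw [h1, Fintype.card_prod, Fintype.card_fin, ← pow_two] at h2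
  exact h2

/-- Row D1. -/
theorem StdBasis.finrank_eq (h : StdBasis p E L a b u) : finrank E L = p ^ 2 - 1 := by
  rw [finrank_eq_card_basis (Basis.mk h.indep h.span.ge)]
  exact D1_card
-- END StdBasis.finrank_eq

-- BEGIN StdBasis.finite
/-- Row D1. -/
theorem StdBasis.finite (h : StdBasis p E L a b u) : FiniteDimensional E L :=
  Module.Finite.of_basis (Basis.mk h.indep h.span.ge)
-- END StdBasis.finite

-- BEGIN StdBasis.ne_zero
/-- Row D1. -/
theorem StdBasis.ne_zero (h : StdBasis p E L a b u) {i j : ℕ} (hi : i < p) (hj : j < p)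
    (hij : i + j ≠ 0) : u i j ≠ 0 :=
  h.indep.ne_zero ⟨(⟨i, hi⟩, ⟨j, hj⟩), hij⟩
-- END StdBasis.ne_zero

end basic

section

variable {p : ℕ} [Fact p.Prime] {F L : Type*} [Field F] [CharP F p] [LieRing L]
  [LieAlgebra F L] {a b : F} {u : ℕ → ℕ → L}

-- BEGIN not_pow
/-- Row D2. If `a = a₀ ^ p`, then `w = ∑ k < p, a₀ ^ (p - 1 - k) • u k 1` satisfies
`⁅u 1 0, w⁆ = a₀ • w`, `w ≠ 0`, `a₀ ≠ 0`. The span of `u 1 0` and `w` is a subalgebra, of dimension
`2 < p ^ 2 - 1`, so it is nilpotent, against `exists_pow_eq_zero`. -/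
theorem not_pow (H : PropNil F L) (h : StdBasis p F L a b u) (ha : a ≠ 0) (a₀ : F) :
    a₀ ^ p ≠ a := by
  intro hap
  have hp := (Fact.out : p.Prime)
  have ha0 : a₀ ≠ 0 := by
    rintro rfl
    apply ha
    rw [← hap, zero_pow hp.ne_zero]
  have hfin : FiniteDimensional F L := h.finite
  set w : L := ∑ k ∈ Finset.range p, a₀ ^ (p - 1 - k) • u k 1 with hw
  have h1 : ∀ k : ℕ, ⁅u 1 0, u k 1⁆ = u (k + 1) 1 := by
    intro k
    rw [h.lie]
    simp [add_comm]
  have hlie : ⁅u 1 0, w⁆ = a₀ • w := by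
    have e1 : ⁅u 1 0, w⁆ = ∑ k ∈ Finset.range p, a₀ ^ (p - 1 - k) • u (k + 1) 1 := by
      rw [hw, lie_sum]
      refine Finset.sum_congr rfl fun k _ => ?_
      rw [lie_smul, h1]
    have e2 : a₀ • w = ∑ k ∈ Finset.range p, a₀ ^ (p - k) • u k 1 := by
      rw [hw, Finset.smul_sum]
      refine Finset.sum_congr rfl fun k hk => ?_
      rw [smul_smul, ← pow_succ']
      congr 2
      have := Finset.mem_range.1 hk
      omega
    rw [e1, e2]
    have e3 : ∑ k ∈ Finset.range (p + 1), a₀ ^ (p - k) • u k 1 =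
        ∑ k ∈ Finset.range p, a₀ ^ (p - k) • u k 1 + a • u 0 1 := by
      rw [Finset.sum_range_succ, Nat.sub_self, pow_zero, one_smul]
      have := h.left 0 1
      rw [zero_add] at this
      rw [this]
    have e4 : ∑ k ∈ Finset.range (p + 1), a₀ ^ (p - k) • u k 1 =
        ∑ k ∈ Finset.range p, a₀ ^ (p - 1 - k) • u (k + 1) 1 + a • u 0 1 := by
      rw [Finset.sum_range_succ', Nat.sub_zero, hap]
      congr 1
      refine Finset.sum_congr rfl fun k _ => ?_
      congr 2
      omega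
    exact add_right_cancel (e4.symm.trans e3)
  have hw0 : w ≠ 0 := by
    intro h0
    have hli := h.indep
    rw [linearIndependent_iff'] at hli
    have hmem : ∀ k : Fin p, ((k : ℕ) + ((⟨1, hp.one_lt⟩ : Fin p) : ℕ)) ≠ 0 := fun k => by
      simp
    have h2 := hli (Finset.univ.image fun k : Fin p =>
      (⟨(k, ⟨1, hp.one_lt⟩), hmem k⟩ : {x : Fin p × Fin p // (x.1 : ℕ) + x.2 ≠ 0}))
      (fun x => a₀ ^ (p - 1 - (x.1.1 : ℕ))) ?_ ⟨(⟨0, hp.pos⟩, ⟨1, hp.one_lt⟩), hmem _⟩
      (Finset.mem_image.2 ⟨_, Finset.mem_univ _, rfl⟩)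
    · exact pow_ne_zero _ ha0 h2
    · rw [Finset.sum_image]
      · rw [hw, Finset.sum_range] at h0
        exact h0
      · intro k _ l _ e
        exact congrArg (fun x : {x : Fin p × Fin p // (x.1 : ℕ) + x.2 ≠ 0} => x.1.1) e
  -- the subalgebra
  have hspan : ∀ x ∈ Submodule.span F {u 1 0, w}, ∀ y ∈ Submodule.span F {u 1 0, w},
      ⁅x, y⁆ ∈ Submodule.span F {u 1 0, w} := by
    intro x hx y hy
    rw [Submodule.mem_span_pair] at hx hy ⊢
    obtain ⟨x1, x2, rfl⟩ := hx
    obtain ⟨y1, y2, rfl⟩ := hy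
    refine ⟨0, (x1 * y2 - x2 * y1) * a₀, ?_⟩
    simp only [add_lie, lie_add, smul_lie, lie_smul, lie_self, smul_zero, zero_add, add_zero]
    rw [← lie_skew w (u 1 0), hlie]
    module
  let S : LieSubalgebra F L :=
    { Submodule.span F {u 1 0, w} with
      lie_mem' := fun {x y} hx hy => hspan x hx y hy }
  have hSne : S ≠ ⊤ := by
    intro htop
    have h3 : (Submodule.span F {u 1 0, w} : Submodule F L) = ⊤ := by
      rw [eq_top_iff]
      intro x _
      have : x ∈ S := by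
        rw [htop]
        exact LieSubalgebra.mem_top x
      exact this
    have h4 : finrank F L ≤ 2 := by
      classical
      rw [← finrank_top F L, ← h3]
      have h5 := finrank_span_finset_le_card (R := F) ({u 1 0, w} : Finset L)
      rw [Finset.coe_pair] at h5
      exact h5.trans Finset.card_le_two
    rw [h.finrank_eq] at h4
    have := hp.two_le
    have h5 : 2 ^ 2 ≤ p ^ 2 := Nat.pow_le_pow_left this 2
    omega
  obtain ⟨k, hk⟩ := exists_pow_eq_zero (H S hSne) (x := u 1 0) (v := w)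
    (show u 1 0 ∈ Submodule.span F {u 1 0, w} from Submodule.subset_span (by simp))
    (show w ∈ Submodule.span F {u 1 0, w} from Submodule.subset_span (by simp))
  have hpow : ∀ k : ℕ, ((LieAlgebra.ad F L (u 1 0)) ^ k) w = a₀ ^ k • w := by
    intro k
    induction k with
    | zero => simp
    | succ k ih =>
      rw [pow_succ', Module.End.mul_apply, ih, map_smul, LieAlgebra.ad_apply, hlie, smul_smul,
        ← pow_succ]
  rw [hpow] at hk
  exact smul_ne_zero (pow_ne_zero _ ha0) hw0 hk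
-- END not_pow

-- BEGIN lie_y
omit [CharP F p] in
private theorem D3_eq (h : StdBasis p F L a b u) (g : Fin p → F) (k l k' l' : ℕ) :
    ⁅u k (l + 1) - ∑ m : Fin p, g m • u (k + m) l,
      u k' (l' + 1) - ∑ m : Fin p, g m • u (k' + m) l'⁆ =
    ((k : F) * (l' + 1) - (l + 1) * k') •
      (u (k + k') (l + l' + 1 + 1) - ∑ m : Fin p, g m • u (k + k' + m) (l + l' + 1)) -
    ∑ m : Fin p, (g m * (((k : F) + (m : ℕ)) * l' - l * (k' + (m : ℕ)))) •
      (u (k + k' + m) (l + l' + 1) - ∑ n : Fin p, g n • u (k + k' + m + n) (l + l')) := by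
  have hA : ⁅u k (l + 1), u k' (l' + 1)⁆ =
      ((k : F) * (l' + 1) - (l + 1) * k') • u (k + k') (l + l' + 1 + 1) := by
    rw [h.lie]
    rw [show l + 1 + (l' + 1) = l + l' + 1 + 1 by ring]
    push_cast
    rfl
  have hB : ⁅u k (l + 1), ∑ m : Fin p, g m • u (k' + m) l'⁆ =
      ∑ m : Fin p, (g m * ((k : F) * l' - (l + 1) * (k' + (m : ℕ)))) •
        u (k + k' + m) (l + l' + 1) := by
    rw [lie_sum]
    refine Finset.sum_congr rfl fun m _ => ?_
    rw [lie_smul, h.lie, smul_smul, show k + (k' + (m : ℕ)) = k + k' + m by ring,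
      show l + 1 + l' = l + l' + 1 by ring]
    push_cast
    rfl
  have hC : ⁅∑ m : Fin p, g m • u (k + m) l, u k' (l' + 1)⁆ =
      ∑ m : Fin p, (g m * (((k : F) + (m : ℕ)) * (l' + 1) - l * k')) •
        u (k + k' + m) (l + l' + 1) := by
    rw [sum_lie]
    refine Finset.sum_congr rfl fun m _ => ?_
    rw [smul_lie, h.lie, smul_smul, show k + (m : ℕ) + k' = k + k' + m by ring,
      show l + (l' + 1) = l + l' + 1 by ring]
    push_cast
    rfl
  have hD : ⁅∑ m : Fin p, g m • u (k + m) l, ∑ m : Fin p, g m • u (k' + m) l'⁆ =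
      ∑ m : Fin p, ∑ n : Fin p,
        (g m * g n * (((k : F) + (m : ℕ)) * l' - l * (k' + (n : ℕ)))) •
        u (k + k' + m + n) (l + l') := by
    rw [sum_lie]
    refine Finset.sum_congr rfl fun m _ => ?_
    rw [lie_sum]
    refine Finset.sum_congr rfl fun n _ => ?_
    rw [smul_lie, lie_smul, h.lie, smul_smul, smul_smul,
      show k + (m : ℕ) + (k' + (n : ℕ)) = k + k' + m + n by ring]
    push_cast
    rfl
  have hS : (∑ m : Fin p, ∑ n : Fin p, (g m * g n * (l * ((m : ℕ) : F))) •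
        u (k + k' + m + n) (l + l')) =
      ∑ m : Fin p, ∑ n : Fin p, (g m * g n * (l * ((n : ℕ) : F))) •
        u (k + k' + m + n) (l + l') := by
    rw [Finset.sum_comm]
    refine Finset.sum_congr rfl fun m _ => Finset.sum_congr rfl fun n _ => ?_
    rw [mul_comm (g n) (g m), show k + k' + (n : ℕ) + (m : ℕ) = k + k' + m + n by ring]
  have hD2 : (∑ m : Fin p, ∑ n : Fin p,
        (g m * g n * (((k : F) + (m : ℕ)) * l' - l * (k' + (n : ℕ)))) •
        u (k + k' + m + n) (l + l')) =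
      ∑ m : Fin p, (g m * (((k : F) + (m : ℕ)) * l' - l * (k' + (m : ℕ)))) •
        ∑ n : Fin p, g n • u (k + k' + m + n) (l + l') := by
    have e1 : (∑ m : Fin p, ∑ n : Fin p,
        (g m * g n * (((k : F) + (m : ℕ)) * l' - l * (k' + (n : ℕ)))) •
        u (k + k' + m + n) (l + l')) =
        (∑ m : Fin p, ∑ n : Fin p, (g m * g n * (((k : F) + (m : ℕ)) * l' - l * k')) •
          u (k + k' + m + n) (l + l')) -
        ∑ m : Fin p, ∑ n : Fin p, (g m * g n * (l * ((n : ℕ) : F))) •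
          u (k + k' + m + n) (l + l') := by
      rw [← Finset.sum_sub_distrib]
      refine Finset.sum_congr rfl fun m _ => ?_
      rw [← Finset.sum_sub_distrib]
      refine Finset.sum_congr rfl fun n _ => ?_
      rw [← sub_smul]
      congr 1
      ring
    have e2 : (∑ m : Fin p, (g m * (((k : F) + (m : ℕ)) * l' - l * (k' + (m : ℕ)))) •
        ∑ n : Fin p, g n • u (k + k' + m + n) (l + l')) =
        (∑ m : Fin p, ∑ n : Fin p, (g m * g n * (((k : F) + (m : ℕ)) * l' - l * k')) •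
          u (k + k' + m + n) (l + l')) -
        ∑ m : Fin p, ∑ n : Fin p, (g m * g n * (l * ((m : ℕ) : F))) •
          u (k + k' + m + n) (l + l') := by
      rw [← Finset.sum_sub_distrib]
      refine Finset.sum_congr rfl fun m _ => ?_
      rw [← Finset.sum_sub_distrib, Finset.smul_sum]
      refine Finset.sum_congr rfl fun n _ => ?_
      rw [← sub_smul, smul_smul]
      congr 1
      ring
    rw [e1, e2, hS]
  have hU : (∑ m : Fin p, (g m * ((k : F) * l' - (l + 1) * (k' + (m : ℕ)))) •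
        u (k + k' + m) (l + l' + 1)) +
      (∑ m : Fin p, (g m * (((k : F) + (m : ℕ)) * (l' + 1) - l * k')) •
        u (k + k' + m) (l + l' + 1)) =
      ((k : F) * (l' + 1) - (l + 1) * k') •
        (∑ m : Fin p, g m • u (k + k' + m) (l + l' + 1)) +
      ∑ m : Fin p, (g m * (((k : F) + (m : ℕ)) * l' - l * (k' + (m : ℕ)))) •
        u (k + k' + m) (l + l' + 1) := by
    rw [← Finset.sum_add_distrib, Finset.smul_sum, ← Finset.sum_add_distrib]
    refine Finset.sum_congr rfl fun m _ => ?_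
    rw [← add_smul, smul_smul, ← add_smul]
    congr 1
    ring
  rw [sub_lie, lie_sub, lie_sub, hA, hB, hC, hD, hD2, smul_sub]
  have hR : (∑ m : Fin p, (g m * (((k : F) + (m : ℕ)) * l' - l * (k' + (m : ℕ)))) •
      (u (k + k' + m) (l + l' + 1) - ∑ n : Fin p, g n • u (k + k' + m + n) (l + l'))) =
      (∑ m : Fin p, (g m * (((k : F) + (m : ℕ)) * l' - l * (k' + (m : ℕ)))) •
        u (k + k' + m) (l + l' + 1)) -
      ∑ m : Fin p, (g m * (((k : F) + (m : ℕ)) * l' - l * (k' + (m : ℕ)))) •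
        ∑ n : Fin p, g n • u (k + k' + m + n) (l + l') := by
    rw [← Finset.sum_sub_distrib]
    exact Finset.sum_congr rfl fun m _ => smul_sub _ _ _
  rw [hR]
  linear_combination (norm := abel) -hU

/-- Row D3. Let `y k l = u k (l + 1) - ∑ m, g m • u (k + m) l`. The bracket `⁅y k l, y k' l'⁆` is
`- k' y (k + k') (l + l' + 1) - ∑ m, g m m l' y (k + k' + m) (l + l') + k y (k + k') (l + l' + 1)
+ ∑ m, g m m l y (k + k' + m) (l + l') + (k l' - k' l) (y (k + k') (l + l' + 1) -
∑ m, g m y (k + k' + m) (l + l'))` (check it; this is the bracket of `(t - g) s ^ k t ^ l` and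
`(t - g) s ^ k' t ^ l'` in `F[s, t]`, `{s, t} = s t`). So the span of the `y k l` is a
subalgebra. -/
theorem lie_y (h : StdBasis p F L a b u) (g : Fin p → F) (k l k' l' : ℕ) :
    ⁅u k (l + 1) - ∑ m : Fin p, g m • u (k + m) l,
      u k' (l' + 1) - ∑ m : Fin p, g m • u (k' + m) l'⁆ ∈
    Submodule.span F (Set.range fun x : ℕ × ℕ =>
      u x.1 (x.2 + 1) - ∑ m : Fin p, g m • u (x.1 + m) x.2) := by
  rw [D3_eq h g k l k' l']
  refine Submodule.sub_mem _ (Submodule.smul_mem _ _ (Submodule.subset_span ?_))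
    (Submodule.sum_mem _ fun m _ => Submodule.smul_mem _ _ (Submodule.subset_span ?_))
  · exact ⟨(k + k', l + l' + 1), rfl⟩
  · exact ⟨(k + k' + m, l + l'), rfl⟩
-- END lie_y

-- BEGIN not_sum
private theorem D4_pow {p : ℕ} {F M : Type*} [Field F] [AddCommGroup M] [Module F M] {a : F}
    {f : ℕ → M} (hl : ∀ i, f (i + p) = a • f i) (i q : ℕ) : f (i + p * q) = a ^ q • f i := by
  induction q with
  | zero => simp
  | succ q ih =>
    have h1 : i + p * (q + 1) = (i + p * q) + p := by ring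
    rw [h1, hl, ih, smul_smul, pow_succ, mul_comm]

private theorem D4_mod {p : ℕ} {F M : Type*} [Field F] [AddCommGroup M] [Module F M] {a b : F}
    {f : ℕ → ℕ → M} (hl : ∀ i j, f (i + p) j = a • f i j) (hr : ∀ i j, f i (j + p) = b • f i j)
    (i j : ℕ) : f i j = (a ^ (i / p) * b ^ (j / p)) • f (i % p) (j % p) := by
  have h1 : f i j = a ^ (i / p) • f (i % p) j := by
    have h := D4_pow (f := fun i => f i j) (fun i => hl i j) (i % p) (i / p)
    simp only [Nat.mod_add_div] at h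
    exact h
  have h2 : f (i % p) j = b ^ (j / p) • f (i % p) (j % p) := by
    have h := D4_pow (f := fun j => f (i % p) j) (fun j => hr (i % p) j) (j % p) (j / p)
    simp only [Nat.mod_add_div] at h
    exact h
  rw [h1, h2, smul_smul]

private theorem D4_ext {p : ℕ} [Fact p.Prime] {F L M : Type*} [Field F] [LieRing L]
    [LieAlgebra F L] [AddCommGroup M] [Module F M] {a b : F} {u : ℕ → ℕ → L}
    (h : StdBasis p F L a b u) (f : ℕ → ℕ → M) (h0 : f 0 0 = 0)
    (hl : ∀ i j, f (i + p) j = a • f i j) (hr : ∀ i j, f i (j + p) = b • f i j) :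
    ∃ θ : L →ₗ[F] M, ∀ i j, θ (u i j) = f i j := by
  have hp : 0 < p := (Fact.out : p.Prime).pos
  let B := Basis.mk h.indep h.span.ge
  refine ⟨B.constr F (fun x => f x.1.1 x.1.2), fun i j => ?_⟩
  rw [D4_mod h.left h.right i j, D4_mod hl hr i j, map_smul]
  congr 1
  by_cases h1 : i % p + j % p = 0
  · have h2 : i % p = 0 := by omega
    have h3 : j % p = 0 := by omega
    rw [h2, h3, h.zero, h0, map_zero]
  · have h4 : B ⟨(⟨i % p, Nat.mod_lt i hp⟩, ⟨j % p, Nat.mod_lt j hp⟩), h1⟩ =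
        u (i % p) (j % p) := by
      rw [Basis.mk_apply]
    rw [← h4, Basis.constr_basis]

/-- Row D4. Let `α ∈ AlgebraicClosure F` with `α ^ p = a`, so `α ∉ F`, and `γ = ∑ g i α ^ i`, so
`γ ^ p = b`. Let `θ` be the `F`-linear map from `L` to the quotient of `AlgebraicClosure F` by the `F`-subspace `F` with
`θ (u i j) = [α ^ i γ ^ j]` for the basis elements, so for all `i, j` (`u 0 0 = 0 = [1]`). It vanishes
on the span of the `y k l` (`lie_y`), and `θ (u 1 0) = [α] ≠ 0`. So this span is a proper subalgebra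
and abelian. But `⁅y 0 0, y 1 0⁆ ≠ 0`: in `F[s, t]` it is `- (t - g) s t`, that is
`- (u 1 2 - ∑ g m • u (1 + m) 1)`, use the basis (for `p = 2` `u 1 2 = b • u 1 0`, `b ≠ 0`). -/
theorem not_sum (H : ∀ S : LieSubalgebra F L, S ≠ ⊤ → IsLieAbelian S)
    (h : StdBasis p F L a b u) (ha : ∀ c, c ^ p ≠ a) (hb : b ≠ 0) (g : Fin p → F) :
    ∑ i, g i ^ p * a ^ (i : ℕ) ≠ b := by
  intro hg
  have hp : p.Prime := Fact.out
  have hp0 : 0 < p := hp.pos
  have : CharP (AlgebraicClosure F) p :=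
    charP_of_injective_algebraMap (algebraMap F (AlgebraicClosure F)).injective p
  obtain ⟨α, hα⟩ := IsAlgClosed.exists_pow_nat_eq (algebraMap F (AlgebraicClosure F) a) hp0
  obtain ⟨γ, hγ⟩ : ∃ γ : AlgebraicClosure F,
      γ = ∑ i : Fin p, algebraMap F (AlgebraicClosure F) (g i) * α ^ (i : ℕ) := ⟨_, rfl⟩
  have hγp : γ ^ p = algebraMap F (AlgebraicClosure F) b := by
    rw [hγ, sum_pow_char, ← hg, map_sum]
    refine Finset.sum_congr rfl fun i _ => ?_
    rw [mul_pow, ← pow_mul, mul_comm (i : ℕ) p, pow_mul, hα, map_mul, map_pow, map_pow]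
  -- the map `θ`
  obtain ⟨θ, hθ⟩ := D4_ext h (fun i j => Submodule.Quotient.mk (p := Submodule.span F
      ({1} : Set (AlgebraicClosure F))) (α ^ i * γ ^ j))
    (by
      rw [Submodule.Quotient.mk_eq_zero, pow_zero, pow_zero, mul_one]
      exact Submodule.mem_span_singleton_self 1)
    (fun i j => by
      rw [← Submodule.Quotient.mk_smul, pow_add, hα, Algebra.smul_def]
      congr 1
      ring)
    (fun i j => by
      rw [← Submodule.Quotient.mk_smul, pow_add, hγp, Algebra.smul_def]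
      congr 1
      ring)
  -- the subalgebra
  obtain ⟨y, hy⟩ : ∃ y : ℕ × ℕ → L, y = fun x : ℕ × ℕ =>
      u x.1 (x.2 + 1) - ∑ m : Fin p, g m • u (x.1 + m) x.2 := ⟨_, rfl⟩
  have hθy : ∀ x, θ (y x) = 0 := by
    intro x
    rw [hy]
    simp only [map_sub, map_sum, map_smul, hθ]
    rw [show (∑ i : Fin p, g i • (Submodule.Quotient.mk (α ^ (x.1 + (i : ℕ)) * γ ^ x.2) :
        AlgebraicClosure F ⧸ Submodule.span F ({1} : Set (AlgebraicClosure F)))) =
        Submodule.Quotient.mk (∑ i : Fin p, g i • (α ^ (x.1 + (i : ℕ)) * γ ^ x.2)) by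
      rw [← Submodule.mkQ_apply, map_sum]
      rfl]
    rw [← Submodule.Quotient.mk_sub, Submodule.Quotient.mk_eq_zero]
    have h1 : α ^ x.1 * γ ^ (x.2 + 1) -
        ∑ i : Fin p, g i • (α ^ (x.1 + (i : ℕ)) * γ ^ x.2) = 0 := by
      have h2 : ∑ i : Fin p, g i • (α ^ (x.1 + (i : ℕ)) * γ ^ x.2) =
          α ^ x.1 * γ ^ x.2 * γ := by
        conv_rhs => rw [hγ, Finset.mul_sum]
        refine Finset.sum_congr rfl fun i _ => ?_
        rw [Algebra.smul_def, pow_add]
        conv_rhs => rw [← hγ]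
        ring
      rw [h2]
      ring
    rw [h1]
    exact Submodule.zero_mem _
  obtain ⟨S, hS⟩ : ∃ S : Submodule F L, S = Submodule.span F (Set.range y) := ⟨_, rfl⟩
  have hyS : ∀ x, y x ∈ S := by
    intro x
    rw [hS]
    exact Submodule.subset_span ⟨x, rfl⟩
  have hSθ : ∀ v ∈ S, θ v = 0 := by
    intro v hv
    rw [hS] at hv
    induction hv using Submodule.span_induction with
    | mem v hv =>
      obtain ⟨x, rfl⟩ := hv
      exact hθy x
    | zero => exact map_zero _
    | add v w _ _ h1 h2 => rw [map_add, h1, h2, add_zero]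
    | smul c v _ h1 => rw [map_smul, h1, smul_zero]
  have hlie1 : ∀ x x' : ℕ × ℕ, ⁅y x, y x'⁆ ∈ S := by
    intro x x'
    rw [hS, hy]
    exact lie_y h g x.1 x.2 x'.1 x'.2
  have hlie2 : ∀ x, ∀ w ∈ S, ⁅y x, w⁆ ∈ S := by
    intro x w hw
    rw [hS] at hw
    induction hw using Submodule.span_induction with
    | mem w hw =>
      obtain ⟨x', rfl⟩ := hw
      exact hlie1 x x'
    | zero => rw [lie_zero]; exact S.zero_mem
    | add v w _ _ h1 h2 => rw [lie_add]; exact S.add_mem h1 h2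
    | smul c v _ h1 => rw [lie_smul]; exact S.smul_mem c h1
  have hlie3 : ∀ v ∈ S, ∀ w ∈ S, ⁅v, w⁆ ∈ S := by
    intro v hv w hw
    rw [hS] at hv
    induction hv using Submodule.span_induction with
    | mem v hv =>
      obtain ⟨x', rfl⟩ := hv
      exact hlie2 x' w hw
    | zero => rw [zero_lie]; exact S.zero_mem
    | add v v' _ _ h1 h2 => rw [add_lie]; exact S.add_mem h1 h2
    | smul c v _ h1 => rw [smul_lie]; exact S.smul_mem c h1
  let T : LieSubalgebra F L := { S with lie_mem' := fun {v w} hv hw => hlie3 v hv w hw }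
  have hT : T ≠ ⊤ := by
    intro hT
    have h1 : u 1 0 ∈ T := by rw [hT]; exact LieSubalgebra.mem_top _
    have h2 : θ (u 1 0) = 0 := hSθ _ h1
    rw [hθ, Submodule.Quotient.mk_eq_zero, pow_one, pow_zero, mul_one,
      Submodule.mem_span_singleton] at h2
    obtain ⟨c, hc⟩ := h2
    apply ha c
    apply (algebraMap F (AlgebraicClosure F)).injective
    rw [map_pow, ← hα, ← hc, Algebra.smul_def, mul_one]
  have hab := H T hT
  have h5 : ⁅y (0, 0), y (1, 0)⁆ = 0 := by
    have h6 : (⁅(⟨y (0, 0), hyS _⟩ : T), (⟨y (1, 0), hyS _⟩ : T)⁆ : T) = 0 := hab.trivial _ _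
    have h7 := congrArg (fun z : T => (z : L)) h6
    exact h7
  -- the bracket
  have h8 : u 1 2 = ∑ m : Fin p, g m • u (1 + m) 1 := by
    have h9 : ⁅y (0, 0), y (1, 0)⁆ = - u 1 2 + ∑ m : Fin p, g m • u (1 + m) 1 := by
      have k1 : ∀ m : Fin p, ⁅u (m : ℕ) 0, u 1 1 - ∑ i : Fin p, g i • u (1 + (i : ℕ)) 0⁆ =
          ((m : ℕ) : F) • u (1 + m) 1 := by
        intro m
        rw [lie_sub, h.lie, lie_sum]
        have k2 : ∑ i : Fin p, ⁅u (m : ℕ) 0, g i • u (1 + (i : ℕ)) 0⁆ = 0 := by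
          refine Finset.sum_eq_zero fun i _ => ?_
          rw [lie_smul, h.lie]
          simp
        rw [k2, sub_zero]
        congr 1
        · push_cast; ring
        · rw [add_comm]
      have k3 : ∀ i : Fin p, ⁅u 0 1, g i • u (1 + (i : ℕ)) 0⁆ =
          (- g i * (1 + ((i : ℕ) : F))) • u (1 + i) 1 := by
        intro i
        rw [lie_smul, h.lie, smul_smul]
        congr 1
        · push_cast; ring
        · rw [zero_add]
      rw [hy]
      simp only [zero_add]
      rw [sub_lie, lie_sub, h.lie, lie_sum, sum_lie]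
      have k4 : ∑ m : Fin p, ⁅g m • u (m : ℕ) 0, u 1 1 - ∑ i : Fin p, g i • u (1 + (i : ℕ)) 0⁆ =
          ∑ m : Fin p, (g m * ((m : ℕ) : F)) • u (1 + m) 1 := by
        refine Finset.sum_congr rfl fun m _ => ?_
        rw [smul_lie, k1, smul_smul]
      have k5 : ∑ i : Fin p, ⁅u 0 1, g i • u (1 + (i : ℕ)) 0⁆ =
          ∑ i : Fin p, (- g i * (1 + ((i : ℕ) : F))) • u (1 + i) 1 :=
        Finset.sum_congr rfl fun i _ => k3 i
      rw [k4, k5]
      have k6 : ((((0 : ℕ) : F) * ((1 : ℕ) : F) - ((1 : ℕ) : F) * ((1 : ℕ) : F)) •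
          u (0 + 1) (1 + 1) : L) = - u 1 2 := by
        simp
      rw [k6, sub_sub, sub_eq_add_neg, ← Finset.sum_add_distrib, ← Finset.sum_neg_distrib]
      congr 1
      refine Finset.sum_congr rfl fun m _ => ?_
      rw [← add_smul, ← neg_smul]
      congr 1
      ring
    rw [h5] at h9
    have h10 := eq_neg_of_add_eq_zero_left h9.symm
    exact neg_injective h10
  -- the coordinate
  obtain ⟨φ, hφ⟩ := D4_ext h (fun i j => if i % p = 1 ∧ j % p = 2 % p then
      a ^ (i / p) * b ^ (j / p) else 0)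
    (by
      rw [if_neg]
      rintro ⟨h1, _⟩
      rw [Nat.zero_mod] at h1
      omega)
    (fun i j => by
      simp only [Nat.add_mod_right, Nat.add_div_right _ hp0]
      split_ifs
      · rw [smul_eq_mul, pow_succ]; ring
      · rw [smul_zero])
    (fun i j => by
      simp only [Nat.add_mod_right, Nat.add_div_right _ hp0]
      split_ifs
      · rw [smul_eq_mul, pow_succ]; ring
      · rw [smul_zero])
  have h11 := congrArg φ h8
  rw [map_sum, hφ] at h11
  have h12 : ∑ m : Fin p, φ (g m • u (1 + (m : ℕ)) 1) = 0 := by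
    refine Finset.sum_eq_zero fun m _ => ?_
    rw [map_smul, hφ, if_neg, smul_zero]
    rintro ⟨_, h1⟩
    rw [Nat.mod_eq_of_lt hp.one_lt] at h1
    rcases hp.two_le.lt_or_eq with h2 | h2
    · rw [Nat.mod_eq_of_lt h2] at h1
      omega
    · rw [← h2] at h1
      omega
  rw [h12, if_pos ⟨Nat.mod_eq_of_lt hp.one_lt, rfl⟩, Nat.div_eq_of_lt hp.one_lt, pow_zero,
    one_mul] at h11
  exact pow_ne_zero _ hb h11
-- END not_sum

end

-- BEGIN pind_of
open Polynomial in
private theorem D5_irr {p : ℕ} [Fact p.Prime] {K F : Type*} [Field K] [Field F] [Algebra K F]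
    [CharP F p] {x : F} {y : K} (hy : algebraMap K F y = x ^ p)
    (hx : ∀ c : K, algebraMap K F c ≠ x) : minpoly K x = X ^ p - C y := by
  have hp : p.Prime := Fact.out
  symm
  apply minpoly.eq_of_irreducible_of_monic
  · apply X_pow_sub_C_irreducible_of_prime hp
    intro b hb
    apply hx b
    have h1 : (algebraMap K F b) ^ p = x ^ p := by rw [← map_pow, hb, hy]
    exact frobenius_inj F p h1
  · rw [map_sub, map_pow, aeval_X, aeval_C, hy, sub_self]
  · exact monic_X_pow_sub_C y hp.ne_zero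

open Polynomial in
private theorem D5_indep {p : ℕ} [Fact p.Prime] {K F : Type*} [Field K] [Field F] [Algebra K F]
    [CharP F p] {x : F} {y : K} (hy : algebraMap K F y = x ^ p)
    (hx : ∀ c : K, algebraMap K F c ≠ x) (g : Fin p → K)
    (h : ∑ i, algebraMap K F (g i) * x ^ (i : ℕ) = 0) (i : Fin p) : g i = 0 := by
  have hp : p.Prime := Fact.out
  set P : K[X] := ∑ j : Fin p, C (g j) * X ^ (j : ℕ) with hP
  have hP0 : aeval x P = 0 := by
    rw [hP, map_sum, ← h]
    refine Finset.sum_congr rfl fun j _ => ?_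
    rw [map_mul, aeval_C, map_pow, aeval_X]
  have hdeg : P.degree < (minpoly K x).degree := by
    rw [D5_irr hy hx, degree_X_pow_sub_C hp.pos]
    rw [hP]
    exact degree_sum_fin_lt g
  have hz : P = 0 := eq_zero_of_dvd_of_degree_lt (minpoly.dvd K x hP0) hdeg
  have hc : P.coeff (i : ℕ) = g i := by
    rw [hP, finsetSum_coeff]
    rw [Finset.sum_eq_single i]
    · rw [coeff_C_mul_X_pow, if_pos rfl]
    · intro j _ hj
      rw [coeff_C_mul_X_pow, if_neg]
      intro h1
      exact hj (Fin.ext h1.symm)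
    · intro h1
      exact absurd (Finset.mem_univ i) h1
  rw [← hc, hz, coeff_zero]

open Polynomial in
private theorem D5_rep {p : ℕ} [Fact p.Prime] {K F : Type*} [Field K] [Field F] [Algebra K F]
    {x : F} {y : K} (hy : algebraMap K F y = x ^ p) (P : K[X]) :
    ∃ g : Fin p → K, aeval x P = ∑ i, algebraMap K F (g i) * x ^ (i : ℕ) := by
  have hp : p.Prime := Fact.out
  have hm : (X ^ p - C y : K[X]).Monic := monic_X_pow_sub_C y hp.ne_zero
  refine ⟨fun i => (P %ₘ (X ^ p - C y)).coeff i, ?_⟩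
  have h1 : aeval x P = aeval x (P %ₘ (X ^ p - C y)) := by
    conv_lhs => rw [← modByMonic_add_div P (X ^ p - C y)]
    rw [map_add, map_mul, map_sub, map_pow, aeval_X, aeval_C, hy, sub_self, zero_mul, add_zero]
  have h2 : (P %ₘ (X ^ p - C y)).natDegree < p := by
    have h3 := natDegree_modByMonic_lt P hm (by
      intro h4
      have h5 := congrArg natDegree h4
      rw [natDegree_X_pow_sub_C, natDegree_one] at h5
      exact hp.ne_zero h5)
    rwa [natDegree_X_pow_sub_C] at h3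
  rw [h1, aeval_eq_sum_range' h2, Finset.sum_range]
  refine Finset.sum_congr rfl fun i _ => ?_
  rw [Algebra.smul_def]

/-- Row D5. Let `k₀` be the field of `p`-th powers (`(frobenius F p).fieldRange`), `k₁ = k₀(a)`;
`k₁ = {∑ g i ^ p a ^ i}` and `1, a, ..., a ^ (p - 1)` are independent over `k₀`; `b ∉ k₁`, so
`X ^ p - b ^ p` is irreducible over `k₁` (`X_pow_sub_C_irreducible_of_prime`) and
`1, b, ..., b ^ (p - 1)` are independent over `k₁`. -/
theorem pind_of {p : ℕ} [Fact p.Prime] {F : Type*} [Field F] [CharP F p] {a b : F}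
    (ha : ∀ c, c ^ p ≠ a) (hb : ∀ g : Fin p → F, ∑ i, g i ^ p * a ^ (i : ℕ) ≠ b) :
    PInd p a b := by
  intro c hc
  let k₀ : Subfield F := (frobenius F p).fieldRange
  have hk0 : ∀ z : F, z ^ p ∈ k₀ := fun z => ⟨z, rfl⟩
  have hk0' : ∀ z : k₀, ∃ w : F, w ^ p = z := fun z => by
    obtain ⟨w, hw⟩ := z.2
    exact ⟨w, hw⟩
  have hya : algebraMap k₀ F ⟨a ^ p, hk0 a⟩ = a ^ p := rfl
  have hxa : ∀ z : k₀, algebraMap k₀ F z ≠ a := by
    intro z hz
    obtain ⟨w, hw⟩ := hk0' z
    exact ha w (hw.trans hz)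
  have hint : IsIntegral k₀ a := by
    refine ⟨Polynomial.X ^ p - Polynomial.C ⟨a ^ p, hk0 a⟩,
      Polynomial.monic_X_pow_sub_C _ (Fact.out : p.Prime).ne_zero, ?_⟩
    rw [← Polynomial.aeval_def, map_sub, map_pow, Polynomial.aeval_X, Polynomial.aeval_C, hya,
      sub_self]
  let k₁ : IntermediateField k₀ F := IntermediateField.adjoin k₀ {a}
  have hk1 : ∀ z ∈ k₁, ∃ P : Polynomial k₀, Polynomial.aeval a P = z := by
    intro z hz
    have h1 : z ∈ k₁.toSubalgebra := hz
    rw [IntermediateField.adjoin_simple_toSubalgebra_of_isAlgebraic hint.isAlgebraic,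
      Algebra.adjoin_singleton_eq_range_aeval] at h1
    exact h1
  have hbk : ∀ z : k₁, algebraMap k₁ F z ≠ b := by
    intro z hz
    obtain ⟨P, hP⟩ := hk1 z z.2
    obtain ⟨g, hg⟩ := D5_rep hya P
    choose w hw using fun i => hk0' (g i)
    apply hb w
    rw [← hz]
    change _ = (z : F)
    rw [← hP, hg]
    refine Finset.sum_congr rfl fun i _ => ?_
    rw [hw]
    rfl
  have hbp : b ^ p ∈ k₁ := k₁.algebraMap_mem ⟨b ^ p, hk0 b⟩
  have hyb : algebraMap k₁ F ⟨b ^ p, hbp⟩ = b ^ p := rfl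
  have hin : ∀ j, ∑ i, c i j ^ p * a ^ (i : ℕ) ∈ k₁ := by
    intro j
    refine sum_mem fun i _ => mul_mem ?_ (pow_mem ?_ _)
    · exact k₁.algebraMap_mem ⟨c i j ^ p, hk0 _⟩
    · exact IntermediateField.mem_adjoin_simple_self k₀ a
  have hsum : ∑ j : Fin p, algebraMap k₁ F ⟨∑ i, c i j ^ p * a ^ (i : ℕ), hin j⟩ * b ^ (j : ℕ) = 0 := by
    rw [← hc, Finset.sum_comm]
    refine Finset.sum_congr rfl fun j _ => ?_
    change (∑ i, c i j ^ p * a ^ (i : ℕ)) * b ^ (j : ℕ) = _
    rw [Finset.sum_mul]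
  have hz1 := D5_indep hyb hbk (fun j => ⟨∑ i, c i j ^ p * a ^ (i : ℕ), hin j⟩) hsum
  funext i j
  have hz2 : ∑ i, c i j ^ p * a ^ (i : ℕ) = 0 := congrArg Subtype.val (hz1 j)
  have hz3 := D5_indep hya hxa (fun i => (⟨c i j ^ p, hk0 _⟩ : k₀)) hz2 i
  have hz4 : c i j ^ p = 0 := congrArg Subtype.val hz3
  exact eq_zero_of_pow_eq_zero hz4
-- END pind_of

theorem pind_of_std {p : ℕ} [Fact p.Prime] {F L : Type*} [Field F] [CharP F p] [LieRing L]
    [LieAlgebra F L] (H : PropNil F L) (H' : ∀ S : LieSubalgebra F L, S ≠ ⊤ → IsLieAbelian S)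
    {a b : F} {u : ℕ → ℕ → L} (h : StdBasis p F L a b u) (ha : a ≠ 0) (hb : b ≠ 0) :
    PInd p a b :=
  pind_of (not_pow H h ha) (not_sum H' h (not_pow H h ha) hb)

end Pool.Agent.MP9083S
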