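import Mathlib
import Pool.Agent.Lib.MP_9083e4_al.S.Defs
import Pool.Agent.Lib.MP_9083e4_al.S.Ind
import Pool.Agent.Lib.MP_9083e4_al.PoisEx

/-! Rows G. The algebras with a standard basis over a field with `p`-independent parameters. -/

set_option autoImplicit false

namespace Pool.Agent.MP9083S

open Module Pool.Agent.MP9083

universe u v

-- BEGIN exists_field
private theorem G1_indep {p : ℕ} [Fact p.Prime] {E K : Type*} [Field E] [CharP E p] [Field K]
    [Algebra E K] {a b : E} (h : PInd p a b) {s t : K} (hs : s ^ p = algebraMap E K a)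
    (ht : t ^ p = algebraMap E K b) :
    LinearIndependent E (fun x : Fin p × Fin p => s ^ (x.1 : ℕ) * t ^ (x.2 : ℕ)) := by
  have hK : CharP K p := charP_of_injective_algebraMap (algebraMap E K).injective p
  rw [Fintype.linearIndependent_iff]
  intro g hg i
  have h1 : (∑ x : Fin p × Fin p, g x • (s ^ (x.1 : ℕ) * t ^ (x.2 : ℕ))) ^ p = 0 := by
    rw [hg, zero_pow (Fact.out : p.Prime).ne_zero]
  rw [sum_pow_char] at h1
  have h2 : algebraMap E K (∑ i, ∑ j, g (i, j) ^ p * a ^ (i : ℕ) * b ^ (j : ℕ)) = 0 := by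
    rw [← h1, ← Finset.univ_product_univ, Finset.sum_product, map_sum]
    refine Finset.sum_congr rfl fun i _ => ?_
    rw [map_sum]
    refine Finset.sum_congr rfl fun j _ => ?_
    rw [map_mul, map_mul, map_pow, map_pow, map_pow, Algebra.smul_def, mul_pow, mul_pow,
      ← pow_mul, ← pow_mul, mul_comm (i : ℕ) p, mul_comm (j : ℕ) p, pow_mul, pow_mul, hs, ht,
      mul_assoc]
  have h3 := (map_eq_zero_iff _ (algebraMap E K).injective).mp h2
  exact congrFun (congrFun (h (fun i j => g (i, j)) h3) i.1) i.2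

private theorem G1_pow {p : ℕ} [Fact p.Prime] {E K : Type*} [Field E] [CharP E p] [Field K]
    [Algebra E K] {a b : E} {s t : K} (hs : s ^ p = algebraMap E K a)
    (ht : t ^ p = algebraMap E K b)
    (hsp : Submodule.span E (Set.range fun x : Fin p × Fin p => s ^ (x.1 : ℕ) * t ^ (x.2 : ℕ)) = ⊤)
    (x : K) : ∃ c : E, algebraMap E K c = x ^ p := by
  have hK : CharP K p := charP_of_injective_algebraMap (algebraMap E K).injective p
  have hx : x ∈ Submodule.span E
      (Set.range fun x : Fin p × Fin p => s ^ (x.1 : ℕ) * t ^ (x.2 : ℕ)) := by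
    rw [hsp]
    exact Submodule.mem_top
  induction hx using Submodule.span_induction with
  | mem y hy =>
    obtain ⟨i, rfl⟩ := hy
    refine ⟨a ^ (i.1 : ℕ) * b ^ (i.2 : ℕ), ?_⟩
    simp only
    rw [map_mul, map_pow, map_pow, mul_pow, ← pow_mul, ← pow_mul, mul_comm (i.1 : ℕ) p,
      mul_comm (i.2 : ℕ) p, pow_mul, pow_mul, hs, ht]
  | zero => exact ⟨0, by rw [map_zero, zero_pow (Fact.out : p.Prime).ne_zero]⟩
  | add y z _ _ hy hz =>
    obtain ⟨c, hc⟩ := hy
    obtain ⟨d, hd⟩ := hz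
    exact ⟨c + d, by rw [map_add, hc, hd, add_pow_char]⟩
  | smul e y _ hy =>
    obtain ⟨c, hc⟩ := hy
    exact ⟨e ^ p * c, by rw [map_mul, map_pow, hc, Algebra.smul_def, mul_pow]⟩

private theorem G1_mem {p : ℕ} [Fact p.Prime] {E K : Type*} [Field E] [Field K]
    [Algebra E K] {a b : E} {s t : K} (hs : s ^ p = algebraMap E K a)
    (ht : t ^ p = algebraMap E K b) (m n : ℕ) : s ^ m * t ^ n ∈ Submodule.span E
      (Set.range fun x : Fin p × Fin p => s ^ (x.1 : ℕ) * t ^ (x.2 : ℕ)) := by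
  have hp : 0 < p := (Fact.out : p.Prime).pos
  have h1 : s ^ m * t ^ n = (a ^ (m / p) * b ^ (n / p)) • (s ^ (m % p) * t ^ (n % p)) := by
    rw [Algebra.smul_def, map_mul, map_pow, map_pow, ← hs, ← ht, ← pow_mul, ← pow_mul]
    calc s ^ m * t ^ n = s ^ (p * (m / p) + m % p) * t ^ (p * (n / p) + n % p) := by
          rw [Nat.div_add_mod, Nat.div_add_mod]
      _ = _ := by rw [pow_add, pow_add]; ring
  rw [h1]
  refine Submodule.smul_mem _ _ (Submodule.subset_span ⟨(⟨m % p, Nat.mod_lt _ hp⟩,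
    ⟨n % p, Nat.mod_lt _ hp⟩), rfl⟩)

/-- Row G1. `K = E(α, β)` in `AlgebraicClosure E`, `α ^ p = a`, `β ^ p = b`; if
`∑ c i j α ^ i β ^ j = 0` then `∑ c i j ^ p a ^ i b ^ j = 0`. -/
theorem exists_field {p : ℕ} [Fact p.Prime] {E : Type u} [Field E] [CharP E p] {a b : E}
    (h : PInd p a b) : ∃ (K : Type u) (_ : Field K) (_ : Algebra E K) (s t : K),
      s ^ p = algebraMap E K a ∧ t ^ p = algebraMap E K b ∧ finrank E K = p ^ 2 ∧
      (∀ x : K, ∃ c : E, algebraMap E K c = x ^ p) ∧
      LinearIndependent E (fun x : Fin p × Fin p => s ^ (x.1 : ℕ) * t ^ (x.2 : ℕ)) ∧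
      Submodule.span E (Set.range fun x : Fin p × Fin p => s ^ (x.1 : ℕ) * t ^ (x.2 : ℕ)) = ⊤ := by
  have hp : 0 < p := (Fact.out : p.Prime).pos
  obtain ⟨α, hα⟩ := IsAlgClosed.exists_pow_nat_eq (algebraMap E (AlgebraicClosure E) a) hp
  obtain ⟨β, hβ⟩ := IsAlgClosed.exists_pow_nat_eq (algebraMap E (AlgebraicClosure E) b) hp
  let K : IntermediateField E (AlgebraicClosure E) := IntermediateField.adjoin E {α, β}
  let s : K := ⟨α, IntermediateField.subset_adjoin E _ (Or.inl rfl)⟩
  let t : K := ⟨β, IntermediateField.subset_adjoin E _ (Or.inr rfl)⟩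
  have hs : s ^ p = algebraMap E K a := Subtype.ext hα
  have ht : t ^ p = algebraMap E K b := Subtype.ext hβ
  have hli := G1_indep h hs ht
  have hsp : Submodule.span E
      (Set.range fun x : Fin p × Fin p => s ^ (x.1 : ℕ) * t ^ (x.2 : ℕ)) = ⊤ := by
    rw [eq_top_iff]
    intro x _
    have h1 : (x : AlgebraicClosure E) ∈ Algebra.adjoin E ({α, β} : Set (AlgebraicClosure E)) := by
      have h2 : (IntermediateField.adjoin E ({α, β} : Set (AlgebraicClosure E))).toSubalgebra =
          Algebra.adjoin E {α, β} :=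
        IntermediateField.adjoin_toSubalgebra_of_isAlgebraic (fun y _ => Algebra.IsAlgebraic.isAlgebraic y)
      rw [← h2]
      exact x.2
    rw [← Subalgebra.mem_toSubmodule, Algebra.adjoin_eq_span] at h1
    have h3 : Submodule.span E (Submonoid.closure ({α, β} : Set (AlgebraicClosure E)) :
        Set (AlgebraicClosure E)) ≤ (Submodule.span E
        (Set.range fun x : Fin p × Fin p => s ^ (x.1 : ℕ) * t ^ (x.2 : ℕ))).map
          K.val.toLinearMap := by
      rw [Submodule.span_le]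
      intro y hy
      obtain ⟨m, n, hy⟩ := (Submonoid.mem_closure_pair α β y).mp hy
      exact ⟨s ^ m * t ^ n, G1_mem hs ht m n, hy⟩
    obtain ⟨y, hy, hy2⟩ := h3 h1
    have h4 : y = x := Subtype.ext hy2
    rw [← h4]
    exact hy
  refine ⟨K, inferInstance, inferInstance, s, t, hs, ht, ?_, G1_pow hs ht hsp, hli, hsp⟩
  rw [finrank_eq_card_basis (Basis.mk hli hsp.ge), Fintype.card_prod, Fintype.card_fin, sq]
-- END exists_field

-- BEGIN exists_pois'
open Polynomial in
private theorem G2_hle (p : ℕ) [hp : Fact p.Prime] {F E : Type*} [Field F] [Field E] [Algebra F E]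
    (hdim : finrank F E = p ^ 2) (hpow : ∀ x : E, ∃ c : F, algebraMap F E c = x ^ p) (x : E) :
    IntermediateField.adjoin F {x} ≠ ⊤ := by
  intro h
  have hfin : FiniteDimensional F E := by
    apply Module.finite_of_finrank_pos
    rw [hdim]
    exact pow_pos hp.out.pos 2
  have hlt : p < p ^ 2 := by
    rw [pow_two]
    exact lt_mul_of_one_lt_left hp.out.pos hp.out.one_lt
  obtain ⟨c, hc⟩ := hpow x
  have hmz : aeval x (X ^ p - C c : F[X]) = 0 := by
    rw [map_sub, map_pow, aeval_X, aeval_C, hc, sub_self]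
  have hmm : (X ^ p - C c : F[X]).Monic := monic_X_pow_sub_C c hp.out.ne_zero
  have hint : IsIntegral F x := ⟨_, hmm, hmz⟩
  have h1 := IntermediateField.adjoin.finrank hint
  rw [h, IntermediateField.finrank_top', hdim] at h1
  have h2 := natDegree_le_of_dvd (minpoly.dvd F x hmz) hmm.ne_zero
  rw [natDegree_X_pow_sub_C, ← h1] at h2
  omega

private theorem G2_s {p : ℕ} [hp : Fact p.Prime] {F E : Type*} [Field F] [Field E] [Algebra F E]
    {s t : E} (hst : LinearIndependent F
      (fun x : Fin p × Fin p => s ^ (x.1 : ℕ) * t ^ (x.2 : ℕ))) :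
    s ∉ (⊥ : IntermediateField F E) := by
  intro h
  rw [IntermediateField.mem_bot] at h
  obtain ⟨c, hc⟩ := h
  have h1 : (⟨1, hp.out.one_lt⟩ : Fin p) ≠ ⟨0, hp.out.pos⟩ := by
    intro h
    simp at h
  have h2 : ((⟨1, hp.out.one_lt⟩, ⟨0, hp.out.pos⟩) : Fin p × Fin p) ≠
      (⟨0, hp.out.pos⟩, ⟨0, hp.out.pos⟩) := fun h => h1 (congrArg Prod.fst h)
  refine h2 (hst.eq_of_smul_apply_eq_smul_apply 1 c _ _ one_ne_zero ?_)
  simp only [pow_one, pow_zero, mul_one, one_smul]
  rw [← hc, Algebra.algebraMap_eq_smul_one]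

private theorem G2_t {p : ℕ} [hp : Fact p.Prime] {F E : Type*} [Field F] [Field E] [Algebra F E]
    (hdim : finrank F E = p ^ 2) {s t : E} (hst : LinearIndependent F
      (fun x : Fin p × Fin p => s ^ (x.1 : ℕ) * t ^ (x.2 : ℕ)))
    (hb : IntermediateField.adjoin F {s} ≠ ⊥) (hn : IntermediateField.adjoin F {s} ≠ ⊤) :
    t ∉ IntermediateField.adjoin F {s} := by
  intro h
  have hfin : FiniteDimensional F E := by
    apply Module.finite_of_finrank_pos
    rw [hdim]
    exact pow_pos hp.out.pos 2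
  have hd := (Pois.finrank_of_ne hdim hb hn).1
  set K1 := IntermediateField.adjoin F {s} with hK1
  have hs : s ∈ K1 := IntermediateField.mem_adjoin_simple_self F s
  have h1 : LinearIndependent F (fun x : Fin p × Fin p =>
      ((⟨s, hs⟩ : K1) ^ (x.1 : ℕ) * (⟨t, h⟩ : K1) ^ (x.2 : ℕ))) := by
    refine LinearIndependent.of_comp K1.val.toLinearMap ?_
    exact hst
  have h2 := h1.fintype_card_le_finrank
  rw [hd, Fintype.card_prod, Fintype.card_fin] at h2
  have h3 := hp.out.one_lt
  nlinarith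

/-- Row G2. This is the proof of `exists_pois` (PoisEx.lean) with the given `s` and `t`:
`s ∉ ⊥`, `t ∉ adjoin F {s}` by the independence; `B s t = P s * Q t - Q s * P t = s * t`. -/
theorem exists_pois' (p : ℕ) [Fact p.Prime] {F E : Type*} [Field F] [Field E] [Algebra F E]
    [CharP F p] (hdim : finrank F E = p ^ 2) (hpow : ∀ x : E, ∃ c : F, algebraMap F E c = x ^ p)
    {s t : E} (hst : LinearIndependent F
      (fun x : Fin p × Fin p => s ^ (x.1 : ℕ) * t ^ (x.2 : ℕ))) :
    ∃ P : Pois F E, P.B s t = s * t := by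
  have hp : Fact p.Prime := inferInstance
  have hp2 := hp.out.two_le
  have h0 : p - 1 + 1 = p := Nat.sub_add_cancel hp.out.one_le
  have hfin : FiniteDimensional F E := by
    apply Module.finite_of_finrank_pos
    rw [hdim]
    exact pow_pos hp.out.pos 2
  have hle : ∀ x : E, IntermediateField.adjoin F {x} ≠ ⊤ := G2_hle p hdim hpow
  have hs : s ∉ (⊥ : IntermediateField F E) := G2_s hst
  set K1 := IntermediateField.adjoin F {s} with hK1
  have hsK1 : s ∈ K1 := IntermediateField.mem_adjoin_simple_self F s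
  have hK1b : K1 ≠ ⊥ := fun h => hs (by rw [← h]; exact hsK1)
  have ht : t ∉ K1 := G2_t hdim hst hK1b (hle s)
  set K2 := IntermediateField.adjoin F {t} with hK2
  have htK2 : t ∈ K2 := IntermediateField.mem_adjoin_simple_self F t
  have hK2b : K2 ≠ ⊥ := fun h => ht ((bot_le : ⊥ ≤ K1) (by rw [← h]; exact htK2))
  have hd1 := Pois.finrank_of_ne hdim hK1b (hle s)
  have hd2 := Pois.finrank_of_ne hdim hK2b (hle t)
  have hsK2 : s ∉ K2 := by
    intro h
    have h1 : K1 ≤ K2 := by
      rw [hK1, IntermediateField.adjoin_simple_le_iff]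
      exact h
    have h2 := IntermediateField.eq_of_le_of_finrank_eq h1 (hd1.1.trans hd2.1.symm)
    exact ht (by rw [h2]; exact htK2)
  -- a subfield containing `s` and `t` is everything
  have hgen : ∀ I : IntermediateField F E, s ∈ I → t ∈ I → I = ⊤ := by
    intro I hsI htI
    by_contra hne
    have hb : I ≠ ⊥ := fun h => hs (by rw [← h]; exact hsI)
    have h1 := Pois.finrank_of_ne hdim hb hne
    have h2 : K1 ≤ I := by
      rw [hK1, IntermediateField.adjoin_simple_le_iff]
      exact hsI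
    have h3 := IntermediateField.eq_of_le_of_finrank_eq h2 (hd1.1.trans h1.1.symm)
    exact ht (by rw [h3]; exact htI)
  have hs0 : s ≠ 0 := fun h => hs (by rw [h]; exact zero_mem _)
  have ht0 : t ≠ 0 := fun h => ht (by rw [h]; exact zero_mem _)
  -- the derivations
  have hch1 : CharP K1 p := charP_of_injective_algebraMap (algebraMap F K1).injective p
  have hch2 : CharP K2 p := charP_of_injective_algebraMap (algebraMap F K2).injective p
  obtain ⟨cs, hcs⟩ := hpow s
  obtain ⟨ct, hct⟩ := hpow t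
  obtain ⟨P0, hP0⟩ := exists_der (K := K2) p hd2.2 s (fun c hc => hsK2 (by rw [← hc]; exact c.2))
    (algebraMap F K2 cs) (by rw [← hcs]; rfl)
  obtain ⟨Q0, hQ0⟩ := exists_der (K := K1) p hd1.2 t (fun c hc => ht (by rw [← hc]; exact c.2))
    (algebraMap F K1 ct) (by rw [← hct]; rfl)
  set P : Module.End F E := P0.toLinearMap.restrictScalars F with hP
  set Q : Module.End F E := Q0.toLinearMap.restrictScalars F with hQ
  have hPl : ∀ x y, P (x * y) = x * P y + y * P x := fun x y => P0.leibniz x y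
  have hQl : ∀ x y, Q (x * y) = x * Q y + y * Q x := fun x y => Q0.leibniz x y
  have hPs : P s = s := hP0
  have hQt : Q t = t := hQ0
  have hPt : P t = 0 := P0.map_algebraMap (⟨t, htK2⟩ : K2)
  have hQs : Q s = 0 := Q0.map_algebraMap (⟨s, hsK1⟩ : K1)
  -- equality of derivations
  have hext : ∀ D : Module.End F E, (∀ x y, D (x * y) = x * D y + y * D x) → D s = 0 →
      D t = 0 → D = 0 := by
    intro D hD h1 h2
    have h3 := hgen (kerF D hD) h1 h2
    refine LinearMap.ext fun x => ?_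
    have h4 : x ∈ kerF D hD := by
      rw [h3]
      exact IntermediateField.mem_top
    exact h4
  have hPQ : ∀ x, P (Q x) = Q (P x) := by
    have h1 := hext (P * Q - Q * P) (fun x y => by
      simp only [LinearMap.sub_apply, Module.End.mul_apply, hPl, hQl, map_add]
      ring) (by
      rw [LinearMap.sub_apply, Module.End.mul_apply, Module.End.mul_apply, hQs, hPs, hQs, map_zero,
        sub_zero]) (by
      rw [LinearMap.sub_apply, Module.End.mul_apply, Module.End.mul_apply, hQt, hPt, map_zero,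
        sub_zero])
    intro x
    have h2 := LinearMap.congr_fun h1 x
    exact sub_eq_zero.mp h2
  have hPp : P ^ p = P := by
    refine sub_eq_zero.mp (hext (P ^ p - P) (fun x y => ?_) ?_ ?_)
    · rw [LinearMap.sub_apply, pow_leib P hPl, hPl, LinearMap.sub_apply, LinearMap.sub_apply]
      ring
    · have h1 : ∀ n, (P ^ n) s = s := by
        intro n
        induction n with
        | zero => rfl
        | succ n ih => rw [pow_succ, Module.End.mul_apply, hPs, ih]
      rw [LinearMap.sub_apply, h1, hPs, sub_self]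
    · rw [LinearMap.sub_apply, ← h0, pow_succ, Module.End.mul_apply, hPt, map_zero, sub_zero]
  have hQp : Q ^ p = Q := by
    refine sub_eq_zero.mp (hext (Q ^ p - Q) (fun x y => ?_) ?_ ?_)
    · rw [LinearMap.sub_apply, pow_leib Q hQl, hQl, LinearMap.sub_apply, LinearMap.sub_apply]
      ring
    · rw [LinearMap.sub_apply, ← h0, pow_succ, Module.End.mul_apply, hQs, map_zero, sub_zero]
    · have h1 : ∀ n, (Q ^ n) t = t := by
        intro n
        induction n with
        | zero => rfl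
        | succ n ih => rw [pow_succ, Module.End.mul_apply, hQt, ih]
      rw [LinearMap.sub_apply, h1, hQt, sub_self]
  -- the common kernel
  have hker : ∀ x, P x = 0 → Q x = 0 → ∃ c : F, algebraMap F E c = x := by
    intro x hx1 hx2
    have hI : kerF P hPl ⊓ kerF Q hQl = ⊥ := by
      by_contra hne
      have htop : kerF P hPl ⊓ kerF Q hQl ≠ ⊤ := by
        intro h
        have h1 : s ∈ kerF P hPl ⊓ kerF Q hQl := by
          rw [h]
          exact IntermediateField.mem_top
        exact hs0 (hPs.symm.trans h1.1)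
      have htop' : kerF P hPl ≠ ⊤ := by
        intro h
        have h1 : s ∈ kerF P hPl := by
          rw [h]
          exact IntermediateField.mem_top
        exact hs0 (hPs.symm.trans h1)
      have hbot' : kerF P hPl ≠ ⊥ := by
        intro h
        have h1 : t ∈ kerF P hPl := hPt
        rw [h] at h1
        exact ht ((bot_le : ⊥ ≤ K1) h1)
      have h1 := Pois.finrank_of_ne hdim hne htop
      have h2 := Pois.finrank_of_ne hdim hbot' htop'
      have h3 : kerF P hPl ⊓ kerF Q hQl = kerF P hPl :=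
        IntermediateField.eq_of_le_of_finrank_eq inf_le_left (h1.1.trans h2.1.symm)
      have h4 : t ∈ kerF P hPl ⊓ kerF Q hQl := by
        rw [h3]
        exact hPt
      exact ht0 (hQt.symm.trans h4.2)
    have h5 : x ∈ kerF P hPl ⊓ kerF Q hQl := ⟨hx1, hx2⟩
    rw [hI, IntermediateField.mem_bot] at h5
    exact h5
  -- the trace
  obtain ⟨l, hl⟩ := LinearMap.exists_leftInverse_of_injective (Algebra.linearMap F E)
    (LinearMap.ker_eq_bot.mpr (algebraMap F E).injective)
  have hP1 : P 1 = 0 := by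
    have := hPl 1 1
    simp only [mul_one, one_mul] at this
    simpa using this
  have hQ1 : Q 1 = 0 := by
    have := hQl 1 1
    simp only [mul_one, one_mul] at this
    simpa using this
  set π : Module.End F E := (1 - P ^ (p - 1)) * (1 - Q ^ (p - 1)) with hπ
  have hPQc : Commute P Q := LinearMap.ext hPQ
  have hπP : ∀ x, π (P x) = 0 := by
    intro x
    have h1 : π * P = 0 := by
      have h2 : (1 - Q ^ (p - 1)) * P = P * (1 - Q ^ (p - 1)) := by
        rw [sub_mul, mul_sub, one_mul, mul_one, ((hPQc.pow_right (p - 1)).eq)]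
      rw [hπ, mul_assoc, h2, ← mul_assoc, sub_mul, one_mul, ← pow_succ, h0, hPp, sub_self,
        zero_mul]
    exact LinearMap.congr_fun h1 x
  have hπQ : ∀ x, π (Q x) = 0 := by
    intro x
    have h1 : π * Q = 0 := by
      have h2 : (1 - Q ^ (p - 1)) * Q = 0 := by
        rw [sub_mul, one_mul, ← pow_succ, h0, hQp, sub_self]
      rw [hπ, mul_assoc, h2, mul_zero]
    exact LinearMap.congr_fun h1 x
  have hπ1 : π 1 = 1 := by
    obtain ⟨q, hq⟩ : ∃ q, p - 1 = q + 1 := ⟨p - 2, by omega⟩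
    have h1 : (P ^ (p - 1)) 1 = 0 := by
      rw [hq, pow_succ, Module.End.mul_apply, hP1, map_zero]
    have h2 : (Q ^ (p - 1)) 1 = 0 := by
      rw [hq, pow_succ, Module.End.mul_apply, hQ1, map_zero]
    have h3 : (1 - Q ^ (p - 1)) 1 = (1 : E) := by
      rw [LinearMap.sub_apply, Module.End.one_apply, h2, sub_zero]
    rw [hπ, Module.End.mul_apply, h3, LinearMap.sub_apply, Module.End.one_apply, h1, sub_zero]
  have hτP : ∀ x, (l.comp π) (P x) = 0 := fun x => by
    rw [LinearMap.comp_apply, hπP, map_zero]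
  have hτQ : ∀ x, (l.comp π) (Q x) = 0 := fun x => by
    rw [LinearMap.comp_apply, hπQ, map_zero]
  refine ⟨⟨LinearMap.mk₂ F (fun x y => P x * Q y - Q x * P y) ?_ ?_ ?_ ?_, ?_, ?_, ?_, ?_,
    l.comp π, ?_, ?_⟩, ?_⟩
  · intro x y z
    simp only [map_add]
    ring
  · intro c x y
    simp only [map_smul, smul_mul_assoc, smul_sub]
  · intro x y z
    simp only [map_add]
    ring
  · intro c x y
    simp only [map_smul, mul_smul_comm, smul_sub]
  · intro x
    rw [LinearMap.mk₂_apply]
    ring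
  · intro x y z
    rw [LinearMap.mk₂_apply, LinearMap.mk₂_apply, LinearMap.mk₂_apply, hPl, hQl]
    ring
  · intro x y z
    simp only [LinearMap.mk₂_apply, map_sub, LinearMap.sub_apply, hPl, hQl, hPQ]
    ring
  · intro x hx
    have h1 := hx s
    rw [LinearMap.mk₂_apply, hPs, hQs, mul_zero, zero_sub, neg_eq_zero] at h1
    have h2 := hx t
    rw [LinearMap.mk₂_apply, hPt, hQt, mul_zero, sub_zero] at h2
    exact hker x ((mul_eq_zero.mp h2).resolve_right ht0) ((mul_eq_zero.mp h1).resolve_right hs0)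
  · rw [LinearMap.comp_apply, hπ1]
    have h1 := LinearMap.congr_fun hl 1
    rw [LinearMap.comp_apply, Algebra.linearMap_apply, map_one] at h1
    exact h1
  · intro x y
    rw [LinearMap.mk₂_apply]
    have h1 : P x * Q y - Q x * P y = P (x * Q y) - Q (x * P y) := by
      rw [hPl, hQl, hPQ]
      ring
    rw [h1, map_sub, hτP, hτQ, sub_self]
  · change P s * Q t - Q s * P t = s * t
    rw [hPs, hQt, hQs, hPt, zero_mul, sub_zero]
-- END exists_pois'

-- BEGIN B_mon
private theorem G3_pow {F E : Type*} [Field F] [Field E] [Algebra F E] (P : Pois F E) {x y c : E}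
    (h : P.B x y = c * y) (n : ℕ) : P.B x (y ^ n) = n * c * y ^ n := by
  induction n with
  | zero => rw [pow_zero, P.B_one, Nat.cast_zero, zero_mul, zero_mul]
  | succ n ih =>
    rw [pow_succ, P.leib, h, ih]
    push_cast
    ring

private theorem G3_pow_left {F E : Type*} [Field F] [Field E] [Algebra F E] (P : Pois F E) {x y c : E}
    (h : P.B x y = c * x) (n : ℕ) : P.B (x ^ n) y = n * c * x ^ n := by
  induction n with
  | zero =>
    rw [pow_zero, P.anti, P.B_one, Nat.cast_zero, zero_mul, zero_mul, neg_zero]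
  | succ n ih =>
    rw [pow_succ, P.leib_left, h, ih]
    push_cast
    ring

/-- Row G3. by `leib`, `leib_left`, `alt` -/
theorem B_mon {F E : Type*} [Field F] [Field E] [Algebra F E] (P : Pois F E) {s t : E}
    (h : P.B s t = s * t) (i j k l : ℕ) : P.B (s ^ i * t ^ j) (s ^ k * t ^ l) =
      ((i : E) * l - j * k) * (s ^ (i + k) * t ^ (j + l)) := by
  have h1 : P.B s (t ^ l) = l * s * t ^ l := G3_pow P h l
  have h2 : P.B s (s ^ k) = k * 0 * s ^ k := G3_pow P (by rw [P.alt, zero_mul]) k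
  have h3 : P.B t (s ^ k) = k * (-t) * s ^ k := G3_pow P (by rw [P.anti, h]; ring) k
  have h4 : P.B t (t ^ l) = l * 0 * t ^ l := G3_pow P (by rw [P.alt, zero_mul]) l
  have h5 : P.B s (s ^ k * t ^ l) = (l * (s ^ k * t ^ l)) * s := by
    rw [P.leib, h1, h2]
    ring
  have h6 : P.B t (s ^ k * t ^ l) = (-k * (s ^ k * t ^ l)) * t := by
    rw [P.leib, h3, h4]
    ring
  rw [P.leib_left, G3_pow_left P h5, G3_pow_left P h6, pow_add, pow_add]
  ring
-- END B_mon

-- BEGIN tau_mon
/-- Row G3. `s ^ i t ^ j` is a multiple of a bracket: `B s (s ^ i' t ^ j)` or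
`B (s ^ i t ^ j') t` -/
theorem tau_mon {p : ℕ} [Fact p.Prime] {F E : Type*} [Field F] [CharP F p] [Field E] [Algebra F E]
    (P : Pois F E) {s t : E} {a b : F} (hs : s ^ p = algebraMap F E a)
    (ht : t ^ p = algebraMap F E b) (ha : a ≠ 0) (hb : b ≠ 0)
    (h : P.B s t = s * t) {i j : ℕ} (hij : ¬ (p ∣ i ∧ p ∣ j)) : P.τ (s ^ i * t ^ j) = 0 := by
  have hp := (Fact.out : p.Prime).pos
  by_cases hj : p ∣ j
  · have hi : ¬ p ∣ i := fun hi => hij ⟨hi, hj⟩
    have h1 := B_mon P h i (j + p - 1) 0 1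
    have h2 : P.B (s ^ i * t ^ (j + p - 1)) (s ^ 0 * t ^ 1) = ((i : F) * b) • (s ^ i * t ^ j) := by
      rw [h1, Algebra.smul_def, map_mul, ← ht, map_natCast]
      have h3 : j + p - 1 + 1 = j + p := by omega
      rw [h3, pow_add t j p, add_zero]
      push_cast
      ring
    have h3 := P.τ_B (s ^ i * t ^ (j + p - 1)) (s ^ 0 * t ^ 1)
    rw [h2, map_smul, smul_eq_mul] at h3
    refine (mul_eq_zero.1 h3).resolve_left (mul_ne_zero (fun h0 => hi ?_) hb)
    exact (CharP.cast_eq_zero_iff F p i).1 h0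
  · have h1 := B_mon P h 1 0 (i + p - 1) j
    have h2 : P.B (s ^ 1 * t ^ 0) (s ^ (i + p - 1) * t ^ j) = ((j : F) * a) • (s ^ i * t ^ j) := by
      rw [h1, Algebra.smul_def, map_mul, ← hs, map_natCast]
      have h3 : 1 + (i + p - 1) = i + p := by omega
      rw [h3, pow_add s i p, zero_add]
      push_cast
      ring
    have h3 := P.τ_B (s ^ 1 * t ^ 0) (s ^ (i + p - 1) * t ^ j)
    rw [h2, map_smul, smul_eq_mul] at h3
    refine (mul_eq_zero.1 h3).resolve_left (mul_ne_zero (fun h0 => hj ?_) ha)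
    exact (CharP.cast_eq_zero_iff F p j).1 h0
-- END tau_mon

-- BEGIN pind_ne
/-- Row G3. take `c` with one nonzero entry -/
theorem pind_ne {p : ℕ} [Fact p.Prime] {E : Type*} [Field E] {a b : E}
    (h : PInd p a b) : a ≠ 0 ∧ b ≠ 0 := by
  have hp := (Fact.out : p.Prime).one_lt
  have key : ∀ i₀ j₀ : Fin p, a ^ (i₀ : ℕ) * b ^ (j₀ : ℕ) ≠ 0 := by
    intro i₀ j₀ h0
    have h1 := h (fun i j => if i = i₀ ∧ j = j₀ then 1 else 0) ?_
    · have h2 := congrFun (congrFun h1 i₀) j₀
      simp at h2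
    · rw [Finset.sum_eq_single i₀, Finset.sum_eq_single j₀]
      · simp only [and_self, if_true, one_pow, one_mul]
        exact h0
      · intro j _ hj
        simp only [hj, and_false, if_false]
        rw [zero_pow (by omega), zero_mul, zero_mul]
      · intro hj
        exact absurd (Finset.mem_univ _) hj
      · intro i _ hi
        refine Finset.sum_eq_zero fun j _ => ?_
        simp only [hi, false_and, if_false]
        rw [zero_pow (by omega), zero_mul, zero_mul]
      · intro hi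
        exact absurd (Finset.mem_univ _) hi
  constructor
  · rintro rfl
    refine key ⟨1, hp⟩ ⟨0, by omega⟩ ?_
    simp
  · rintro rfl
    refine key ⟨0, by omega⟩ ⟨1, hp⟩ ?_
    simp
-- END pind_ne

-- BEGIN exists_iota
private theorem G4_left {p : ℕ} {E L : Type*} [Field E] [LieRing L] [LieAlgebra E L] {a b : E}
    {u : ℕ → ℕ → L} (h : StdBasis p E L a b u) (i j k : ℕ) :
    u (i + p * k) j = a ^ k • u i j := by
  induction k with
  | zero => rw [mul_zero, add_zero, pow_zero, one_smul]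
  | succ k ih =>
    rw [mul_add, mul_one, ← add_assoc, h.left, ih, smul_smul, pow_succ', mul_comm]

private theorem G4_right {p : ℕ} {E L : Type*} [Field E] [LieRing L] [LieAlgebra E L] {a b : E}
    {u : ℕ → ℕ → L} (h : StdBasis p E L a b u) (i j k : ℕ) :
    u i (j + p * k) = b ^ k • u i j := by
  induction k with
  | zero => rw [mul_zero, add_zero, pow_zero, one_smul]
  | succ k ih =>
    rw [mul_add, mul_one, ← add_assoc, h.right, ih, smul_smul, pow_succ', mul_comm]

private theorem G4_mod {p : ℕ} {E L : Type*} [Field E] [LieRing L] [LieAlgebra E L] {a b : E}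
    {u : ℕ → ℕ → L} (h : StdBasis p E L a b u) (i j : ℕ) :
    u i j = (a ^ (i / p) * b ^ (j / p)) • u (i % p) (j % p) := by
  conv_lhs => rw [← Nat.mod_add_div i p, ← Nat.mod_add_div j p]
  rw [G4_left h, G4_right h, smul_smul]

private theorem G4_pow {p : ℕ} {E K : Type*} [Field E] [Field K] [Algebra E K] {a : E} {s : K}
    (hs : s ^ p = algebraMap E K a) (i : ℕ) :
    s ^ i = algebraMap E K (a ^ (i / p)) * s ^ (i % p) := by
  conv_lhs => rw [← Nat.mod_add_div i p]
  rw [pow_add, pow_mul, hs, map_pow, mul_comm]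

/-- Row G4. `ι` is the linear map with `ι (u i j) = s ^ i t ^ j` on the basis, so for all
`(i, j)` not both divisible by `p`; its range is in the kernel of `τ`, of the same dimension. -/
theorem exists_iota {p : ℕ} [Fact p.Prime] {E : Type u} {L : Type v} [Field E] [CharP E p]
    [LieRing L] [LieAlgebra E L] {a b : E} {u : ℕ → ℕ → L} (h : StdBasis p E L a b u)
    (hp : PInd p a b) : ∃ (K : Type u) (_ : Field K) (_ : Algebra E K) (P : Pois E K)
      (ι : L →ₗ[E] K), finrank E K = p ^ 2 ∧ (∀ x : K, ∃ c : E, algebraMap E K c = x ^ p) ∧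
      Function.Injective ι ∧ (∀ x y, ι ⁅x, y⁆ = P.B (ι x) (ι y)) ∧
      ∀ z, P.τ z = 0 → ∃ x, ι x = z := by
  obtain ⟨ha, hb⟩ := pind_ne hp
  obtain ⟨K, iK, iA, s, t, hs, ht, hdim, hpow, hst, -⟩ := exists_field hp
  obtain ⟨P, hP⟩ := exists_pois' p hdim hpow hst
  have hpp : p.Prime := Fact.out
  have hfin : FiniteDimensional E K := by
    apply Module.finite_of_finrank_pos
    rw [hdim]
    exact pow_pos hpp.pos 2
  have hfL : FiniteDimensional E L := h.finite
  have hcK : CharP K p := charP_of_injective_algebraMap (algebraMap E K).injective p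
  set bL : Basis {x : Fin p × Fin p // (x.1 : ℕ) + x.2 ≠ 0} E L :=
    Basis.mk h.indep h.span.ge with hbL
  have hbLa : ∀ x, bL x = u x.1.1 x.1.2 := fun x => by rw [hbL, Basis.mk_apply]
  set ι : L →ₗ[E] K := bL.constr E fun x => s ^ (x.1.1 : ℕ) * t ^ (x.1.2 : ℕ) with hι
  have hιb : ∀ x, ι (bL x) = s ^ (x.1.1 : ℕ) * t ^ (x.1.2 : ℕ) := fun x => by
    rw [hι, Basis.constr_basis]
  -- the values at all `u i j`
  have hz : ∀ i j : ℕ, p ∣ i → p ∣ j → ι (u i j) = 0 := by
    intro i j hi hj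
    rw [G4_mod h, Nat.mod_eq_zero_of_dvd hi, Nat.mod_eq_zero_of_dvd hj, h.zero, smul_zero, map_zero]
  have hu : ∀ i j : ℕ, ¬ (p ∣ i ∧ p ∣ j) → ι (u i j) = s ^ i * t ^ j := by
    intro i j hij
    have h1 : i % p + j % p ≠ 0 := by
      intro h0
      exact hij ⟨Nat.dvd_of_mod_eq_zero (by omega), Nat.dvd_of_mod_eq_zero (by omega)⟩
    have h2 := hιb ⟨(⟨i % p, Nat.mod_lt _ hpp.pos⟩, ⟨j % p, Nat.mod_lt _ hpp.pos⟩), h1⟩
    rw [hbLa] at h2
    rw [G4_mod h, map_smul]
    have h3 : ι (u (i % p) (j % p)) = s ^ (i % p) * t ^ (j % p) := h2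
    rw [h3, G4_pow hs i, G4_pow ht j, Algebra.smul_def, map_mul]
    ring
  have hτ : ∀ x, P.τ (ι x) = 0 := by
    intro x
    have h1 : P.τ ∘ₗ ι = 0 := by
      refine bL.ext fun x => ?_
      rw [LinearMap.comp_apply, hιb, LinearMap.zero_apply]
      apply tau_mon P hs ht ha hb hP
      rintro ⟨h1, h2⟩
      have h3 := Nat.eq_zero_of_dvd_of_lt h1 x.1.1.2
      have h4 := Nat.eq_zero_of_dvd_of_lt h2 x.1.2.2
      exact x.2 (by omega)
    exact LinearMap.congr_fun h1 x
  have hinj : Function.Injective ι := by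
    rw [injective_iff_map_eq_zero]
    intro x hx
    have hli : LinearIndependent E (fun x : {x : Fin p × Fin p // (x.1 : ℕ) + x.2 ≠ 0} =>
        s ^ (x.1.1 : ℕ) * t ^ (x.1.2 : ℕ)) := hst.comp _ Subtype.val_injective
    rw [hι, Basis.constr_def, LinearMap.comp_apply, LinearMap.comp_apply] at hx
    rw [linearIndependent_iff] at hli
    have h1 := hli (bL.repr x) (by
      rw [← hx]
      simp [Finsupp.linearCombination_mapDomain])
    exact bL.repr.map_eq_zero_iff.mp h1
  have hB : ∀ i j k l : ℕ, ι ⁅u i j, u k l⁆ = P.B (ι (u i j)) (ι (u k l)) := by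
    intro i j k l
    by_cases hij : p ∣ i ∧ p ∣ j
    · rw [h.lie, hz i j hij.1 hij.2, map_zero, LinearMap.zero_apply]
      have h1 : ((i : E) * l - j * k) = 0 := by
        rw [(CharP.cast_eq_zero_iff E p i).mpr hij.1, (CharP.cast_eq_zero_iff E p j).mpr hij.2,
          zero_mul, zero_mul, sub_zero]
      rw [h1, zero_smul, map_zero]
    by_cases hkl : p ∣ k ∧ p ∣ l
    · rw [h.lie, hz k l hkl.1 hkl.2, map_zero]
      have h1 : ((i : E) * l - j * k) = 0 := by
        rw [(CharP.cast_eq_zero_iff E p k).mpr hkl.1, (CharP.cast_eq_zero_iff E p l).mpr hkl.2,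
          mul_zero, mul_zero, sub_zero]
      rw [h1, zero_smul, map_zero]
    rw [hu i j hij, hu k l hkl, B_mon P hP, h.lie, map_smul]
    have hc : ((i : K) * l - j * k) = algebraMap E K ((i : E) * l - j * k) := by
      simp only [map_sub, map_mul, map_natCast]
    by_cases hs' : p ∣ i + k ∧ p ∣ j + l
    · have h1 : ((i : E) * l - j * k) = 0 := by
        have e1 : (i : E) + k = 0 := by
          rw [← Nat.cast_add]
          exact (CharP.cast_eq_zero_iff E p _).mpr hs'.1
        have e2 : (j : E) + l = 0 := by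
          rw [← Nat.cast_add]
          exact (CharP.cast_eq_zero_iff E p _).mpr hs'.2
        rw [eq_neg_of_add_eq_zero_left e1, eq_neg_of_add_eq_zero_left e2]
        ring
      rw [hc, h1, zero_smul, map_zero, zero_mul]
    · rw [hu _ _ hs', hc, Algebra.smul_def]
  refine ⟨K, iK, iA, P, ι, hdim, hpow, hinj, ?_, ?_⟩
  · have h1 : LinearMap.mk₂ E (fun x y : L => ι ⁅x, y⁆)
        (fun x x' y => by rw [add_lie, map_add]) (fun c x y => by rw [smul_lie, map_smul])
        (fun x y y' => by rw [lie_add, map_add]) (fun c x y => by rw [lie_smul, map_smul]) =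
        P.B.compl₁₂ ι ι := by
      refine bL.ext fun x => bL.ext fun y => ?_
      rw [LinearMap.mk₂_apply, LinearMap.compl₁₂_apply, hbLa, hbLa]
      exact hB _ _ _ _
    intro x y
    have h2 := LinearMap.congr_fun (LinearMap.congr_fun h1 x) y
    rwa [LinearMap.mk₂_apply, LinearMap.compl₁₂_apply] at h2
  · have h1 : LinearMap.range ι ≤ LinearMap.ker P.τ := by
      rintro _ ⟨x, rfl⟩
      exact hτ x
    have h2 : finrank E (LinearMap.range ι) = finrank E (LinearMap.ker P.τ) := by
      rw [LinearMap.finrank_range_of_inj hinj, h.finrank_eq]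
      exact (P.finrank_PL hdim).symm
    have h3 := Submodule.eq_of_le_of_finrank_eq h1 h2
    intro z hz
    have h4 : z ∈ LinearMap.range ι := by
      rw [h3]
      exact hz
    exact h4
-- END exists_iota

-- BEGIN std_proper
private theorem G5_finrank {p : ℕ} [Fact p.Prime] {E L : Type*} [Field E]
    [LieRing L] [LieAlgebra E L] {a b : E} {u : ℕ → ℕ → L} (h : StdBasis p E L a b u) :
    finrank E L < p ^ 2 := by
  classical
  have h0 : 0 < p := (Fact.out : p.Prime).pos
  have h1 : finrank E L ≤ Fintype.card {x : Fin p × Fin p // (x.1 : ℕ) + x.2 ≠ 0} := by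
    have h2 := finrank_range_le_card (R := E)
      (fun x : {x : Fin p × Fin p // (x.1 : ℕ) + x.2 ≠ 0} => u x.1.1 x.1.2)
    rw [Set.finrank, h.span, finrank_top] at h2
    exact h2
  have h3 : Fintype.card {x : Fin p × Fin p // (x.1 : ℕ) + x.2 ≠ 0} <
      Fintype.card (Fin p × Fin p) :=
    Fintype.card_subtype_lt (x := ((⟨0, h0⟩, ⟨0, h0⟩) : Fin p × Fin p)) (by simp)
  rw [Fintype.card_prod, Fintype.card_fin, ← sq] at h3
  exact h1.trans_lt h3

private theorem G5_tau {p : ℕ} {E L K : Type*} [Field E] [LieRing L]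
    [LieAlgebra E L] [Field K] [Algebra E K] (P : Pois E K) (ι : L →ₗ[E] K)
    (hdim : finrank E K = p ^ 2) (hinj : Function.Injective ι)
    (hker : ∀ z, P.τ z = 0 → ∃ x, ι x = z) (hL : finrank E L < p ^ 2) (z : L) :
    P.τ (ι z) = 0 := by
  by_contra hc
  have hsurj : Function.Surjective ι := by
    intro y
    obtain ⟨w, hw⟩ := hker (y - (P.τ y / P.τ (ι z)) • ι z)
      (by rw [map_sub, map_smul, smul_eq_mul, div_mul_cancel₀ _ hc, sub_self])
    exact ⟨w + (P.τ y / P.τ (ι z)) • z, by rw [map_add, map_smul, hw, sub_add_cancel]⟩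
  have h1 := (LinearEquiv.ofBijective ι ⟨hinj, hsurj⟩).finrank_eq
  rw [hdim] at h1
  exact hL.ne h1

private theorem G5_main {p : ℕ} [Fact p.Prime] {E L K : Type*} [Field E] [CharP E p] [LieRing L]
    [LieAlgebra E L] [Field K] [Algebra E K] (P : Pois E K) (ι : L →ₗ[E] K)
    (hdim : finrank E K = p ^ 2) (hpow : ∀ x : K, ∃ c : E, algebraMap E K c = x ^ p)
    (hinj : Function.Injective ι) (hlie : ∀ x y, ι ⁅x, y⁆ = P.B (ι x) (ι y))
    (hker : ∀ z, P.τ z = 0 → ∃ x, ι x = z) (hL : finrank E L < p ^ 2) :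
    LieAlgebra.IsSimple E L ∧ ∀ S : LieSubalgebra E L, S ≠ ⊤ → IsLieAbelian S := by
  have hτ := G5_tau P ι hdim hinj hker hL
  have habel : ∀ S : LieSubalgebra E L, S ≠ ⊤ → ∀ x ∈ S, ∀ y ∈ S, ⁅x, y⁆ = 0 := by
    intro S hS x hx y hy
    by_contra hne
    have hB : P.B (ι x) (ι y) ≠ 0 := by
      intro h
      apply hne
      apply hinj
      rw [hlie, h, map_zero]
    have h1 := P.ker_le hdim hpow hB (S.toSubmodule.map ι) (by
      rintro _ ⟨a, ha, rfl⟩ _ ⟨b, hb, rfl⟩
      exact ⟨⁅a, b⁆, S.lie_mem ha hb, hlie a b⟩) ⟨x, hx, rfl⟩ ⟨y, hy, rfl⟩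
    apply hS
    rw [eq_top_iff]
    intro z _
    obtain ⟨w, hw, hwz⟩ := h1 (show ι z ∈ LinearMap.ker P.τ from hτ z)
    have hwz' : w = z := hinj hwz
    rw [← hwz']
    exact hw
  have hdec : ∀ y : K, ∃ z : L, ∃ c : E, y = ι z + algebraMap E K c := by
    intro y
    obtain ⟨z, hz⟩ := hker (y - algebraMap E K (P.τ y)) (by
      rw [map_sub, Algebra.algebraMap_eq_smul_one, map_smul, P.τ_one, smul_eq_mul, mul_one,
        sub_self])
    exact ⟨z, P.τ y, by rw [hz, sub_add_cancel]⟩
  have hnz : ∀ x : L, x ≠ 0 → ∃ y : L, P.B (ι x) (ι y) ≠ 0 := by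
    intro x hx
    by_contra hno
    push Not at hno
    have h1 : ∀ y, P.B (ι x) y = 0 := by
      intro y
      obtain ⟨z, c, rfl⟩ := hdec y
      rw [map_add, hno, P.B_algebraMap, add_zero]
    obtain ⟨c, hc⟩ := P.cen _ h1
    have h2 := hτ x
    rw [← hc, Algebra.algebraMap_eq_smul_one, map_smul, P.τ_one, smul_eq_mul, mul_one] at h2
    apply hx
    apply hinj
    rw [← hc, h2, map_zero, map_zero]
  refine ⟨⟨fun I => ?_, fun hA => ?_⟩, fun S hS => ?_⟩
  · by_contra hno
    push Not at hno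
    obtain ⟨hbot, htop⟩ := hno
    obtain ⟨x, hxI, hx0⟩ : ∃ x ∈ I, x ≠ 0 := by
      by_contra hno
      push Not at hno
      exact hbot (by
        rw [LieSubmodule.eq_bot_iff]
        exact hno)
    have hne : LieIdeal.toLieSubalgebra E L I ≠ ⊤ := by
      intro h
      apply htop
      rw [eq_top_iff]
      intro z _
      have hz : z ∈ LieIdeal.toLieSubalgebra E L I := by
        rw [h]
        exact LieSubalgebra.mem_top z
      exact hz
    obtain ⟨y, hy⟩ := hnz x hx0
    have hxy : ⁅x, y⁆ ∈ I := by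
      rw [← lie_skew]
      exact I.neg_mem (I.lie_mem hxI)
    have h1 := habel _ hne x (show x ∈ LieIdeal.toLieSubalgebra E L I from hxI) ⁅x, y⁆
      (show ⁅x, y⁆ ∈ LieIdeal.toLieSubalgebra E L I from hxy)
    have h2 := congrArg ι h1
    rw [hlie, hlie, map_zero] at h2
    exact hy (P.inj h2)
  · have hpos : 0 < finrank E P.PL := by
      rw [P.finrank_PL hdim]
      have h1 := (Fact.out : p.Prime).two_le
      have h2 : 2 ^ 2 ≤ p ^ 2 := Nat.pow_le_pow_left h1 2
      omega
    have hnt : Nontrivial P.PL := Module.nontrivial_of_finrank_pos hpos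
    obtain ⟨z, hz⟩ := exists_ne (0 : P.PL)
    obtain ⟨x, hx⟩ := hker (P.incl z) (P.incl_mem z)
    have hx0 : x ≠ 0 := by
      rintro rfl
      apply hz
      apply P.incl_inj
      rw [← hx, map_zero, map_zero]
    obtain ⟨y, hy⟩ := hnz x hx0
    apply hy
    rw [← hlie, hA.trivial, map_zero]
  · exact ⟨fun x y => Subtype.ext (habel S hS x x.2 y y.2)⟩

/-- Row G5. as `Pois.abelian` and `Pois.simple` in PoisLie.lean, with `ι` in place of `incl` -/
theorem std_proper {p : ℕ} [Fact p.Prime] {E : Type u} {L : Type v} [Field E] [CharP E p]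
    [LieRing L] [LieAlgebra E L] {a b : E} {u : ℕ → ℕ → L} (h : StdBasis p E L a b u)
    (hp : PInd p a b) : LieAlgebra.IsSimple E L ∧
      ∀ S : LieSubalgebra E L, S ≠ ⊤ → IsLieAbelian S := by
  obtain ⟨K, hK, hA, P, ι, hdim, hpow, hinj, hlie, hker⟩ := exists_iota h hp
  exact G5_main P ι hdim hpow hinj hlie hker (G5_finrank h)
-- END std_proper

-- BEGIN exists_lie
private theorem G6_card (p : ℕ) [hp : Fact p.Prime] :
    Fintype.card {x : Fin p × Fin p // (x.1 : ℕ) + x.2 ≠ 0} = p ^ 2 - 1 := by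
  rw [Fintype.card_subtype_compl]
  have h1 : Fintype.card {x : Fin p × Fin p // (x.1 : ℕ) + x.2 = 0} = 1 := by
    rw [Fintype.card_eq_one_iff]
    refine ⟨⟨(⟨0, hp.out.pos⟩, ⟨0, hp.out.pos⟩), rfl⟩, ?_⟩
    rintro ⟨⟨i, j⟩, h⟩
    apply Subtype.ext
    have h2 : (i : ℕ) + j = 0 := h
    refine Prod.ext (Fin.ext ?_) (Fin.ext ?_)
    · show (i : ℕ) = 0
      omega
    · show (j : ℕ) = 0
      omega
  rw [h1, Fintype.card_prod, Fintype.card_fin]
  rw [sq]

/-- Row G6. `L = P.PL` with `u i j = s ^ i t ^ j` if `i`, `j` are not both divisible by `p` and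
`u i j = 0` otherwise -/
theorem exists_lie {p : ℕ} [Fact p.Prime] {E : Type u} [Field E] [CharP E p] {a b : E}
    (hp : PInd p a b) : ∃ (L : Type u) (_ : LieRing L) (_ : LieAlgebra E L) (u : ℕ → ℕ → L),
      StdBasis p E L a b u := by
  obtain ⟨K, _, _, s, t, hs, ht, hdim, hpow, hind, _⟩ := exists_field hp
  obtain ⟨P, hP⟩ := exists_pois' p hdim hpow hind
  obtain ⟨ha, hb⟩ := pind_ne hp
  have hpp : p.Prime := Fact.out
  obtain ⟨u, hu0, hu1⟩ : ∃ u : ℕ → ℕ → P.PL, (∀ i j, p ∣ i ∧ p ∣ j → u i j = 0) ∧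
      ∀ i j, ¬ (p ∣ i ∧ p ∣ j) → P.incl (u i j) = s ^ i * t ^ j := by
    classical
    refine ⟨fun i j => if h : p ∣ i ∧ p ∣ j then 0 else
      (⟨s ^ i * t ^ j, LinearMap.mem_ker.2 (tau_mon P hs ht ha hb hP h)⟩ :
        LinearMap.ker P.τ), fun i j h => ?_, fun i j h => ?_⟩
    · exact dif_pos h
    · exact congrArg P.incl (dif_neg h)
  have hcast : ∀ i : ℕ, p ∣ i → (i : E) = 0 := fun i h => (CharP.cast_eq_zero_iff E p i).2 h
  refine ⟨P.PL, inferInstance, inferInstance, u, ?_, ?_, ?_, ?_, ?_, ?_⟩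
  · exact hu0 0 0 ⟨dvd_zero p, dvd_zero p⟩
  · intro i j
    by_cases h : p ∣ i ∧ p ∣ j
    · rw [hu0 i j h, hu0 (i + p) j ⟨(Nat.dvd_add_self_right).2 h.1, h.2⟩, smul_zero]
    · have h' : ¬ (p ∣ i + p ∧ p ∣ j) := fun h2 => h ⟨(Nat.dvd_add_self_right).1 h2.1, h2.2⟩
      apply P.incl_inj
      rw [hu1 _ _ h', map_smul, hu1 _ _ h, pow_add, hs, Algebra.smul_def]
      ring
  · intro i j
    by_cases h : p ∣ i ∧ p ∣ j
    · rw [hu0 i j h, hu0 i (j + p) ⟨h.1, (Nat.dvd_add_self_right).2 h.2⟩, smul_zero]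
    · have h' : ¬ (p ∣ i ∧ p ∣ j + p) := fun h2 => h ⟨h2.1, (Nat.dvd_add_self_right).1 h2.2⟩
      apply P.incl_inj
      rw [hu1 _ _ h', map_smul, hu1 _ _ h, pow_add, ht, Algebra.smul_def]
      ring
  · intro i j k l
    by_cases h1 : p ∣ i ∧ p ∣ j
    · rw [hu0 i j h1, zero_lie, hcast i h1.1, hcast j h1.2, zero_mul, zero_mul, sub_zero, zero_smul]
    by_cases h2 : p ∣ k ∧ p ∣ l
    · rw [hu0 k l h2, lie_zero, hcast k h2.1, hcast l h2.2, mul_zero, mul_zero, sub_zero, zero_smul]
    have hB := B_mon P hP i j k l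
    apply P.incl_inj
    rw [P.incl_lie, hu1 i j h1, hu1 k l h2, hB, map_smul]
    have hc : algebraMap E K ((i : E) * l - j * k) = (i : K) * l - j * k := by
      rw [map_sub, map_mul, map_mul, map_natCast, map_natCast, map_natCast, map_natCast]
    by_cases h3 : p ∣ i + k ∧ p ∣ j + l
    · have hz : (i : E) * l - j * k = 0 := by
        have e1 : (i : E) + k = 0 := by
          have := hcast (i + k) h3.1
          rwa [Nat.cast_add] at this
        have e2 : (j : E) + l = 0 := by
          have := hcast (j + l) h3.2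
          rwa [Nat.cast_add] at this
        have e3 : (k : E) = -i := eq_neg_of_add_eq_zero_right e1
        have e4 : (l : E) = -j := eq_neg_of_add_eq_zero_right e2
        rw [e3, e4]
        ring
      rw [← hc, hz, map_zero, zero_mul, zero_smul]
    · rw [hu1 _ _ h3, Algebra.smul_def, hc]
  all_goals
    have hnd : ∀ x : {x : Fin p × Fin p // (x.1 : ℕ) + x.2 ≠ 0},
        ¬ (p ∣ (x.1.1 : ℕ) ∧ p ∣ (x.1.2 : ℕ)) := by
      rintro ⟨⟨i, j⟩, h⟩ ⟨h1, h2⟩
      have h3 := Nat.eq_zero_of_dvd_of_lt h1 i.2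
      have h4 := Nat.eq_zero_of_dvd_of_lt h2 j.2
      apply h
      show (i : ℕ) + j = 0
      simp only at h3 h4
      omega
    have hli : LinearIndependent E (fun x : {x : Fin p × Fin p // (x.1 : ℕ) + x.2 ≠ 0} =>
        u x.1.1 x.1.2) := by
      apply LinearIndependent.of_comp P.incl
      have h1 := hind.comp (Subtype.val : {x : Fin p × Fin p // (x.1 : ℕ) + x.2 ≠ 0} → Fin p × Fin p)
        Subtype.val_injective
      have h2 : (P.incl ∘ fun x : {x : Fin p × Fin p // (x.1 : ℕ) + x.2 ≠ 0} =>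
          u x.1.1 x.1.2) = ((fun x : Fin p × Fin p => s ^ (x.1 : ℕ) * t ^ (x.2 : ℕ)) ∘
          Subtype.val) := by
        funext x
        exact hu1 _ _ (hnd x)
      rw [h2]
      exact h1
  · exact hli
  · have hne : Nonempty {x : Fin p × Fin p // (x.1 : ℕ) + x.2 ≠ 0} :=
      ⟨⟨(⟨1, hpp.one_lt⟩, ⟨0, hpp.pos⟩), one_ne_zero⟩⟩
    apply hli.span_eq_top_of_card_eq_finrank
    rw [G6_card, P.finrank_PL hdim]
-- END exists_lie

-- BEGIN central_of_std
private theorem G7_ad10 {p : ℕ} {E L : Type*} [Field E]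
    [LieRing L] [LieAlgebra E L] {a b : E} {u : ℕ → ℕ → L} (h : StdBasis p E L a b u)
    (m k l : ℕ) : ((LieAlgebra.ad E L (u 1 0)) ^ m) (u k l) = ((l : E) ^ m) • u (k + m) l := by
  induction m with
  | zero => simp
  | succ m ih =>
    rw [pow_succ', Module.End.mul_apply, ih, map_smul, LieAlgebra.ad_apply, h.lie, smul_smul]
    have e1 : 1 + (k + m) = k + (m + 1) := by omega
    have e2 : (0 : ℕ) + l = l := by omega
    rw [e1, e2]
    congr 1
    push_cast
    ring

private theorem G7_ad01 {p : ℕ} {E L : Type*} [Field E]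
    [LieRing L] [LieAlgebra E L] {a b : E} {u : ℕ → ℕ → L} (h : StdBasis p E L a b u)
    (m k l : ℕ) : ((LieAlgebra.ad E L (u 0 1)) ^ m) (u k l) =
      ((-(k : E)) ^ m) • u k (l + m) := by
  induction m with
  | zero => simp
  | succ m ih =>
    rw [pow_succ', Module.End.mul_apply, ih, map_smul, LieAlgebra.ad_apply, h.lie, smul_smul]
    have e1 : 1 + (l + m) = l + (m + 1) := by omega
    have e2 : (0 : ℕ) + k = k := by omega
    rw [e1, e2]
    congr 1
    push_cast
    ring

private theorem G7_pow_nat {p : ℕ} [Fact p.Prime] {E : Type*} [Field E] [CharP E p] (l : ℕ) :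
    (l : E) ^ p = l := by
  have h := ZMod.pow_card (l : ZMod p)
  have h2 := congrArg (ct (p := p) E) h
  rwa [map_pow, map_natCast] at h2

private theorem G7_cast_inj {p : ℕ} {E : Type*} [Field E] [CharP E p] {k l : ℕ} (hk : k < p)
    (hl : l < p) (h : (k : E) = l) : k = l := by
  have h1 := (CharP.cast_eq_iff_mod_eq E p (a := k) (b := l)).1 h
  rwa [Nat.mod_eq_of_lt hk, Nat.mod_eq_of_lt hl] at h1

/-- Row G7. `T` commutes with `ad (u 1 0) ^ p` = multiplication of `u k l` by `a l`, and with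
`ad (u 0 1) ^ p` = multiplication of `u k l` by `- b k`; so `T (u k l) = c k l • u k l` for
`k, l < p` (write `T (u k l)` in the basis). `T ⁅x, y⁆ = ⁅T x, y⁆ = ⁅x, T y⁆` gives
`c (i + k) (j + l) = c i j = c k l` (indices mod `p`) if `i l ≠ j k` in `ZMod p`; so `c` is
constant. -/
theorem central_of_std {p : ℕ} [Fact p.Prime] {E L : Type*} [Field E] [CharP E p]
    [LieRing L] [LieAlgebra E L] {a b : E} {u : ℕ → ℕ → L} (h : StdBasis p E L a b u)
    (ha : a ≠ 0) (hb : b ≠ 0) : Central E L := by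
  intro T hT
  have hT2 : ∀ x y : L, T ⁅x, y⁆ = ⁅x, T y⁆ := by
    intro x y
    rw [← lie_skew, map_neg, hT, lie_skew]
  have hcom : ∀ (x : L) (m : ℕ) (y : L), T (((LieAlgebra.ad E L x) ^ m) y) =
      ((LieAlgebra.ad E L x) ^ m) (T y) := by
    intro x m
    induction m with
    | zero => intro y; simp
    | succ m ih =>
      intro y
      rw [pow_succ', Module.End.mul_apply, Module.End.mul_apply, LieAlgebra.ad_apply, hT2, ih,
        LieAlgebra.ad_apply]
  have hp1 : 1 < p := (Fact.out : p.Prime).one_lt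
  have hp0 : 0 < p := by omega
  let B : Basis {x : Fin p × Fin p // (x.1 : ℕ) + x.2 ≠ 0} E L := Basis.mk h.indep h.span.ge
  have hB : ∀ z, B z = u z.1.1 z.1.2 := fun z => Basis.mk_apply h.indep h.span.ge z
  have hD1 : ∀ k l : ℕ, ((LieAlgebra.ad E L (u 1 0)) ^ p) (u k l) = (a * l) • u k l := by
    intro k l
    rw [G7_ad10 h, h.left, G7_pow_nat, smul_smul, mul_comm]
  have hD2 : ∀ k l : ℕ, ((LieAlgebra.ad E L (u 0 1)) ^ p) (u k l) = (-(b * k)) • u k l := by
    intro k l
    have h1 : (-(k : E)) ^ p = -(k : E) := by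
      rcases (Fact.out : p.Prime).eq_two_or_odd' with h2 | h2
      · subst h2
        have h3 : (-(k : E)) = (k : E) := CharTwo.neg_eq _
        rw [h3]
        exact G7_pow_nat k
      · rw [h2.neg_pow, G7_pow_nat]
    rw [G7_ad01 h, h.right, h1, smul_smul]
    congr 1
    ring
  have hc1 : ∀ x y, B.coord x (((LieAlgebra.ad E L (u 1 0)) ^ p) y) =
      (a * (x.1.2 : ℕ)) * B.coord x y := by
    intro x y
    have h1 : (B.coord x) ∘ₗ ((LieAlgebra.ad E L (u 1 0)) ^ p) =
        (a * ((x.1.2 : ℕ) : E)) • B.coord x := by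
      refine B.ext fun z => ?_
      rw [LinearMap.comp_apply, hB, hD1, map_smul, LinearMap.smul_apply, ← hB, Basis.coord_apply,
        Basis.repr_self, smul_eq_mul, smul_eq_mul]
      by_cases hz : z = x
      · rw [hz]
      · rw [Finsupp.single_eq_of_ne' hz, mul_zero, mul_zero]
    have h2 := LinearMap.congr_fun h1 y
    rwa [LinearMap.comp_apply, LinearMap.smul_apply, smul_eq_mul] at h2
  have hc2 : ∀ x y, B.coord x (((LieAlgebra.ad E L (u 0 1)) ^ p) y) =
      (-(b * (x.1.1 : ℕ))) * B.coord x y := by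
    intro x y
    have h1 : (B.coord x) ∘ₗ ((LieAlgebra.ad E L (u 0 1)) ^ p) =
        (-(b * ((x.1.1 : ℕ) : E))) • B.coord x := by
      refine B.ext fun z => ?_
      rw [LinearMap.comp_apply, hB, hD2, map_smul, LinearMap.smul_apply, ← hB, Basis.coord_apply,
        Basis.repr_self, smul_eq_mul, smul_eq_mul]
      by_cases hz : z = x
      · rw [hz]
      · rw [Finsupp.single_eq_of_ne' hz, mul_zero, mul_zero]
    have h2 := LinearMap.congr_fun h1 y
    rwa [LinearMap.comp_apply, LinearMap.smul_apply, smul_eq_mul] at h2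
  have hoff : ∀ x z, x ≠ z → B.coord x (T (B z)) = 0 := by
    intro x z hxz
    by_contra hne
    apply hxz
    have h1 := hc1 x (T (B z))
    rw [← hcom, hB, hD1, map_smul, map_smul, ← hB, smul_eq_mul] at h1
    have h1' := mul_right_cancel₀ hne h1
    have h1'' := mul_left_cancel₀ ha h1'
    have h2 := hc2 x (T (B z))
    rw [← hcom, hB, hD2, map_smul, map_smul, ← hB, smul_eq_mul] at h2
    have h2' := neg_injective (mul_right_cancel₀ hne h2)
    have h2'' := mul_left_cancel₀ hb h2'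
    have e1 := G7_cast_inj z.1.2.2 x.1.2.2 h1''
    have e2 := G7_cast_inj z.1.1.2 x.1.1.2 h2''
    exact Subtype.ext (Prod.ext (Fin.ext e2.symm) (Fin.ext e1.symm))
  have hdiag : ∀ z, T (B z) = B.coord z (T (B z)) • B z := by
    intro z
    refine B.ext_elem fun x => ?_
    rw [map_smul, Finsupp.smul_apply, Basis.repr_self, smul_eq_mul]
    by_cases hx : x = z
    · rw [hx, Finsupp.single_eq_same, mul_one]
      rfl
    · rw [Finsupp.single_eq_of_ne hx, mul_zero]
      exact hoff x z hx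
  have heq : ∀ z w, ⁅B z, B w⁆ ≠ 0 → B.coord z (T (B z)) = B.coord w (T (B w)) := by
    intro z w hzw
    have h1 : T ⁅B z, B w⁆ = B.coord z (T (B z)) • ⁅B z, B w⁆ := by
      rw [hT]
      conv_lhs => rw [hdiag z]
      rw [smul_lie]
    have h2 : T ⁅B z, B w⁆ = B.coord w (T (B w)) • ⁅B z, B w⁆ := by
      rw [hT2]
      conv_lhs => rw [hdiag w]
      rw [lie_smul]
    have h3 := h1.symm.trans h2
    exact smul_left_injective E hzw h3
  have hun : ∀ i j : ℕ, i < p → j < p → i + j ≠ 0 → u i j ≠ 0 := by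
    intro i j hi hj hij
    exact h.indep.ne_zero ⟨(⟨i, hi⟩, ⟨j, hj⟩), hij⟩
  have hcast : ∀ i : ℕ, i < p → i ≠ 0 → (i : E) ≠ 0 := by
    intro i hi hi0 h0
    apply hi0
    apply G7_cast_inj (E := E) hi hp0
    rw [h0, Nat.cast_zero]
  let z10 : {x : Fin p × Fin p // (x.1 : ℕ) + x.2 ≠ 0} :=
    ⟨(⟨1, hp1⟩, ⟨0, hp0⟩), by simp⟩
  let z01 : {x : Fin p × Fin p // (x.1 : ℕ) + x.2 ≠ 0} :=
    ⟨(⟨0, hp0⟩, ⟨1, hp1⟩), by simp⟩
  have hA : ∀ w : {x : Fin p × Fin p // (x.1 : ℕ) + x.2 ≠ 0}, (w.1.2 : ℕ) ≠ 0 →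
      B.coord z10 (T (B z10)) = B.coord w (T (B w)) := by
    intro w hw
    apply heq
    rw [hB, hB]
    show ⁅u 1 0, u w.1.1 w.1.2⁆ ≠ 0
    rw [h.lie]
    have hu : u (1 + (w.1.1 : ℕ)) (0 + (w.1.2 : ℕ)) ≠ 0 := by
      rw [zero_add]
      by_cases h1 : 1 + (w.1.1 : ℕ) < p
      · exact hun _ _ h1 w.1.2.2 (by omega)
      · have h2 : 1 + (w.1.1 : ℕ) = 0 + p := by
          have := w.1.1.2
          omega
        rw [h2, h.left]
        exact smul_ne_zero ha (hun _ _ hp0 w.1.2.2 (by omega))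
    refine smul_ne_zero ?_ hu
    have := hcast _ w.1.2.2 hw
    simpa using this
  have hB' : ∀ w : {x : Fin p × Fin p // (x.1 : ℕ) + x.2 ≠ 0}, (w.1.2 : ℕ) = 0 →
      B.coord z01 (T (B z01)) = B.coord w (T (B w)) := by
    intro w hw
    have hw1 : (w.1.1 : ℕ) ≠ 0 := by
      intro h0
      exact w.2 (by rw [h0, hw])
    apply heq
    rw [hB, hB]
    show ⁅u 0 1, u w.1.1 w.1.2⁆ ≠ 0
    rw [h.lie, hw]
    have hu : u (0 + (w.1.1 : ℕ)) (1 + 0) ≠ 0 := by
      rw [zero_add, add_zero]
      exact hun _ _ w.1.1.2 hp1 (by omega)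
    refine smul_ne_zero ?_ hu
    have := hcast _ w.1.1.2 hw1
    simpa using this
  have hall : ∀ w, B.coord w (T (B w)) = B.coord z10 (T (B z10)) := by
    intro w
    by_cases hw : (w.1.2 : ℕ) = 0
    · rw [← hB' w hw]
      exact (hA z01 (by simp [z01])).symm
    · exact (hA w hw).symm
  refine ⟨B.coord z10 (T (B z10)), ?_⟩
  have hfin : T = (B.coord z10 (T (B z10))) • (LinearMap.id : L →ₗ[E] L) := by
    refine B.ext fun w => ?_
    rw [LinearMap.smul_apply, LinearMap.id_apply, ← hall w]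
    exact hdiag w
  intro x
  have h1 := LinearMap.congr_fun hfin x
  rwa [LinearMap.smul_apply, LinearMap.id_apply] at h1
-- END central_of_std

end Pool.Agent.MP9083S
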