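import Mathlib
import Pool.Agent.Lib.MP_9083e4_al.S.Ext

/-! Rows T. The bracket of the field `K = E(a^(1/p), b^(1/p))` and its toral derivations. -/

set_option autoImplicit false

namespace Pool.Agent.MP9083S

open Module Pool.Agent.MP9083

universe u v

/-- the toral derivations `A = s d/ds`, `C = t d/dt` of a bracket with `B s t = s t` -/
structure Tor (p : ℕ) {E K : Type*} [Field E] [Field K] [Algebra E K] (P : Pois E K)
    (s t : K) where
  A : Module.End E K
  C : Module.End E K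
  leibA : ∀ x y, A (x * y) = x * A y + y * A x
  leibC : ∀ x y, C (x * y) = x * C y + y * C x
  As : A s = s
  At : A t = 0
  Cs : C s = 0
  Ct : C t = t
  comm : ∀ x, A (C x) = C (A x)
  powA : ∀ x, (A ^ p) x = A x
  powC : ∀ x, (C ^ p) x = C x
  B : ∀ x y, P.B x y = A x * C y - C x * A y
  tauA : ∀ x, P.τ (A x) = 0
  tauC : ∀ x, P.τ (C x) = 0

-- BEGIN exists_iota'
private theorem T0_left {p : ℕ} {E L : Type*} [Field E] [LieRing L] [LieAlgebra E L] {a b : E}
    {u : ℕ → ℕ → L} (h : StdBasis p E L a b u) (i j k : ℕ) :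
    u (i + p * k) j = a ^ k • u i j := by
  induction k with
  | zero => rw [mul_zero, add_zero, pow_zero, one_smul]
  | succ k ih =>
    rw [mul_add, mul_one, ← add_assoc, h.left, ih, smul_smul, pow_succ', mul_comm]

private theorem T0_right {p : ℕ} {E L : Type*} [Field E] [LieRing L] [LieAlgebra E L] {a b : E}
    {u : ℕ → ℕ → L} (h : StdBasis p E L a b u) (i j k : ℕ) :
    u i (j + p * k) = b ^ k • u i j := by
  induction k with
  | zero => rw [mul_zero, add_zero, pow_zero, one_smul]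
  | succ k ih =>
    rw [mul_add, mul_one, ← add_assoc, h.right, ih, smul_smul, pow_succ', mul_comm]

private theorem T0_mod {p : ℕ} {E L : Type*} [Field E] [LieRing L] [LieAlgebra E L] {a b : E}
    {u : ℕ → ℕ → L} (h : StdBasis p E L a b u) (i j : ℕ) :
    u i j = (a ^ (i / p) * b ^ (j / p)) • u (i % p) (j % p) := by
  conv_lhs => rw [← Nat.mod_add_div i p, ← Nat.mod_add_div j p]
  rw [T0_left h, T0_right h, smul_smul]

private theorem T0_pow {p : ℕ} {E K : Type*} [Field E] [Field K] [Algebra E K] {a : E} {s : K}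
    (hs : s ^ p = algebraMap E K a) (i : ℕ) :
    s ^ i = algebraMap E K (a ^ (i / p)) * s ^ (i % p) := by
  conv_lhs => rw [← Nat.mod_add_div i p]
  rw [pow_add, pow_mul, hs, map_pow, mul_comm]

/-- Row T0. The proof of `exists_iota`, with more information in the statement. -/
theorem exists_iota' {p : ℕ} [Fact p.Prime] {E : Type u} {L : Type v} [Field E] [CharP E p]
    [LieRing L] [LieAlgebra E L] {a b : E} {u : ℕ → ℕ → L} (h : StdBasis p E L a b u)
    (hp : PInd p a b) : ∃ (K : Type u) (_ : Field K) (_ : Algebra E K) (P : Pois E K) (s t : K)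
      (ι : L →ₗ[E] K), finrank E K = p ^ 2 ∧ (∀ x : K, ∃ c : E, algebraMap E K c = x ^ p) ∧
      s ^ p = algebraMap E K a ∧ t ^ p = algebraMap E K b ∧
      LinearIndependent E (fun x : Fin p × Fin p => s ^ (x.1 : ℕ) * t ^ (x.2 : ℕ)) ∧
      Submodule.span E
        (Set.range fun x : Fin p × Fin p => s ^ (x.1 : ℕ) * t ^ (x.2 : ℕ)) = ⊤ ∧
      P.B s t = s * t ∧
      Function.Injective ι ∧ (∀ x y, ι ⁅x, y⁆ = P.B (ι x) (ι y)) ∧
      (∀ z, P.τ z = 0 → ∃ x, ι x = z) ∧ ∀ x, P.τ (ι x) = 0 := by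
  obtain ⟨ha, hb⟩ := pind_ne hp
  obtain ⟨K, iK, iA, s, t, hs, ht, hdim, hpow, hst, hsp⟩ := exists_field hp
  obtain ⟨P, hP⟩ := exists_pois' p hdim hpow hst
  have hpp : p.Prime := Fact.out
  have hfin : FiniteDimensional E K := by
    apply Module.finite_of_finrank_pos
    rw [hdim]
    exact pow_pos hpp.pos 2
  have hfL : FiniteDimensional E L := h.finite
  have hcK : CharP K p := charP_of_injective_algebraMap (algebraMap E K).injective p
  set bL : Basis {x : Fin p × Fin p // (x.1 : ℕ) + x.2 ≠ 0} E L :=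
    Basis.mk h.indep h.span.ge with hbL
  have hbLa : ∀ x, bL x = u x.1.1 x.1.2 := fun x => by rw [hbL, Basis.mk_apply]
  set ι : L →ₗ[E] K := bL.constr E fun x => s ^ (x.1.1 : ℕ) * t ^ (x.1.2 : ℕ) with hι
  have hιb : ∀ x, ι (bL x) = s ^ (x.1.1 : ℕ) * t ^ (x.1.2 : ℕ) := fun x => by
    rw [hι, Basis.constr_basis]
  -- the values at all `u i j`
  have hz : ∀ i j : ℕ, p ∣ i → p ∣ j → ι (u i j) = 0 := by
    intro i j hi hj
    rw [T0_mod h, Nat.mod_eq_zero_of_dvd hi, Nat.mod_eq_zero_of_dvd hj, h.zero, smul_zero, map_zero]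
  have hu : ∀ i j : ℕ, ¬ (p ∣ i ∧ p ∣ j) → ι (u i j) = s ^ i * t ^ j := by
    intro i j hij
    have h1 : i % p + j % p ≠ 0 := by
      intro h0
      exact hij ⟨Nat.dvd_of_mod_eq_zero (by omega), Nat.dvd_of_mod_eq_zero (by omega)⟩
    have h2 := hιb ⟨(⟨i % p, Nat.mod_lt _ hpp.pos⟩, ⟨j % p, Nat.mod_lt _ hpp.pos⟩), h1⟩
    rw [hbLa] at h2
    rw [T0_mod h, map_smul]
    have h3 : ι (u (i % p) (j % p)) = s ^ (i % p) * t ^ (j % p) := h2
    rw [h3, T0_pow hs i, T0_pow ht j, Algebra.smul_def, map_mul]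
    ring
  have hτ : ∀ x, P.τ (ι x) = 0 := by
    intro x
    have h1 : P.τ ∘ₗ ι = 0 := by
      refine bL.ext fun x => ?_
      rw [LinearMap.comp_apply, hιb, LinearMap.zero_apply]
      apply tau_mon P hs ht ha hb hP
      rintro ⟨h1, h2⟩
      have h3 := Nat.eq_zero_of_dvd_of_lt h1 x.1.1.2
      have h4 := Nat.eq_zero_of_dvd_of_lt h2 x.1.2.2
      exact x.2 (by omega)
    exact LinearMap.congr_fun h1 x
  have hinj : Function.Injective ι := by
    rw [injective_iff_map_eq_zero]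
    intro x hx
    have hli : LinearIndependent E (fun x : {x : Fin p × Fin p // (x.1 : ℕ) + x.2 ≠ 0} =>
        s ^ (x.1.1 : ℕ) * t ^ (x.1.2 : ℕ)) := hst.comp _ Subtype.val_injective
    rw [hι, Basis.constr_def, LinearMap.comp_apply, LinearMap.comp_apply] at hx
    rw [linearIndependent_iff] at hli
    have h1 := hli (bL.repr x) (by
      rw [← hx]
      simp [Finsupp.linearCombination_mapDomain])
    exact bL.repr.map_eq_zero_iff.mp h1
  have hB : ∀ i j k l : ℕ, ι ⁅u i j, u k l⁆ = P.B (ι (u i j)) (ι (u k l)) := by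
    intro i j k l
    by_cases hij : p ∣ i ∧ p ∣ j
    · rw [h.lie, hz i j hij.1 hij.2, map_zero, LinearMap.zero_apply]
      have h1 : ((i : E) * l - j * k) = 0 := by
        rw [(CharP.cast_eq_zero_iff E p i).mpr hij.1, (CharP.cast_eq_zero_iff E p j).mpr hij.2,
          zero_mul, zero_mul, sub_zero]
      rw [h1, zero_smul, map_zero]
    by_cases hkl : p ∣ k ∧ p ∣ l
    · rw [h.lie, hz k l hkl.1 hkl.2, map_zero]
      have h1 : ((i : E) * l - j * k) = 0 := by
        rw [(CharP.cast_eq_zero_iff E p k).mpr hkl.1, (CharP.cast_eq_zero_iff E p l).mpr hkl.2,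
          mul_zero, mul_zero, sub_zero]
      rw [h1, zero_smul, map_zero]
    rw [hu i j hij, hu k l hkl, B_mon P hP, h.lie, map_smul]
    have hc : ((i : K) * l - j * k) = algebraMap E K ((i : E) * l - j * k) := by
      simp only [map_sub, map_mul, map_natCast]
    by_cases hs' : p ∣ i + k ∧ p ∣ j + l
    · have h1 : ((i : E) * l - j * k) = 0 := by
        have e1 : (i : E) + k = 0 := by
          rw [← Nat.cast_add]
          exact (CharP.cast_eq_zero_iff E p _).mpr hs'.1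
        have e2 : (j : E) + l = 0 := by
          rw [← Nat.cast_add]
          exact (CharP.cast_eq_zero_iff E p _).mpr hs'.2
        rw [eq_neg_of_add_eq_zero_left e1, eq_neg_of_add_eq_zero_left e2]
        ring
      rw [hc, h1, zero_smul, map_zero, zero_mul]
    · rw [hu _ _ hs', hc, Algebra.smul_def]
  refine ⟨K, iK, iA, P, s, t, ι, hdim, hpow, hs, ht, hst, hsp, hP, hinj, ?_, ?_, hτ⟩
  · have h1 : LinearMap.mk₂ E (fun x y : L => ι ⁅x, y⁆)
        (fun x x' y => by rw [add_lie, map_add]) (fun c x y => by rw [smul_lie, map_smul])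
        (fun x y y' => by rw [lie_add, map_add]) (fun c x y => by rw [lie_smul, map_smul]) =
        P.B.compl₁₂ ι ι := by
      refine bL.ext fun x => bL.ext fun y => ?_
      rw [LinearMap.mk₂_apply, LinearMap.compl₁₂_apply, hbLa, hbLa]
      exact hB _ _ _ _
    intro x y
    have h2 := LinearMap.congr_fun (LinearMap.congr_fun h1 x) y
    rwa [LinearMap.mk₂_apply, LinearMap.compl₁₂_apply] at h2
  · have h1 : LinearMap.range ι ≤ LinearMap.ker P.τ := by
      rintro _ ⟨x, rfl⟩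
      exact hτ x
    have h2 : finrank E (LinearMap.range ι) = finrank E (LinearMap.ker P.τ) := by
      rw [LinearMap.finrank_range_of_inj hinj, h.finrank_eq]
      exact (P.finrank_PL hdim).symm
    have h3 := Submodule.eq_of_le_of_finrank_eq h1 h2
    intro z hz
    have h4 : z ∈ LinearMap.range ι := by
      rw [h3]
      exact hz
    exact h4
-- END exists_iota'

-- BEGIN exists_tor
private theorem T1_ext {p : ℕ} {E K : Type*} [Field E] [Field K] [Algebra E K] {s t : K}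
    (hsp : Submodule.span E
      (Set.range fun x : Fin p × Fin p => s ^ (x.1 : ℕ) * t ^ (x.2 : ℕ)) = ⊤)
    (D : Module.End E K) (hD : ∀ x y, D (x * y) = x * D y + y * D x) (h1 : D s = 0)
    (h2 : D t = 0) (x : K) : D x = 0 := by
  have h0 : D 1 = 0 := by
    have := hD 1 1
    simp only [mul_one, one_mul] at this
    simpa using this
  have hpow : ∀ z : K, D z = 0 → ∀ n : ℕ, D (z ^ n) = 0 := by
    intro z hz n
    induction n with
    | zero => rw [pow_zero, h0]
    | succ n ih => rw [pow_succ, hD, hz, ih, mul_zero, mul_zero, add_zero]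
  have hx : x ∈ Submodule.span E
      (Set.range fun x : Fin p × Fin p => s ^ (x.1 : ℕ) * t ^ (x.2 : ℕ)) := by
    rw [hsp]
    exact Submodule.mem_top
  induction hx using Submodule.span_induction with
  | mem y hy =>
    obtain ⟨i, rfl⟩ := hy
    simp only
    rw [hD, hpow s h1, hpow t h2, mul_zero, mul_zero, add_zero]
  | zero => exact map_zero D
  | add y z _ _ hy hz => rw [map_add, hy, hz, add_zero]
  | smul e y _ hy => rw [map_smul, hy, smul_zero]

/-- Row T1. `A x = t⁻¹ * P.B x t` and `C x = s⁻¹ * P.B s x`. Leibniz from `P.leib`, `P.leib_left`;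
`A s = s`, `A t = 0`, `C s = 0`, `C t = t`. A linear map with the Leibniz rule which is `0` at `s`
and at `t` is `0` (it is `0` at `s ^ i * t ^ j`, use `hsp`); apply this to `A * C - C * A`, to
`A ^ p - A` and `C ^ p - C` (`pow_leib` of PoisEx.lean) and, for fixed `y`, to the map
`x ↦ P.B x y - (A x * C y - C x * A y)`. Finally `A x = P.B (t⁻¹ * x) t` since `P.B t⁻¹ t = 0`
(`t⁻¹ ∈ P.C t`), so `P.τ (A x) = 0`; in the same way `C x = P.B s (s⁻¹ * x)`. -/
theorem exists_tor {p : ℕ} [Fact p.Prime] {E K : Type*} [Field E] [CharP E p] [Field K]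
    [Algebra E K] (P : Pois E K) {s t : K} (hs : s ≠ 0) (ht : t ≠ 0)
    (hsp : Submodule.span E
      (Set.range fun x : Fin p × Fin p => s ^ (x.1 : ℕ) * t ^ (x.2 : ℕ)) = ⊤)
    (hB : P.B s t = s * t) : Nonempty (Tor p P s t) := by
  have hp : p ≠ 0 := (Fact.out : p.Prime).ne_zero
  obtain ⟨A, hA⟩ : ∃ A : Module.End E K, ∀ x, A x = t⁻¹ * P.B x t :=
    ⟨(LinearMap.mulLeft E t⁻¹) ∘ₗ (P.B.flip t), fun x => rfl⟩
  obtain ⟨C, hC⟩ : ∃ C : Module.End E K, ∀ x, C x = s⁻¹ * P.B s x :=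
    ⟨(LinearMap.mulLeft E s⁻¹) ∘ₗ (P.B s), fun x => rfl⟩
  have leibA : ∀ x y, A (x * y) = x * A y + y * A x := by
    intro x y
    rw [hA, hA, hA, P.leib_left]
    ring
  have leibC : ∀ x y, C (x * y) = x * C y + y * C x := by
    intro x y
    rw [hC, hC, hC, P.leib]
    ring
  have As : A s = s := by
    rw [hA, hB]
    field_simp
  have At : A t = 0 := by rw [hA, P.alt, mul_zero]
  have Cs : C s = 0 := by rw [hC, P.alt, mul_zero]
  have Ct : C t = t := by
    rw [hC, hB]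
    field_simp
  have powself : ∀ (D : Module.End E K) (z : K), D z = z → ∀ n, (D ^ n) z = z := by
    intro D z hz n
    induction n with
    | zero => rfl
    | succ n ih => rw [pow_succ, Module.End.mul_apply, hz, ih]
  have powzero : ∀ (D : Module.End E K) (z : K), D z = 0 → (D ^ p) z = 0 := by
    intro D z hz
    obtain ⟨m, hm⟩ := Nat.exists_eq_succ_of_ne_zero hp
    rw [hm, pow_succ, Module.End.mul_apply, hz, map_zero]
  have hsinv : P.B s s⁻¹ = 0 := (P.C s).inv_mem (P.self_mem s)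
  have htinv : P.B t t⁻¹ = 0 := (P.C t).inv_mem (P.self_mem t)
  refine ⟨⟨A, C, leibA, leibC, As, At, Cs, Ct, ?_, ?_, ?_, ?_, ?_, ?_⟩⟩
  · intro x
    have h := T1_ext hsp (A * C - C * A) (fun x y => by
      simp only [LinearMap.sub_apply, Module.End.mul_apply, leibA, leibC, map_add]
      ring) (by simp only [LinearMap.sub_apply, Module.End.mul_apply, As, Cs, map_zero, sub_zero])
      (by simp only [LinearMap.sub_apply, Module.End.mul_apply, At, Ct, map_zero, sub_zero]) x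
    rw [LinearMap.sub_apply, Module.End.mul_apply, Module.End.mul_apply] at h
    exact sub_eq_zero.mp h
  · intro x
    have h := T1_ext hsp (A ^ p - A) (fun x y => by
      rw [LinearMap.sub_apply, pow_leib A leibA, leibA, LinearMap.sub_apply, LinearMap.sub_apply]
      ring) (by rw [LinearMap.sub_apply, powself A s As, As, sub_self])
      (by rw [LinearMap.sub_apply, powzero A t At, At, sub_self]) x
    rw [LinearMap.sub_apply] at h
    exact sub_eq_zero.mp h
  · intro x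
    have h := T1_ext hsp (C ^ p - C) (fun x y => by
      rw [LinearMap.sub_apply, pow_leib C leibC, leibC, LinearMap.sub_apply, LinearMap.sub_apply]
      ring) (by rw [LinearMap.sub_apply, powzero C s Cs, Cs, sub_self])
      (by rw [LinearMap.sub_apply, powself C t Ct, Ct, sub_self]) x
    rw [LinearMap.sub_apply] at h
    exact sub_eq_zero.mp h
  · intro x y
    obtain ⟨D, hD⟩ : ∃ D : Module.End E K, ∀ x, D x = P.B x y - (A x * C y - C x * A y) :=
      ⟨P.B.flip y - ((LinearMap.mulLeft E (C y)) ∘ₗ A - (LinearMap.mulLeft E (A y)) ∘ₗ C),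
        fun x => by
          simp only [LinearMap.sub_apply, LinearMap.comp_apply, LinearMap.mulLeft_apply,
            LinearMap.flip_apply]
          ring⟩
    have h := T1_ext hsp D (fun x z => by
      rw [hD, hD, hD, P.leib_left, leibA, leibC]
      ring) (by
        rw [hD, As, Cs, hC y]
        field_simp
        ring) (by
        rw [hD, At, Ct, hA y, P.anti t y]
        field_simp
        ring) x
    rw [hD] at h
    exact sub_eq_zero.mp h
  · intro x
    have h : A x = P.B (t⁻¹ * x) t := by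
      rw [P.leib_left, P.anti t⁻¹ t, htinv, neg_zero, mul_zero, add_zero, hA]
    rw [h, P.τ_B]
  · intro x
    have h : C x = P.B s (s⁻¹ * x) := by
      rw [P.leib, hsinv, mul_zero, add_zero, hC]
    rw [h, P.τ_B]
-- END exists_tor

-- BEGIN Tor.pow_eq_self
private theorem T2_one {E K : Type*} [Field E] [Field K] [Algebra E K] {D : Module.End E K}
    (hD : ∀ x y, D (x * y) = x * D y + y * D x) (c : E) : D (algebraMap E K c) = 0 := by
  have h1 : D 1 = 0 := by
    have := hD 1 1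
    simp only [mul_one, one_mul] at this
    simpa using this
  rw [Algebra.algebraMap_eq_smul_one, map_smul, h1, smul_zero]

private theorem T2_pow {p : ℕ} [Fact p.Prime] {E K : Type*} [Field E] [CharP E p] [Field K]
    [Algebra E K] {D : Module.End E K} (hD : ∀ x y, D (x * y) = x * D y + y * D x)
    (hDp : ∀ x, (D ^ p) x = D x) {x : K} (hx : x ≠ 0) {c : E} (hc : algebraMap E K c = x ^ p) :
    (x⁻¹ * D x) ^ p = x⁻¹ * D x - (D ^ (p - 1)) (x⁻¹ * D x) := by
  have hp1 : 1 ≤ p := (Fact.out : p.Prime).one_le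
  have h0 : p - 1 + 1 = p := Nat.sub_add_cancel hp1
  have hxp : x ^ p ≠ 0 := pow_ne_zero _ hx
  have hlin : ∀ y, D (x ^ p * y) = x ^ p * D y := by
    intro y
    rw [← hc, ← Algebra.smul_def, map_smul, Algebra.smul_def]
  have h1 := hochschild p D hD x hx hlin
  have h2 : x ^ (p - 1) * D x = c • (x⁻¹ * D x) := by
    rw [Algebra.smul_def, hc]
    have : x ^ p = x ^ (p - 1) * x := by rw [← pow_succ, h0]
    rw [this]
    field_simp
  have h3 : (D ^ (p - 1)) (x ^ (p - 1) * D x) = x ^ p * (D ^ (p - 1)) (x⁻¹ * D x) := by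
    rw [h2, map_smul, Algebra.smul_def, hc]
  rw [h3, hDp] at h1
  have h4 : x ^ (p - 1) * D x = x ^ p * (x⁻¹ * D x) := by
    rw [h2, Algebra.smul_def, hc]
  have h5 : (D x) ^ p = x ^ p * (x⁻¹ * D x) ^ p := by
    rw [← mul_pow, mul_inv_cancel_left₀ hx]
  rw [h4, h5, ← mul_sub] at h1
  have h6 := mul_left_cancel₀ hxp h1
  rw [h6, sub_sub_cancel]

private theorem T2_adj {E K : Type*} [Field E] [Field K] [Algebra E K] {τ : K →ₗ[E] E}
    {D : Module.End E K} (hD : ∀ x y, D (x * y) = x * D y + y * D x) (hτ : ∀ x, τ (D x) = 0)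
    (x y : K) : τ (D x * y) = -τ (x * D y) := by
  have h1 := hτ (x * y)
  rw [hD, map_add, mul_comm y] at h1
  rw [eq_neg_iff_add_eq_zero, add_comm]
  exact h1

private theorem T2_adjn {E K : Type*} [Field E] [Field K] [Algebra E K] {τ : K →ₗ[E] E}
    {D : Module.End E K} (hD : ∀ x y, D (x * y) = x * D y + y * D x) (hτ : ∀ x, τ (D x) = 0)
    (n : ℕ) (x y : K) : τ ((D ^ n) x * y) = (-1) ^ n * τ (x * (D ^ n) y) := by
  induction n generalizing y with
  | zero => simp
  | succ n ih =>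
    rw [pow_succ', Module.End.mul_apply, T2_adj hD hτ, ih (D y), ← Module.End.mul_apply,
      ← pow_succ, ← pow_succ', pow_succ' (-1 : E)]
    ring

private theorem T2_mixed {E K : Type*} [Field E] [Field K] [Algebra E K]
    {A C : Module.End E K} (hA : ∀ x y, A (x * y) = x * A y + y * A x)
    (hC : ∀ x y, C (x * y) = x * C y + y * C x) (hAC : ∀ x, A (C x) = C (A x)) {x : K}
    (hx : x ≠ 0) : A (x⁻¹ * C x) = C (x⁻¹ * A x) := by
  have e1 : x * (x⁻¹ * C x) = C x := mul_inv_cancel_left₀ hx _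
  have e2 : x * (x⁻¹ * A x) = A x := mul_inv_cancel_left₀ hx _
  have h1 := hA x (x⁻¹ * C x)
  have h2 := hC x (x⁻¹ * A x)
  rw [e1, hAC] at h1
  rw [e2] at h2
  rw [h1] at h2
  have h3 : (x⁻¹ * C x) * A x = (x⁻¹ * A x) * C x := by ring
  rw [h3] at h2
  exact mul_left_cancel₀ hx (add_right_cancel h2)

/-- Row T2. Put `f₁ = A s' / s'`, `f₂ = C s' / s'`, `g₁ = A t' / t'`, `g₂ = C t' / t'`.
(i) `f₁ ^ p = f₁ - (A ^ (p - 1)) f₁`, `g₁ ^ p = g₁ - (A ^ (p - 1)) g₁`, `f₂ ^ p = f₂ - (C ^ (p - 1)) f₂`,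
`g₂ ^ p = g₂ - (C ^ (p - 1)) g₂`: this is `hochschild` (JacC.lean) with `D = A` or `C`, divided by
`s' ^ p` or `t' ^ p`, which is in `E` (`hpow`). (ii) `A f₂ = C f₁` and `A g₂ = C g₁` (quotient rule
and `T.comm`). (iii) `τ (A x * y) = - τ (x * A y)` and the same for `C` (`leibA`, `tauA`); `A`
and `C` commute; so `τ ((A ^ (p - 1)) x * y) = τ (x * (A ^ (p - 1)) y)` as `(- 1) ^ (p - 1) = 1` in
`E` (`neg_one_pow_pred` in Jac.lean), the same for `C`.
(iv) The `p`-th powers of `f₁, f₂, g₁, g₂` are in `E`, say `c₁, c₂, d₁, d₂`; by (i) `c₁ = τ f₁` etc.,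
since `τ (A ^ (p - 1) x) = 0`. Now `v = f₁ g₂ - f₂ g₁` (`T.B`), so `v ^ p = c₁ d₂ - c₂ d₁`, and
`v = τ (f₁ g₂) - τ (f₂ g₁)`, `τ (f₁ g₂) = c₁ τ g₂ + τ ((A ^ (p - 1)) f₁ * g₂)
= c₁ d₂ + τ ((A ^ (p - 1)) f₁ * g₂)`, `τ (f₂ g₁) = c₂ d₁ + τ ((C ^ (p - 1)) f₂ * g₁)`. It
remains to see that `X = τ ((A ^ (p - 1)) f₁ * g₂)` and `Y = τ ((C ^ (p - 1)) f₂ * g₁)` are equal.
`X = - τ ((A ^ (p - 2)) f₁ * A g₂) = - τ ((A ^ (p - 2)) f₁ * C g₁) = τ ((A ^ (p - 2)) (C f₁) * g₁)
= τ ((A ^ (p - 1)) f₂ * g₁)`. And, as `g₁ = d₁ + (A ^ (p - 1)) g₁` and `τ (C ^ (p - 1) f₂) = 0`,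
`Y = τ ((C ^ (p - 1)) f₂ * (A ^ (p - 1)) g₁) = τ ((A ^ (p - 1)) ((C ^ (p - 1)) f₂) * g₁)
= τ ((A ^ (p - 1)) (f₂ - c₂) * g₁) = τ ((A ^ (p - 1)) f₂ * g₁)` (`A` is `0` on `E`, `p - 1 ≥ 1`). -/
theorem Tor.pow_eq_self {p : ℕ} [Fact p.Prime] {E K : Type*} [Field E] [CharP E p] [Field K]
    [Algebra E K] {P : Pois E K} {s t : K} (T : Tor p P s t)
    (hpow : ∀ x : K, ∃ c : E, algebraMap E K c = x ^ p) {s' t' : K} (hs' : s' ≠ 0) (ht' : t' ≠ 0)
    {v : E} (hv : P.B s' t' = algebraMap E K v * (s' * t')) : v ^ p = v := by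
  have hp2 : 2 ≤ p := (Fact.out : p.Prime).two_le
  haveI : CharP K p := charP_of_injective_algebraMap (algebraMap E K).injective p
  obtain ⟨k, hk⟩ : ∃ k, p - 1 = k + 1 := ⟨p - 2, by omega⟩
  obtain ⟨cs, hcs⟩ := hpow s'
  obtain ⟨ct, hct⟩ := hpow t'
  set f₁ : K := s'⁻¹ * T.A s' with hf₁
  set f₂ : K := s'⁻¹ * T.C s' with hf₂
  set g₁ : K := t'⁻¹ * T.A t' with hg₁
  set g₂ : K := t'⁻¹ * T.C t' with hg₂
  obtain ⟨c₁, hc₁⟩ := hpow f₁
  obtain ⟨c₂, hc₂⟩ := hpow f₂
  obtain ⟨d₁, hd₁⟩ := hpow g₁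
  obtain ⟨d₂, hd₂⟩ := hpow g₂
  have if₁ : f₁ ^ p = f₁ - (T.A ^ (p - 1)) f₁ := T2_pow T.leibA T.powA hs' hcs
  have if₂ : f₂ ^ p = f₂ - (T.C ^ (p - 1)) f₂ := T2_pow T.leibC T.powC hs' hcs
  have ig₁ : g₁ ^ p = g₁ - (T.A ^ (p - 1)) g₁ := T2_pow T.leibA T.powA ht' hct
  have ig₂ : g₂ ^ p = g₂ - (T.C ^ (p - 1)) g₂ := T2_pow T.leibC T.powC ht' hct
  have ef₁ : f₁ = algebraMap E K c₁ + (T.A ^ (p - 1)) f₁ := by rw [hc₁, if₁, sub_add_cancel]
  have ef₂ : f₂ = algebraMap E K c₂ + (T.C ^ (p - 1)) f₂ := by rw [hc₂, if₂, sub_add_cancel]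
  have eg₁ : g₁ = algebraMap E K d₁ + (T.A ^ (p - 1)) g₁ := by rw [hd₁, ig₁, sub_add_cancel]
  have eg₂ : g₂ = algebraMap E K d₂ + (T.C ^ (p - 1)) g₂ := by rw [hd₂, ig₂, sub_add_cancel]
  have mf : T.A f₂ = T.C f₁ := T2_mixed T.leibA T.leibC T.comm hs'
  have mg : T.A g₂ = T.C g₁ := T2_mixed T.leibA T.leibC T.comm ht'
  have tal : ∀ c : E, P.τ (algebraMap E K c) = c := by
    intro c
    rw [Algebra.algebraMap_eq_smul_one, map_smul, P.τ_one, smul_eq_mul, mul_one]
  have tAn : ∀ x, P.τ ((T.A ^ (p - 1)) x) = 0 := by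
    intro x
    rw [hk, pow_succ', Module.End.mul_apply]
    exact T.tauA _
  have tCn : ∀ x, P.τ ((T.C ^ (p - 1)) x) = 0 := by
    intro x
    rw [hk, pow_succ', Module.End.mul_apply]
    exact T.tauC _
  have tg₂ : P.τ g₂ = d₂ := by rw [eg₂, map_add, tal, tCn, add_zero]
  have tg₁ : P.τ g₁ = d₁ := by rw [eg₁, map_add, tal, tAn, add_zero]
  have hvv : algebraMap E K v = f₁ * g₂ - f₂ * g₁ := by
    have h1 : s' * t' ≠ 0 := mul_ne_zero hs' ht'
    apply mul_right_cancel₀ h1
    rw [← hv, T.B, hf₁, hf₂, hg₁, hg₂]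
    field_simp
  have hvp : v ^ p = c₁ * d₂ - c₂ * d₁ := by
    apply (algebraMap E K).injective
    rw [map_pow, hvv, sub_pow_char, mul_pow f₁ g₂, mul_pow f₂ g₁, ← hc₁, ← hc₂, ← hd₁, ← hd₂,
      map_sub, map_mul, map_mul]
  have hv1 : v = P.τ (f₁ * g₂) - P.τ (f₂ * g₁) := by
    rw [← map_sub, ← hvv, tal]
  have h1 : P.τ (f₁ * g₂) = c₁ * d₂ + P.τ ((T.A ^ (p - 1)) f₁ * g₂) := by
    conv_lhs => rw [ef₁]
    rw [add_mul, map_add, ← Algebra.smul_def, map_smul, tg₂, smul_eq_mul]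
  have h2 : P.τ (f₂ * g₁) = c₂ * d₁ + P.τ ((T.C ^ (p - 1)) f₂ * g₁) := by
    conv_lhs => rw [ef₂]
    rw [add_mul, map_add, ← Algebra.smul_def, map_smul, tg₁, smul_eq_mul]
  have hcomm : ∀ n x, T.C ((T.A ^ n) x) = (T.A ^ n) (T.C x) := by
    intro n
    induction n with
    | zero => intro x; rfl
    | succ n ih =>
      intro x
      rw [pow_succ', Module.End.mul_apply, Module.End.mul_apply, ← T.comm, ih]
  have hX : P.τ ((T.A ^ (p - 1)) f₁ * g₂) = P.τ ((T.A ^ (p - 1)) f₂ * g₁) := by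
    rw [hk, pow_succ', Module.End.mul_apply, T2_adj T.leibA T.tauA, mg,
      ← T2_adj T.leibC T.tauC, hcomm, ← mf, ← Module.End.mul_apply, ← pow_succ, pow_succ']
  have hY : P.τ ((T.C ^ (p - 1)) f₂ * g₁) = P.τ ((T.A ^ (p - 1)) f₂ * g₁) := by
    have e1 : P.τ ((T.C ^ (p - 1)) f₂ * g₁) =
        P.τ ((T.C ^ (p - 1)) f₂ * (T.A ^ (p - 1)) g₁) := by
      conv_lhs => rw [eg₁]
      rw [mul_add, map_add, mul_comm _ (algebraMap E K d₁), ← Algebra.smul_def, map_smul, tCn,
        smul_zero, zero_add]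
    have e2 := T2_adjn T.leibA T.tauA (p - 1) ((T.C ^ (p - 1)) f₂) g₁
    rw [neg_one_pow_pred p E, one_mul] at e2
    rw [e1, ← e2]
    have e3 : (T.C ^ (p - 1)) f₂ = f₂ - algebraMap E K c₂ := by
      rw [hc₂, if₂, sub_sub_cancel]
    have e4 : (T.A ^ (p - 1)) (algebraMap E K c₂) = 0 := by
      rw [hk, pow_succ, Module.End.mul_apply, T2_one T.leibA, map_zero]
    rw [e3, map_sub, e4, sub_zero]
  rw [hvp]
  conv_rhs => rw [hv1, h1, h2, hX, hY]
  ring
-- END Tor.pow_eq_self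

-- BEGIN mem_of_comm
/-- Row T3. The subfield `P.C w` contains `x` and `y`. Suppose it is not `⊤`. `x ∉ ⊥` (otherwise
`P.B x y = 0`), so `finrank E (P.C w) = p` (`Pois.finrank_of_ne hdim`), and the subfield
`IntermediateField.adjoin E {x}` is `≤ P.C w` and `≤ P.C x ≠ ⊤`, so it has degree `p` too and is
equal to `P.C w` (`IntermediateField.eq_of_le_of_finrank_eq`); so `y ∈ adjoin E {x} ≤ P.C x` and
`P.B x y = 0`: contradiction. So `P.C w = ⊤`; use `P.cen`. -/
theorem mem_of_comm {p : ℕ} [Fact p.Prime] {E K : Type*} [Field E] [CharP E p] [Field K]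
    [Algebra E K] (P : Pois E K) (hdim : finrank E K = p ^ 2) {x y w : K} (hxy : P.B x y ≠ 0)
    (h1 : P.B w x = 0) (h2 : P.B w y = 0) : ∃ c : E, algebraMap E K c = w := by
  have hpos : 0 < finrank E K := by
    rw [hdim]
    exact pow_pos (Fact.out (p := p.Prime)).pos 2
  have hfin : FiniteDimensional E K := Module.finite_of_finrank_pos hpos
  have hyx : P.B y x ≠ 0 := fun h => hxy (by rw [P.anti, h, neg_zero])
  have hwx : w ∈ P.C x := P.C_symm.mp (P.mem_C.mpr h1)
  have hwy : w ∈ P.C y := P.C_symm.mp (P.mem_C.mpr h2)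
  have hbot : P.C x ⊓ P.C y = ⊥ := by
    by_contra hne
    have htop : P.C x ⊓ P.C y ≠ ⊤ := by
      intro h3
      have h4 : y ∈ P.C x ⊓ P.C y := by
        rw [h3]
        exact IntermediateField.mem_top
      exact hxy h4.1
    have h3 := (Pois.finrank_of_ne hdim hne htop).1
    have h4 := (P.finrank_C hdim hxy).1
    have h5 : P.C x ⊓ P.C y = P.C x :=
      IntermediateField.eq_of_le_of_finrank_eq inf_le_left (h3.trans h4.symm)
    have h6 : x ∈ P.C x ⊓ P.C y := by
      rw [h5]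
      exact P.self_mem x
    exact hyx h6.2
  have h3 : w ∈ P.C x ⊓ P.C y := ⟨hwx, hwy⟩
  rw [hbot, IntermediateField.mem_bot] at h3
  exact h3
-- END mem_of_comm

-- BEGIN exists_st
private theorem T4_pow {E K : Type*} [Field E] [Field K] [Algebra E K] (P : Pois E K)
    {f : K} {z : ℕ → K} {c : K} (hc : c ∈ P.C f) (h : ∀ k, P.B f (z k) = c * z (k + 1))
    (n k : ℕ) : ((P.B f) ^ n) (z k) = c ^ n * z (k + n) := by
  induction n with
  | zero => simp
  | succ n ih =>
    rw [pow_succ', Module.End.mul_apply, ih, P.C_lin (pow_mem hc n), h, pow_succ, mul_assoc,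
      add_assoc]

private theorem T4_geom {K : Type*} [Field K] {z : ℕ → K} {c : K}
    (h : ∀ k, z (k + 1) = c * z k) (n : ℕ) : z n = c ^ n * z 0 := by
  induction n with
  | zero => simp
  | succ n ih => rw [h, ih, pow_succ, mul_assoc, mul_left_comm, ← mul_assoc, mul_comm (c ^ n) c]

/-- Row T4. Put `x = z 1 0`, `y = z 0 1`; `P.B x y = z 1 1`, `P.B x (z k l) = l z (k + 1) l`, so
`(P.B x ^ p) (z k l) = l ^ p z (k + p) l = l a' z k l`, and `P.B y (z k l) = - k z k (l + 1)`,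
`(P.B y ^ p) (z k l) = - k b' z k l`. By `Pois.exists_c'` there are `h ∈ P.C x`, `h ≠ 0`, with
`(P.B x ^ p) z = h * P.B x z` for all `z`, and `h' ∈ P.C y`, `h' ≠ 0`, for `y`. So `a' z k l =
h z (k + 1) l` if `p ∤ l` and `b' z k l = h' z k (l + 1)` if `p ∤ k`; in particular `a' y = h z 1 1`,
`b' x = h' z 1 1` and `a' ≠ 0`, `b' ≠ 0`. Put `s' = a' / h ∈ P.C x`, `t' = b' / h' ∈ P.C y`:
`z (k + 1) 1 = s' z k 1`, so `z p 1 = s' ^ p z 0 1 = a' z 0 1` and `s' ^ p = a'`; the same for `t'`.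
`z 1 1 = s' y = t' x`. So `W = x / s' = y / t'` is in `P.C x` and in `P.C y`; by `mem_of_comm` it is
some `w ∈ E`. `P.B x y = w ^ 2 P.B s' t' = z 1 1 = w s' t'`. -/
theorem exists_st {p : ℕ} [Fact p.Prime] {E K : Type*} [Field E] [CharP E p] [Field K]
    [Algebra E K] (P : Pois E K) (hdim : finrank E K = p ^ 2)
    (hpow : ∀ x : K, ∃ c : E, algebraMap E K c = x ^ p) {a' b' : E} {z : ℕ → ℕ → K}
    (hl : ∀ i j, z (i + p) j = algebraMap E K a' * z i j)
    (hr : ∀ i j, z i (j + p) = algebraMap E K b' * z i j)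
    (hB : ∀ i j k l, P.B (z i j) (z k l) = ((i : K) * l - j * k) * z (i + k) (j + l))
    (h0 : z 1 1 ≠ 0) : a' ≠ 0 ∧ b' ≠ 0 ∧ ∃ (s' t' : K) (w : E), w ≠ 0 ∧
      s' ^ p = algebraMap E K a' ∧ t' ^ p = algebraMap E K b' ∧
      algebraMap E K w * P.B s' t' = s' * t' := by
  have hK : CharP K p := charP_of_injective_algebraMap (algebraMap E K).injective p
  have hnat : ∀ n : ℕ, ((n : K)) ^ p = n := fun n => by
    rw [← frobenius_def, map_natCast]
  have h1 : ∀ k l, P.B (z 1 0) (z k l) = (l : K) * z (k + 1) l := by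
    intro k l
    rw [hB, add_comm 1 k, zero_add]
    push_cast
    ring
  have h2 : ∀ k l, P.B (z 0 1) (z k l) = (-(k : K)) * z k (l + 1) := by
    intro k l
    rw [hB, add_comm 1 l, zero_add]
    push_cast
    ring
  have hxy : P.B (z 1 0) (z 0 1) ≠ 0 := by
    rw [h1]
    simpa using h0
  have hyx : P.B (z 0 1) (z 1 0) ≠ 0 := by
    rw [P.anti]
    exact neg_ne_zero.mpr hxy
  obtain ⟨h, hhC, hh0, hh, -⟩ := P.exists_c' hdim hpow hxy
  obtain ⟨h', hhC', hh0', hh', -⟩ := P.exists_c' hdim hpow hyx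
  have hI : ∀ k, algebraMap E K a' * z k 1 = h * z (k + 1) 1 := by
    intro k
    have e1 := T4_pow P (f := z 1 0) (z := fun k => z k 1) (c := 1) (one_mem _)
      (fun k => by rw [h1]; push_cast; ring) p k
    simp only [one_pow, one_mul] at e1
    rw [hh, hl, h1] at e1
    rw [← e1]
    push_cast
    ring
  have hII : ∀ l, algebraMap E K b' * z 1 l = h' * z 1 (l + 1) := by
    intro l
    have e1 := T4_pow P (f := z 0 1) (z := fun l => z 1 l) (c := -1)
      (neg_mem (one_mem _)) (fun k => by rw [h2]; push_cast; ring) p l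
    have e2 : (-1 : K) ^ p = -1 := by
      have e3 := hnat 1
      rw [← frobenius_def, map_neg, map_one]
    simp only [e2] at e1
    rw [hh', hr, h2] at e1
    have e3 : h' * (-((1 : ℕ) : K) * z 1 (l + 1)) = -1 * (algebraMap E K b' * z 1 l) := e1
    push_cast at e3
    linear_combination e3
  have ha : a' ≠ 0 := by
    rintro rfl
    have e1 := hI 0
    rw [map_zero, zero_mul] at e1
    exact mul_ne_zero hh0 h0 e1.symm
  have hb : b' ≠ 0 := by
    rintro rfl
    have e1 := hII 0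
    rw [map_zero, zero_mul] at e1
    exact mul_ne_zero hh0' h0 e1.symm
  have hA : algebraMap E K a' ≠ 0 := by simpa using ha
  have hB' : algebraMap E K b' ≠ 0 := by simpa using hb
  have hx0 : z 1 0 ≠ 0 := by
    intro e
    exact hxy (by rw [e, map_zero, LinearMap.zero_apply])
  have hy0 : z 0 1 ≠ 0 := by
    intro e
    exact hxy (by rw [e, map_zero])
  set s' : K := algebraMap E K a' / h with hs'
  set t' : K := algebraMap E K b' / h' with ht'
  have hs0 : s' ≠ 0 := div_ne_zero hA hh0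
  have ht0 : t' ≠ 0 := div_ne_zero hB' hh0'
  have hsz : ∀ k, z (k + 1) 1 = s' * z k 1 := by
    intro k
    rw [hs', div_mul_eq_mul_div, eq_div_iff hh0, mul_comm, hI]
  have htz : ∀ l, z 1 (l + 1) = t' * z 1 l := by
    intro l
    rw [ht', div_mul_eq_mul_div, eq_div_iff hh0', mul_comm, hII]
  have hsp : s' ^ p = algebraMap E K a' := by
    have e1 := T4_geom (z := fun k => z k 1) hsz p
    have e2 := hl 0 1
    rw [zero_add] at e2
    simp only [e2] at e1
    exact (mul_right_cancel₀ hy0 e1).symm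
  have htp : t' ^ p = algebraMap E K b' := by
    have e1 := T4_geom (z := fun l => z 1 l) htz p
    have e2 := hr 1 0
    rw [zero_add] at e2
    simp only [e2] at e1
    exact (mul_right_cancel₀ hx0 e1).symm
  have e3 : z 1 1 = s' * z 0 1 := hsz 0
  have e4 : z 1 1 = t' * z 1 0 := htz 0
  have hW : z 1 0 / s' = z 0 1 / t' := by
    rw [div_eq_div_iff hs0 ht0, mul_comm (z 1 0), ← e4, e3, mul_comm]
  have hWx : P.B (z 1 0 / s') (z 1 0) = 0 := by
    have e5 : z 1 0 / s' ∈ P.C (z 1 0) :=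
      div_mem (P.self_mem _) (div_mem ((P.C (z 1 0)).algebraMap_mem a') hhC)
    rw [P.anti, P.mem_C.mp e5, neg_zero]
  have hWy : P.B (z 1 0 / s') (z 0 1) = 0 := by
    have e5 : z 1 0 / s' ∈ P.C (z 0 1) := by
      rw [hW]
      exact div_mem (P.self_mem _) (div_mem ((P.C (z 0 1)).algebraMap_mem b') hhC')
    rw [P.anti, P.mem_C.mp e5, neg_zero]
  obtain ⟨w, hw⟩ := mem_of_comm P hdim hxy hWx hWy
  have hw0 : algebraMap E K w ≠ 0 := by
    rw [hw]
    exact div_ne_zero hx0 hs0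
  have hx : z 1 0 = w • s' := by
    rw [Algebra.smul_def, hw, div_mul_cancel₀ _ hs0]
  have hy : z 0 1 = w • t' := by
    rw [Algebra.smul_def, hw, hW, div_mul_cancel₀ _ ht0]
  refine ⟨ha, hb, s', t', w, ?_, hsp, htp, ?_⟩
  · rintro rfl
    exact hw0 (map_zero _)
  · have e6 : P.B (z 1 0) (z 0 1) = z 1 1 := by
      rw [h1]
      push_cast
      ring
    have e7 : P.B (w • s') (w • t') = w • (w • P.B s' t') := by
      rw [map_smul, map_smul, LinearMap.smul_apply]
    rw [e3, hx, hy, e7, Algebra.smul_def, Algebra.smul_def, Algebra.smul_def] at e6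
    apply mul_left_cancel₀ hw0
    rw [e6]
    ring
-- END exists_st

-- BEGIN Tor.der_pow
private theorem T5_pow {K : Type*} [Field K] {f : K → K}
    (hf : ∀ x y, f (x * y) = x * f y + y * f x) {x : K} {n : K} (hx : f x = n * x) (i : ℕ) :
    f (x ^ i) = i * n * x ^ i := by
  induction i with
  | zero =>
    have h1 := hf 1 1
    rw [mul_one, one_mul] at h1
    have h2 : f 1 = 0 := by linear_combination -h1
    rw [pow_zero, h2, Nat.cast_zero, zero_mul, zero_mul]
  | succ i ih =>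
    rw [pow_succ, hf, ih, hx, Nat.cast_add, Nat.cast_one]
    ring

private theorem T5_der {E : Type*} [Field E] (D : Derivation ℤ E E) (a : E) (i : ℕ) :
    a * D (a ^ i) = i * a ^ i * D a := by
  have h := T5_pow (f := fun x => a * D x) (x := a) (n := D a)
    (fun x y => by simp only [Derivation.leibniz, smul_eq_mul]; ring) (mul_comm _ _) i
  rw [h]
  ring

private theorem T5_aux {p : ℕ} [Fact p.Prime] {E K : Type*} [Field E] [CharP E p] [Field K]
    [Algebra E K] {P : Pois E K} {s t : K} (T : Tor p P s t) {a b : E}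
    (hs : s ^ p = algebraMap E K a) (ht : t ^ p = algebraMap E K b)
    (hsp : Submodule.span E
      (Set.range fun x : Fin p × Fin p => s ^ (x.1 : ℕ) * t ^ (x.2 : ℕ)) = ⊤)
    (D : Derivation ℤ E E) (z : K) : ∃ c α β : E, z ^ p = algebraMap E K c ∧
      (T.A z) ^ p = algebraMap E K α ∧ (T.C z) ^ p = algebraMap E K β ∧
      a * b * D c = b * α * D a + a * β * D b := by
  have hp0 : p ≠ 0 := (Fact.out : p.Prime).ne_zero
  have : CharP K p := charP_of_injective_algebraMap (algebraMap E K).injective p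
  have : ExpChar K p := ExpChar.prime Fact.out
  have hz : z ∈ Submodule.span E
      (Set.range fun x : Fin p × Fin p => s ^ (x.1 : ℕ) * t ^ (x.2 : ℕ)) := by
    rw [hsp]
    trivial
  induction hz using Submodule.span_induction with
  | mem z hz =>
    obtain ⟨⟨i, j⟩, rfl⟩ := hz
    have hA : T.A (s ^ (i : ℕ) * t ^ (j : ℕ)) = (i : ℕ) * (s ^ (i : ℕ) * t ^ (j : ℕ)) := by
      rw [T.leibA, T5_pow (f := T.A) T.leibA (x := s) (n := 1) (by rw [T.As, one_mul]) i,
        T5_pow (f := T.A) T.leibA (x := t) (n := 0) (by rw [T.At, zero_mul]) j]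
      ring
    have hC : T.C (s ^ (i : ℕ) * t ^ (j : ℕ)) = (j : ℕ) * (s ^ (i : ℕ) * t ^ (j : ℕ)) := by
      rw [T.leibC, T5_pow (f := T.C) T.leibC (x := s) (n := 0) (by rw [T.Cs, zero_mul]) i,
        T5_pow (f := T.C) T.leibC (x := t) (n := 1) (by rw [T.Ct, one_mul]) j]
      ring
    have hi : ∀ n : ℕ, ((n : K)) ^ p = n := fun n => by
      rw [← frobenius_def, map_natCast]
    have hmon : (s ^ (i : ℕ) * t ^ (j : ℕ)) ^ p = algebraMap E K (a ^ (i : ℕ) * b ^ (j : ℕ)) := by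
      rw [mul_pow, ← pow_mul, ← pow_mul, mul_comm (i : ℕ) p, mul_comm (j : ℕ) p, pow_mul, pow_mul,
        hs, ht, map_mul, map_pow, map_pow]
    refine ⟨a ^ (i : ℕ) * b ^ (j : ℕ), (i : ℕ) * (a ^ (i : ℕ) * b ^ (j : ℕ)),
      (j : ℕ) * (a ^ (i : ℕ) * b ^ (j : ℕ)), hmon, ?_, ?_, ?_⟩
    · rw [hA, mul_pow, hi, hmon, map_mul (algebraMap E K) ((i : ℕ) : E), map_natCast]
    · rw [hC, mul_pow, hi, hmon, map_mul (algebraMap E K) ((j : ℕ) : E), map_natCast]
    · rw [Derivation.leibniz, smul_eq_mul, smul_eq_mul]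
      linear_combination (a * a ^ (i : ℕ)) * T5_der D b j + (b * b ^ (j : ℕ)) * T5_der D a i
  | zero =>
    exact ⟨0, 0, 0, by simp [hp0], by simp [hp0], by simp [hp0], by simp⟩
  | add x y hx hy ihx ihy =>
    obtain ⟨c, α, β, h1, h2, h3, h4⟩ := ihx
    obtain ⟨c', α', β', h1', h2', h3', h4'⟩ := ihy
    refine ⟨c + c', α + α', β + β', ?_, ?_, ?_, ?_⟩
    · rw [add_pow_char, h1, h1', map_add]
    · rw [map_add, add_pow_char, h2, h2', map_add]
    · rw [map_add, add_pow_char, h3, h3', map_add]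
    · rw [map_add]
      linear_combination h4 + h4'
  | smul e x hx ihx =>
    obtain ⟨c, α, β, h1, h2, h3, h4⟩ := ihx
    have he : D (e ^ p) = 0 := by
      rw [Derivation.leibniz_pow, nsmul_eq_mul, CharP.cast_eq_zero E p, zero_mul]
    refine ⟨e ^ p * c, e ^ p * α, e ^ p * β, ?_, ?_, ?_, ?_⟩
    · rw [Algebra.smul_def, mul_pow, h1, map_mul, map_pow]
    · rw [map_smul, Algebra.smul_def, mul_pow, h2, map_mul, map_pow]
    · rw [map_smul, Algebra.smul_def, mul_pow, h3, map_mul, map_pow]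
    · rw [Derivation.leibniz, he, smul_eq_mul, smul_eq_mul]
      linear_combination e ^ p * h4

/-- Row T5. Both sides are additive in `z` (`(x + y) ^ p = x ^ p + y ^ p` in `K` and in `E`; `c`,
`α`, `β` are determined by `z`; for the induction state: for every `z` there are `c`, `α`, `β` with
`hc`, `hα`, `hβ` and the conclusion), so by `hsp` it suffices to take `z = e • (s ^ i * t ^ j)`,
`e ∈ E`. Then `c = e ^ p * a ^ i * b ^ j`, `T.A z = i • z`, `T.C z = j • z`, so `α = i c`, `β = j c`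
(`i ^ p = i` in `E`), and `D c = e ^ p * (i a ^ (i - 1) b ^ j D a + j a ^ i b ^ (j - 1) D b)` as
`D (e ^ p) = p e ^ (p - 1) D e = 0`. -/
theorem Tor.der_pow {p : ℕ} [Fact p.Prime] {E K : Type*} [Field E] [CharP E p] [Field K]
    [Algebra E K] {P : Pois E K} {s t : K} (T : Tor p P s t) {a b : E}
    (hs : s ^ p = algebraMap E K a) (ht : t ^ p = algebraMap E K b)
    (hsp : Submodule.span E
      (Set.range fun x : Fin p × Fin p => s ^ (x.1 : ℕ) * t ^ (x.2 : ℕ)) = ⊤) {z : K} {c α β : E}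
    (hc : z ^ p = algebraMap E K c) (hα : (T.A z) ^ p = algebraMap E K α)
    (hβ : (T.C z) ^ p = algebraMap E K β) (D : Derivation ℤ E E) :
    a * b * D c = b * α * D a + a * β * D b := by
  obtain ⟨c', α', β', h1, h2, h3, h4⟩ := T5_aux T hs ht hsp D z
  have hinj := (algebraMap E K).injective
  rw [hinj (hc.symm.trans h1), hinj (hα.symm.trans h2), hinj (hβ.symm.trans h3)]
  exact h4
-- END Tor.der_pow

-- BEGIN indep_of_B
private theorem T6_aux {ι E K : Type*} [Fintype ι] [Field E] [Field K] [Algebra E K]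
    (f : Module.End E K) {μ : ι → E} (hμ : Function.Injective μ) {z : ι → K}
    (hz : ∀ i, f (z i) = μ i • z i) (hs : ∑ i, z i = 0) (i : ι) : z i = 0 := by
  classical
  by_contra h0
  have h1 : LinearIndependent E (fun i : {i : ι // z i ≠ 0} => z i) :=
    Module.End.eigenvectors_linearIndependent' f (fun i : {i : ι // z i ≠ 0} => μ i)
      (fun a b h => Subtype.ext (hμ h)) _
      (fun i => ⟨Module.End.mem_eigenspace_iff.mpr (hz i), i.2⟩)
  have h2 : ∑ i : {i : ι // z i ≠ 0}, (1 : E) • z i = 0 := by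
    simp only [one_smul]
    have h3 : ∑ i : {i : ι // z i ≠ 0}, z i = ∑ i ∈ Finset.univ.filter (fun i => z i ≠ 0), z i :=
      (Finset.sum_subtype _ (fun i => by simp) _).symm
    rw [h3, Finset.sum_filter_ne_zero, hs]
  exact one_ne_zero (Fintype.linearIndependent_iff.mp h1 (fun _ => (1 : E)) h2 ⟨i, h0⟩)

private theorem T6_inj {p : ℕ} {E : Type*} [Field E] [CharP E p] :
    Function.Injective (fun i : Fin p => ((i : ℕ) : E)) := fun i j h =>
  Fin.ext (CharP.natCast_injOn_Iio E p i.2 j.2 h)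

private theorem T6_C {E K : Type*} [Field E] [Field K]
    [Algebra E K] (P : Pois E K) {s t : K} (hs : s ≠ 0) (hB : P.B s t = s * t) (i j : ℕ) :
    ((LinearMap.mulLeft E s⁻¹).comp (P.B s)) (s ^ i * t ^ j) = (j : E) • (s ^ i * t ^ j) := by
  have h1 := B_mon P hB 1 0 i j
  rw [pow_one, pow_zero, mul_one] at h1
  rw [LinearMap.comp_apply, LinearMap.mulLeft_apply, h1, Algebra.smul_def, map_natCast, pow_add,
    pow_one, zero_add]
  field_simp
  push_cast
  ring

private theorem T6_A {E K : Type*} [Field E] [Field K]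
    [Algebra E K] (P : Pois E K) {s t : K} (ht : t ≠ 0) (hB : P.B s t = s * t) (i j : ℕ) :
    ((LinearMap.mulLeft E t⁻¹).comp (-(P.B t))) (s ^ i * t ^ j) = (i : E) • (s ^ i * t ^ j) := by
  have h1 := B_mon P hB 0 1 i j
  rw [pow_one, pow_zero, one_mul] at h1
  rw [LinearMap.comp_apply, LinearMap.mulLeft_apply, LinearMap.neg_apply, h1, Algebra.smul_def,
    map_natCast, zero_add, pow_add, pow_one]
  field_simp
  push_cast
  ring

/-- Row T6. Let `∑ c i j • (s ^ i * t ^ j) = 0`, `i, j < p`. The linear map `C x = s⁻¹ * P.B s x` has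
`C (s ^ i * t ^ j) = j • (s ^ i * t ^ j)`, and eigenvectors with different eigenvalues are independent
(`Module.End.eigenspaces_iSupIndep` or `Module.End.eigenvectors_linearIndependent`; the numbers
`0, 1, ..., p - 1` are different in `E`): so `∑_i c i j • (s ^ i * t ^ j) = 0` for every `j`. In the
same way with the map `A x = t⁻¹ * P.B x t`, `A (s ^ i * t ^ j) = i • (s ^ i * t ^ j)`. (`P.B` is `E`-linear,
`B_mon`.) -/
theorem indep_of_B {p : ℕ} [Fact p.Prime] {E K : Type*} [Field E] [CharP E p] [Field K]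
    [Algebra E K] (P : Pois E K) {s t : K} (hs : s ≠ 0) (ht : t ≠ 0) (hB : P.B s t = s * t) :
    LinearIndependent E (fun x : Fin p × Fin p => s ^ (x.1 : ℕ) * t ^ (x.2 : ℕ)) := by
  rw [Fintype.linearIndependent_iff]
  intro c hc x
  rw [Fintype.sum_prod_type_right] at hc
  have h1 := T6_aux ((LinearMap.mulLeft E s⁻¹).comp (P.B s)) (T6_inj (p := p) (E := E))
    (z := fun j : Fin p => ∑ i : Fin p, c (i, j) • (s ^ (i : ℕ) * t ^ (j : ℕ)))
    (fun j => by
      rw [map_sum, Finset.smul_sum]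
      refine Finset.sum_congr rfl fun i _ => ?_
      rw [map_smul, T6_C P hs hB, smul_comm]) hc x.2
  have h2 := T6_aux ((LinearMap.mulLeft E t⁻¹).comp (-(P.B t))) (T6_inj (p := p) (E := E))
    (z := fun i : Fin p => c (i, x.2) • (s ^ (i : ℕ) * t ^ (x.2 : ℕ)))
    (fun i => by rw [map_smul, T6_A P ht hB, smul_comm]) h1 x.1
  refine (smul_eq_zero.mp h2).resolve_right (mul_ne_zero (pow_ne_zero _ hs) (pow_ne_zero _ ht))
-- END indep_of_B

-- BEGIN exists_nat_of_pow
/-- Row T7. The `p` elements `0, 1, ..., p - 1` of `E` are different roots of `X ^ p - X`, which has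
at most `p` roots (or: Mathlib on the fixed points of the Frobenius). -/
theorem exists_nat_of_pow {p : ℕ} [Fact p.Prime] {E : Type*} [Field E] [CharP E p] {v : E}
    (hv : v ^ p = v) : ∃ n : ℕ, (n : E) = v := by
  have h1 : v ∈ (⊥ : Subfield E) := (Subfield.mem_bot_iff_pow_eq_self E p).mpr hv
  rw [← ZMod.fieldRange_castHom_eq_bot p] at h1
  obtain ⟨z, hz⟩ := h1
  refine ⟨z.val, ?_⟩
  have h2 : ((z.val : ℕ) : ZMod p) = z := ZMod.natCast_zmod_val z
  rw [← hz]
  conv_rhs => rw [← h2]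
  rw [map_natCast]
-- END exists_nat_of_pow

end Pool.Agent.MP9083S
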