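import Mathlib
import Pool.Agent.Lib.MP_9083e4_al.S.Tor

/-! Rows V. Standard bases and logarithmic differential forms. -/

set_option autoImplicit false

namespace Pool.Agent.MP9083S

open Module Pool.Agent.MP9083

universe u v w

/-- `a'` and `b'` are nonzero and `dlog a ∧ dlog b = n dlog a' ∧ dlog b'` (as differential forms of
the field `E` over its prime field) for some integer `n` which is not divisible by `p`. -/
def DlogRel (p : ℕ) {E : Type*} [Field E] (a b a' b' : E) : Prop :=
  a' ≠ 0 ∧ b' ≠ 0 ∧ ∃ n : ℕ, ¬ p ∣ n ∧ ∀ D D' : Derivation ℤ E E,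
    a' * b' * (D a * D' b - D' a * D b) = n * (a * b * (D a' * D' b' - D' a' * D b'))

-- BEGIN exists_der_one
/-- the degree of a simple extension -/
private theorem V1_finrank {p : ℕ} [hp : Fact p.Prime] {M E : Type*} [Field M] [Field E]
    [Algebra M E] [CharP E p] {y : E} (hy : ∀ c : M, algebraMap M E c ≠ y) {c0 : M}
    (hc0 : algebraMap M E c0 = y ^ p) :
    FiniteDimensional M (IntermediateField.adjoin M ({y} : Set E)) ∧ finrank M (IntermediateField.adjoin M ({y} : Set E)) = p := by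
  have hirr : Irreducible (Polynomial.X ^ p - Polynomial.C c0 : Polynomial M) := by
    refine X_pow_sub_C_irreducible_of_prime hp.out ?_
    intro b hb
    have h1 : (algebraMap M E b - y) ^ p = 0 := by
      rw [sub_pow_char, ← map_pow, hb, hc0, sub_self]
    exact hy b (sub_eq_zero.1 (pow_eq_zero_iff hp.out.ne_zero |>.1 h1))
  have hmon : (Polynomial.X ^ p - Polynomial.C c0 : Polynomial M).Monic :=
    Polynomial.monic_X_pow_sub_C c0 hp.out.ne_zero
  have hroot : Polynomial.aeval y (Polynomial.X ^ p - Polynomial.C c0 : Polynomial M) = 0 := by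
    rw [map_sub, map_pow, Polynomial.aeval_X, Polynomial.aeval_C, hc0, sub_self]
  have hint : IsIntegral M y := ⟨_, hmon, hroot⟩
  have hmin := minpoly.eq_of_irreducible_of_monic hirr hroot hmon
  refine ⟨IntermediateField.adjoin.finiteDimensional hint, ?_⟩
  rw [IntermediateField.adjoin.finrank hint, ← hmin, Polynomial.natDegree_X_pow_sub_C]

/-- Row V1. By Zorn's lemma there is a subfield `M ≥ k` of `E` which is maximal among those not
containing `x` (for instance an `M : IntermediateField k E`; `zorn_le_nonempty₀` or `zorn_le`; the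
union of a chain is a subfield, `IntermediateField.mem_iSup_of_directed` or
`Subfield.mem_iSup_of_directed` or similar). If `y ∉ M` then `x ∈ M(y)`; `y ^ p ∈ M`, so
`[M(y) : M] = p` (it is `> 1` and the minimal polynomial divides `X ^ p - y ^ p = (X - y) ^ p`;
`Polynomial.X_pow_sub_C_irreducible_of_prime` or similar may help), and `M(x) ≤ M(y)`,
`[M(x) : M] = p` too, so `y ∈ M(x)`. Hence `E = M(x)` has degree `p` over `M`. By `exists_der`
(PoisEx.lean) there is a derivation of `E` over `M` with `D x = x`; take `x⁻¹ • D` (restricted to a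
derivation over `ℤ`; or construct a `Derivation ℤ E E` by hand). -/
theorem exists_der_one {p : ℕ} [Fact p.Prime] {E : Type*} [Field E] [CharP E p] (k : Subfield E)
    (hk : ∀ x : E, x ^ p ∈ k) {x : E} (hx : x ∉ k) :
    ∃ D : Derivation ℤ E E, (∀ y ∈ k, D y = 0) ∧ D x = 1 := by
  classical
  have hp : p.Prime := Fact.out
  -- Zorn
  obtain ⟨M, hM⟩ := zorn_le₀ {M : IntermediateField k E | x ∉ M} (by
    intro c hc hchain
    rcases c.eq_empty_or_nonempty with rfl | hne
    · refine ⟨⊥, ?_, fun z hz => absurd hz (Set.notMem_empty z)⟩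
      intro hmem
      obtain ⟨y, hy⟩ := IntermediateField.mem_bot.1 hmem
      exact hx (hy ▸ y.2)
    · have hne' : Nonempty c := hne.to_subtype
      refine ⟨⨆ i : c, (i : IntermediateField k E), ?_, fun z hz => le_iSup
        (fun i : c => (i : IntermediateField k E)) ⟨z, hz⟩⟩
      intro hmem
      have h1 : x ∈ ((⨆ i : c, (i : IntermediateField k E) : IntermediateField k E) : Set E) := hmem
      rw [IntermediateField.coe_iSup_of_directed hchain.directedOn.directed_val,
        Set.mem_iUnion] at h1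
      obtain ⟨i, hi⟩ := h1
      exact hc i.2 hi)
  have hxM : x ∉ M := hM.1
  have hpow : ∀ y : E, ∃ c : M, algebraMap M E c = y ^ p := by
    intro y
    exact ⟨⟨y ^ p, M.algebraMap_mem ⟨y ^ p, hk y⟩⟩, rfl⟩
  have hnot : ∀ y : E, y ∉ M → ∀ c : M, algebraMap M E c ≠ y := by
    intro y hy c hc
    exact hy (hc ▸ c.2)
  have hxin : ∀ y : E, y ∉ M → x ∈ (IntermediateField.adjoin M ({y} : Set E)) := by
    intro y hy
    by_contra hcon
    have h1 : M ≤ (IntermediateField.restrictScalars k (IntermediateField.adjoin M ({y} : Set E))) := by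
      intro z hz
      exact ((IntermediateField.adjoin M ({y} : Set E))).algebraMap_mem ⟨z, hz⟩
    have h2 := hM.2 (show IntermediateField.restrictScalars k (IntermediateField.adjoin M ({y} : Set E)) ∈
      {M : IntermediateField k E | x ∉ M} from hcon) h1
    exact hy (h2 (IntermediateField.mem_adjoin_simple_self M y))
  have hall : ∀ y : E, y ∈ (IntermediateField.adjoin M ({x} : Set E)) := by
    intro y
    by_cases hy : y ∈ M
    · exact ((IntermediateField.adjoin M ({x} : Set E))).algebraMap_mem ⟨y, hy⟩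
    · obtain ⟨cy, hcy⟩ := hpow y
      obtain ⟨cx, hcx⟩ := hpow x
      obtain ⟨hf1, hf2⟩ := V1_finrank (hnot y hy) hcy
      obtain ⟨hg1, hg2⟩ := V1_finrank (hnot x hxM) hcx
      have hle : (IntermediateField.adjoin M ({x} : Set E)) ≤ (IntermediateField.adjoin M ({y} : Set E)) := by
        rw [IntermediateField.adjoin_simple_le_iff]
        exact hxin y hy
      have heq : (IntermediateField.adjoin M ({x} : Set E)) = (IntermediateField.adjoin M ({y} : Set E)) :=
        IntermediateField.eq_of_le_of_finrank_eq hle (by rw [hf2, hg2])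
      rw [heq]
      exact IntermediateField.mem_adjoin_simple_self M y
  have htop : (IntermediateField.adjoin M ({x} : Set E)) = ⊤ := by
    rw [eq_top_iff]
    intro y _
    exact hall y
  obtain ⟨cx, hcx⟩ := hpow x
  have hdim : finrank M E = p := by
    have h1 := (V1_finrank (hnot x hxM) hcx).2
    rw [htop, IntermediateField.finrank_top'] at h1
    exact h1
  have : CharP M p := by
    exact (algebraMap M E).charP (algebraMap M E).injective p
  obtain ⟨D, hD⟩ := exists_der (K := M) (E := E) p hdim x (hnot x hxM) cx hcx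
  have hx0 : x ≠ 0 := by
    rintro rfl
    exact hx k.zero_mem
  refine ⟨(x⁻¹ • D).restrictScalars ℤ, ?_, ?_⟩
  · intro y hy
    have hyM : y ∈ M := M.algebraMap_mem ⟨y, hy⟩
    have h1 := D.map_algebraMap (⟨y, hyM⟩ : M)
    have h2 : D y = 0 := h1
    rw [Derivation.restrictScalars_apply, Derivation.smul_apply, h2, smul_zero]
  · rw [Derivation.restrictScalars_apply, Derivation.smul_apply, hD, smul_eq_mul,
      inv_mul_cancel₀ hx0]
-- END exists_der_one

-- BEGIN exists_der_pair
private theorem V2_notmem {p : ℕ} [Fact p.Prime] {E : Type*} [Field E] [CharP E p] {a b : E}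
    (hp : PInd p a b) :
    a ∉ IntermediateField.adjoin (frobenius E p).fieldRange {b} := by
  intro ha
  have hp2 : 2 ≤ p := (Fact.out : p.Prime).two_le
  have hpos : 0 < p := by omega
  set F0 : Subfield E := (frobenius E p).fieldRange with hF0
  have hβ : b ^ p ∈ F0 := ⟨b, by simp [frobenius_def]⟩
  set g : Polynomial F0 := Polynomial.X ^ p - Polynomial.C ⟨b ^ p, hβ⟩ with hg
  have hgm : g.Monic := Polynomial.monic_X_pow_sub_C _ hpos.ne'
  have hgd : g.natDegree = p := Polynomial.natDegree_X_pow_sub_C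
  have hg0 : Polynomial.aeval b g = 0 := by
    simp only [hg, map_sub, map_pow, Polynomial.aeval_X, Polynomial.aeval_C]
    exact sub_self _
  have hint : IsIntegral F0 b := ⟨g, hgm, by rw [← Polynomial.aeval_def]; exact hg0⟩
  have ha' : a ∈ Algebra.adjoin F0 ({b} : Set E) := by
    rw [← IntermediateField.adjoin_toSubalgebra_of_isAlgebraic (F := F0) (S := {b})]
    · exact ha
    · intro x hx
      rw [Set.mem_singleton_iff.1 hx]
      exact hint.isAlgebraic
  rw [Algebra.adjoin_singleton_eq_range_aeval] at ha'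
  obtain ⟨q, hq⟩ := ha'
  have hq' : Polynomial.aeval b (q %ₘ g) = a := by
    rw [Polynomial.aeval_modByMonic_eq_self_of_root hg0]
    exact hq
  have hg1 : g ≠ 1 := by
    intro h1
    rw [h1, Polynomial.natDegree_one] at hgd
    omega
  have hrd : (q %ₘ g).natDegree < p := by
    have := Polynomial.natDegree_modByMonic_lt q hgm hg1
    rwa [hgd] at this
  rw [Polynomial.aeval_eq_sum_range' hrd] at hq'
  have hc : ∀ j : ℕ, ∃ c : E, c ^ p = ((q %ₘ g).coeff j : E) := fun j => by
    obtain ⟨c, hc⟩ := ((q %ₘ g).coeff j).2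
    exact ⟨c, by rw [← hc]; rfl⟩
  choose c hc using hc
  have hm1 : (-1 : E) ^ p = -1 := by
    have := map_neg (frobenius E p) 1
    rwa [map_one, frobenius_def] at this
  have key := hp (fun i j => if (i : ℕ) = 0 then c j else if (i : ℕ) = 1 ∧ (j : ℕ) = 0 then -1
    else 0) ?_
  · have h10 := congrFun (congrFun key ⟨1, by omega⟩) ⟨0, by omega⟩
    simp at h10
  · have e1 : ∀ i : Fin p, (∑ j : Fin p, (if (i : ℕ) = 0 then c j else
        if (i : ℕ) = 1 ∧ (j : ℕ) = 0 then (-1 : E) else 0) ^ p * a ^ (i : ℕ) * b ^ (j : ℕ))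
        = (fun i : ℕ => if i = 0 then a else if i = 1 then -a else 0) (i : ℕ) := by
      intro i
      by_cases h0 : (i : ℕ) = 0
      · simp only [h0, if_true, pow_zero, mul_one]
        rw [← hq', ← Fin.sum_univ_eq_sum_range (fun j => (q %ₘ g).coeff j • b ^ j) p]
        refine Finset.sum_congr rfl fun j _ => ?_
        rw [hc j, Subfield.smul_def, smul_eq_mul]
      · by_cases h1 : (i : ℕ) = 1
        · simp only [h1, one_ne_zero, if_false, true_and, if_true, pow_one]
          rw [Finset.sum_eq_single (⟨0, hpos⟩ : Fin p)]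
          · simp [hm1]
          · intro j _ hj
            have : (j : ℕ) ≠ 0 := fun h => hj (Fin.ext h)
            simp [this, hpos.ne']
          · simp
        · simp [h0, h1, hpos.ne']
    rw [Finset.sum_congr rfl fun i _ => e1 i,
      Fin.sum_univ_eq_sum_range (fun i : ℕ => if i = 0 then a else if i = 1 then -a else 0) p,
      Finset.sum_eq_add (0 : ℕ) 1 (by norm_num)]
    · simp
    · intro i _ hi
      simp [hi.1, hi.2]
    · intro h
      exact absurd (Finset.mem_range.2 hpos) h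
    · intro h
      exact absurd (Finset.mem_range.2 (by omega)) h

private theorem V2_one {p : ℕ} [Fact p.Prime] {E : Type*} [Field E] [CharP E p] {a b : E}
    (hp : PInd p a b) : ∃ D : Derivation ℤ E E, D a = 1 ∧ D b = 0 := by
  obtain ⟨D, hD, hDa⟩ := exists_der_one
    (IntermediateField.adjoin (frobenius E p).fieldRange {b}).toSubfield (x := a)
    (fun x => by
      have hx : x ^ p ∈ (frobenius E p).fieldRange := ⟨x, by simp [frobenius_def]⟩
      exact (IntermediateField.adjoin (frobenius E p).fieldRange {b}).algebraMap_mem ⟨_, hx⟩)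
    (V2_notmem hp)
  exact ⟨D, hDa, hD b (IntermediateField.mem_adjoin_simple_self _ b)⟩

private theorem V2_swap {p : ℕ} {E : Type*} [Field E] {a b : E}
    (hp : PInd p a b) : PInd p b a := by
  intro c hc
  have h := hp (fun i j => c j i) (by
    rw [Finset.sum_comm, ← hc]
    exact Finset.sum_congr rfl fun i _ => Finset.sum_congr rfl fun j _ => by ring)
  funext i j
  exact congrFun (congrFun h j) i

/-- Row V2. Take `K`, `s`, `t` from `exists_field`. Let `k = {c ∈ E | ∃ z ∈ E(t), z ^ p = c}` with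
`E(t) = IntermediateField.adjoin E {t}`; it is a subfield of `E` (for instance
`Subfield.comap (algebraMap E K)` of `Subfield.map (frobenius K p)` of `E(t)`). It contains `E ^ p`
and `b` (`z = t`), but not `a`: `z ^ p = a = s ^ p` gives `z = s` and `s ∉ E(t)` (otherwise the
`p ^ 2` independent elements `s ^ i * t ^ j` are in `E(t)`, which has degree `≤ p` over `E` since
`t ^ p ∈ E`). `D₁` is from `exists_der_one k`. In the same way `D₂` from
`{c | ∃ z ∈ E(s), z ^ p = c}`. -/
theorem exists_der_pair {p : ℕ} [Fact p.Prime] {E : Type*} [Field E] [CharP E p] {a b : E}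
    (hp : PInd p a b) :
    ∃ D₁ D₂ : Derivation ℤ E E, D₁ a = 1 ∧ D₁ b = 0 ∧ D₂ a = 0 ∧ D₂ b = 1 := by
  obtain ⟨D₁, h1, h2⟩ := V2_one hp
  obtain ⟨D₂, h3, h4⟩ := V2_one (V2_swap hp)
  exact ⟨D₁, D₂, h1, h2, h4, h3⟩
-- END exists_der_pair

-- BEGIN exists_root
private theorem V3_der {p : ℕ} [Fact p.Prime] {E K : Type*} [Field E] [CharP E p] [Field K]
    [Algebra E K] {a b : E} {s t : K} (hs : s ^ p = algebraMap E K a)
    (ht : t ^ p = algebraMap E K b) {c : E} (hc : ¬ ∃ z : K, z ^ p = algebraMap E K c) :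
    ∃ D : Derivation ℤ E E, D a = 0 ∧ D b = 0 ∧ D c = 1 := by
  have : CharP K p := charP_of_injective_algebraMap (algebraMap E K).injective p
  have hmem : ∀ y : E, y ∈ Subfield.comap (algebraMap E K) (frobenius K p).fieldRange ↔
      ∃ z : K, z ^ p = algebraMap E K y := by
    intro y
    rw [Subfield.mem_comap, RingHom.mem_fieldRange]
    simp only [frobenius_def]
  obtain ⟨D, hD, h1⟩ := exists_der_one (p := p)
    (Subfield.comap (algebraMap E K) (frobenius K p).fieldRange)
    (fun x => (hmem _).2 ⟨algebraMap E K x, (map_pow _ _ _).symm⟩) (x := c)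
    (fun h => hc ((hmem c).1 h))
  exact ⟨D, hD a ((hmem a).2 ⟨s, hs⟩), hD b ((hmem b).2 ⟨t, ht⟩), h1⟩

/-- Row V3. `k = {c ∈ E | ∃ z ∈ K, z ^ p = c}` is a subfield (`Subfield.comap (algebraMap E K)` of
`(frobenius K p).fieldRange`) which contains `E ^ p`, `a` and `b`. Suppose `a' ∉ k`. By
`exists_der_one` there is `D₀` with `D₀ = 0` on `k` and `D₀ a' = 1`. The relation in `h` for
`(D₀, D')` gives `0 = n a b (D' b' - D' a' * D₀ b')`, so `D' b' = D' a' * D₀ b'` for all `D'` (`n ≠ 0` in
`E`; `a, b ≠ 0` by `pind_ne`). So the right side of the relation is `0` for all `D`, `D'`, hence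
(`a', b' ≠ 0`) `D a * D' b = D' a * D b` for all `D`, `D'`, which contradicts `exists_der_pair`. In the
same way `b' ∈ k` (symmetric). -/
theorem exists_root {p : ℕ} [Fact p.Prime] {E K : Type*} [Field E] [CharP E p] [Field K]
    [Algebra E K] {a b : E} (hp : PInd p a b) {s t : K} (hs : s ^ p = algebraMap E K a)
    (ht : t ^ p = algebraMap E K b) {a' b' : E} (h : DlogRel p a b a' b') :
    (∃ s' : K, s' ^ p = algebraMap E K a') ∧ ∃ t' : K, t' ^ p = algebraMap E K b' := by
  obtain ⟨ha', hb', n, hn, hrel⟩ := h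
  obtain ⟨ha, hb⟩ := pind_ne hp
  have hn0 : (n : E) ≠ 0 := by
    rw [Ne, CharP.cast_eq_zero_iff E p]
    exact hn
  obtain ⟨D₁, D₂, e1, e2, e3, e4⟩ := exists_der_pair hp
  have h12 := hrel D₁ D₂
  rw [e1, e2, e3, e4] at h12
  have hzero : ∀ x : E, (n : E) * (a * b * x) = 0 → x = 0 := by
    intro x hx
    rcases mul_eq_zero.1 hx with h1 | h1
    · exact absurd h1 hn0
    · rcases mul_eq_zero.1 h1 with h2 | h2
      · exact absurd h2 (mul_ne_zero ha hb)
      · exact h2
  constructor
  · by_contra hc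
    obtain ⟨D, d1, d2, d3⟩ := V3_der hs ht hc
    have key : ∀ D' : Derivation ℤ E E, D' b' = D' a' * D b' := by
      intro D'
      have h0 := hrel D D'
      rw [d1, d2, d3] at h0
      have h1 := hzero (1 * D' b' - D' a' * D b') (by rw [← h0]; ring)
      linear_combination h1
    rw [key D₁, key D₂] at h12
    have h5 : a' * b' = 0 := by linear_combination h12
    exact mul_ne_zero ha' hb' h5
  · by_contra hc
    obtain ⟨D, d1, d2, d3⟩ := V3_der hs ht hc
    have key : ∀ D' : Derivation ℤ E E, D' a' = D a' * D' b' := by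
      intro D'
      have h0 := hrel D D'
      rw [d1, d2, d3] at h0
      have h1 := hzero (D a' * D' b' - D' a' * 1) (by rw [← h0]; ring)
      linear_combination -h1
    rw [key D₁, key D₂] at h12
    have h5 : a' * b' = 0 := by linear_combination h12
    exact mul_ne_zero ha' hb' h5
-- END exists_root

-- BEGIN DlogRel.symm
/-- Row V4. Let `m * n = 1` in `ZMod p`, `m` a natural number; multiply the relation by `m`. -/
theorem DlogRel.symm {p : ℕ} [Fact p.Prime] {E : Type*} [Field E] [CharP E p] {a b a' b' : E}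
    (h : DlogRel p a b a' b') (ha : a ≠ 0) (hb : b ≠ 0) : DlogRel p a' b' a b := by
  obtain ⟨-, -, n, hn, hD⟩ := h
  have hn0 : (n : ZMod p) ≠ 0 := by
    rwa [Ne, ZMod.natCast_eq_zero_iff]
  obtain ⟨m, hm⟩ : ∃ m : ℕ, ((m * n : ℕ) : E) = 1 := by
    refine ⟨((n : ZMod p)⁻¹).val, ?_⟩
    have h1 : ((((n : ZMod p)⁻¹).val * n : ℕ) : ZMod p) = ((1 : ℕ) : ZMod p) := by
      rw [Nat.cast_mul, ZMod.natCast_val, ZMod.cast_id, inv_mul_cancel₀ hn0, Nat.cast_one]
    have h2 := (CharP.natCast_eq_natCast E p).2 ((ZMod.natCast_eq_natCast_iff _ _ _).1 h1)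
    rw [h2, Nat.cast_one]
  refine ⟨ha, hb, m, fun hpm => ?_, fun D D' => ?_⟩
  · have h1 : ((m * n : ℕ) : E) = 0 := (CharP.cast_eq_zero_iff E p _).2 (hpm.mul_right n)
    rw [hm] at h1
    exact one_ne_zero h1
  · have h1 := hD D D'
    rw [Nat.cast_mul] at hm
    linear_combination (-(m : E)) * h1 -
      (a * b * (D a' * D' b' - D' a' * D b')) * hm
-- END DlogRel.symm

-- BEGIN dlogRel_of_std
/-- Row V5. Take `K`, `P`, `s`, `t`, `ι` from `exists_iota'` and `T` from `exists_tor`. Apply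
`exists_st` to `z i j = ι (u' i j)` (`z 1 1 ≠ 0` since `ι` is injective and `u' 1 1` is an element of
the basis `u'`; `h'.left`, `h'.right`, `h'.lie`). This gives `a', b' ≠ 0` and `s'`, `t'`, `w`, so
`P.B s' t' = w⁻¹ s' t'`. By `Tor.pow_eq_self` `(w⁻¹) ^ p = w⁻¹`, so `w ^ p = w` and `w = n` for some
natural `n` (`exists_nat_of_pow`), `p ∤ n`. Let `α, β, γ, δ ∈ E` be `(A s') ^ p`, `(C s') ^ p`,
`(A t') ^ p`, `(C t') ^ p`. Then `α δ - β γ = (P.B s' t') ^ p = w⁻¹ a' b'` (`T.B`, `sub_pow_char`) and by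
`Tor.der_pow` `a b D a' = b α D a + a β D b`, `a b D b' = b γ D a + a δ D b`, and the same for `D'`, so
`(a b) ^ 2 (D a' D' b' - D' a' D b') = a b (α δ - β γ) (D a D' b - D' a D b)`. Cancel `a b ≠ 0`. -/
theorem dlogRel_of_std {p : ℕ} [Fact p.Prime] {E : Type u} {L : Type v} [Field E] [CharP E p]
    [LieRing L] [LieAlgebra E L] {a b a' b' : E} {u u' : ℕ → ℕ → L} (h : StdBasis p E L a b u)
    (hp : PInd p a b) (h' : StdBasis p E L a' b' u') : DlogRel p a b a' b' := by
  have hpr : p.Prime := Fact.out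
  obtain ⟨ha, hb⟩ := pind_ne hp
  obtain ⟨K, iF, iA, P, s, t, ι, hdim, hpow, hs, ht, hind, hsp, hB, hinj, hlie, hsurj, hτ⟩ :=
    exists_iota' h hp
  have : CharP K p := charP_of_injective_algebraMap (algebraMap E K).injective p
  have hs0 : s ≠ 0 := by
    intro h0
    rw [h0, zero_pow hpr.ne_zero] at hs
    exact ha ((map_eq_zero (algebraMap E K)).1 hs.symm)
  have ht0 : t ≠ 0 := by
    intro h0
    rw [h0, zero_pow hpr.ne_zero] at ht
    exact hb ((map_eq_zero (algebraMap E K)).1 ht.symm)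
  obtain ⟨T⟩ := exists_tor P hs0 ht0 hsp hB
  have hl : ∀ i j, ι (u' (i + p) j) = algebraMap E K a' * ι (u' i j) := by
    intro i j
    rw [h'.left, map_smul, Algebra.smul_def]
  have hr : ∀ i j, ι (u' i (j + p)) = algebraMap E K b' * ι (u' i j) := by
    intro i j
    rw [h'.right, map_smul, Algebra.smul_def]
  have hBz : ∀ i j k l, P.B (ι (u' i j)) (ι (u' k l)) =
      ((i : K) * l - j * k) * ι (u' (i + k) (j + l)) := by
    intro i j k l
    rw [← hlie, h'.lie, map_smul, Algebra.smul_def, map_sub, map_mul, map_mul, map_natCast,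
      map_natCast, map_natCast, map_natCast]
  have h0 : ι (u' 1 1) ≠ 0 := by
    intro h1
    have h2 : u' 1 1 = 0 := hinj (by rw [h1, map_zero])
    exact h'.indep.ne_zero ⟨(⟨1, hpr.one_lt⟩, ⟨1, hpr.one_lt⟩), by simp⟩ h2
  obtain ⟨ha', hb', s', t', w, hw, hs', ht', hst⟩ :=
    exists_st P hdim hpow (z := fun i j => ι (u' i j)) hl hr hBz h0
  have hs'0 : s' ≠ 0 := by
    intro h1
    rw [h1, zero_pow hpr.ne_zero] at hs'
    exact ha' ((map_eq_zero (algebraMap E K)).1 hs'.symm)
  have ht'0 : t' ≠ 0 := by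
    intro h1
    rw [h1, zero_pow hpr.ne_zero] at ht'
    exact hb' ((map_eq_zero (algebraMap E K)).1 ht'.symm)
  have hwK : algebraMap E K w ≠ 0 := fun h1 => hw ((map_eq_zero (algebraMap E K)).1 h1)
  have hv : P.B s' t' = algebraMap E K w⁻¹ * (s' * t') := by
    rw [← hst, ← mul_assoc, ← map_mul, inv_mul_cancel₀ hw, map_one, one_mul]
  have hvp := T.pow_eq_self hpow hs'0 ht'0 hv
  have hwp : w ^ p = w := by
    rw [inv_pow] at hvp
    exact inv_injective hvp
  obtain ⟨n, hn⟩ := exists_nat_of_pow hwp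
  refine ⟨ha', hb', n, ?_, ?_⟩
  · intro hpn
    apply hw
    rw [← hn]
    exact (CharP.cast_eq_zero_iff E p n).2 hpn
  · intro D D'
    obtain ⟨α, hα⟩ := hpow (T.A s')
    obtain ⟨β, hβ⟩ := hpow (T.C s')
    obtain ⟨γ, hγ⟩ := hpow (T.A t')
    obtain ⟨δ, hδ⟩ := hpow (T.C t')
    have hdet : w * (α * δ - β * γ) = a' * b' := by
      have h1 : algebraMap E K (α * δ - β * γ) = (P.B s' t') ^ p := by
        rw [T.B, sub_pow_char, mul_pow, mul_pow, map_sub, map_mul, map_mul, hα, hβ, hγ, hδ]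
      have h2 : (P.B s' t') ^ p = algebraMap E K (w⁻¹ * (a' * b')) := by
        rw [hv, mul_pow, mul_pow, hs', ht', ← map_pow, hvp, map_mul, map_mul]
      have h3 : α * δ - β * γ = w⁻¹ * (a' * b') :=
        (algebraMap E K).injective (h1.trans h2)
      rw [h3, ← mul_assoc, mul_inv_cancel₀ hw, one_mul]
    have e1 := T.der_pow hs ht hsp hs' hα.symm hβ.symm D
    have e2 := T.der_pow hs ht hsp ht' hγ.symm hδ.symm D
    have e3 := T.der_pow hs ht hsp hs' hα.symm hβ.symm D'
    have e4 := T.der_pow hs ht hsp ht' hγ.symm hδ.symm D'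
    have hab : a * b ≠ 0 := mul_ne_zero ha hb
    apply mul_left_cancel₀ hab
    rw [hn, ← hdet]
    have e5 : (a * b) * (a * b) * (D a' * D' b' - D' a' * D b') =
        (a * b) * ((α * δ - β * γ) * (D a * D' b - D' a * D b)) := by
      calc (a * b) * (a * b) * (D a' * D' b' - D' a' * D b')
          = (a * b * D a') * (a * b * D' b') - (a * b * D' a') * (a * b * D b') := by ring
        _ = _ := by
          rw [e1, e2, e3, e4]
          ring
    calc a * b * (w * (α * δ - β * γ) * (D a * D' b - D' a * D b))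
        = w * ((a * b) * ((α * δ - β * γ) * (D a * D' b - D' a * D b))) := by ring
      _ = w * ((a * b) * (a * b) * (D a' * D' b' - D' a' * D b')) := by rw [e5]
      _ = a * b * (w * (a * b * (D a' * D' b' - D' a' * D b'))) := by ring
-- END dlogRel_of_std

-- BEGIN exists_B_root
/-- Row V6. Take `s'`, `t'` from `exists_root` and `α, β, γ, δ ∈ E` equal to `(A s') ^ p`, `(C s') ^ p`,
`(A t') ^ p`, `(C t') ^ p`. By `Tor.der_pow` as in V5
`a b (D a' D' b' - D' a' D b') = (α δ - β γ) (D a D' b - D' a D b)` for all `D`, `D'`, so with the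
relation and `D₁`, `D₂` from `exists_der_pair` (the last factor is `1`): `a' b' = n (α δ - β γ)`.
`α δ - β γ = (P.B s' t') ^ p`, `n ^ p = n`, so `(s' t') ^ p = (n P.B s' t') ^ p` and
`s' t' = n P.B s' t'`. -/
theorem exists_B_root {p : ℕ} [Fact p.Prime] {E K : Type*} [Field E] [CharP E p] [Field K]
    [Algebra E K] {P : Pois E K} {s t : K} (T : Tor p P s t)
    (hpow : ∀ x : K, ∃ c : E, algebraMap E K c = x ^ p) {a b : E} (hp : PInd p a b)
    (hs : s ^ p = algebraMap E K a) (ht : t ^ p = algebraMap E K b)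
    (hsp : Submodule.span E
      (Set.range fun x : Fin p × Fin p => s ^ (x.1 : ℕ) * t ^ (x.2 : ℕ)) = ⊤) {a' b' : E}
    (h : DlogRel p a b a' b') : ∃ (s' t' : K) (n : ℕ), ¬ p ∣ n ∧ s' ^ p = algebraMap E K a' ∧
      t' ^ p = algebraMap E K b' ∧ (n : E) • P.B s' t' = s' * t' := by
  have hpr : p.Prime := Fact.out
  obtain ⟨ha, hb⟩ := pind_ne hp
  obtain ⟨ha', hb', n, hn, hrel⟩ := h
  obtain ⟨⟨s', hs'⟩, ⟨t', ht'⟩⟩ := exists_root hp hs ht (K := K) ⟨ha', hb', n, hn, hrel⟩
  have : CharP K p := charP_of_injective_algebraMap (algebraMap E K).injective p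
  obtain ⟨α, hα⟩ := hpow (T.A s')
  obtain ⟨β, hβ⟩ := hpow (T.C s')
  obtain ⟨γ, hγ⟩ := hpow (T.A t')
  obtain ⟨δ, hδ⟩ := hpow (T.C t')
  have h1 : algebraMap E K (α * δ - β * γ) = (P.B s' t') ^ p := by
    rw [T.B, sub_pow_char, mul_pow, mul_pow, map_sub, map_mul, map_mul, hα, hβ, hγ, hδ]
  obtain ⟨D, D', d1, d2, d3, d4⟩ := exists_der_pair hp
  have e1 := T.der_pow hs ht hsp hs' hα.symm hβ.symm D
  have e2 := T.der_pow hs ht hsp ht' hγ.symm hδ.symm D
  have e3 := T.der_pow hs ht hsp hs' hα.symm hβ.symm D'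
  have e4 := T.der_pow hs ht hsp ht' hγ.symm hδ.symm D'
  have hab : a * b ≠ 0 := mul_ne_zero ha hb
  have e5 : (a * b) * (a * b) * (D a' * D' b' - D' a' * D b') =
      (a * b) * (α * δ - β * γ) := by
    calc (a * b) * (a * b) * (D a' * D' b' - D' a' * D b')
        = (a * b * D a') * (a * b * D' b') - (a * b * D' a') * (a * b * D b') := by ring
      _ = _ := by
        rw [e1, e2, e3, e4, d1, d2, d3, d4]
        ring
  have e6 : a * b * (D a' * D' b' - D' a' * D b') = α * δ - β * γ := by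
    apply mul_left_cancel₀ hab
    rw [← e5]
    ring
  have e7 := hrel D D'
  rw [d1, d2, d3, d4, e6, mul_one, zero_mul, sub_zero, mul_one] at e7
  -- e7 : a' * b' = n * (α δ - β γ)
  have hnp : ((n : ℕ) : K) ^ p = (n : K) := by
    have h2 := ZMod.pow_card (n : ZMod p)
    have h3 := congrArg (ZMod.castHom (dvd_refl p) K) h2
    rwa [map_pow, map_natCast] at h3
  refine ⟨s', t', n, hn, hs', ht', ?_⟩
  have h4 : ((n : E) • P.B s' t') ^ p = (s' * t') ^ p := by
    rw [Algebra.smul_def, mul_pow, map_natCast, hnp, ← h1, mul_pow, hs', ht', ← map_mul, e7,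
      map_mul, map_natCast]
  exact frobenius_inj K p h4
-- END exists_B_root

-- BEGIN scale
/-- Row V7 (definition and lemma). the multiple of a bracket by a nonzero constant: `alt`, `leib`,
`jac` (both sides are multiplied by `n ^ 2`), `cen`, `τ`, `τ_one`, `τ_B`. -/
theorem exists_scale {E K : Type*} [Field E] [Field K] [Algebra E K] (P : Pois E K) {n : E}
    (hn : n ≠ 0) : ∃ Q : Pois E K, (∀ x y, Q.B x y = n • P.B x y) ∧ Q.τ = P.τ := by
  refine ⟨⟨n • P.B, fun x => ?_, fun x y z => ?_, fun x y z => ?_, fun x hx => ?_, P.τ, P.τ_one,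
    fun x y => ?_⟩, fun x y => rfl, rfl⟩
  · rw [LinearMap.smul_apply, LinearMap.smul_apply, P.alt, smul_zero]
  · simp only [LinearMap.smul_apply]
    rw [P.leib, smul_add, mul_smul_comm, mul_smul_comm]
  · simp only [LinearMap.smul_apply, map_smul]
    rw [P.jac x y z, smul_add, smul_add]
  · refine P.cen x fun y => ?_
    have h := hx y
    rw [LinearMap.smul_apply, LinearMap.smul_apply] at h
    exact (smul_eq_zero.1 h).resolve_left hn
  · rw [LinearMap.smul_apply, LinearMap.smul_apply, map_smul, P.τ_B, smul_zero]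
-- END scale

-- BEGIN std_of_dlogRel
private theorem V8_card (p : ℕ) [hp : Fact p.Prime] :
    Fintype.card {x : Fin p × Fin p // (x.1 : ℕ) + x.2 ≠ 0} = p ^ 2 - 1 := by
  rw [Fintype.card_subtype_compl]
  have h1 : Fintype.card {x : Fin p × Fin p // (x.1 : ℕ) + x.2 = 0} = 1 := by
    rw [Fintype.card_eq_one_iff]
    refine ⟨⟨(⟨0, hp.out.pos⟩, ⟨0, hp.out.pos⟩), rfl⟩, ?_⟩
    rintro ⟨⟨i, j⟩, h⟩
    apply Subtype.ext
    have h2 : (i : ℕ) + j = 0 := h
    refine Prod.ext (Fin.ext ?_) (Fin.ext ?_)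
    · show (i : ℕ) = 0
      omega
    · show (j : ℕ) = 0
      omega
  rw [h1, Fintype.card_prod, Fintype.card_fin]
  rw [sq]

private theorem V8_ne {p : ℕ} [hp : Fact p.Prime] {E K : Type*} [Field E] [Field K] [Algebra E K]
    {a : E} (ha : a ≠ 0) {s : K} (hs : s ^ p = algebraMap E K a) : s ≠ 0 := by
  rintro rfl
  rw [zero_pow hp.out.ne_zero] at hs
  exact ha ((map_eq_zero_iff _ (algebraMap E K).injective).mp hs.symm)

/-- Row V8. Take `K`, `P`, `s`, `t`, `ι` from `exists_iota'`, `T` from `exists_tor`, `s'`, `t'`, `n`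
from `exists_B_root` and `Q` from `exists_scale` with `n`: `Q.B s' t' = s' t'`. For `i, j` not both
divisible by `p` `P.τ (s' ^ i * t' ^ j) = Q.τ (s' ^ i * t' ^ j) = 0` by `tau_mon Q`, so there is
`u' i j` with `ι (u' i j) = n s' ^ i t' ^ j`; put `u' i j = 0` if `p ∣ i` and `p ∣ j`. Check the
fields of `StdBasis` by applying `ι` as in the proof of `exists_lie` (Ext.lean):
`P.B (n s' ^ i t' ^ j) (n s' ^ k t' ^ l) = n Q.B (s' ^ i t' ^ j) (s' ^ k t' ^ l) =
(i l - j k) n s' ^ (i + k) t' ^ (j + l)` by `B_mon Q`; independence from `indep_of_B Q`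
(`s', t' ≠ 0` as `a', b' ≠ 0`); the spanning by the dimension (`h.finrank_eq` of Ind.lean,
`LinearIndependent.span_eq_top_of_card_eq_finrank`; the cardinality is computed in `G6_card`, a
private lemma of Ext.lean, copy it; or compare with the basis `u`). -/
theorem std_of_dlogRel {p : ℕ} [Fact p.Prime] {E : Type u} {L : Type v} [Field E] [CharP E p]
    [LieRing L] [LieAlgebra E L] {a b a' b' : E} {u : ℕ → ℕ → L} (h : StdBasis p E L a b u)
    (hp : PInd p a b) (h' : DlogRel p a b a' b') : ∃ u' : ℕ → ℕ → L, StdBasis p E L a' b' u' := by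
  obtain ⟨K, _, _, P, s, t, ι, hdim, hpow, hs, ht, hind, hsp, hP, hinj, hlie, hsurj, hτ⟩ :=
    exists_iota' h hp
  obtain ⟨ha, hb⟩ := pind_ne hp
  have hpp : p.Prime := Fact.out
  have hs0 : s ≠ 0 := V8_ne ha hs
  have ht0 : t ≠ 0 := V8_ne hb ht
  obtain ⟨T⟩ := exists_tor P hs0 ht0 hsp hP
  obtain ⟨s', t', n, hn, hs', ht', hB⟩ := exists_B_root T hpow hp hs ht hsp h'
  have hn0 : (n : E) ≠ 0 := fun h0 => hn ((CharP.cast_eq_zero_iff E p n).1 h0)
  obtain ⟨Q, hQB, hQτ⟩ := exists_scale P hn0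
  have hQ : Q.B s' t' = s' * t' := by
    rw [hQB]
    exact hB
  have ha' : a' ≠ 0 := h'.1
  have hb' : b' ≠ 0 := h'.2.1
  have hs0' : s' ≠ 0 := V8_ne ha' hs'
  have ht0' : t' ≠ 0 := V8_ne hb' ht'
  have hex : ∀ i j : ℕ, ∃ x : L, (p ∣ i ∧ p ∣ j → x = 0) ∧
      (¬ (p ∣ i ∧ p ∣ j) → ι x = (n : E) • (s' ^ i * t' ^ j)) := by
    intro i j
    by_cases hij : p ∣ i ∧ p ∣ j
    · exact ⟨0, fun _ => rfl, fun h1 => absurd hij h1⟩
    · have h1 : P.τ ((n : E) • (s' ^ i * t' ^ j)) = 0 := by
        rw [map_smul, ← hQτ, tau_mon Q hs' ht' ha' hb' hQ hij, smul_zero]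
      obtain ⟨x, hx⟩ := hsurj _ h1
      exact ⟨x, fun h2 => absurd h2 hij, fun _ => hx⟩
  choose u' hu0 hu1 using hex
  have hcast : ∀ i : ℕ, p ∣ i → (i : E) = 0 := fun i h => (CharP.cast_eq_zero_iff E p i).2 h
  have hnd : ∀ x : {x : Fin p × Fin p // (x.1 : ℕ) + x.2 ≠ 0},
      ¬ (p ∣ (x.1.1 : ℕ) ∧ p ∣ (x.1.2 : ℕ)) := by
    rintro ⟨⟨i, j⟩, h⟩ ⟨h1, h2⟩
    have h3 := Nat.eq_zero_of_dvd_of_lt h1 i.2
    have h4 := Nat.eq_zero_of_dvd_of_lt h2 j.2
    apply h
    show (i : ℕ) + j = 0
    simp only at h3 h4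
    omega
  have hli : LinearIndependent E (fun x : {x : Fin p × Fin p // (x.1 : ℕ) + x.2 ≠ 0} =>
      u' x.1.1 x.1.2) := by
    apply LinearIndependent.of_comp ι
    have h1 := (indep_of_B Q hs0' ht0' hQ).comp
      (Subtype.val : {x : Fin p × Fin p // (x.1 : ℕ) + x.2 ≠ 0} → Fin p × Fin p)
      Subtype.val_injective
    have h3 := h1.units_smul (fun _ => Units.mk0 (n : E) hn0)
    have h2 : (ι ∘ fun x : {x : Fin p × Fin p // (x.1 : ℕ) + x.2 ≠ 0} => u' x.1.1 x.1.2) =
        ((fun _ : {x : Fin p × Fin p // (x.1 : ℕ) + x.2 ≠ 0} => Units.mk0 (n : E) hn0) •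
          ((fun x : Fin p × Fin p => s' ^ (x.1 : ℕ) * t' ^ (x.2 : ℕ)) ∘ Subtype.val)) := by
      funext x
      exact hu1 _ _ (hnd x)
    rw [h2]
    exact h3
  refine ⟨u', ?_, ?_, ?_, ?_, hli, ?_⟩
  · exact hu0 0 0 ⟨dvd_zero p, dvd_zero p⟩
  · intro i j
    by_cases h : p ∣ i ∧ p ∣ j
    · rw [hu0 i j h, hu0 (i + p) j ⟨(Nat.dvd_add_self_right).2 h.1, h.2⟩, smul_zero]
    · have h' : ¬ (p ∣ i + p ∧ p ∣ j) := fun h2 => h ⟨(Nat.dvd_add_self_right).1 h2.1, h2.2⟩
      apply hinj
      rw [hu1 _ _ h', map_smul, hu1 _ _ h, pow_add, hs', Algebra.smul_def, Algebra.smul_def,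
        Algebra.smul_def]
      ring
  · intro i j
    by_cases h : p ∣ i ∧ p ∣ j
    · rw [hu0 i j h, hu0 i (j + p) ⟨h.1, (Nat.dvd_add_self_right).2 h.2⟩, smul_zero]
    · have h' : ¬ (p ∣ i ∧ p ∣ j + p) := fun h2 => h ⟨h2.1, (Nat.dvd_add_self_right).1 h2.2⟩
      apply hinj
      rw [hu1 _ _ h', map_smul, hu1 _ _ h, pow_add, ht', Algebra.smul_def, Algebra.smul_def,
        Algebra.smul_def]
      ring
  · intro i j k l
    by_cases h1 : p ∣ i ∧ p ∣ j
    · rw [hu0 i j h1, zero_lie, hcast i h1.1, hcast j h1.2, zero_mul, zero_mul, sub_zero, zero_smul]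
    by_cases h2 : p ∣ k ∧ p ∣ l
    · rw [hu0 k l h2, lie_zero, hcast k h2.1, hcast l h2.2, mul_zero, mul_zero, sub_zero, zero_smul]
    have hB := B_mon Q hQ i j k l
    rw [hQB] at hB
    apply hinj
    rw [hlie, hu1 i j h1, hu1 k l h2, map_smul, map_smul, LinearMap.smul_apply, hB, map_smul]
    have hc : algebraMap E K ((i : E) * l - j * k) = (i : K) * l - j * k := by
      rw [map_sub, map_mul, map_mul, map_natCast, map_natCast, map_natCast, map_natCast]
    by_cases h3 : p ∣ i + k ∧ p ∣ j + l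
    · have hz : (i : E) * l - j * k = 0 := by
        have e1 : (i : E) + k = 0 := by
          have := hcast (i + k) h3.1
          rwa [Nat.cast_add] at this
        have e2 : (j : E) + l = 0 := by
          have := hcast (j + l) h3.2
          rwa [Nat.cast_add] at this
        have e3 : (k : E) = -i := eq_neg_of_add_eq_zero_right e1
        have e4 : (l : E) = -j := eq_neg_of_add_eq_zero_right e2
        rw [e3, e4]
        ring
      rw [← hc, hz, map_zero, zero_mul, zero_smul, smul_zero]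
    · rw [hu1 _ _ h3, Algebra.smul_def, Algebra.smul_def, Algebra.smul_def, hc]
      ring
  · have hfin : FiniteDimensional E L := h.finite
    have hne : Nonempty {x : Fin p × Fin p // (x.1 : ℕ) + x.2 ≠ 0} :=
      ⟨⟨(⟨1, hpp.one_lt⟩, ⟨0, hpp.pos⟩), one_ne_zero⟩⟩
    apply hli.span_eq_top_of_card_eq_finrank
    rw [V8_card, h.finrank_eq]
-- END std_of_dlogRel

end Pool.Agent.MP9083S
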