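import Mathlib
import Pool.Agent.Lib.MP_9083e4_al.S.Defs
import Pool.Agent.Lib.MP_9083e4_al.S.Ind
import Pool.Agent.Lib.MP_9083e4_al.S.Cent
import Pool.Agent.Lib.MP_9083e4_al.S.Ext

/-! Rows K. Subalgebras over a smaller field. -/

set_option autoImplicit false

namespace Pool.Agent.MP9083S

open Module Pool.Agent.MP9083

universe u v w

section

variable {p : ℕ} [Fact p.Prime] {F : Type w} {E : Type u} {L : Type v} [Field F] [CharP F p]
  [Field E] [Algebra F E] [FiniteDimensional F E] [LieRing L] [LieAlgebra F L]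
  [LieAlgebra E L] [IsScalarTower F E L]

-- BEGIN adjoin_eq_top
/-- Row K1. Let `K = F(a, b)` be different from `E`. The `K`-span of the `u i j`, that is the
`F`-span of the `c • u i j`, `c ∈ K`, is a proper subalgebra over `F` (`E`-basis `u i j`; the
coordinates of its elements are in `K`), and it is not abelian (`⁅u 1 0, u 0 1⁆ = u 1 1`). -/
theorem adjoin_eq_top (H : ∀ S : LieSubalgebra F L, S ≠ ⊤ → IsLieAbelian S) {a b : E}
    {u : ℕ → ℕ → L} (h : StdBasis p E L a b u) : IntermediateField.adjoin F {a, b} = ⊤ := by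
  classical
  by_contra hne
  have hp := (Fact.out : p.Prime)
  have hp1 : 1 < p := hp.one_lt
  set K := IntermediateField.adjoin F {a, b} with hK
  let B : Basis {x : Fin p × Fin p // (x.1 : ℕ) + x.2 ≠ 0} E L :=
    Basis.mk h.indep (by rw [h.span])
  have hB : ∀ t, B t = u t.1.1 t.1.2 := fun t => Basis.mk_apply _ _ t
  let M : Submodule F L :=
    { carrier := {x | ∀ t, B.repr x t ∈ K}
      add_mem' := by
        intro x y hx hy t
        rw [map_add, Finsupp.add_apply]
        exact add_mem (hx t) (hy t)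
      zero_mem' := by
        intro t
        rw [map_zero]
        exact zero_mem K
      smul_mem' := by
        intro c x hx t
        rw [← algebraMap_smul E c x, map_smul, Finsupp.smul_apply, smul_eq_mul]
        exact mul_mem (K.algebraMap_mem c) (hx t) }
  have hM : ∀ x, x ∈ M ↔ ∀ t, B.repr x t ∈ K := fun x => Iff.rfl
  have hsm : ∀ c ∈ K, ∀ x ∈ M, c • x ∈ M := by
    intro c hc x hx t
    rw [map_smul, Finsupp.smul_apply, smul_eq_mul]
    exact mul_mem hc (hx t)
  have ha : a ∈ K := IntermediateField.subset_adjoin F _ (by simp)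
  have hb : b ∈ K := IntermediateField.subset_adjoin F _ (by simp)
  have hBM : ∀ t, B t ∈ M := by
    intro t s
    rw [B.repr_self, Finsupp.single_apply]
    split_ifs
    · exact one_mem K
    · exact zero_mem K
  have hu0 : ∀ r s, r < p → s < p → u r s ∈ M := by
    intro r s hr hs
    by_cases h0 : r + s = 0
    · have h1 : r = 0 := by omega
      have h2 : s = 0 := by omega
      rw [h1, h2, h.zero]
      exact M.zero_mem
    · exact (hB ⟨(⟨r, hr⟩, ⟨s, hs⟩), h0⟩) ▸ hBM ⟨(⟨r, hr⟩, ⟨s, hs⟩), h0⟩
  have hul : ∀ q i j, u (i + p * q) j = a ^ q • u i j := by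
    intro q
    induction q with
    | zero => intro i j; simp
    | succ q ih =>
      intro i j
      rw [Nat.mul_succ, ← add_assoc, h.left, ih, smul_smul, pow_succ']
  have hur : ∀ q i j, u i (j + p * q) = b ^ q • u i j := by
    intro q
    induction q with
    | zero => intro i j; simp
    | succ q ih =>
      intro i j
      rw [Nat.mul_succ, ← add_assoc, h.right, ih, smul_smul, pow_succ']
  have hu : ∀ m n, u m n ∈ M := by
    intro m n
    have h1 := hul (m / p) (m % p) n
    have h2 := hur (n / p) (m % p) (n % p)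
    rw [Nat.mod_add_div] at h1 h2
    rw [h1, h2]
    exact hsm _ (pow_mem ha _) _ (hsm _ (pow_mem hb _) _
      (hu0 _ _ (Nat.mod_lt _ hp.pos) (Nat.mod_lt _ hp.pos)))
  have hlie : ∀ x ∈ M, ∀ y ∈ M, ⁅x, y⁆ ∈ M := by
    intro x hx y hy
    have hxy : ⁅x, y⁆ = ∑ t, ∑ s, (B.repr x t * B.repr y s) • ⁅B t, B s⁆ := by
      conv_lhs => rw [← B.sum_repr x, ← B.sum_repr y]
      rw [sum_lie]
      refine Finset.sum_congr rfl fun t _ => ?_
      rw [lie_sum]
      refine Finset.sum_congr rfl fun s _ => ?_
      rw [smul_lie, lie_smul, smul_smul]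
    rw [hxy]
    refine M.sum_mem fun t _ => M.sum_mem fun s _ => ?_
    refine hsm _ (mul_mem (hx t) (hy s)) _ ?_
    rw [hB, hB, h.lie]
    refine hsm _ ?_ _ (hu _ _)
    exact sub_mem (mul_mem (natCast_mem K _) (natCast_mem K _))
      (mul_mem (natCast_mem K _) (natCast_mem K _))
  let S : LieSubalgebra F L := { M with lie_mem' := fun {x y} hx hy => hlie x hx y hy }
  have hSM : ∀ x, x ∈ S ↔ x ∈ M := fun x => Iff.rfl
  have hS : S ≠ ⊤ := by
    intro hT
    apply hne
    rw [eq_top_iff]
    intro e _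
    let t₀ : {x : Fin p × Fin p // (x.1 : ℕ) + x.2 ≠ 0} :=
      ⟨(⟨1, hp1⟩, ⟨0, hp.pos⟩), by simp⟩
    have h1 : e • B t₀ ∈ S := by rw [hT]; trivial
    have h2 := (hM _).1 ((hSM _).1 h1) t₀
    rw [map_smul, Finsupp.smul_apply, B.repr_self, Finsupp.single_eq_same, smul_eq_mul,
      mul_one] at h2
    exact h2
  have hab := H S hS
  have h3 := LieModule.IsTrivial.trivial (L := S) (M := S) ⟨u 1 0, hu 1 0⟩ ⟨u 0 1, hu 0 1⟩
  have h4 : ⁅u 1 0, u 0 1⁆ = 0 := congrArg (fun z : S => (z : L)) h3
  rw [h.lie] at h4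
  simp only [Nat.cast_one, Nat.cast_zero, mul_one, mul_zero, sub_zero, one_smul, add_zero,
    zero_add] at h4
  have h5 := B.ne_zero ⟨(⟨1, hp1⟩, ⟨1, hp1⟩), by simp⟩
  rw [hB] at h5
  exact h5 h4
-- END adjoin_eq_top

-- BEGIN exists_minimal
/-- Row K2. a nonabelian subalgebra of minimal dimension -/
theorem exists_minimal [FiniteDimensional F L] {S : LieSubalgebra F L} (hS : ¬ IsLieAbelian S) :
    ∃ S' : LieSubalgebra F L, S' ≤ S ∧ ¬ IsLieAbelian S' ∧
      ∀ T : LieSubalgebra F S', T ≠ ⊤ → IsLieAbelian T := by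
  classical
  have hex : ∃ n : ℕ, ∃ S' : LieSubalgebra F L, S' ≤ S ∧ ¬ IsLieAbelian S' ∧
      finrank F S' = n := ⟨_, S, le_refl S, hS, rfl⟩
  obtain ⟨S', h1, h2, h3⟩ := Nat.find_spec hex
  refine ⟨S', h1, h2, fun T hT => ?_⟩
  by_contra hab
  have hle : T.map S'.incl ≤ S' := by
    rintro x ⟨y, -, rfl⟩
    exact y.2
  have hnab : ¬ IsLieAbelian (T.map S'.incl) := by
    intro hA
    apply hab
    refine ⟨fun x y => ?_⟩
    have hx : ((x : S') : L) ∈ T.map S'.incl := ⟨x, x.2, rfl⟩
    have hy : ((y : S') : L) ∈ T.map S'.incl := ⟨y, y.2, rfl⟩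
    have h4 := hA.trivial ⟨_, hx⟩ ⟨_, hy⟩
    have h5 : ⁅((x : S') : L), ((y : S') : L)⁆ = 0 :=
      congrArg (fun z : T.map S'.incl => (z : L)) h4
    apply Subtype.ext
    apply Subtype.ext
    exact h5
  have hfr : finrank F (T.map S'.incl) = finrank F T :=
    Submodule.finrank_map_subtype_eq S'.toSubmodule T.toSubmodule
  have hlt : finrank F T < finrank F S' := by
    apply Submodule.finrank_lt (s := T.toSubmodule)
    intro h
    apply hT
    apply LieSubalgebra.toSubmodule_injective
    exact h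
  have hmin := Nat.find_min' hex ⟨T.map S'.incl, hle.trans h1, hnab, rfl⟩
  omega
-- END exists_minimal

-- BEGIN span_eq_top
/-- Row K3. The `E`-span of `S` is a subalgebra over `E` which is not abelian, so it is `L`. -/
theorem span_eq_top (H : ∀ S : LieSubalgebra E L, S ≠ ⊤ → IsLieAbelian S)
    {S : LieSubalgebra F L} (hS : ¬ IsLieAbelian S) :
    Submodule.span E (S : Set L) = ⊤ := by
  have hlie : ∀ {x y : L}, x ∈ Submodule.span E (S : Set L) → y ∈ Submodule.span E (S : Set L) →
      ⁅x, y⁆ ∈ Submodule.span E (S : Set L) := by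
    intro x y hx hy
    induction hx using Submodule.span_induction with
    | mem x hx =>
      induction hy using Submodule.span_induction with
      | mem y hy => exact Submodule.subset_span (S.lie_mem hx hy)
      | zero => rw [lie_zero]; exact Submodule.zero_mem _
      | add y z _ _ h1 h2 => rw [lie_add]; exact Submodule.add_mem _ h1 h2
      | smul c y _ h1 => rw [lie_smul]; exact Submodule.smul_mem _ c h1
    | zero => rw [zero_lie]; exact Submodule.zero_mem _
    | add x z _ _ h1 h2 => rw [add_lie]; exact Submodule.add_mem _ h1 h2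
    | smul c x _ h1 => rw [smul_lie]; exact Submodule.smul_mem _ c h1
  let K : LieSubalgebra E L := { Submodule.span E (S : Set L) with lie_mem' := hlie }
  have hK : K = ⊤ := by
    by_contra hne
    have hA := H K hne
    apply hS
    refine ⟨fun x y => ?_⟩
    have hx : (x : L) ∈ K := Submodule.subset_span x.2
    have hy : (y : L) ∈ K := Submodule.subset_span y.2
    have h4 := hA.trivial ⟨_, hx⟩ ⟨_, hy⟩
    have h5 : ⁅(x : L), (y : L)⁆ = 0 := congrArg (fun z : K => (z : L)) h4
    apply Subtype.ext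
    exact h5
  have h5 := congrArg LieSubalgebra.toSubmodule hK
  exact h5
-- END span_eq_top

-- BEGIN simple_sub
omit [CharP F p] [FiniteDimensional F E] [Fact p.Prime] in
/-- Row K4. Let `0 ≠ I ≠ S` be an ideal of `S`. As a subalgebra of `S` it is abelian. The `E`-span
of `I` is an ideal of `L = E S`, so it is `L`, so `L` is abelian. -/
theorem simple_sub [LieAlgebra.IsSimple E L] {S : LieSubalgebra F L} (hS : ¬ IsLieAbelian S)
    (hspan : Submodule.span E (S : Set L) = ⊤)
    (hmin : ∀ T : LieSubalgebra F S, T ≠ ⊤ → IsLieAbelian T) : LieAlgebra.IsSimple F S := by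
  refine ⟨fun I => ?_, hS⟩
  by_contra hno
  push Not at hno
  obtain ⟨hbot, htop⟩ := hno
  have hne : LieIdeal.toLieSubalgebra F S I ≠ ⊤ := by
    intro h
    apply htop
    rw [eq_top_iff]
    intro z _
    have : z ∈ LieIdeal.toLieSubalgebra F S I := by
      rw [h]
      exact LieSubalgebra.mem_top z
    exact this
  have hI : ∀ x ∈ I, ∀ y ∈ I, ⁅(x : L), (y : L)⁆ = 0 := by
    intro x hx y hy
    have h1 := (hmin _ hne).trivial ⟨x, hx⟩ ⟨y, hy⟩
    have h2 : ⁅x, y⁆ = 0 := congrArg Subtype.val h1
    exact congrArg Subtype.val h2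
  set T : Set L := {z | ∃ x ∈ I, (x : L) = z} with hT
  have h1 : ∀ y ∈ Submodule.span E (S : Set L), ∀ m ∈ Submodule.span E T,
      ⁅y, m⁆ ∈ Submodule.span E T := by
    intro y hy
    refine Submodule.span_induction (p := fun y _ => ∀ m ∈ Submodule.span E T,
      ⁅y, m⁆ ∈ Submodule.span E T) ?_ ?_ ?_ ?_ hy
    · intro s hs m hm
      refine Submodule.span_induction (p := fun m _ => ⁅s, m⁆ ∈ Submodule.span E T)
        ?_ ?_ ?_ ?_ hm
      · rintro _ ⟨x, hx, rfl⟩
        refine Submodule.subset_span ⟨⁅(⟨s, hs⟩ : S), x⁆, ?_, rfl⟩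
        exact I.lie_mem hx
      · rw [lie_zero]
        exact Submodule.zero_mem _
      · intro a b _ _ ha hb
        rw [lie_add]
        exact Submodule.add_mem _ ha hb
      · intro c a _ ha
        rw [lie_smul]
        exact Submodule.smul_mem _ c ha
    · intro m _
      rw [zero_lie]
      exact Submodule.zero_mem _
    · intro a b _ _ ha hb m hm
      rw [add_lie]
      exact Submodule.add_mem _ (ha m hm) (hb m hm)
    · intro c a _ ha m hm
      rw [smul_lie]
      exact Submodule.smul_mem _ c (ha m hm)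
  set J : LieIdeal E L :=
    { Submodule.span E T with
      lie_mem := fun {y m} hm => h1 y (by rw [hspan]; exact Submodule.mem_top) m hm } with hJ
  have hJm : ∀ z, z ∈ J ↔ z ∈ Submodule.span E T := fun z => Iff.rfl
  rcases LieAlgebra.IsSimple.eq_bot_or_eq_top (R := E) J with h | h
  · apply hbot
    rw [LieSubmodule.eq_bot_iff]
    intro x hx
    have h2 : (x : L) ∈ J := Submodule.subset_span ⟨x, hx, rfl⟩
    rw [h, LieSubmodule.mem_bot] at h2
    exact Subtype.ext h2
  · apply LieAlgebra.IsSimple.non_abelian E (L := L)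
    have h2 : ∀ z : L, z ∈ Submodule.span E T := fun z => by
      rw [← hJm, h]
      exact LieSubmodule.mem_top z
    refine ⟨fun x y => ?_⟩
    refine Submodule.span_induction (p := fun x _ => ⁅x, y⁆ = 0) ?_ ?_ ?_ ?_ (h2 x)
    · rintro _ ⟨x, hx, rfl⟩
      refine Submodule.span_induction (p := fun y _ => ⁅(x : L), y⁆ = 0) ?_ ?_ ?_ ?_ (h2 y)
      · rintro _ ⟨y, hy, rfl⟩
        exact hI x hx y hy
      · exact lie_zero _
      · intro a b _ _ ha hb
        rw [lie_add, ha, hb, add_zero]
      · intro c a _ ha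
        rw [lie_smul, ha, smul_zero]
    · exact zero_lie _
    · intro a b _ _ ha hb
      rw [add_lie, ha, hb, add_zero]
    · intro c a _ ha
      rw [smul_lie, ha, smul_zero]
-- END simple_sub

-- BEGIN exists_hom
private theorem K5_center [LieAlgebra.IsSimple E L] {z : L} (hz : ∀ y : L, ⁅y, z⁆ = 0) :
    z = 0 := by
  have h1 : z ∈ LieAlgebra.center E L := (LieModule.mem_maxTrivSubmodule E L L z).2 hz
  rcases LieAlgebra.IsSimple.eq_bot_or_eq_top (R := E) (LieAlgebra.center E L) with h | h
  · rw [h, LieSubmodule.mem_bot] at h1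
    exact h1
  · exact absurd ((LieAlgebra.isLieAbelian_iff_center_eq_top E L).2 h)
      (LieAlgebra.IsSimple.non_abelian (R := E))

private theorem K5_map [LieAlgebra.IsSimple E L] {S : LieSubalgebra F L}
    (hspan : Submodule.span E (S : Set L) = ⊤) (E' : Type*) [Field E'] [LieAlgebra E' S] (c : E') :
    ∃ T : L →ₗ[E] L, ∀ s : S, T s = ((c • s : S) : L) := by
  classical
  set Φ : (S →₀ E) →ₗ[E] L := Finsupp.linearCombination E (fun s : S => (s : L)) with hΦ
  set Ψ : (S →₀ E) →ₗ[E] L := Finsupp.linearCombination E (fun s : S => ((c • s : S) : L)) with hΨ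
  have hsurj : LinearMap.range Φ = ⊤ := by
    rw [hΦ, Finsupp.range_linearCombination]
    have : Set.range (fun s : S => (s : L)) = (S : Set L) := by
      ext x
      exact ⟨fun ⟨s, hs⟩ => hs ▸ s.2, fun hx => ⟨⟨x, hx⟩, rfl⟩⟩
    rw [this, hspan]
  have hlie : ∀ (f : S →₀ E) (y : S), ⁅(y : L), Ψ f⁆ = ⁅((c • y : S) : L), Φ f⁆ := by
    intro f y
    rw [hΦ, hΨ, Finsupp.linearCombination_apply, Finsupp.linearCombination_apply, Finsupp.sum,
      Finsupp.sum, lie_sum, lie_sum]
    refine Finset.sum_congr rfl fun s _ => ?_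
    rw [lie_smul, lie_smul]
    congr 1
    have h1 : ⁅y, c • s⁆ = ⁅c • y, s⁆ := by rw [lie_smul, smul_lie]
    have h2 := congrArg (Subtype.val : S → L) h1
    exact h2
  have hker : ∀ f : S →₀ E, Φ f = 0 → Ψ f = 0 := by
    intro f hf
    refine K5_center (E := E) fun y => ?_
    have hy : y ∈ Submodule.span E (S : Set L) := by rw [hspan]; trivial
    induction hy using Submodule.span_induction with
    | mem x hx =>
      have := hlie f ⟨x, hx⟩
      rw [hf, lie_zero] at this
      exact this
    | zero => exact zero_lie _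
    | add x y _ _ hx hy => rw [add_lie, hx, hy, add_zero]
    | smul a x _ hx => rw [smul_lie, hx, smul_zero]
  obtain ⟨g, hg⟩ := Φ.exists_rightInverse_of_surjective hsurj
  have hg' : ∀ x, Φ (g x) = x := fun x => LinearMap.congr_fun hg x
  refine ⟨Ψ ∘ₗ g, fun s => ?_⟩
  have h1 : Φ (g (s : L) - Finsupp.single s 1) = 0 := by
    rw [map_sub, hg', hΦ, Finsupp.linearCombination_single, one_smul, sub_self]
  have h2 := hker _ h1
  rw [map_sub, sub_eq_zero] at h2
  rw [LinearMap.comp_apply, h2, hΨ, Finsupp.linearCombination_single, one_smul]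

/-- Row K5. Let `E'` be a field over `F` and `S` a Lie algebra over `E'`. For `c ∈ E'` the map
`∑ e i s i ↦ ∑ e i (c s i)` is well defined on `L = E S`: if `∑ e i s i = 0` then
`⁅∑ e i (c s i), y⁆ = ∑ e i ⁅s i, c y⁆ = 0` for all `y ∈ S`, so for all `y ∈ L`. It is in the
centroid of `L` over `E`, so it is multiplication by an element `j c` of `E`. -/
theorem exists_hom [LieAlgebra.IsSimple E L] (hC : Central E L) {S : LieSubalgebra F L}
    (hspan : Submodule.span E (S : Set L) = ⊤) (E' : Type*) [Field E'] [Algebra F E']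
    [LieAlgebra E' S] [IsScalarTower F E' S] :
    ∃ j : E' →ₐ[F] E, ∀ (c : E') (s : S), ((c • s : S) : L) = j c • (s : L) := by
  classical
  have hex : ∀ c : E', ∃ e : E, ∀ s : S, ((c • s : S) : L) = e • (s : L) := by
    intro c
    obtain ⟨T, hT⟩ := K5_map (E := E) hspan E' c
    have hTS : ∀ x y : S, T ⁅(x : L), (y : L)⁆ = ⁅T (x : L), (y : L)⁆ := by
      intro x y
      have h1 : T ((⁅x, y⁆ : S) : L) = ((c • ⁅x, y⁆ : S) : L) := hT _
      rw [← smul_lie] at h1
      rw [hT x]
      exact h1
    have hTL : ∀ x y : L, T ⁅x, y⁆ = ⁅T x, y⁆ := by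
      intro x y
      have hx : x ∈ Submodule.span E (S : Set L) := by rw [hspan]; trivial
      have hy : y ∈ Submodule.span E (S : Set L) := by rw [hspan]; trivial
      induction hx using Submodule.span_induction with
      | mem x hx =>
        induction hy using Submodule.span_induction with
        | mem y hy => exact hTS ⟨x, hx⟩ ⟨y, hy⟩
        | zero => rw [lie_zero, lie_zero, map_zero]
        | add y z _ _ hy hz => rw [lie_add, lie_add, map_add, hy, hz]
        | smul a y _ hy => rw [lie_smul, lie_smul, map_smul, hy]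
      | zero => rw [zero_lie, map_zero, zero_lie]
      | add x z _ _ hx hz => rw [add_lie, map_add, map_add, add_lie, hx, hz]
      | smul a x _ hx => rw [smul_lie, map_smul, map_smul, smul_lie, hx]
    obtain ⟨e, he⟩ := hC T hTL
    exact ⟨e, fun s => by rw [← hT s, he]⟩
  choose j hj using hex
  obtain ⟨s0, hs0⟩ : ∃ s : S, (s : L) ≠ 0 := by
    by_contra hcon
    push Not at hcon
    have h1 : Submodule.span E (S : Set L) = ⊥ := by
      rw [Submodule.span_eq_bot]
      intro x hx
      exact hcon ⟨x, hx⟩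
    rw [hspan] at h1
    have h2 : ∀ x : L, x = 0 := fun x => by
      have : x ∈ (⊤ : Submodule E L) := trivial
      rw [h1, Submodule.mem_bot] at this
      exact this
    exact LieAlgebra.IsSimple.non_abelian (R := E) (L := L)
      ⟨fun x y => by rw [h2 x, zero_lie]⟩
  have huniq : ∀ a b : E, a • (s0 : L) = b • (s0 : L) → a = b := by
    intro a b hab
    have h1 : (a - b) • (s0 : L) = 0 := by rw [sub_smul, hab, sub_self]
    rcases smul_eq_zero.1 h1 with h2 | h2
    · exact sub_eq_zero.1 h2
    · exact absurd h2 hs0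
  have hone : j 1 = 1 := by
    apply huniq
    rw [← hj, one_smul, one_smul]
  have hmul : ∀ c d : E', j (c * d) = j c * j d := by
    intro c d
    apply huniq
    rw [← hj, mul_smul, hj c, hj d, mul_smul]
  have hadd : ∀ c d : E', j (c + d) = j c + j d := by
    intro c d
    apply huniq
    rw [← hj, add_smul, add_smul, ← hj, ← hj]
    rfl
  have hzero : j 0 = 0 := by
    apply huniq
    rw [← hj, zero_smul, zero_smul]
    rfl
  have halg : ∀ f : F, j (algebraMap F E' f) = algebraMap F E f := by
    intro f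
    apply huniq
    rw [← hj, algebraMap_smul, algebraMap_smul]
    rfl
  exact ⟨{ toFun := j, map_one' := hone, map_mul' := hmul, map_zero' := hzero, map_add' := hadd,
           commutes' := halg }, fun c s => hj c s⟩
-- END exists_hom

-- BEGIN std_up
omit [Fact p.Prime] [CharP F p] [FiniteDimensional F E] [IsScalarTower F E L] in
private theorem K6_mem {S : LieSubalgebra F L} (E' : Type*) [Field E']
    [Algebra F E'] [LieAlgebra E' S] [IsScalarTower F E' S] (j : E' →ₐ[F] E)
    (hj : ∀ (c : E') (s : S), ((c • s : S) : L) = j c • (s : L)) {ι : Type*} (v : ι → S) (s : S)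
    (hs : s ∈ Submodule.span E' (Set.range v)) :
    (s : L) ∈ Submodule.span E (Set.range fun x => (v x : L)) := by
  induction hs using Submodule.span_induction with
  | mem x hx =>
    obtain ⟨i, rfl⟩ := hx
    exact Submodule.subset_span ⟨i, rfl⟩
  | zero => exact Submodule.zero_mem _
  | add x y _ _ hx hy => exact Submodule.add_mem _ hx hy
  | smul c x _ hx =>
    rw [hj]
    exact Submodule.smul_mem _ _ hx

/-- Row K6. In the situation of `exists_hom` a standard basis of `S` over `E'` is one of `L` over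
`E`: it spans `L` over `E`, and `dim L = p ^ 2 - 1` over `E`. -/
theorem std_up {a₀ b₀ : E} {u₀ : ℕ → ℕ → L} (h₀ : StdBasis p E L a₀ b₀ u₀)
    {S : LieSubalgebra F L} (hspan : Submodule.span E (S : Set L) = ⊤) (E' : Type*) [Field E']
    [Algebra F E'] [LieAlgebra E' S] [IsScalarTower F E' S] (j : E' →ₐ[F] E)
    (hj : ∀ (c : E') (s : S), ((c • s : S) : L) = j c • (s : L)) {a b : E'} {u : ℕ → ℕ → S}
    (h : StdBasis p E' S a b u) :
    StdBasis p E L (j a) (j b) (fun i k => (u i k : L)) := by
  have hsp : Submodule.span E (Set.range fun x : {x : Fin p × Fin p // (x.1 : ℕ) + x.2 ≠ 0} =>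
      (u x.1.1 x.1.2 : L)) = ⊤ := by
    rw [eq_top_iff, ← hspan, Submodule.span_le]
    intro s hs
    exact K6_mem E' j hj (fun x : {x : Fin p × Fin p // (x.1 : ℕ) + x.2 ≠ 0} =>
      u x.1.1 x.1.2) ⟨s, hs⟩ (by rw [h.span]; exact Submodule.mem_top)
  have hcard : Fintype.card {x : Fin p × Fin p // (x.1 : ℕ) + x.2 ≠ 0} = Module.finrank E L :=
    (Module.finrank_eq_card_basis (Basis.mk h₀.indep h₀.span.ge)).symm
  refine ⟨?_, ?_, ?_, ?_, ?_, hsp⟩
  · show ((u 0 0 : S) : L) = 0
    rw [h.zero]
    rfl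
  · intro i k
    show ((u (i + p) k : S) : L) = j a • (u i k : L)
    rw [h.left, hj]
  · intro i k
    show ((u i (k + p) : S) : L) = j b • (u i k : L)
    rw [h.right, hj]
  · intro i k i' k'
    show ⁅((u i k : S) : L), ((u i' k' : S) : L)⁆ = _
    rw [← LieSubalgebra.coe_bracket, h.lie, hj]
    simp only [map_sub, map_mul, map_natCast]
  · exact linearIndependent_of_top_le_span_of_card_eq_finrank hsp.ge hcard
-- END std_up

-- BEGIN abelian_of_min
/-- Row K7. Assembly: let `S` be nonabelian, `S'` from `exists_minimal`; `S'` is simple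
(`std_proper`, `span_eq_top`, `simple_sub`), so `hcl` applies. By `exists_hom`
(`central_of_std`), `std_up` and `hmin` `E = F(j a, j b)` is in the range of `j`, so `S'` is closed
under `E` and `S' = ⊤`. -/
theorem abelian_of_min [FiniteDimensional F L] {a b : E} {u : ℕ → ℕ → L}
    (h : StdBasis p E L a b u) (hp : PInd p a b)
    (hmin : ∀ (a' b' : E) (u' : ℕ → ℕ → L), StdBasis p E L a' b' u' →
      IntermediateField.adjoin F {a', b'} = ⊤)
    (hcl : ∀ S : LieSubalgebra F L, LieAlgebra.IsSimple F S →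
      (∀ T : LieSubalgebra F S, T ≠ ⊤ → IsLieAbelian T) →
      ∃ (E' : Type v) (_ : Field E') (_ : Algebra F E') (_ : LieAlgebra E' S)
        (_ : IsScalarTower F E' S) (a' b' : E') (u' : ℕ → ℕ → S), StdBasis p E' S a' b' u') :
    ∀ S : LieSubalgebra F L, S ≠ ⊤ → IsLieAbelian S := by
  have hch : CharP E p := charP_of_injective_algebraMap (algebraMap F E).injective p
  intro S hS
  by_contra hna
  obtain ⟨S', hle, hna', hmin'⟩ := exists_minimal hna
  obtain ⟨hsE, hpr⟩ := std_proper h hp
  have hspan := span_eq_top hpr hna'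
  have hsimp := simple_sub hna' hspan hmin'
  obtain ⟨E', _, _, _, _, a', b', u', hu'⟩ := hcl S' hsimp hmin'
  obtain ⟨ha, hb⟩ := pind_ne hp
  have hC := central_of_std h ha hb
  obtain ⟨j, hj⟩ := exists_hom hC hspan E'
  have hstd := std_up h hspan E' j hj hu'
  have htop := hmin _ _ _ hstd
  have hrange : j.fieldRange = ⊤ := by
    rw [eq_top_iff, ← htop, IntermediateField.adjoin_le_iff]
    rintro x (rfl | rfl)
    · exact ⟨a', rfl⟩
    · exact ⟨b', rfl⟩
  apply hS
  rw [eq_top_iff]
  intro x _
  apply hle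
  have hx : x ∈ Submodule.span E (S' : Set L) := by
    rw [hspan]
    exact Submodule.mem_top
  refine Submodule.span_induction (p := fun x _ => x ∈ S') ?_ ?_ ?_ ?_ hx
  · exact fun y hy => hy
  · exact S'.zero_mem
  · exact fun y z _ _ hy hz => S'.add_mem hy hz
  · intro c y _ hy
    have hc : c ∈ j.fieldRange := by
      rw [hrange]
      exact IntermediateField.mem_top
    obtain ⟨c', rfl⟩ := hc
    have h1 := hj c' ⟨y, hy⟩
    have h2 : ((c' • (⟨y, hy⟩ : S') : S') : L) = j c' • y := h1
    change j c' • y ∈ S'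
    rw [← h2]
    exact (c' • (⟨y, hy⟩ : S')).2
-- END abelian_of_min

end

end Pool.Agent.MP9083S
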