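import Mathlib

/-! Row A1. Eigenvalues of `p`-power powers over a separably closed field. -/

set_option autoImplicit false

namespace Pool.Agent.MP9083S

open Module Polynomial

-- BEGIN exists_eig
/-- Row A1. The minimal polynomial of `A` has an irreducible factor `q` different from `X`. Over a
separably closed field `q = expand (p ^ m) (X - c)` (`Irreducible.hasSeparableContraction`,
`IsSepClosed`), up to a unit, `c ≠ 0`, `p ^ m ≤ deg q ≤ dim V`. Take `v = (μ / q)(A) w ≠ 0`. -/
theorem exists_eig {p : ℕ} [Fact p.Prime] {F V : Type*} [Field F] [CharP F p] [IsSepClosed F]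
    [AddCommGroup V] [Module F V] [FiniteDimensional F V] (A : Module.End F V)
    (hA : ¬ IsNilpotent A) :
    ∃ m : ℕ, m ≤ finrank F V ∧ ∃ c : F, c ≠ 0 ∧ ∃ v : V, v ≠ 0 ∧ (A ^ p ^ m) v = c • v := by
  have hint : IsIntegral F A := Algebra.IsIntegral.isIntegral A
  have hmu0 : minpoly F A ≠ 0 := minpoly.ne_zero hint
  obtain ⟨h, hh, hX⟩ := exists_eq_pow_rootMultiplicity_mul_and_not_dvd (minpoly F A) hmu0 0
  rw [C_0, sub_zero] at hh hX
  have hh0 : h ≠ 0 := by
    rintro rfl
    exact hX (dvd_zero _)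
  have hunit : ¬ IsUnit h := by
    intro hu
    apply hA
    have h1 := minpoly.aeval F A
    rw [hh, map_mul, map_pow, aeval_X] at h1
    have h2 : IsUnit (aeval A h) := hu.map (aeval A)
    exact ⟨_, (h2.mul_left_eq_zero).1 h1⟩
  obtain ⟨q, hq, hqh⟩ := WfDvdMonoid.exists_irreducible_factor hunit hh0
  have hqmu : q ∣ minpoly F A := by
    rw [hh]
    exact Dvd.dvd.mul_left hqh _
  obtain ⟨g, hg, m, hgm⟩ := hq.hasSeparableContraction p
  have hgirr : Irreducible g := of_irreducible_expand (pow_ne_zero m (Fact.out : p.Prime).ne_zero) (by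
    rw [hgm]
    exact hq)
  have hg1 : g.natDegree = 1 := natDegree_eq_of_degree_eq_some
    (IsSepClosed.degree_eq_one_of_irreducible F hgirr hg)
  obtain ⟨a, ha, b, hab⟩ := natDegree_eq_one.1 hg1
  have hqe : q = C a * X ^ (p ^ m) + C b := by
    rw [← hgm, ← hab, map_add, map_mul, expand_C, expand_X, expand_C]
  have hb : b ≠ 0 := by
    rintro rfl
    apply hX
    refine Dvd.dvd.trans ?_ hqh
    rw [hqe, C_0, add_zero]
    exact Dvd.dvd.mul_left (dvd_pow_self X (pow_ne_zero m (Fact.out : p.Prime).ne_zero)) _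
  obtain ⟨r, hr⟩ := hqmu
  have hr0 : aeval A r ≠ 0 := by
    intro h0
    have hrne : r ≠ 0 := by
      rintro rfl
      rw [mul_zero] at hr
      exact hmu0 hr
    have h1 := minpoly.degree_le_of_ne_zero F A hrne h0
    have h2 : (minpoly F A).natDegree = q.natDegree + r.natDegree := by
      rw [hr, natDegree_mul hq.ne_zero hrne]
    have h3 := natDegree_le_natDegree h1
    have h4 := hq.natDegree_pos
    omega
  obtain ⟨w, hw⟩ : ∃ w, aeval A r w ≠ 0 := by
    by_contra hcon
    push Not at hcon
    exact hr0 (LinearMap.ext hcon)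
  refine ⟨m, ?_, -(a⁻¹ * b), ?_, aeval A r w, hw, ?_⟩
  · have h1 : q.natDegree = p ^ m := by
      rw [← hgm, natDegree_expand, hg1, one_mul]
    have h2 : q.natDegree ≤ (minpoly F A).natDegree :=
      natDegree_le_of_dvd ⟨r, hr⟩ hmu0
    have h3 : (minpoly F A).natDegree ≤ finrank F V := by
      rw [← A.charpoly_natDegree]
      exact natDegree_le_of_dvd (LinearMap.minpoly_dvd_charpoly A) A.charpoly_monic.ne_zero
    have h4 := Nat.lt_pow_self (n := m) (Fact.out : p.Prime).one_lt
    omega
  · exact neg_ne_zero.2 (mul_ne_zero (inv_ne_zero ha) hb)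
  · have h1 : aeval A q (aeval A r w) = 0 := by
      rw [← Module.End.mul_apply, ← map_mul, ← hr, minpoly.aeval, LinearMap.zero_apply]
    rw [hqe, map_add, map_mul, map_pow, aeval_X, aeval_C, aeval_C, LinearMap.add_apply,
      Module.End.mul_apply, Module.algebraMap_end_apply, Module.algebraMap_end_apply] at h1
    have h2 : a⁻¹ • (a • (A ^ p ^ m) (aeval A r w) + b • aeval A r w) = 0 := by
      rw [h1, smul_zero]
    rw [smul_add, smul_smul, smul_smul, inv_mul_cancel₀ ha, one_smul] at h2
    rw [neg_smul]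
    exact eq_neg_of_add_eq_zero_left h2
-- END exists_eig

end Pool.Agent.MP9083S
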