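import Mathlib
import Pool.Agent.Lib.MP_9083e4_al.S.Dl
import Pool.Agent.Lib.MP_9083e4_al.S.Down

/-! Rows W. The isomorphism criterion. -/

set_option autoImplicit false

namespace Pool.Agent.MP9083S

open Module Pool.Agent.MP9083

universe u v w u' v'

section

variable {p : ℕ} {F : Type w} {E : Type u} {L : Type v} {E' : Type u'} {L' : Type v'} [Field F]
  [Field E] [Algebra F E] [LieRing L] [LieAlgebra F L] [LieAlgebra E L] [IsScalarTower F E L]
  [Field E'] [Algebra F E'] [LieRing L'] [LieAlgebra F L'] [LieAlgebra E' L']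
  [IsScalarTower F E' L']

-- BEGIN exists_field_map
private theorem W1_map (hperf : Submodule.span E' {z : L' | ∃ x y : L', ⁅x, y⁆ = z} = ⊤)
    (θ : L ≃ₗ⁅F⁆ L') (c : E) :
    ∃ T : L' →ₗ[E'] L', (∀ x y, T ⁅x, y⁆ = ⁅T x, y⁆) ∧ ∀ x : L, T (θ x) = θ (c • x) := by
  have hbr : ∀ x y : L', θ (c • θ.symm ⁅x, y⁆) = ⁅θ (c • θ.symm x), y⁆ := by
    intro x y
    have h1 : θ.symm ⁅x, y⁆ = ⁅θ.symm x, θ.symm y⁆ := LieEquiv.map_lie θ.symm x y
    rw [h1, ← smul_lie, LieEquiv.map_lie, LieEquiv.apply_symm_apply]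
  have hadd : ∀ x y : L', θ (c • θ.symm (x + y)) = θ (c • θ.symm x) + θ (c • θ.symm y) := by
    intro x y
    rw [map_add, smul_add, map_add]
  have hsm : ∀ (z : L') (d : E'), θ (c • θ.symm (d • z)) = d • θ (c • θ.symm z) := by
    intro z
    have hz : z ∈ Submodule.span E' {z : L' | ∃ x y : L', ⁅x, y⁆ = z} := by
      rw [hperf]
      trivial
    induction hz using Submodule.span_induction with
    | mem z hz =>
      obtain ⟨x, y, rfl⟩ := hz
      intro d
      rw [← lie_smul, hbr, lie_smul, hbr]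
    | zero =>
      intro d
      simp
    | add x y _ _ hx hy =>
      intro d
      rw [smul_add, hadd, hx, hy, hadd, smul_add]
    | smul e x _ hx =>
      intro d
      rw [smul_smul, hx, hx, smul_smul]
  refine ⟨{ toFun := fun x => θ (c • θ.symm x), map_add' := hadd, map_smul' := fun d z => hsm z d },
    hbr, fun x => ?_⟩
  show θ (c • θ.symm (θ x)) = θ (c • x)
  rw [LieEquiv.symm_apply_apply]

/-- Row W1. For `c ∈ E` the map `T x = θ (c • θ⁻¹ x)` of `L'` is linear over `F` and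
`T ⁅x, y⁆ = ⁅T x, y⁆`; it is linear over `E'`: `T (d • ⁅x, y⁆) = T ⁅x, d • y⁆ = ⁅T x, d • y⁆ =
d • T ⁅x, y⁆` and the brackets span `L'` over `E'` (`hperf`). So `T` is multiplication by an
element `φ c` of `E'` (`hC`), unique since `L' ≠ 0`; the uniqueness gives that `φ` is a ring
homomorphism and the identity on `F` (as in `exists_hom`, Down.lean). -/
theorem exists_field_map (hC : Central E' L')
    (hperf : Submodule.span E' {z : L' | ∃ x y : L', ⁅x, y⁆ = z} = ⊤) [Nontrivial L']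
    (θ : L ≃ₗ⁅F⁆ L') : ∃ φ : E →ₐ[F] E', ∀ (c : E) (x : L), θ (c • x) = φ c • θ x := by
  classical
  have hex : ∀ c : E, ∃ e : E', ∀ x : L, θ (c • x) = e • θ x := by
    intro c
    obtain ⟨T, hT, hT2⟩ := W1_map hperf θ c
    obtain ⟨e, he⟩ := hC T hT
    exact ⟨e, fun x => by rw [← hT2, he]⟩
  choose j hj using hex
  obtain ⟨z0, hz0⟩ := exists_ne (0 : L')
  have huniq : ∀ a b : E', a • z0 = b • z0 → a = b := by
    intro a b hab
    have h1 : (a - b) • z0 = 0 := by rw [sub_smul, hab, sub_self]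
    rcases smul_eq_zero.1 h1 with h2 | h2
    · exact sub_eq_zero.1 h2
    · exact absurd h2 hz0
  obtain ⟨s0, hs0⟩ : ∃ s0 : L, θ s0 = z0 := ⟨θ.symm z0, LieEquiv.apply_symm_apply θ z0⟩
  rw [← hs0] at huniq
  have hone : j 1 = 1 := by
    apply huniq
    rw [← hj, one_smul, one_smul]
  have hmul : ∀ c d : E, j (c * d) = j c * j d := by
    intro c d
    apply huniq
    rw [← hj, mul_smul, hj c, hj d, mul_smul]
  have hadd : ∀ c d : E, j (c + d) = j c + j d := by
    intro c d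
    apply huniq
    rw [← hj, add_smul, add_smul, ← hj, ← hj, map_add]
  have hzero : j 0 = 0 := by
    apply huniq
    rw [← hj, zero_smul, zero_smul, map_zero]
  have halg : ∀ f : F, j (algebraMap F E f) = algebraMap F E' f := by
    intro f
    apply huniq
    rw [← hj, algebraMap_smul, algebraMap_smul]
    exact map_smul (θ : L →ₗ[F] L') f s0
  exact ⟨{ toFun := j, map_one' := hone, map_mul' := hmul, map_zero' := hzero, map_add' := hadd,
           commutes' := halg }, fun c s => hj c s⟩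
-- END exists_field_map

-- BEGIN std_perfect
omit [IsScalarTower F E L] [LieAlgebra F L] [Algebra F E] [Field F] in
/-- Row W2. For `i, j < p` with `j ≠ 0`: `⁅u 1 0, u (i + p - 1) j⁆ = j • u (i + p) j = (j * a) • u i j`;
for `j = 0`, `i ≠ 0`: `⁅u 0 1, u i (p - 1)⁆ = - i • u i p = - (i * b) • u i 0`. -/
theorem std_perfect [Fact p.Prime] [CharP E p] {a b : E} {u : ℕ → ℕ → L}
    (h : StdBasis p E L a b u) (ha : a ≠ 0) (hb : b ≠ 0) :
    Submodule.span E {z : L | ∃ x y : L, ⁅x, y⁆ = z} = ⊤ := by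
  have hp1 : 1 ≤ p := (Fact.out : p.Prime).one_lt.le
  have hne : ∀ n : ℕ, n < p → n ≠ 0 → (n : E) ≠ 0 := by
    intro n hn h0 hc
    rw [CharP.cast_eq_zero_iff E p] at hc
    exact absurd (Nat.le_of_dvd (Nat.pos_of_ne_zero h0) hc) (not_le.2 hn)
  rw [eq_top_iff, ← h.span, Submodule.span_le]
  rintro _ ⟨⟨⟨i, j⟩, hij⟩, rfl⟩
  have hij' : (i : ℕ) + (j : ℕ) ≠ 0 := hij
  show u (i : ℕ) (j : ℕ) ∈ Submodule.span E {z : L | ∃ x y : L, ⁅x, y⁆ = z}
  by_cases hj : (j : ℕ) = 0
  · have hi : (i : ℕ) ≠ 0 := by omega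
    have h1 := h.lie 0 1 (i : ℕ) (p - 1)
    have e1 : 1 + (p - 1) = 0 + p := by omega
    rw [e1, zero_add (i : ℕ), h.right (i : ℕ) 0, smul_smul] at h1
    have hc : ((((0 : ℕ) : E) * ((p - 1 : ℕ) : E) - ((1 : ℕ) : E) * ((i : ℕ) : E)) * b) ≠ 0 := by
      refine mul_ne_zero ?_ hb
      rw [Nat.cast_zero, Nat.cast_one, zero_mul, one_mul, zero_sub]
      exact neg_ne_zero.2 (hne _ i.2 hi)
    rw [hj, ← inv_smul_smul₀ hc (u (i : ℕ) 0), ← h1]
    exact Submodule.smul_mem _ _ (Submodule.subset_span ⟨_, _, rfl⟩)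
  · have h1 := h.lie 1 0 ((i : ℕ) + (p - 1)) (j : ℕ)
    have e1 : 1 + ((i : ℕ) + (p - 1)) = (i : ℕ) + p := by omega
    rw [e1, zero_add (j : ℕ), h.left (i : ℕ) (j : ℕ), smul_smul] at h1
    have hc : ((((1 : ℕ) : E) * ((j : ℕ) : E) - ((0 : ℕ) : E) * (((i : ℕ) + (p - 1) : ℕ) : E)) * a) ≠ 0 := by
      refine mul_ne_zero ?_ ha
      rw [Nat.cast_zero, Nat.cast_one, zero_mul, one_mul, sub_zero]
      exact hne _ j.2 hj
    rw [← inv_smul_smul₀ hc (u (i : ℕ) (j : ℕ)), ← h1]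
    exact Submodule.smul_mem _ _ (Submodule.subset_span ⟨_, _, rfl⟩)
-- END std_perfect

-- BEGIN exists_field_equiv
private theorem W3_ne {p : ℕ} [Fact p.Prime] {E L : Type*} [Field E] [LieRing L]
    [LieAlgebra E L] {a b : E} {u : ℕ → ℕ → L} (h : StdBasis p E L a b u) : u 1 0 ≠ 0 := by
  have hp := (Fact.out : p.Prime).one_lt
  have h1 := h.indep.ne_zero ⟨((⟨1, hp⟩ : Fin p), (⟨0, by omega⟩ : Fin p)), by simp⟩
  simpa using h1

/-- Row W3. `exists_field_map` for `θ` and `θ.symm` (`central_of_std`, `std_perfect`; `L ≠ 0`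
since `u 1 0 ≠ 0`, `u' 1 0 ≠ 0`); the compositions are the identity by the uniqueness. -/
theorem exists_field_equiv [Fact p.Prime] [CharP E p] [CharP E' p] {a b : E}
    {u : ℕ → ℕ → L} (h : StdBasis p E L a b u) (hp : PInd p a b) {a' b' : E'} {u' : ℕ → ℕ → L'}
    (h' : StdBasis p E' L' a' b' u') (hp' : PInd p a' b') (θ : L ≃ₗ⁅F⁆ L') :
    ∃ φ : E ≃ₐ[F] E', ∀ (c : E) (x : L), θ (c • x) = φ c • θ x := by
  obtain ⟨ha, hb⟩ := pind_ne hp
  obtain ⟨ha', hb'⟩ := pind_ne hp'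
  have n1 : Nontrivial L := ⟨u 1 0, 0, W3_ne h⟩
  have n2 : Nontrivial L' := ⟨u' 1 0, 0, W3_ne h'⟩
  obtain ⟨φ, hφ⟩ := exists_field_map (F := F) (E := E) (central_of_std h' ha' hb')
    (std_perfect h' ha' hb') θ
  obtain ⟨ψ, hψ⟩ := exists_field_map (F := F) (E := E') (central_of_std h ha hb)
    (std_perfect h ha hb) θ.symm
  have k1 : ∀ c : E, ψ (φ c) = c := by
    intro c
    have e1 : ψ (φ c) • u 1 0 = c • u 1 0 := by
      have e2 := hψ (φ c) (θ (u 1 0))
      rw [← hφ, LieEquiv.symm_apply_apply, LieEquiv.symm_apply_apply] at e2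
      exact e2.symm
    exact smul_left_injective E (W3_ne h) e1
  have k2 : ∀ c : E', φ (ψ c) = c := by
    intro c
    have e1 : φ (ψ c) • u' 1 0 = c • u' 1 0 := by
      have e2 := hφ (ψ c) (θ.symm (u' 1 0))
      rw [← hψ, LieEquiv.apply_symm_apply, LieEquiv.apply_symm_apply] at e2
      exact e2.symm
    exact smul_left_injective E' (W3_ne h') e1
  exact ⟨AlgEquiv.ofAlgHom φ ψ (AlgHom.ext k2) (AlgHom.ext k1), hφ⟩
-- END exists_field_equiv

-- BEGIN std_map
/-- Row W4. the image of a standard basis under a semilinear isomorphism -/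
theorem std_map {a b : E} {u : ℕ → ℕ → L} (h : StdBasis p E L a b u) (θ : L ≃ₗ⁅F⁆ L')
    (φ : E ≃ₐ[F] E') (hθ : ∀ (c : E) (x : L), θ (c • x) = φ c • θ x) :
    StdBasis p E' L' (φ a) (φ b) (fun i j => θ (u i j)) := by
  have h0 : θ 0 = 0 := θ.toLinearEquiv.map_zero
  have hadd : ∀ x y, θ (x + y) = θ x + θ y := fun x y => θ.toLinearEquiv.map_add x y
  refine ⟨?_, ?_, ?_, ?_, ?_, ?_⟩
  · show θ (u 0 0) = 0
    rw [h.zero, h0]
  · intro i j
    show θ (u (i + p) j) = φ a • θ (u i j)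
    rw [h.left, hθ]
  · intro i j
    show θ (u i (j + p)) = φ b • θ (u i j)
    rw [h.right, hθ]
  · intro i j k l
    show ⁅θ (u i j), θ (u k l)⁆ = ((i : E') * l - j * k) • θ (u (i + k) (j + l))
    have h1 : ⁅θ (u i j), θ (u k l)⁆ = θ ⁅u i j, u k l⁆ := (LieEquiv.map_lie θ _ _).symm
    rw [h1, h.lie, hθ]
    congr 1
    simp
  · let J : L →+ L' :=
      { toFun := fun x => θ x
        map_zero' := h0
        map_add' := hadd }
    exact h.indep.map_of_injective_injective (fun c => φ.symm c) J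
      (fun r hr => by
        have h1 := congrArg φ hr
        simpa using h1)
      (fun m hm => by
        have h1 : θ m = θ 0 := by rw [h0]; exact hm
        exact θ.injective h1)
      (fun r m => by
        show θ (φ.symm r • m) = r • θ m
        rw [hθ, AlgEquiv.apply_symm_apply])
  · rw [eq_top_iff]
    intro y _
    obtain ⟨x, rfl⟩ := θ.surjective y
    have hx : x ∈ Submodule.span E
        (Set.range fun x : {x : Fin p × Fin p // (x.1 : ℕ) + x.2 ≠ 0} => u x.1.1 x.1.2) := by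
      rw [h.span]
      exact Submodule.mem_top
    refine Submodule.span_induction
      (p := fun z _ => θ z ∈ Submodule.span E' (Set.range
        fun x : {x : Fin p × Fin p // (x.1 : ℕ) + x.2 ≠ 0} =>
          (fun i j : ℕ => θ (u i j)) x.1.1 x.1.2)) ?_ ?_ ?_ ?_ hx
    · rintro z ⟨w, rfl⟩
      exact Submodule.subset_span ⟨w, rfl⟩
    · rw [h0]
      exact Submodule.zero_mem _
    · intro z w _ _ hz hw
      rw [hadd]
      exact Submodule.add_mem _ hz hw
    · intro c z _ hz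
      rw [hθ]
      exact Submodule.smul_mem _ _ hz

/-- Row W4. `p`-independence is preserved by isomorphisms -/
theorem pind_map {E E' : Type*} [Field E] [Field E'] {a b : E} (h : PInd p a b) (φ : E ≃+* E') :
    PInd p (φ a) (φ b) := by
  intro c hc
  have h1 := h (fun i j => φ.symm (c i j)) (by
    have h2 := congrArg φ.symm hc
    simpa [map_sum] using h2)
  funext i j
  have h3 := congrFun (congrFun h1 i) j
  have h4 := congrArg φ h3
  simpa using h4
-- END std_map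

-- BEGIN iso_of_std
private theorem W5_std [Fact p.Prime] {a b : E} {u : ℕ → ℕ → L} (h : StdBasis p E L a b u)
    (φ : E ≃ₐ[F] E') {u' : ℕ → ℕ → L'} (h' : StdBasis p E' L' (φ a) (φ b) u')
    (θ : L ≃ₗ[F] L') (hs : ∀ (c : E) (x : L), θ (c • x) = φ c • θ x)
    (hb : ∀ x : {x : Fin p × Fin p // (x.1 : ℕ) + x.2 ≠ 0}, θ (u x.1.1 x.1.2) = u' x.1.1 x.1.2) :
    ∀ i j : ℕ, θ (u i j) = u' i j := by
  have hp0 : 0 < p := (Fact.out : p.Prime).pos
  have s1 : ∀ i j : ℕ, i < p → j < p → θ (u i j) = u' i j := by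
    intro i j hi hj
    by_cases hij : i + j = 0
    · obtain ⟨rfl, rfl⟩ : i = 0 ∧ j = 0 := by omega
      rw [h.zero, h'.zero, map_zero]
    · exact hb ⟨(⟨i, hi⟩, ⟨j, hj⟩), hij⟩
  have s2 : ∀ j : ℕ, j < p → ∀ i : ℕ, θ (u i j) = u' i j := by
    intro j hj i
    induction i using Nat.strong_induction_on with
    | _ i ih =>
      by_cases hi : i < p
      · exact s1 i j hi hj
      · obtain ⟨k, rfl⟩ : ∃ k, i = k + p := ⟨i - p, by omega⟩
        rw [h.left, h'.left, hs, ih k (by omega)]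
  intro i j
  induction j using Nat.strong_induction_on with
  | _ j ih =>
    by_cases hj : j < p
    · exact s2 j hj i
    · obtain ⟨k, rfl⟩ : ∃ k, j = k + p := ⟨j - p, by omega⟩
      rw [h.right, h'.right, hs, ih k (by omega)]

private theorem W5_lie [Fact p.Prime] {a b : E} {u : ℕ → ℕ → L} (h : StdBasis p E L a b u)
    (φ : E ≃ₐ[F] E') {u' : ℕ → ℕ → L'} (h' : StdBasis p E' L' (φ a) (φ b) u')
    (θ : L ≃ₗ[F] L') (hs : ∀ (c : E) (x : L), θ (c • x) = φ c • θ x)
    (hu : ∀ i j : ℕ, θ (u i j) = u' i j) (x y : L) : θ ⁅x, y⁆ = ⁅θ x, θ y⁆ := by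
  have hx : x ∈ Submodule.span E (Set.range fun x : {x : Fin p × Fin p // (x.1 : ℕ) + x.2 ≠ 0} =>
      u x.1.1 x.1.2) := by rw [h.span]; trivial
  have hy : y ∈ Submodule.span E (Set.range fun x : {x : Fin p × Fin p // (x.1 : ℕ) + x.2 ≠ 0} =>
      u x.1.1 x.1.2) := by rw [h.span]; trivial
  induction hx using Submodule.span_induction with
  | mem x hx =>
    obtain ⟨z, rfl⟩ := hx
    induction hy using Submodule.span_induction with
    | mem y hy =>
      obtain ⟨w, rfl⟩ := hy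
      simp only [h.lie, hs, hu, h'.lie, map_sub, map_mul, map_natCast]
    | zero => simp
    | add y1 y2 _ _ h1 h2 => rw [lie_add, map_add, map_add, lie_add, h1, h2]
    | smul c y _ h1 => rw [lie_smul, hs, hs, lie_smul, h1]
  | zero => simp
  | add x1 x2 _ _ h1 h2 => rw [add_lie, map_add, map_add, add_lie, h1, h2]
  | smul c x _ h1 => rw [smul_lie, hs, hs, smul_lie, h1]

/-- Row W5. Let `B`, `B'` be the bases of `L` over `E` and of `L'` over `E'` given by `u` and `u'`
(`Basis.mk`). `θ (∑ c x • B x) = ∑ φ (c x) • B' x`, that is `B'.repr.symm ∘ (mapRange φ) ∘ B.repr`, is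
linear over `F` (`algebraMap_smul`), semilinear for `φ` and bijective, and `θ (u i j) = u' i j` for
all `i`, `j` (reduce to `i, j < p` with `h.left`, `h.right`, `h.zero` as in `G4_mod`, Ext.lean; there
`u 0 0 = 0`). So `θ ⁅u i j, u k l⁆ = ⁅θ (u i j), θ (u k l)⁆`, and `θ ⁅x, y⁆ = ⁅θ x, θ y⁆` by
semilinearity. -/
theorem iso_of_std [Fact p.Prime] {a b : E} {u : ℕ → ℕ → L} (h : StdBasis p E L a b u)
    (φ : E ≃ₐ[F] E') {u' : ℕ → ℕ → L'} (h' : StdBasis p E' L' (φ a) (φ b) u') :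
    Nonempty (L ≃ₗ⁅F⁆ L') := by
  classical
  let B : Basis {x : Fin p × Fin p // (x.1 : ℕ) + x.2 ≠ 0} E L := Basis.mk h.indep h.span.ge
  let B' : Basis {x : Fin p × Fin p // (x.1 : ℕ) + x.2 ≠ 0} E' L' := Basis.mk h'.indep h'.span.ge
  let θ : L ≃ₗ[F] L' := (B.equivFun.restrictScalars F).trans
    ((LinearEquiv.piCongrRight fun _ => φ.toLinearEquiv).trans (B'.equivFun.symm.restrictScalars F))
  have hθ : ∀ x : L, θ x = B'.equivFun.symm (fun i => φ (B.equivFun x i)) := fun x => rfl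
  have hs : ∀ (c : E) (x : L), θ (c • x) = φ c • θ x := by
    intro c x
    rw [hθ, hθ, ← map_smul]
    congr 1
    funext i
    simp
  have hb : ∀ x : {x : Fin p × Fin p // (x.1 : ℕ) + x.2 ≠ 0},
      θ (u x.1.1 x.1.2) = u' x.1.1 x.1.2 := by
    intro x
    have e1 : u x.1.1 x.1.2 = B x := (Basis.mk_apply h.indep h.span.ge x).symm
    have e2 : u' x.1.1 x.1.2 = B' x := (Basis.mk_apply h'.indep h'.span.ge x).symm
    rw [e1, e2, hθ]
    have e3 : (fun i => φ (B.equivFun (B x) i)) = B'.equivFun (B' x) := by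
      funext i
      rw [Basis.equivFun_self, Basis.equivFun_self]
      by_cases hi : x = i
      · simp [hi]
      · simp [hi]
    rw [e3, LinearEquiv.symm_apply_apply]
  have hu := W5_std h φ h' θ hs hb
  have hl := W5_lie h φ h' θ hs hu
  exact ⟨{ θ with map_lie' := fun {x y} => hl x y }⟩
-- END iso_of_std

/-- the isomorphism criterion -/
theorem iso_iff [Fact p.Prime] [CharP F p] {a b : E} {u : ℕ → ℕ → L}
    (h : StdBasis p E L a b u) (hp : PInd p a b) {a' b' : E'} {u' : ℕ → ℕ → L'}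
    (h' : StdBasis p E' L' a' b' u') (hp' : PInd p a' b') :
    Nonempty (L ≃ₗ⁅F⁆ L') ↔ ∃ φ : E ≃ₐ[F] E', DlogRel p (φ a) (φ b) a' b' := by
  have c1 : CharP E p := charP_of_injective_algebraMap (algebraMap F E).injective p
  have c2 : CharP E' p := charP_of_injective_algebraMap (algebraMap F E').injective p
  constructor
  · rintro ⟨θ⟩
    obtain ⟨φ, hφ⟩ := exists_field_equiv h hp h' hp' θ
    exact ⟨φ, dlogRel_of_std (std_map h θ φ hφ) (pind_map hp φ.toRingEquiv) h'⟩
  · rintro ⟨φ, hφ⟩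
    obtain ⟨h1, h2⟩ := pind_ne (pind_map hp φ.toRingEquiv)
    obtain ⟨u'', hu''⟩ := std_of_dlogRel h' hp' (hφ.symm h1 h2)
    exact iso_of_std h φ hu''

end

end Pool.Agent.MP9083S
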