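import Mathlib
import Pool.Agent.Lib.MP_9083e4_al.S.Defs

/-! Row B0. Simultaneous eigenspaces of two commuting toral maps. -/

set_option autoImplicit false

namespace Pool.Agent.MP9083S

open Module Polynomial

-- BEGIN exists_proj
private theorem B0_nodal {p : ℕ} [Fact p.Prime] (F : Type*) [Field F] [CharP F p] :
    (∏ i : ZMod p, (X - C (ct F i)) : F[X]) = X ^ p - X := by
  have hp : 1 < p := (Fact.out : p.Prime).one_lt
  have hm : (X ^ p - X : (ZMod p)[X]).Monic := by
    refine monic_X_pow_sub ?_
    rw [degree_X]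
    exact_mod_cast hp
  have hr : (X ^ p - X : (ZMod p)[X]).roots = Finset.univ.val := by
    have := FiniteField.roots_X_pow_card_sub_X (ZMod p)
    rwa [ZMod.card] at this
  have h1 : ((X ^ p - X : (ZMod p)[X]).roots.map fun a => X - C a).prod = X ^ p - X := by
    apply prod_multiset_X_sub_C_of_monic_of_roots_card_eq hm
    rw [hr, FiniteField.X_pow_card_sub_X_natDegree_eq _ hp]
    simp [ZMod.card]
  rw [hr] at h1
  have h2 : (∏ i : ZMod p, (X - C i) : (ZMod p)[X]) = X ^ p - X := h1
  have h3 := congrArg (Polynomial.map (ct F)) h2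
  simpa [Polynomial.map_prod] using h3

private theorem B0_mul {p : ℕ} [Fact p.Prime] (F : Type*) [Field F] [CharP F p] (i : ZMod p) :
    ∃ c : F, (X - C (ct F i)) * Lagrange.basis Finset.univ (ct F : ZMod p → F) i =
      C c * (X ^ p - X) := by
  classical
  refine ⟨∏ j ∈ Finset.univ.erase i, (ct F i - ct F j)⁻¹, ?_⟩
  rw [← B0_nodal F, Lagrange.basis]
  simp only [Lagrange.basisDivisor, Finset.prod_mul_distrib, map_prod]
  rw [← Finset.mul_prod_erase Finset.univ (fun i : ZMod p => (X - C (ct F i) : F[X]))
    (Finset.mem_univ i)]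
  ring

private theorem B0_eig {F V : Type*} [Field F] [AddCommGroup V] [Module F V]
    {e : Module.End F V} {c : F} {x : V} (h : e x = c • x) (q : F[X]) :
    aeval e q x = q.eval c • x := by
  induction q using Polynomial.induction_on' with
  | add a b ha hb => rw [map_add, LinearMap.add_apply, ha, hb, eval_add, add_smul]
  | monomial n a =>
    have hn : ∀ n : ℕ, (e ^ n) x = c ^ n • x := by
      intro n
      induction n with
      | zero => simp
      | succ n ih => rw [pow_succ', Module.End.mul_apply, ih, map_smul, h, smul_smul, pow_succ]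
    rw [aeval_monomial, eval_monomial, Module.End.mul_apply, hn,
      Module.algebraMap_end_apply, smul_smul]

private theorem B0_comm {F V : Type*} [Field F] [AddCommGroup V] [Module F V]
    {e f : Module.End F V} (h : Commute e f) (q : F[X]) : Commute (aeval e q) f := by
  induction q using Polynomial.induction_on' with
  | add a b ha hb => rw [map_add]; exact ha.add_left hb
  | monomial n a =>
    rw [aeval_monomial]
    exact Commute.mul_left (Algebra.commutes a f) (h.pow_left n)

private theorem B0_one {p : ℕ} [Fact p.Prime] {F V : Type*} [Field F] [CharP F p]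
    [AddCommGroup V] [Module F V] {e : Module.End F V} (he : e ^ p = e) (i : ZMod p) (x : V) :
    e (aeval e (Lagrange.basis Finset.univ (ct F : ZMod p → F) i) x) =
      ct F i • aeval e (Lagrange.basis Finset.univ (ct F : ZMod p → F) i) x := by
  obtain ⟨c, hc⟩ := B0_mul F i
  have h := congrArg (fun q : F[X] => aeval e q x) hc
  simp only [map_mul, map_sub, aeval_X, aeval_C, map_pow, he, sub_self, mul_zero,
    LinearMap.zero_apply, Module.End.mul_apply, LinearMap.sub_apply,
    Module.algebraMap_end_apply] at h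
  exact sub_eq_zero.1 h

/-- Row B0. `P (i, j) = L_i(e) L_j(e')` with the Lagrange polynomials
`L_i = Lagrange.basis Finset.univ (ct F) i` of the points of the prime field
(`Lagrange.sum_basis`; `(X - i) L_i` is a multiple of `X ^ p - X`). -/
theorem exists_proj {p : ℕ} [Fact p.Prime] {F V : Type*} [Field F] [CharP F p]
    [AddCommGroup V] [Module F V] {e e' : Module.End F V} (he : e ^ p = e) (he' : e' ^ p = e')
    (hc : Commute e e') :
    ∃ P : ZMod p × ZMod p → Module.End F V,
      (∀ χ x, e (P χ x) = ct F χ.1 • P χ x ∧ e' (P χ x) = ct F χ.2 • P χ x) ∧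
      (∀ x, ∑ χ, P χ x = x) ∧
      (∀ χ x, e x = ct F χ.1 • x → e' x = ct F χ.2 • x → P χ x = x) ∧
      ∀ χ ψ x, e x = ct F χ.1 • x → e' x = ct F χ.2 • x → χ ≠ ψ → P ψ x = 0 := by
  classical
  have hinj : Function.Injective (ct F : ZMod p → F) := (ct F).injective
  set B : ZMod p → F[X] := fun i => Lagrange.basis Finset.univ (ct F : ZMod p → F) i with hB
  have hcomm : ∀ q q' : F[X], ∀ x, aeval e q (aeval e' q' x) = aeval e' q' (aeval e q x) := by
    intro q q' x
    have h1 : Commute (aeval e q) (aeval e' q') := (B0_comm (B0_comm hc q).symm q').symm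
    exact congrFun (congrArg DFunLike.coe h1.eq) x
  have hsum : ∑ i, B i = 1 :=
    Lagrange.sum_basis (hinj.injOn) ⟨0, Finset.mem_univ _⟩
  have hself : ∀ i, (B i).eval (ct F i) = 1 := fun i =>
    Lagrange.eval_basis_self hinj.injOn (Finset.mem_univ _)
  have hne : ∀ i j, i ≠ j → (B i).eval (ct F j) = 0 := fun i j h =>
    Lagrange.eval_basis_of_ne h (Finset.mem_univ _)
  refine ⟨fun χ => aeval e (B χ.1) * aeval e' (B χ.2), ?_, ?_, ?_, ?_⟩
  · intro χ x
    refine ⟨B0_one he χ.1 _, ?_⟩
    rw [Module.End.mul_apply, hcomm]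
    exact B0_one he' χ.2 _
  · intro x
    rw [Fintype.sum_prod_type]
    simp only [Module.End.mul_apply]
    have h1 : ∀ i, ∑ j, aeval e (B i) (aeval e' (B j) x) = aeval e (B i) x := by
      intro i
      rw [← map_sum, ← LinearMap.sum_apply, ← map_sum, hsum, map_one, Module.End.one_apply]
    simp only [h1]
    rw [← LinearMap.sum_apply, ← map_sum, hsum, map_one, Module.End.one_apply]
  · intro χ x h1 h2
    rw [Module.End.mul_apply, B0_eig h2, map_smul, B0_eig h1, hself, hself, one_smul, one_smul]
  · intro χ ψ x h1 h2 h3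
    rw [Module.End.mul_apply, B0_eig h2, map_smul, B0_eig h1]
    by_cases h : ψ.1 = χ.1
    · have h' : ψ.2 ≠ χ.2 := fun h' => h3 (Prod.ext h.symm h'.symm)
      rw [hne _ _ h', zero_smul]
    · rw [hne _ _ h, zero_smul, smul_zero]
-- END exists_proj

end Pool.Agent.MP9083S
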