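import Mathlib
import Pool.Agent.Lib.MP_9083e4_al.S.Defs
import Pool.Agent.Lib.MP_9083e4_al.S.Eig
import Pool.Agent.Lib.MP_9083e4_al.S.Proj

/-! Rows B1, B2, B3. Toral derivations. -/

set_option autoImplicit false

namespace Pool.Agent.MP9083S

open Module Pool.Agent.MP9083

section

variable {p : ℕ} [Fact p.Prime] {F L : Type*} [Field F] [CharP F p] [LieRing L]
  [LieAlgebra F L] [FiniteDimensional F L]

-- BEGIN isDer_pow
omit [FiniteDimensional F L] in
/-- Row B1. `pclosed_derAlg`, `mem_derAlg_iff` -/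
theorem isDer_pow {D : Module.End F L} (hD : IsDer D) (k : ℕ) : IsDer (D ^ p ^ k) :=
  mem_derAlg_iff.mp ((pclosed_derAlg p).pow_mem (mem_derAlg_iff.mpr hD) k)
-- END isDer_pow

-- BEGIN exists_toral
/-- Row B2. `A = ad x` is not nilpotent (`not_adnil`). By `exists_eig` there are `m ≤ dim L`,
`c ≠ 0`, `v ≠ 0` with `A ^ (p ^ m) v = c v`, put `s = A ^ (p ^ m)`. The derivation
`D = s ^ p - c ^ (p - 1) s` kills `x` and `v`. If `D ≠ 0`, then `kerAlg D` is a proper subalgebra,
so nilpotent (`exists_pow_eq_zero`), but `A ^ (p ^ m * k) v = c ^ k v ≠ 0`. So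
`s ^ p = c ^ (p - 1) s`, `e = c⁻¹ s` satisfies `e ^ p = e` and
`e = e ^ (p ^ j) = c ^ (- p ^ j) A ^ (p ^ (m + j))`, `j = dim L + 1 - m`. -/
theorem exists_toral [IsSepClosed F] [LieAlgebra.IsSimple F L] (H : PropNil F L) {x : L}
    (hx : x ≠ 0) : ∃ c : F, c ≠ 0 ∧
      (c • (LieAlgebra.ad F L x) ^ p ^ (finrank F L + 1)) ^ p =
        c • (LieAlgebra.ad F L x) ^ p ^ (finrank F L + 1) := by
  have hp : p.Prime := Fact.out
  set A : Module.End F L := LieAlgebra.ad F L x with hAdef
  have hA : ¬ IsNilpotent A := not_adnil H hx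
  obtain ⟨m, hm, c, hc, v, hv, hvc⟩ := exists_eig (p := p) A hA
  set s : Module.End F L := A ^ p ^ m with hsdef
  have hs : IsDer s := isDer_pow (p := p) (isDer_ad x) m
  have hsp : IsDer (s ^ p) := by
    have h := isDer_pow (p := p) hs 1
    rwa [pow_one] at h
  have hAx : A x = 0 := by
    rw [hAdef, LieAlgebra.ad_apply, lie_self]
  have hApow : ∀ n : ℕ, 0 < n → (A ^ n) x = 0 := by
    intro n hn
    obtain ⟨k, rfl⟩ := Nat.exists_eq_succ_of_ne_zero hn.ne'
    rw [pow_succ, Module.End.mul_apply, hAx, map_zero]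
  have hsx : s x = 0 := hApow _ (pow_pos hp.pos m)
  have hspx : (s ^ p) x = 0 := by
    rw [hsdef, ← pow_mul]
    exact hApow _ (Nat.mul_pos (pow_pos hp.pos m) hp.pos)
  have hsk : ∀ k : ℕ, (s ^ k) v = c ^ k • v := by
    intro k
    induction k with
    | zero => simp
    | succ k ih =>
      rw [pow_succ', Module.End.mul_apply, ih, map_smul, hvc, smul_smul, ← pow_succ]
  set D : Module.End F L := s ^ p - c ^ (p - 1) • s with hDdef
  have hDder : IsDer D := by
    intro y z
    rw [hDdef]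
    simp only [LinearMap.sub_apply, LinearMap.smul_apply]
    rw [hsp, hs, sub_lie, lie_sub, smul_lie, lie_smul, smul_add]
    abel
  have hDx : D x = 0 := by
    rw [hDdef, LinearMap.sub_apply, LinearMap.smul_apply, hsx, hspx, smul_zero, sub_zero]
  have hDv : D v = 0 := by
    rw [hDdef, LinearMap.sub_apply, LinearMap.smul_apply, hsk, hvc, smul_smul, ← pow_succ,
      Nat.sub_add_cancel hp.one_lt.le, sub_self]
  have hD0 : D = 0 := by
    by_contra h0
    have hne : kerAlg D hDder ≠ ⊤ := by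
      intro h
      apply h0
      refine LinearMap.ext fun y => ?_
      have : y ∈ kerAlg D hDder := by
        rw [h]
        exact LieSubalgebra.mem_top y
      exact this
    obtain ⟨k, hk⟩ := exists_pow_eq_zero (H _ hne) (show x ∈ kerAlg D hDder from hDx)
      (show v ∈ kerAlg D hDder from hDv)
    have h1 : (s ^ k) v = 0 := by
      rw [hsdef, ← pow_mul]
      have h2 : k ≤ p ^ m * k := Nat.le_mul_of_pos_left _ (pow_pos hp.pos m)
      rw [← Nat.sub_add_cancel h2, pow_add, Module.End.mul_apply, hk, map_zero]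
    rw [hsk] at h1
    exact (smul_ne_zero (pow_ne_zero k hc) hv) h1
  have hsps : s ^ p = c ^ (p - 1) • s := sub_eq_zero.mp hD0
  set e : Module.End F L := c⁻¹ • s with hedef
  have hep : e ^ p = e := by
    rw [hedef, smul_pow, hsps, smul_smul]
    congr 1
    have h1 : c⁻¹ ^ p = c⁻¹ * c⁻¹ ^ (p - 1) := by
      rw [← pow_succ', Nat.sub_add_cancel hp.one_lt.le]
    rw [h1, mul_assoc, ← mul_pow, inv_mul_cancel₀ hc, one_pow, mul_one]
  have hej : ∀ j : ℕ, e ^ p ^ j = e := by
    intro j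
    induction j with
    | zero => simp
    | succ j ih => rw [pow_succ, pow_mul, ih, hep]
  obtain ⟨j, hj⟩ : ∃ j, finrank F L + 1 = m + j := ⟨finrank F L + 1 - m, by omega⟩
  have hfin : c⁻¹ ^ p ^ j • A ^ p ^ (finrank F L + 1) = e := by
    have h1 := hej j
    rw [hedef, smul_pow, hsdef, ← pow_mul, ← pow_add, ← hj] at h1
    rw [h1]
  refine ⟨c⁻¹ ^ p ^ j, pow_ne_zero _ (inv_ne_zero hc), ?_⟩
  rw [hfin]
  exact hep
-- END exists_toral

-- BEGIN toral_prop
omit [Fact p.Prime] [CharP F p] in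
private theorem B3_good (H : PropNil F L) {D : Module.End F L} (hD : IsDer D) (h0 : D ≠ 0)
    {z v : L} (hz : D z = 0) (hv : D v = 0) :
    ∃ k : ℕ, ((LieAlgebra.ad F L z) ^ k) v = 0 := by
  have hne : kerAlg D hD ≠ ⊤ := by
    intro h
    apply h0
    refine LinearMap.ext fun y => ?_
    have hy : y ∈ kerAlg D hD := by
      rw [h]
      exact LieSubalgebra.mem_top y
    exact hy
  exact exists_pow_eq_zero (H _ hne) (show z ∈ kerAlg D hD from hz)
    (show v ∈ kerAlg D hD from hv)

omit [Fact p.Prime] [CharP F p] [FiniteDimensional F L] in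
private theorem B3_isDer {s t : Module.End F L} (hs : IsDer s) (ht : IsDer t) (a b : F) :
    IsDer (a • t - b • s) := by
  intro x y
  simp only [LinearMap.sub_apply, LinearMap.smul_apply, ht x y, hs x y, smul_add, sub_lie,
    lie_sub, smul_lie, lie_smul]
  abel

/-- Row B3. Let `P` be as in `exists_proj s t`. For every `χ ≠ 0` the derivation
`D = χ.1 t - χ.2 s` kills `z` and the range of `P χ`. If `D ≠ 0`, then `kerAlg D` is nilpotent, so
every element of the range of `P χ` is killed by a power of `ad z` (`exists_pow_eq_zero`); the same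
for `χ = 0` with `kerAlg s`. If this holds for all `χ` then `ad z` is nilpotent, against
`not_adnil`. So `χ.1 t = χ.2 s` for some `χ ≠ 0` and both are nonzero as `s ≠ 0`, `t ≠ 0`. -/
theorem toral_prop [LieAlgebra.IsSimple F L] (H : PropNil F L) {s t : Module.End F L}
    (hs : IsDer s) (ht : IsDer t) (hs0 : s ≠ 0) (ht0 : t ≠ 0) (hsp : s ^ p = s) (htp : t ^ p = t)
    (hc : Commute s t) {z : L} (hz : z ≠ 0) (hsz : s z = 0) (htz : t z = 0) :
    ∃ c : ZMod p, c ≠ 0 ∧ t = ct F c • s := by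
  classical
  obtain ⟨P, hP1, hP2, -, -⟩ := exists_proj hsp htp hc
  -- some part is not killed by powers of `ad z`
  have hbad : ∃ χ, ¬ ∀ x, ∃ k : ℕ, ((LieAlgebra.ad F L z) ^ k) (P χ x) = 0 := by
    by_contra hcon
    push Not at hcon
    apply not_adnil H hz
    rw [Module.End.isNilpotent_iff_of_finite]
    intro x
    choose k hk using fun χ => hcon χ x
    refine ⟨∑ χ, k χ, ?_⟩
    rw [← hP2 x, map_sum]
    refine Finset.sum_eq_zero fun χ _ => ?_
    obtain ⟨d, hd⟩ := Nat.exists_eq_add_of_le (Finset.single_le_sum (f := k)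
      (fun _ _ => Nat.zero_le _) (Finset.mem_univ χ))
    rw [hd, add_comm, pow_add, Module.End.mul_apply, hk χ, map_zero]
  obtain ⟨χ, hχ⟩ := hbad
  have hinj : Function.Injective (ct F : ZMod p →+* F) := (ct F : ZMod p →+* F).injective
  have hχ0 : χ ≠ 0 := by
    rintro rfl
    apply hχ
    intro x
    refine B3_good H hs hs0 hsz ?_
    rw [(hP1 0 x).1, Prod.fst_zero, map_zero, zero_smul]
  have hD0 : ct F χ.1 • t - ct F χ.2 • s = 0 := by
    by_contra hne
    apply hχ
    intro x
    refine B3_good H (B3_isDer hs ht _ _) hne ?_ ?_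
    · rw [LinearMap.sub_apply, LinearMap.smul_apply, LinearMap.smul_apply, htz, hsz, smul_zero,
        smul_zero, sub_zero]
    · rw [LinearMap.sub_apply, LinearMap.smul_apply, LinearMap.smul_apply, (hP1 χ x).1,
        (hP1 χ x).2, smul_smul, smul_smul, mul_comm, sub_self]
  have hD : ct F χ.1 • t = ct F χ.2 • s := sub_eq_zero.1 hD0
  have h1 : χ.1 ≠ 0 := by
    intro h
    rw [h, map_zero, zero_smul] at hD
    have h2 : χ.2 ≠ 0 := fun h2 => hχ0 (Prod.ext h h2)
    have h3 : ct F χ.2 ≠ 0 := (map_ne_zero_iff _ hinj).2 h2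
    exact hs0 ((smul_eq_zero.1 hD.symm).resolve_left h3)
  have h1' : ct F χ.1 ≠ 0 := (map_ne_zero_iff _ hinj).2 h1
  have h2 : χ.2 ≠ 0 := by
    intro h
    rw [h, map_zero, zero_smul] at hD
    exact ht0 ((smul_eq_zero.1 hD).resolve_left h1')
  refine ⟨χ.1⁻¹ * χ.2, mul_ne_zero (inv_ne_zero h1) h2, ?_⟩
  rw [map_mul, map_inv₀, mul_smul, ← hD, smul_smul, inv_mul_cancel₀ h1', one_smul]
-- END toral_prop

end

end Pool.Agent.MP9083S
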