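import Mathlib
import Pool.Agent.Lib.MP_9083e4_al.S.Toral

/-! Row B4. Existence of the grading. -/

set_option autoImplicit false

namespace Pool.Agent.MP9083S

open Module Pool.Agent.MP9083

-- BEGIN exists_frame
private theorem B4_smul {F L : Type*} [Field F] [LieRing L] [LieAlgebra F L]
    {D : Module.End F L} (hD : IsDer D) (c : F) : IsDer (c • D) := by
  intro x y
  rw [LinearMap.smul_apply, LinearMap.smul_apply, LinearMap.smul_apply, hD x y, smul_add,
    smul_lie, lie_smul]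

private theorem B4_sub {F L : Type*} [Field F] [LieRing L] [LieAlgebra F L]
    {D D' : Module.End F L} (hD : IsDer D) (hD' : IsDer D') : IsDer (D - D') := by
  intro x y
  rw [LinearMap.sub_apply, LinearMap.sub_apply, LinearMap.sub_apply, hD x y, hD' x y, sub_lie,
    lie_sub]
  abel

private theorem B4_com {F L : Type*} [Field F] [LieRing L] [LieAlgebra F L]
    {s : Module.End F L} (hs : IsDer s) {w : L} {a : F} (hw : s w = a • w) (k : ℕ) (y : L) :
    s (((LieAlgebra.ad F L w) ^ k) y) = ((LieAlgebra.ad F L w) ^ k) (s y) +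
      ((k : F) * a) • ((LieAlgebra.ad F L w) ^ k) y := by
  induction k with
  | zero => simp
  | succ k ih =>
    rw [pow_succ', Module.End.mul_apply, Module.End.mul_apply, LieAlgebra.ad_apply,
      LieAlgebra.ad_apply, hs, hw, ih, lie_add, lie_smul, smul_lie]
    push_cast
    rw [add_mul, one_mul, add_smul]
    abel

private theorem B4_commute {p : ℕ} [Fact p.Prime] {F L : Type*} [Field F] [CharP F p] [LieRing L]
    [LieAlgebra F L] {s : Module.End F L} (hs : IsDer s) {w : L} {a : F} (hw : s w = a • w)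
    {N : ℕ} (hN : N ≠ 0) (c : F) : Commute s (c • (LieAlgebra.ad F L w) ^ p ^ N) := by
  have h0 : ((p ^ N : ℕ) : F) = 0 := by
    rw [Nat.cast_pow, CharP.cast_eq_zero, zero_pow hN]
  have h1 : Commute s ((LieAlgebra.ad F L w) ^ p ^ N) := by
    refine LinearMap.ext fun y => ?_
    rw [Module.End.mul_apply, Module.End.mul_apply, B4_com hs hw, h0, zero_mul, zero_smul, add_zero]
  exact h1.smul_right c

private theorem B4_ct_ne {p : ℕ} [Fact p.Prime] {F : Type*} [Field F] [CharP F p] {i : ZMod p}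
    (hi : i ≠ 0) : ct F i ≠ 0 := by
  intro h
  apply hi
  apply (ct F).injective
  rw [h, map_zero]

private theorem B4_ct_pow {p : ℕ} [Fact p.Prime] {F : Type*} [Field F] [CharP F p] (i : ZMod p) :
    ct F i ^ p = ct F i := by
  rw [← map_pow, ZMod.pow_card]

private theorem B4_tor {p : ℕ} [Fact p.Prime] {F L : Type*} [Field F] [CharP F p] [IsSepClosed F]
    [LieRing L] [LieAlgebra F L] [FiniteDimensional F L] [LieAlgebra.IsSimple F L]
    (H : PropNil F L) {a : L} (ha : a ≠ 0) : ∃ c : F, c ≠ 0 ∧ ∃ e : Module.End F L,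
      e = c • (LieAlgebra.ad F L a) ^ p ^ (finrank F L + 1) ∧ e ^ p = e ∧ IsDer e ∧ e ≠ 0 ∧
        e a = 0 := by
  obtain ⟨c, hc, he⟩ := exists_toral H ha (p := p)
  refine ⟨c, hc, _, rfl, he, B4_smul (isDer_pow (isDer_ad a) _) c, ?_, ?_⟩
  · intro h
    rcases smul_eq_zero.1 h with h1 | h1
    · exact hc h1
    · exact not_adnil H ha ⟨_, h1⟩
  · have hpos : 0 < p ^ (finrank F L + 1) := pow_pos (Fact.out : p.Prime).pos _
    obtain ⟨m, hm⟩ := Nat.exists_eq_succ_of_ne_zero hpos.ne'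
    rw [hm, Nat.succ_eq_add_one, pow_succ, LinearMap.smul_apply, Module.End.mul_apply,
      LieAlgebra.ad_apply, lie_self, map_zero, smul_zero]

private theorem B4_eig {p : ℕ} [Fact p.Prime] {F L : Type*} [Field F] [CharP F p]
    [AddCommGroup L] [Module F L] {e : Module.End F L} (he : e ≠ 0)
    (f : ZMod p × ZMod p → ZMod p) (P : ZMod p × ZMod p → Module.End F L)
    (h1 : ∀ χ x, e (P χ x) = ct F (f χ) • P χ x) (h2 : ∀ x, ∑ χ, P χ x = x) :
    ∃ χ x, f χ ≠ 0 ∧ P χ x ≠ 0 := by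
  by_contra hcon
  push Not at hcon
  apply he
  refine LinearMap.ext fun x => ?_
  rw [← h2 x, map_sum, LinearMap.zero_apply]
  refine Finset.sum_eq_zero fun χ _ => ?_
  rw [h1]
  by_cases h3 : f χ = 0
  · rw [h3, map_zero, zero_smul]
  · rw [hcon χ x h3, smul_zero]

/-- the simultaneous eigenspace -/
private def B4_V {p : ℕ} {F L : Type*} [Field F] [CharP F p] [AddCommGroup L] [Module F L]
    (e₁ e₂ : Module.End F L) (χ : ZMod p × ZMod p) : Submodule F L where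
  carrier := {y | e₁ y = ct F χ.1 • y ∧ e₂ y = ct F χ.2 • y}
  add_mem' := fun {a b} ha hb => by
    refine ⟨?_, ?_⟩
    · rw [map_add, ha.1, hb.1, smul_add]
    · rw [map_add, ha.2, hb.2, smul_add]
  zero_mem' := ⟨by rw [map_zero, smul_zero], by rw [map_zero, smul_zero]⟩
  smul_mem' := fun c a ha => by
    refine ⟨?_, ?_⟩
    · rw [map_smul, ha.1, smul_comm]
    · rw [map_smul, ha.2, smul_comm]

private theorem B4_mem {p : ℕ} {F L : Type*} [Field F] [CharP F p] [AddCommGroup L] [Module F L]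
    {e₁ e₂ : Module.End F L} {χ : ZMod p × ZMod p} {y : L} :
    y ∈ B4_V e₁ e₂ χ ↔ e₁ y = ct F χ.1 • y ∧ e₂ y = ct F χ.2 • y := Iff.rfl

private theorem B4_pow {p : ℕ} [Fact p.Prime] {F L : Type*} [Field F] [CharP F p] [IsSepClosed F]
    [LieRing L] [LieAlgebra F L] [FiniteDimensional F L] [LieAlgebra.IsSimple F L]
    (H : PropNil F L) {e₁ e₂ : Module.End F L} (hd1 : IsDer e₁) (hd2 : IsDer e₂) (h2 : e₂ ≠ 0)
    {v : L} (hv : v ≠ 0) (h1v : e₁ v = v) (h2v : e₂ v = 0)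
    (P : ZMod p × ZMod p → Module.End F L)
    (hP1 : ∀ χ x, e₁ (P χ x) = ct F χ.1 • P χ x ∧ e₂ (P χ x) = ct F χ.2 • P χ x)
    (hP2 : ∀ x, ∑ χ, P χ x = x) {χ : ZMod p × ZMod p} {w : L} (hw : w ∈ B4_V e₁ e₂ χ)
    (hw0 : w ≠ 0) (hχ : χ ≠ 0) : ∃ l : F, l ≠ 0 ∧ ∀ φ, ∀ x ∈ B4_V e₁ e₂ φ,
      ((LieAlgebra.ad F L w) ^ (p ^ (finrank F L + 1))) x = (l * ct F (dt χ φ)) • x := by
  obtain ⟨c, hc, e', he', htor, hder, hne, hw'⟩ := B4_tor (p := p) H hw0
  obtain ⟨t, ht⟩ : ∃ t : Module.End F L, t = ct F χ.1 • e₂ - ct F χ.2 • e₁ := ⟨_, rfl⟩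
  have htd : IsDer t := by
    rw [ht]
    exact B4_sub (B4_smul hd2 _) (B4_smul hd1 _)
  have hact : ∀ φ, ∀ x ∈ B4_V e₁ e₂ φ, t x = ct F (dt χ φ) • x := by
    intro φ x hx
    rw [ht, LinearMap.sub_apply, LinearMap.smul_apply, LinearMap.smul_apply, hx.1, hx.2, smul_smul,
      smul_smul, ← sub_smul, dt, map_sub, map_mul, map_mul]
  have htp : t ^ p = t := by
    have hk : ∀ (k : ℕ) φ, ∀ x ∈ B4_V e₁ e₂ φ, (t ^ k) x = ct F (dt χ φ) ^ k • x := by
      intro k φ x hx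
      induction k with
      | zero => simp
      | succ k ih =>
        rw [pow_succ', Module.End.mul_apply, ih, map_smul, hact φ x hx, smul_smul, pow_succ]
    refine LinearMap.ext fun x => ?_
    rw [← hP2 x, map_sum, map_sum]
    refine Finset.sum_congr rfl fun φ _ => ?_
    rw [hk p φ _ (hP1 φ x), hact φ _ (hP1 φ x), B4_ct_pow]
  have ht0 : t ≠ 0 := by
    intro h
    have h3 : t v = 0 := by rw [h]; rfl
    rw [ht, LinearMap.sub_apply, LinearMap.smul_apply, LinearMap.smul_apply, h1v, h2v, smul_zero,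
      zero_sub, neg_eq_zero] at h3
    have h4 : χ.2 = 0 := by
      by_contra h5
      rcases smul_eq_zero.1 h3 with h6 | h6
      · exact B4_ct_ne h5 h6
      · exact hv h6
    have h5 : χ.1 = 0 := by
      by_contra h6
      rw [ht, h4, map_zero, zero_smul, sub_zero] at h
      rcases smul_eq_zero.1 h with h7 | h7
      · exact B4_ct_ne h6 h7
      · exact h2 h7
    exact hχ (Prod.ext h5 h4)
  have hcom : Commute t e' := by
    have hc1 : Commute e₁ e' := by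
      rw [he']
      exact B4_commute hd1 hw.1 (Nat.succ_ne_zero _) c
    have hc2 : Commute e₂ e' := by
      rw [he']
      exact B4_commute hd2 hw.2 (Nat.succ_ne_zero _) c
    rw [ht]
    exact (hc2.smul_left _).sub_left (hc1.smul_left _)
  have htw : t w = 0 := by
    rw [hact χ w hw, dt, mul_comm χ.1 χ.2, sub_self, map_zero, zero_smul]
  obtain ⟨c₃, hc₃, heq⟩ := toral_prop H htd hder ht0 hne htp htor hcom hw0 htw hw'
  refine ⟨c⁻¹ * ct F c₃, mul_ne_zero (inv_ne_zero hc) (B4_ct_ne hc₃), fun φ x hx => ?_⟩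
  have h3 : (LieAlgebra.ad F L w) ^ (p ^ (finrank F L + 1)) = c⁻¹ • e' := by
    rw [he', smul_smul, inv_mul_cancel₀ hc, one_smul]
  rw [h3, heq, LinearMap.smul_apply, LinearMap.smul_apply, hact φ x hx, smul_smul, smul_smul,
    mul_assoc]

/-- Row B4. Put `N = dim L + 1`. By `exists_toral` there is `c ≠ 0` such that
`e = c (ad x) ^ (p ^ N)` satisfies `e ^ p = e`; `e ≠ 0`, so `e` has an eigenvalue `i ≠ 0` in the
prime field (`exists_proj e 0`); put `e₁ = i⁻¹ e` and choose `v ≠ 0` with `e₁ v = v`. Let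
`e₂ = c' (ad v) ^ (p ^ N)`, `e₂ ^ p = e₂`. As `e₁ ((ad v) y) = (ad v) (e₁ y + y)`, `(ad v) ^ p`
commutes with `e₁`, so `e₂` does. `V χ` = simultaneous eigenspace of `e₁, e₂` for
`(ct χ.1, ct χ.2)`, `P` from `exists_proj e₁ e₂`. `V 0 = 0`: if `z ∈ V 0` is not zero, then
`e₂ = c e₁`, `c ≠ 0` by `toral_prop`, but `e₂ v = 0`. `pow`: for `w ∈ V χ`, `w ≠ 0` put
`e' = c'' (ad w) ^ (p ^ N)` (toral derivation, preserves every `V φ`) and `t = χ.1 e₂ - χ.2 e₁`
(toral derivation, multiplication by `dt χ φ` on `V φ`, nonzero as `t v = - χ.2 v` and `e₂ ≠ 0`);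
they commute and kill `w`, so `e' = c₃ t` by `toral_prop`. -/
theorem exists_frame {p : ℕ} [Fact p.Prime] {F L : Type*} [Field F] [CharP F p] [IsSepClosed F]
    [LieRing L] [LieAlgebra F L] [FiniteDimensional F L] [LieAlgebra.IsSimple F L]
    (H : PropNil F L) {x : L} (hx : x ≠ 0) :
    ∃ Fr : Frame p F L, (∃ v ∈ Fr.V (1, 0), v ≠ 0) ∧
      (∃ φ : ZMod p × ZMod p, φ.2 ≠ 0 ∧ ∃ y ∈ Fr.V φ, y ≠ 0) ∧
      ∀ y, (∃ k : ℕ, ((LieAlgebra.ad F L x) ^ k) y = 0) → ∀ χ, χ.1 ≠ 0 → Fr.P χ y = 0 := by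
  have hp0 : p ≠ 0 := (Fact.out : p.Prime).ne_zero
  obtain ⟨c, hc, e, he, htor, hder, hne, -⟩ := B4_tor (p := p) H hx
  -- the eigenvector `v`
  obtain ⟨P₀, hP₀1, hP₀2, -, -⟩ := exists_proj (e := e) (e' := 0) htor (zero_pow hp0)
    (Commute.zero_right e)
  obtain ⟨χ₀, y₀, hχ₀, hy₀⟩ := B4_eig hne (fun χ => χ.1) P₀ (fun χ x => (hP₀1 χ x).1) hP₀2
  obtain ⟨v, hv, hv0⟩ : ∃ v, v = P₀ χ₀ y₀ ∧ v ≠ 0 := ⟨_, rfl, hy₀⟩
  have hev : e v = ct F χ₀.1 • v := by
    rw [hv]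
    exact (hP₀1 χ₀ y₀).1
  have hi : ct F χ₀.1 ≠ 0 := B4_ct_ne hχ₀
  have hinv : (ct F χ₀.1⁻¹ : F) * ct F χ₀.1 = 1 := by
    rw [← map_mul, inv_mul_cancel₀ hχ₀, map_one]
  obtain ⟨e₁, he₁⟩ : ∃ e₁ : Module.End F L, e₁ = (ct F χ₀.1⁻¹ : F) • e := ⟨_, rfl⟩
  have h1v : e₁ v = v := by
    rw [he₁, LinearMap.smul_apply, hev, smul_smul, hinv, one_smul]
  have hd1 : IsDer e₁ := by
    rw [he₁]
    exact B4_smul hder _
  have h1p : e₁ ^ p = e₁ := by
    rw [he₁, smul_pow, htor, B4_ct_pow]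
  -- the second toral derivation
  obtain ⟨c₂, hc₂, e₂, he₂, h2p, hd2, h2ne, h2v⟩ := B4_tor (p := p) H hv0
  have hcom : Commute e₁ e₂ := by
    rw [he₂]
    exact B4_commute hd1 (a := 1) (by rw [h1v, one_smul]) (Nat.succ_ne_zero _) c₂
  obtain ⟨P, hP1, hP2, hP3, hP4⟩ := exists_proj h1p h2p hcom
  have h1ne : e₁ ≠ 0 := by
    intro h
    rw [h] at h1v
    exact hv0 h1v.symm
  have hV0 : B4_V e₁ e₂ (0 : ZMod p × ZMod p) = ⊥ := by
    rw [eq_bot_iff]
    intro z hz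
    rw [Submodule.mem_bot]
    by_contra hz0
    have hz1 : e₁ z = 0 := by
      rw [hz.1, Prod.fst_zero, map_zero, zero_smul]
    have hz2 : e₂ z = 0 := by
      rw [hz.2, Prod.snd_zero, map_zero, zero_smul]
    obtain ⟨c₄, hc₄, h4⟩ := toral_prop H hd1 hd2 h1ne h2ne h1p h2p hcom hz0 hz1 hz2
    rw [h4, LinearMap.smul_apply, h1v] at h2v
    rcases smul_eq_zero.1 h2v with h5 | h5
    · exact B4_ct_ne hc₄ h5
    · exact hv0 h5
  have hcomp : ∀ χ z, P χ (e₁ z) = ct F χ.1 • P χ z := by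
    intro χ z
    have h5 : e₁ z = ∑ ψ, ct F ψ.1 • P ψ z := by
      conv_lhs => rw [← hP2 z, map_sum]
      exact Finset.sum_congr rfl fun ψ _ => (hP1 ψ z).1
    rw [h5, map_sum, Finset.sum_eq_single χ]
    · rw [map_smul, hP3 χ _ (hP1 χ z).1 (hP1 χ z).2]
    · intro ψ _ hψ
      rw [map_smul, hP4 ψ χ _ (hP1 ψ z).1 (hP1 ψ z).2 hψ, smul_zero]
    · intro h
      exact absurd (Finset.mem_univ χ) h
  let Fr : Frame p F L :=
    { V := B4_V e₁ e₂
      P := P
      N := finrank F L + 1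
      N_ne := Nat.succ_ne_zero _
      mem := fun χ z => hP1 χ z
      sum := hP2
      self := fun {χ z} hz => hP3 χ z hz.1 hz.2
      ne := fun {χ ψ z} hz h => hP4 χ ψ z hz.1 hz.2 h
      zero := hV0
      lie := fun {χ ψ a b} ha hb => by
        refine ⟨?_, ?_⟩
        · rw [hd1, ha.1, hb.1, smul_lie, lie_smul, ← add_smul, Prod.fst_add, map_add]
        · rw [hd2, ha.2, hb.2, smul_lie, lie_smul, ← add_smul, Prod.snd_add, map_add]
      pow := fun {χ w} hw hw0 => B4_pow H hd1 hd2 h2ne hv0 h1v h2v P hP1 hP2 hw hw0 (by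
        rintro rfl
        rw [hV0, Submodule.mem_bot] at hw
        exact hw0 hw) }
  refine ⟨Fr, ⟨v, ?_, hv0⟩, ?_, ?_⟩
  · refine ⟨?_, ?_⟩
    · rw [h1v, map_one, one_smul]
    · rw [h2v, map_zero, zero_smul]
  · obtain ⟨φ, y, hφ, hy⟩ := B4_eig h2ne (fun χ => χ.2) P (fun χ x => (hP1 χ x).2) hP2
    exact ⟨φ, hφ, P φ y, hP1 φ y, hy⟩
  · rintro y ⟨k, hk⟩ χ hχ
    have h6 : ∀ (k : ℕ) z, P χ ((e₁ ^ k) z) = ct F χ.1 ^ k • P χ z := by
      intro k
      induction k with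
      | zero => intro z; simp
      | succ k ih =>
        intro z
        rw [pow_succ, Module.End.mul_apply, ih, hcomp, smul_smul, pow_succ]
    have h7 : (e₁ ^ k) y = 0 := by
      rw [he₁, he, smul_smul, smul_pow, LinearMap.smul_apply, ← pow_mul]
      have h8 : p ^ (finrank F L + 1) * k = (p ^ (finrank F L + 1) * k - k) + k := by
        have h9 : k ≤ p ^ (finrank F L + 1) * k :=
          Nat.le_mul_of_pos_left k (pow_pos (Fact.out : p.Prime).pos _)
        omega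
      rw [h8, pow_add, Module.End.mul_apply, hk, map_zero, smul_zero]
    have h8 := h6 k y
    rw [h7, map_zero] at h8
    rcases smul_eq_zero.1 h8.symm with h9 | h9
    · exact absurd h9 (pow_ne_zero k (B4_ct_ne hχ))
    · exact h9
-- END exists_frame

end Pool.Agent.MP9083S
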