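import Mathlib
import Pool.Agent.Lib.MP_9083e4_al.S.Dims

/-! Rows C3a, C3b. In the central case all parts of the grading are one-dimensional. -/

set_option autoImplicit false

namespace Pool.Agent.MP9083S

open Module Pool.Agent.MP9083

variable {p : ℕ} [Fact p.Prime] {F L : Type*} [Field F] [CharP F p] [LieRing L]
  [LieAlgebra F L] [FiniteDimensional F L] (Fr : Frame p F L)

-- BEGIN lam_mul
omit [FiniteDimensional F L] [Fact p.Prime] [CharP F p] in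
private theorem C3a_iter (T : Module.End F L) (c : F) {x : L} (h : T x = c • x) (k : ℕ) :
    (T ^ k) x = c ^ k • x := by
  induction k with
  | zero => simp
  | succ k ih => rw [pow_succ, Module.End.mul_apply, h, map_smul, ih, smul_smul, pow_succ, mul_comm]

omit [FiniteDimensional F L] [Fact p.Prime] [CharP F p] in
private theorem C3a_pow (S R : Module.End F L) (U : Submodule F L) (h : ∀ x ∈ U, S x = R x)
    (hU : ∀ x ∈ U, S x ∈ U) (k : ℕ) : ∀ x ∈ U, (S ^ k) x = (R ^ k) x := by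
  induction k with
  | zero => intro x _; simp
  | succ k ih =>
    intro x hx
    rw [pow_succ, pow_succ, Module.End.mul_apply, Module.End.mul_apply, ih _ (hU x hx), h x hx]

private theorem C3a_dt1 (χ ψ : ZMod p × ZMod p) : dt χ (χ + (χ + ψ)) = dt χ ψ := by
  simp only [dt, Prod.fst_add, Prod.snd_add]; ring

private theorem C3a_dt2 (χ ψ : ZMod p × ZMod p) : dt (χ + ψ) (χ + (χ + ψ)) = - dt χ ψ := by
  simp only [dt, Prod.fst_add, Prod.snd_add]; ring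

omit [FiniteDimensional F L] in
private theorem C3a_comm {v w : L} (h : ⁅v, w⁆ = 0) :
    Commute (LieAlgebra.ad F L v) (LieAlgebra.ad F L w) := by
  refine LinearMap.ext fun x => ?_
  rw [Module.End.mul_apply, Module.End.mul_apply, LieAlgebra.ad_apply, LieAlgebra.ad_apply,
    LieAlgebra.ad_apply, LieAlgebra.ad_apply, leibniz_lie v w x, h, zero_lie, zero_add]

/-- Row C3a. Assume `v, u ≠ 0`. Let `y = ⁅v, u⁆`, `y' = ⁅w, u⁆`, of degree `φ = χ + ψ`,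
`V = ad v`, `W = ad w`, `B = ad y`, `B' = ad y'`, `q = p ^ N`; `V W = W V`, `B B' = B' B` as `Fr.Ab`.
For `z ∈ V χ` and `x = ⁅u, z⁆`: `B z = V x`, `B' z = W x` (Jacobi, `⁅v, z⁆ = ⁅w, z⁆ = 0`). Every
element `x₁` of `V (χ + φ)` is `V x` for such an `x` (`Frame.surj` twice). Let
`P = V ^ (q - 1) W`, `Q = B ^ (q - 1) B'`: `P x₁ = V ^ q W x = l * dt χ φ • W x` and
`Q x₁ = B ^ q B' z = l' * dt φ χ • W x`. So `l' P = - l Q` on `V (χ + φ)`; take `q`-th powers: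
`l' ^ q l ^ (q - 1) m = l ^ q l' ^ (q - 1) m'` up to the factor `dt χ φ ≠ 0`. -/
theorem lam_mul {d : ℕ} (hd : Fr.Full d) (hab : Fr.Ab) {χ ψ : ZMod p × ZMod p}
    (hne : dt χ ψ ≠ 0) {v w u : L} (hv : v ∈ Fr.V χ) (hw : w ∈ Fr.V χ) (hu : u ∈ Fr.V ψ)
    {l m l' m' : F} (hl : Fr.Lam χ v l) (hm : Fr.Lam χ w m) (hl' : Fr.Lam (χ + ψ) ⁅v, u⁆ l')
    (hm' : Fr.Lam (χ + ψ) ⁅w, u⁆ m') : l * m' = m * l' := by
  have hp0 : p ≠ 0 := (Fact.out : p.Prime).ne_zero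
  have hq0 : p ^ Fr.N ≠ 0 := pow_ne_zero _ hp0
  have hzero : ∀ χ : ZMod p × ZMod p, Fr.Lam χ (0 : L) 0 := by
    intro χ φ x hx
    rw [map_zero, zero_pow hq0, zero_mul, zero_smul, LinearMap.zero_apply]
  have hχ : χ ≠ 0 := by
    rintro rfl
    apply hne
    simp [dt]
  have hφ0 : χ + ψ ≠ 0 := by
    intro h
    apply hne
    have h1 : dt χ ψ = dt χ (χ + ψ) := by
      simp only [dt, Prod.fst_add, Prod.snd_add]; ring
    rw [h1, h]
    simp [dt]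
  by_cases hv0 : v = 0
  · subst hv0
    rw [zero_lie] at hl'
    rw [lam_unique Fr hd hχ hl (hzero χ), lam_unique Fr hd hφ0 hl' (hzero _), zero_mul, mul_zero]
  by_cases hu0 : u = 0
  · subst hu0
    rw [lie_zero] at hl' hm'
    rw [lam_unique Fr hd hφ0 hm' (hzero _), lam_unique Fr hd hφ0 hl' (hzero _), mul_zero, mul_zero]
  have hy : ⁅v, u⁆ ∈ Fr.V (χ + ψ) := Fr.lie hv hu
  have hy' : ⁅w, u⁆ ∈ Fr.V (χ + ψ) := Fr.lie hw hu
  have hy0 : ⁅v, u⁆ ≠ 0 := fun h => hu0 (Fr.inj hne hv hv0 hu h)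
  have hl0 : l ≠ 0 := lam_ne Fr hd hv hv0 hl
  have hl'0 : l' ≠ 0 := lam_ne Fr hd hy hy0 hl'
  have hδ : ct F (dt χ ψ) ≠ 0 := (map_ne_zero _).2 hne
  have hdd : ∀ φ : ZMod p × ZMod p, dt φ φ = 0 := fun φ => by simp only [dt]; ring
  have c1 : Commute (LieAlgebra.ad F L v) (LieAlgebra.ad F L w) :=
    C3a_comm (hab χ χ (hdd χ) v hv w hw)
  have c2 : Commute (LieAlgebra.ad F L ⁅v, u⁆) (LieAlgebra.ad F L ⁅w, u⁆) :=
    C3a_comm (hab _ _ (hdd _) _ hy _ hy')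
  obtain ⟨k, hk⟩ := Nat.exists_eq_succ_of_ne_zero hq0
  rw [Nat.succ_eq_add_one] at hk
  -- the operators
  have hkey : ∀ x ∈ Fr.V (χ + (χ + ψ)), ∃ y ∈ Fr.V (χ + (χ + ψ)),
      ((LieAlgebra.ad F L v) ^ k * LieAlgebra.ad F L w) x = (l * ct F (dt χ ψ)) • y ∧
      ((LieAlgebra.ad F L ⁅v, u⁆) ^ k * LieAlgebra.ad F L ⁅w, u⁆) x =
        (l' * -ct F (dt χ ψ)) • y := by
    intro x hx
    obtain ⟨z, hz, hzx⟩ := Fr.surj hd (χ := χ) (φ := χ + ψ) (by
      have : dt χ (χ + ψ) = dt χ ψ := by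
        simp only [dt, Prod.fst_add, Prod.snd_add]; ring
      rw [this]; exact hne) hy hy0 hx
    have h1 : ⁅v, z⁆ = 0 := hab χ χ (hdd χ) v hv z hz
    have h2 : ⁅w, z⁆ = 0 := hab χ χ (hdd χ) w hw z hz
    have e1 : x = ⁅v, ⁅z, u⁆⁆ := by
      rw [← hzx, leibniz_lie z v u, ← lie_skew z v, h1, neg_zero, zero_lie, zero_add]
    have e2 : x = - LieAlgebra.ad F L ⁅v, u⁆ z := by
      rw [LieAlgebra.ad_apply, lie_skew, hzx]
    have e3 : ⁅w, ⁅z, u⁆⁆ = - LieAlgebra.ad F L ⁅w, u⁆ z := by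
      rw [LieAlgebra.ad_apply, lie_skew, leibniz_lie z w u, ← lie_skew z w, h2, neg_zero,
        zero_lie, zero_add]
    have hzu : ⁅z, u⁆ ∈ Fr.V (χ + ψ) := Fr.lie hz hu
    have hY : ⁅w, ⁅z, u⁆⁆ ∈ Fr.V (χ + (χ + ψ)) := Fr.lie hw hzu
    refine ⟨⁅w, ⁅z, u⁆⁆, hY, ?_, ?_⟩
    · have h3 := hl _ _ hY
      rw [C3a_dt1] at h3
      rw [← h3, hk, Module.End.mul_apply, e1, pow_succ, Module.End.mul_apply]
      congr 1
      have h4 := congrArg (fun T : Module.End F L => T ⁅z, u⁆) c1.eq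
      simp only [Module.End.mul_apply, LieAlgebra.ad_apply] at h4
      simp only [LieAlgebra.ad_apply]
      exact h4.symm
    · have h3 := hl' _ _ hY
      rw [C3a_dt2, map_neg] at h3
      rw [← h3, hk, Module.End.mul_apply, e2, e3, pow_succ, Module.End.mul_apply, map_neg, map_neg,
        map_neg, map_neg]
      congr 2
      have h4 := congrArg (fun T : Module.End F L => T z) c2.eq
      simp only [Module.End.mul_apply] at h4
      exact h4.symm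
  -- a nonzero element
  have hne2 : χ + (χ + ψ) ≠ 0 := by
    intro h
    apply hne
    rw [← C3a_dt1, h]
    simp [dt]
  have hUne : Fr.V (χ + (χ + ψ)) ≠ ⊥ := by
    intro h
    have h1 := hd.2 _ hne2
    rw [h, finrank_bot] at h1
    exact absurd h1 hd.1.ne
  obtain ⟨x, hx, hx0⟩ := Submodule.exists_mem_ne_zero_of_ne_bot hUne
  have hpow := C3a_pow (l' • ((LieAlgebra.ad F L v) ^ k * LieAlgebra.ad F L w))
    ((-l) • ((LieAlgebra.ad F L ⁅v, u⁆) ^ k * LieAlgebra.ad F L ⁅w, u⁆)) (Fr.V (χ + (χ + ψ)))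
    (fun x hx => by
      obtain ⟨y, -, h1, h2⟩ := hkey x hx
      rw [LinearMap.smul_apply, LinearMap.smul_apply, h1, h2, smul_smul, smul_smul]
      congr 1
      ring)
    (fun x hx => by
      obtain ⟨y, hy, h1, -⟩ := hkey x hx
      rw [LinearMap.smul_apply, h1]
      exact Submodule.smul_mem _ _ (Submodule.smul_mem _ _ hy)) (p ^ Fr.N) x hx
  rw [smul_pow, smul_pow, (c1.pow_left k).mul_pow, (c2.pow_left k).mul_pow, ← pow_mul, ← pow_mul,
    mul_comm k, pow_mul, pow_mul, LinearMap.smul_apply, LinearMap.smul_apply, Module.End.mul_apply,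
    Module.End.mul_apply, hm _ _ hx, hm' _ _ hx, map_smul, map_smul,
    C3a_iter _ _ (hl _ _ hx), C3a_iter _ _ (hl' _ _ hx), C3a_dt1, C3a_dt2, map_neg, smul_smul,
    smul_smul, smul_smul, smul_smul] at hpow
  have hfin := smul_left_injective F hx0 hpow
  simp only [hk] at hfin
  have hfin2 : (l' * m - l * m') * (l' ^ k * l ^ k * ct F (dt χ ψ) ^ (k + 1)) = 0 := by
    have h1 : ((-1 : F) ^ (k + 1)) * ((-1) * (-1) ^ k) = 1 := by
      rw [← pow_succ', ← mul_pow]; simp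
    have h2 : (-l) ^ (k + 1) = (-1) ^ (k + 1) * l ^ (k + 1) := by rw [← mul_pow]; ring
    have h3 : (l' * -ct F (dt χ ψ)) ^ k = (-1) ^ k * (l' ^ k * ct F (dt χ ψ) ^ k) := by
      rw [← mul_pow, ← mul_pow]; ring
    rw [h2, h3, mul_pow] at hfin
    linear_combination hfin + h1 * l ^ (k + 1) * m' * ct F (dt χ ψ) * (l' ^ k * ct F (dt χ ψ) ^ k)
  rcases mul_eq_zero.1 hfin2 with h | h
  · linear_combination -h
  · exact absurd h (mul_ne_zero (mul_ne_zero (pow_ne_zero _ hl'0) (pow_ne_zero _ hl0))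
      (pow_ne_zero _ hδ))
-- END lam_mul

-- BEGIN full_one
omit [FiniteDimensional F L] in
private theorem C3b_uniq (hab : Fr.Ab) {d : ℕ} (hd : Fr.Full d) {χ : ZMod p × ZMod p} {w w' : L}
    (hw : w ∈ Fr.V χ) (hw' : w' ∈ Fr.V χ) {m : F} (h : Fr.Lam χ w m) (h' : Fr.Lam χ w' m) :
    w = w' := by
  by_contra hne
  have h1 := lam_smul Fr h' (-1)
  have hneg : ((-1 : F)) ^ p ^ Fr.N = -1 := by
    have : ExpChar F p := ExpChar.prime Fact.out
    have h2 := sub_pow_expChar_pow (R := F) (p := p) (n := Fr.N) 0 1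
    rw [zero_sub, one_pow, zero_pow (pow_ne_zero _ (Fact.out : p.Prime).ne_zero), zero_sub] at h2
    exact h2
  rw [hneg] at h1
  have h3 := lam_add Fr hab hw ((Fr.V χ).smul_mem (-1) hw') h h1
  have h4 : m + -1 * m = 0 := by ring
  rw [h4] at h3
  have h5 : w + (-1 : F) • w' ≠ 0 := by
    rw [neg_one_smul, ← sub_eq_add_neg]
    exact sub_ne_zero.2 hne
  exact lam_ne Fr hd ((Fr.V χ).add_mem hw ((Fr.V χ).smul_mem (-1) hw')) h5 h3 rfl

private theorem C3b_step {d : ℕ} (hd : Fr.Full d) (hab : Fr.Ab) {χ φ : ZMod p × ZMod p}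
    (hne : dt χ φ ≠ 0) {v₀ w₀ : L} (hv₀ : v₀ ∈ Fr.V χ) (hv0 : v₀ ≠ 0) (hw₀ : w₀ ∈ Fr.V χ)
    {l₀ m₀ c : F} (hl : Fr.Lam χ v₀ l₀) (hm : Fr.Lam χ w₀ m₀) (hmc : m₀ = c * l₀) :
    ∀ v ∈ Fr.V φ, ∃ w ∈ Fr.V φ, ∀ l, Fr.Lam φ v l → Fr.Lam φ w (c * l) := by
  intro v hv
  have hdt : dt (φ - χ) χ ≠ 0 := by
    intro h
    apply hne
    unfold dt at h ⊢
    simp only [Prod.fst_sub, Prod.snd_sub] at h
    linear_combination -h
  have hdt2 : dt χ (φ - χ) ≠ 0 := by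
    intro h
    apply hne
    unfold dt at h ⊢
    simp only [Prod.fst_sub, Prod.snd_sub] at h
    linear_combination h
  have e1 : φ - χ + χ = φ := sub_add_cancel φ χ
  have e2 : χ + (φ - χ) = φ := add_sub_cancel χ φ
  obtain ⟨u, hu, hu2⟩ := Frame.surj Fr hd hdt hv₀ hv0 (y := v) (by rw [e1]; exact hv)
  have hu' : -u ∈ Fr.V (φ - χ) := (Fr.V _).neg_mem hu
  have e3 : ⁅v₀, -u⁆ = v := by rw [lie_neg, lie_skew, hu2]
  have hw : ⁅w₀, -u⁆ ∈ Fr.V φ := by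
    have := Fr.lie hw₀ hu'
    rwa [e2] at this
  refine ⟨⁅w₀, -u⁆, hw, fun l hlv => ?_⟩
  obtain ⟨m', hm'⟩ := exists_lam Fr hw
  have h1 := lam_mul Fr hd hab hdt2 hv₀ hw₀ hu' hl hm (l' := l) (m' := m')
    (by rw [e3, e2]; exact hlv) (by rw [e2]; exact hm')
  have hl0 : l₀ ≠ 0 := lam_ne Fr hd hv₀ hv0 hl
  have h2 : m' = c * l := by
    apply mul_left_cancel₀ hl0
    rw [h1, hmc]
    ring
  rw [← h2]
  exact hm'

private theorem C3b_all {d : ℕ} (hd : Fr.Full d) (hab : Fr.Ab) {v₀ w₀ : L}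
    (hv₀ : v₀ ∈ Fr.V (1, 0)) (hv0 : v₀ ≠ 0) (hw₀ : w₀ ∈ Fr.V (1, 0)) {l₀ m₀ c : F}
    (hl : Fr.Lam (1, 0) v₀ l₀) (hm : Fr.Lam (1, 0) w₀ m₀) (hmc : m₀ = c * l₀)
    (φ : ZMod p × ZMod p) :
    ∀ v ∈ Fr.V φ, ∃ w ∈ Fr.V φ, ∀ l, Fr.Lam φ v l → Fr.Lam φ w (c * l) := by
  by_cases h2 : φ.2 = 0
  · by_cases h1 : φ.1 = 0
    · have h0 : φ = 0 := Prod.ext h1 h2
      intro v hv
      have hv' : v = 0 := by
        rw [h0, Fr.zero] at hv
        exact (Submodule.mem_bot F).1 hv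
      refine ⟨0, (Fr.V φ).zero_mem, fun l hlv ψ x hx => ?_⟩
      have h3 := hlv ψ x hx
      rw [hv'] at h3
      rw [mul_assoc, mul_smul, ← h3]
      have hp : p ^ Fr.N ≠ 0 := pow_ne_zero _ (Fact.out : p.Prime).ne_zero
      rw [map_zero, zero_pow hp, LinearMap.zero_apply, smul_zero]
    · -- go through `(0, 1)`
      have hne1 : dt ((1, 0) : ZMod p × ZMod p) (0, 1) ≠ 0 := by
        unfold dt
        simp
      have hne2 : dt ((0, 1) : ZMod p × ZMod p) φ ≠ 0 := by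
        unfold dt
        simpa using h1
      have h01 : ((0, 1) : ZMod p × ZMod p) ≠ 0 := fun h => one_ne_zero (congrArg Prod.snd h)
      have hpos : 0 < finrank F (Fr.V (0, 1)) := by rw [hd.2 _ h01]; exact hd.1
      have : Nontrivial (Fr.V (0, 1)) := finrank_pos_iff.1 hpos
      obtain ⟨⟨v₁, hv₁⟩, hv1⟩ := exists_ne (0 : Fr.V (0, 1))
      have hv1' : v₁ ≠ 0 := fun h => hv1 (Subtype.ext h)
      obtain ⟨w₁, hw₁, hw1⟩ := C3b_step Fr hd hab hne1 hv₀ hv0 hw₀ hl hm hmc v₁ hv₁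
      obtain ⟨l₁, hl₁⟩ := exists_lam Fr hv₁
      exact C3b_step Fr hd hab hne2 hv₁ hv1' hw₁ hl₁ (hw1 l₁ hl₁) rfl
  · have hne : dt ((1, 0) : ZMod p × ZMod p) φ ≠ 0 := by
      unfold dt
      simpa using h2
    exact C3b_step Fr hd hab hne hv₀ hv0 hw₀ hl hm hmc

/-- Row C3b. Let `v₀, w₀ ∈ V χ₀`, `v₀ ≠ 0`, with values `l₀, m₀` of `Lam`, `c = m₀ / l₀`. Let
`G χ` be: for all `v ∈ V χ` there is `w ∈ V χ` such that `Lam χ v l` implies `Lam χ w (c * l)`.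
By `lam_mul` and `Frame.surj`: `G φ` for all `φ` with `dt χ₀ φ ≠ 0` (`⁅v₀, u⁆` and `⁅w₀, u⁆`,
`u ∈ V (φ - χ₀)`), then for all `φ ≠ 0` (again, starting from such a `φ`), and trivially for `0`.
`w` is unique (`lam_unique`, `lam_ne`, `lam_add`), so linear in `v`: `T χ : V χ → V χ`. The map
`T = ∑ T χ ∘ P χ` satisfies `T ⁅x, y⁆ = ⁅T x, y⁆` by `lam_mul` (`Fr.Ab` if the degrees are
proportional), so `T` is a scalar and `w₀` is a multiple of `v₀`. -/
theorem full_one {d : ℕ} (hd : Fr.Full d) (hab : Fr.Ab) (hc : Central F L) : Fr.Full 1 := by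
  classical
  have h10 : ((1, 0) : ZMod p × ZMod p) ≠ 0 := fun h => one_ne_zero (congrArg Prod.fst h)
  have hpos : 0 < finrank F (Fr.V (1, 0)) := by rw [hd.2 _ h10]; exact hd.1
  have : Nontrivial (Fr.V (1, 0)) := finrank_pos_iff.1 hpos
  obtain ⟨⟨v₀, hv₀⟩, hv1⟩ := exists_ne (0 : Fr.V (1, 0))
  have hv0 : v₀ ≠ 0 := fun h => hv1 (Subtype.ext h)
  obtain ⟨l₀, hl⟩ := exists_lam Fr hv₀
  have hl0 : l₀ ≠ 0 := lam_ne Fr hd hv₀ hv0 hl
  -- every `w₀` is a multiple of `v₀`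
  have key : ∀ w₀ ∈ Fr.V (1, 0), ∃ c' : F, c' • v₀ = w₀ := by
    intro w₀ hw₀
    obtain ⟨m₀, hm⟩ := exists_lam Fr hw₀
    set c : F := m₀ / l₀ with hcd
    have hmc : m₀ = c * l₀ := by rw [hcd, div_mul_cancel₀ _ hl0]
    have hall := C3b_all Fr hd hab hv₀ hv0 hw₀ hl hm hmc
    have hch : ∀ (χ : ZMod p × ZMod p) (v : L), ∃ w : L, v ∈ Fr.V χ →
        (w ∈ Fr.V χ ∧ ∀ l, Fr.Lam χ v l → Fr.Lam χ w (c * l)) := by
      intro χ v
      by_cases hv : v ∈ Fr.V χ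
      · obtain ⟨w, h1, h2⟩ := hall χ v hv
        exact ⟨w, fun _ => ⟨h1, h2⟩⟩
      · exact ⟨0, fun h => absurd h hv⟩
    choose g hg using hch
    have gadd : ∀ χ, ∀ v ∈ Fr.V χ, ∀ v' ∈ Fr.V χ, g χ (v + v') = g χ v + g χ v' := by
      intro χ v hv v' hv'
      obtain ⟨l, hl1⟩ := exists_lam Fr hv
      obtain ⟨l', hl2⟩ := exists_lam Fr hv'
      have h1 := (hg χ v hv).2 l hl1
      have h2 := (hg χ v' hv').2 l' hl2
      have h3 := lam_add Fr hab (hg χ v hv).1 (hg χ v' hv').1 h1 h2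
      have h4 := (hg χ (v + v') ((Fr.V χ).add_mem hv hv')).2 (l + l') (lam_add Fr hab hv hv' hl1 hl2)
      rw [mul_add] at h4
      exact C3b_uniq Fr hab hd (hg χ (v + v') ((Fr.V χ).add_mem hv hv')).1
        ((Fr.V χ).add_mem (hg χ v hv).1 (hg χ v' hv').1) h4 h3
    have gsmul : ∀ χ, ∀ (r : F), ∀ v ∈ Fr.V χ, g χ (r • v) = r • g χ v := by
      intro χ r v hv
      obtain ⟨l, hl1⟩ := exists_lam Fr hv
      have h1 := lam_smul Fr ((hg χ v hv).2 l hl1) r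
      have h4 := (hg χ (r • v) ((Fr.V χ).smul_mem r hv)).2 _ (lam_smul Fr hl1 r)
      have e : c * (r ^ p ^ Fr.N * l) = r ^ p ^ Fr.N * (c * l) := by ring
      rw [e] at h4
      exact C3b_uniq Fr hab hd (hg χ (r • v) ((Fr.V χ).smul_mem r hv)).1
        ((Fr.V χ).smul_mem r (hg χ v hv).1) h4 h1
    have gzero : ∀ χ, g χ 0 = 0 := by
      intro χ
      have := gsmul χ 0 0 (Fr.V χ).zero_mem
      rwa [zero_smul, zero_smul] at this
    let T : L →ₗ[F] L :=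
      { toFun := fun x => ∑ χ, g χ (Fr.P χ x)
        map_add' := fun x y => by
          rw [← Finset.sum_add_distrib]
          refine Finset.sum_congr rfl fun χ _ => ?_
          rw [map_add, gadd χ _ (Fr.mem χ x) _ (Fr.mem χ y)]
        map_smul' := fun r x => by
          rw [RingHom.id_apply, Finset.smul_sum]
          refine Finset.sum_congr rfl fun χ _ => ?_
          rw [map_smul, gsmul χ r _ (Fr.mem χ x)] }
    have hT : ∀ χ, ∀ x ∈ Fr.V χ, T x = g χ x := by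
      intro χ x hx
      change ∑ ψ, g ψ (Fr.P ψ x) = g χ x
      rw [Finset.sum_eq_single χ]
      · rw [Fr.self hx]
      · intro ψ _ hne
        rw [Fr.ne hx (Ne.symm hne), gzero]
      · intro h
        exact absurd (Finset.mem_univ χ) h
    have hcen : ∀ x y, T ⁅x, y⁆ = ⁅T x, y⁆ := by
      have hom : ∀ χ ψ, ∀ x ∈ Fr.V χ, ∀ y ∈ Fr.V ψ, T ⁅x, y⁆ = ⁅T x, y⁆ := by
        intro χ ψ x hx y hy
        rw [hT χ x hx]
        by_cases hdt : dt χ ψ = 0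
        · rw [hab χ ψ hdt x hx y hy, hab χ ψ hdt _ (hg χ x hx).1 y hy, map_zero]
        · by_cases hx0 : x = 0
          · rw [hx0, gzero, zero_lie, map_zero]
          · have hxy := Fr.lie hx hy
            have hgxy := Fr.lie (hg χ x hx).1 hy
            rw [hT (χ + ψ) _ hxy]
            obtain ⟨l, hl1⟩ := exists_lam Fr hx
            obtain ⟨l', hl2⟩ := exists_lam Fr hxy
            obtain ⟨m', hm'⟩ := exists_lam Fr hgxy
            have h1 := lam_mul Fr hd hab hdt hx (hg χ x hx).1 hy hl1 ((hg χ x hx).2 l hl1) hl2 hm'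
            have hl10 : l ≠ 0 := lam_ne Fr hd hx hx0 hl1
            have h2 : m' = c * l' := by
              apply mul_left_cancel₀ hl10
              rw [h1]
              ring
            rw [h2] at hm'
            exact C3b_uniq Fr hab hd (hg _ _ hxy).1 hgxy ((hg _ _ hxy).2 l' hl2) hm'
      intro x y
      have h1 : ∀ χ, ∀ x ∈ Fr.V χ, T ⁅x, y⁆ = ⁅T x, y⁆ := by
        intro χ x hx
        conv_lhs => rw [← Fr.sum y]
        conv_rhs => rw [← Fr.sum y]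
        rw [lie_sum, lie_sum, map_sum]
        exact Finset.sum_congr rfl fun ψ _ => hom χ ψ x hx _ (Fr.mem ψ y)
      conv_lhs => rw [← Fr.sum x]
      conv_rhs => rw [← Fr.sum x]
      rw [map_sum, sum_lie, sum_lie, map_sum]
      exact Finset.sum_congr rfl fun χ _ => h1 χ _ (Fr.mem χ x)
    obtain ⟨c', hc'⟩ := hc T hcen
    refine ⟨c', ?_⟩
    rw [← hc' v₀, hT (1, 0) v₀ hv₀]
    have h1 := (hg (1, 0) v₀ hv₀).2 l₀ hl
    rw [← hmc] at h1
    exact C3b_uniq Fr hab hd (hg (1, 0) v₀ hv₀).1 hw₀ h1 hm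
  have hle : finrank F (Fr.V (1, 0)) ≤ 1 := by
    refine finrank_le_one (⟨v₀, hv₀⟩ : Fr.V (1, 0)) fun w => ?_
    obtain ⟨c', hc'⟩ := key w.1 w.2
    exact ⟨c', Subtype.ext hc'⟩
  rw [hd.2 _ h10] at hle hpos
  have hd1 : d = 1 := by omega
  rw [hd1] at hd
  exact hd
-- END full_one

end Pool.Agent.MP9083S
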