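import Mathlib
import Pool.Agent.Lib.MP_9083e4_al.S.Dims

/-! Rows C2. Homogeneous elements of proportional degrees commute. -/

set_option autoImplicit false

namespace Pool.Agent.MP9083S

open Module Pool.Agent.MP9083

variable {p : ℕ} [Fact p.Prime] {F L : Type*} [Field F] [CharP F p] [LieRing L]
  [LieAlgebra F L] [FiniteDimensional F L] (Fr : Frame p F L)

-- BEGIN exists_central
private theorem C2a_dt_symm {χ ψ : ZMod p × ZMod p} : dt χ ψ = - dt ψ χ := by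
  simp only [dt]; ring

private theorem C2a_dt_add (χ ψ φ : ZMod p × ZMod p) : dt χ (ψ + φ) = dt χ ψ + dt χ φ := by
  simp only [dt, Prod.fst_add, Prod.snd_add]; ring

/-- transitivity on a line -/
private theorem C2a_dt_trans {χ ψ φ : ZMod p × ZMod p} (hχ : χ ≠ 0) (h1 : dt χ ψ = 0)
    (h2 : dt χ φ = 0) : dt ψ φ = 0 := by
  simp only [dt] at h1 h2 ⊢
  have h3 : χ.1 * (ψ.1 * φ.2 - ψ.2 * φ.1) = 0 := by linear_combination ψ.1 * h2 - φ.1 * h1
  have h4 : χ.2 * (ψ.1 * φ.2 - ψ.2 * φ.1) = 0 := by linear_combination ψ.2 * h2 - φ.2 * h1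
  by_contra hne
  apply hχ
  refine Prod.ext ?_ ?_
  · exact (mul_eq_zero.1 h3).resolve_right hne
  · exact (mul_eq_zero.1 h4).resolve_right hne

omit [FiniteDimensional F L] in
private theorem C2a_ne_zero {χ : ZMod p × ZMod p} {x : L} (hx : x ∈ Fr.V χ) (h : x ≠ 0) :
    χ ≠ 0 := by
  rintro rfl
  rw [Fr.zero] at hx
  exact h ((Submodule.mem_bot F).1 hx)

private theorem C2a_exists_dt {χ : ZMod p × ZMod p} (hχ : χ ≠ 0) :
    ∃ φ : ZMod p × ZMod p, dt χ φ ≠ 0 := by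
  by_cases h1 : χ.1 = 0
  · refine ⟨(1, 0), ?_⟩
    intro h
    apply hχ
    refine Prod.ext h1 ?_
    simpa [dt] using h
  · refine ⟨(0, 1), ?_⟩
    intro h
    apply h1
    simpa [dt] using h

omit [FiniteDimensional F L] in
private theorem C2a_P_lie {χ : ZMod p × ZMod p} {z w : L}
    (hz : ∀ φ, dt χ φ ≠ 0 → Fr.P φ z = 0) (hw : ∀ φ, dt χ φ ≠ 0 → Fr.P φ w = 0)
    (η : ZMod p × ZMod p) (hη : dt χ η ≠ 0) : Fr.P η ⁅z, w⁆ = 0 := by
  have h1 : ⁅z, w⁆ = ∑ φ, ∑ ψ, ⁅Fr.P φ z, Fr.P ψ w⁆ := by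
    conv_lhs => rw [← Fr.sum z, ← Fr.sum w, sum_lie]
    exact Finset.sum_congr rfl fun φ _ => lie_sum _ _ _
  rw [h1, map_sum]
  refine Finset.sum_eq_zero fun φ _ => ?_
  rw [map_sum]
  refine Finset.sum_eq_zero fun ψ _ => ?_
  by_cases hφ : dt χ φ = 0
  · by_cases hψ : dt χ ψ = 0
    · refine Fr.ne (Fr.lie (Fr.mem φ z) (Fr.mem ψ w)) ?_
      rintro rfl
      exact hη (by rw [C2a_dt_add, hφ, hψ, add_zero])
    · rw [hw ψ hψ, lie_zero, map_zero]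
  · rw [hz φ hφ, zero_lie, map_zero]

/-- the subalgebra of the degrees on the line of `χ` -/
private def C2a_S (χ : ZMod p × ZMod p) : LieSubalgebra F L where
  carrier := {z | ∀ φ, dt χ φ ≠ 0 → Fr.P φ z = 0}
  add_mem' {z w} hz hw φ hφ := by rw [map_add, hz φ hφ, hw φ hφ, add_zero]
  zero_mem' φ _ := map_zero _
  smul_mem' c z hz φ hφ := by rw [map_smul, hz φ hφ, smul_zero]
  lie_mem' {z w} hz hw η hη := C2a_P_lie Fr hz hw η hη

omit [FiniteDimensional F L] in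
private theorem C2a_mem_S {χ ψ : ZMod p × ZMod p} (hψ : dt χ ψ = 0) {y : L} (hy : y ∈ Fr.V ψ) :
    y ∈ C2a_S Fr χ := fun φ hφ => Fr.ne hy (by rintro rfl; exact hφ hψ)

/-- iterated brackets of homogeneous elements of the subalgebra -/
private def C2a_B (χ : ZMod p × ZMod p) : ℕ → L → Prop
  | 0, z => ∃ ψ, dt χ ψ = 0 ∧ z ∈ Fr.V ψ
  | k + 1, z => ∃ a b, (∃ ψ, dt χ ψ = 0 ∧ a ∈ Fr.V ψ) ∧ C2a_B χ k b ∧ z = ⁅a, b⁆

omit [FiniteDimensional F L] in
private theorem C2a_B_hom {χ : ZMod p × ZMod p} (k : ℕ) {z : L} (hz : C2a_B Fr χ k z) :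
    ∃ ψ, dt χ ψ = 0 ∧ z ∈ Fr.V ψ := by
  induction k generalizing z with
  | zero => exact hz
  | succ k ih =>
    obtain ⟨a, b, ⟨ψ, hψ, ha⟩, hb, rfl⟩ := hz
    obtain ⟨φ, hφ, hb'⟩ := ih hb
    exact ⟨ψ + φ, by rw [C2a_dt_add, hψ, hφ, add_zero], Fr.lie ha hb'⟩

omit [FiniteDimensional F L] in
private theorem C2a_B_lcs {χ : ZMod p × ZMod p} (k : ℕ) {z : L} (hz : C2a_B Fr χ k z) :
    ∃ h : z ∈ C2a_S Fr χ, (⟨z, h⟩ : C2a_S Fr χ) ∈
      LieModule.lowerCentralSeries F (C2a_S Fr χ) (C2a_S Fr χ) k := by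
  induction k generalizing z with
  | zero =>
    obtain ⟨ψ, hψ, hz⟩ := hz
    exact ⟨C2a_mem_S Fr hψ hz, by rw [LieModule.lowerCentralSeries_zero]; exact LieSubmodule.mem_top _⟩
  | succ k ih =>
    obtain ⟨a, b, ⟨ψ, hψ, ha⟩, hb, rfl⟩ := hz
    obtain ⟨h1, h2⟩ := ih hb
    have ha' := C2a_mem_S Fr hψ ha
    refine ⟨(C2a_S Fr χ).lie_mem ha' h1, ?_⟩
    rw [LieModule.lowerCentralSeries_succ]
    exact LieSubmodule.lie_mem_lie (LieSubmodule.mem_top (⟨a, ha'⟩ : C2a_S Fr χ)) h2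

/-- Row C2a. Let `χ`, `ψ`, `x ∈ V χ`, `y ∈ V ψ` with `dt χ ψ = 0`, `⁅x, y⁆ ≠ 0`; so `χ ≠ 0`, `ψ ≠ 0`.
The subspace `S = {z | ∀ φ, dt χ φ ≠ 0 → P φ z = 0}` is a subalgebra, it is not `⊤`, so it is
nilpotent. Let `B 0` = the homogeneous elements of `S` (in some `V ψ`, `dt χ ψ = 0`) and
`B (k + 1)` = the `⁅a, b⁆`, `a ∈ B 0`, `b ∈ B k`; `B k` is in the `k`-th term of the lower central
series of `S`, so `B k = {0}` for large `k`, but `B 1 ≠ {0}`. Take `a, b` with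
`⁅a, b⁆ ∈ B k`, `⁅a, b⁆ ≠ 0`, `k ≥ 1`, `B (k + 1) = {0}`. -/
theorem exists_central (H : PropNil F L) {d : ℕ} (hd : Fr.Full d) (hna : ¬ Fr.Ab) :
    ∃ ψ₁ ψ₂ : ZMod p × ZMod p, ∃ a ∈ Fr.V ψ₁, ∃ b ∈ Fr.V ψ₂, dt ψ₁ ψ₂ = 0 ∧ ⁅a, b⁆ ≠ 0 ∧
      ∀ ψ, dt (ψ₁ + ψ₂) ψ = 0 → ∀ y ∈ Fr.V ψ, ⁅⁅a, b⁆, y⁆ = 0 := by
  classical
  simp only [Frame.Ab, not_forall] at hna
  obtain ⟨χ, ψ, h0, x, hx, y, hy, hxy⟩ := hna
  have hx0 : x ≠ 0 := by rintro rfl; exact hxy (zero_lie y)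
  have hχ : χ ≠ 0 := C2a_ne_zero Fr hx hx0
  -- the subalgebra is proper
  have hS : C2a_S Fr χ ≠ ⊤ := by
    intro hS
    obtain ⟨φ, hφ⟩ := C2a_exists_dt hχ
    have hφ0 : φ ≠ 0 := by rintro rfl; exact hφ (by simp [dt])
    have hpos : 0 < finrank F (Fr.V φ) := by rw [hd.2 φ hφ0]; exact hd.1
    obtain ⟨v, hv⟩ := Module.finrank_pos_iff_exists_ne_zero.1 hpos
    have h1 : (v : L) ∈ C2a_S Fr χ := by rw [hS]; exact LieSubalgebra.mem_top _
    have h2 := h1 φ hφ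
    rw [Fr.self v.2] at h2
    exact hv (Subtype.ext h2)
  have hnil := H _ hS
  obtain ⟨n, hn⟩ := (LieModule.isNilpotent_iff F (C2a_S Fr χ) (C2a_S Fr χ)).1 hnil
  have hex : ∃ k, ∀ z, C2a_B Fr χ (k + 1) z → z = 0 := by
    refine ⟨n, fun z hz => ?_⟩
    obtain ⟨h1, h2⟩ := C2a_B_lcs Fr (n + 1) hz
    have h3 := LieModule.antitone_lowerCentralSeries F (C2a_S Fr χ) (C2a_S Fr χ)
      (Nat.le_succ n) h2
    rw [hn, LieSubmodule.mem_bot] at h3
    exact congrArg Subtype.val h3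
  have hk0 : Nat.find hex ≠ 0 := by
    intro h
    have h1 := Nat.find_spec hex
    rw [h] at h1
    exact hxy (h1 _ ⟨x, y, ⟨χ, by simp only [dt]; ring, hx⟩, ⟨ψ, h0, hy⟩, rfl⟩)
  obtain ⟨k, hk⟩ := Nat.exists_eq_succ_of_ne_zero hk0
  have h1 : ¬ ∀ z, C2a_B Fr χ (k + 1) z → z = 0 := Nat.find_min hex (by omega)
  have h2 : ∀ z, C2a_B Fr χ (k + 1 + 1) z → z = 0 := by
    have := Nat.find_spec hex
    rw [hk] at this
    exact this
  simp only [not_forall] at h1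
  obtain ⟨z, hz, hz0⟩ := h1
  obtain ⟨a, b, ⟨ψ₁, hψ₁, ha⟩, hb, rfl⟩ := hz
  obtain ⟨ψ₂, hψ₂, hb'⟩ := C2a_B_hom Fr k hb
  refine ⟨ψ₁, ψ₂, a, ha, b, hb', C2a_dt_trans hχ hψ₁ hψ₂, hz0, fun ψ' hψ' y' hy' => ?_⟩
  have hne : ψ₁ + ψ₂ ≠ 0 := C2a_ne_zero Fr (Fr.lie ha hb') hz0
  have h3 : dt (ψ₁ + ψ₂) χ = 0 := by
    rw [C2a_dt_symm, C2a_dt_add, hψ₁, hψ₂, add_zero, neg_zero]
  have h4 : dt χ ψ' = 0 := C2a_dt_trans hne h3 hψ'
  have h5 := h2 _ ⟨y', ⁅a, b⁆, ⟨ψ', h4, hy'⟩, ⟨a, b, ⟨ψ₁, hψ₁, ha⟩, hb, rfl⟩, rfl⟩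
  rw [← lie_skew, h5, neg_zero]
-- END exists_central

/-- `θ` maps `V φ` to itself and there is `w` of degree `m γ` with `Z ^ m θ = ad w` on `V φ` -/
def InU (Z : Module.End F L) (γ φ : ZMod p × ZMod p) (m : ℕ) (θ : Module.End F L) : Prop :=
  (∀ x ∈ Fr.V φ, θ x ∈ Fr.V φ) ∧ ∃ w ∈ Fr.V ((m : ZMod p × ZMod p) * γ), ∀ x ∈ Fr.V φ,
    ⁅w, x⁆ = (Z ^ m) (θ x)

section

variable {d : ℕ} (hd : Fr.Full d) {γ φ : ZMod p × ZMod p} (hγ : dt γ φ ≠ 0) {z : L}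
  (hz : z ∈ Fr.V γ) (hz0 : z ≠ 0) (hc : ∀ ψ, dt γ ψ = 0 → ∀ y ∈ Fr.V ψ, ⁅z, y⁆ = 0)

-- BEGIN inU_comm
omit [FiniteDimensional F L] in
private theorem C2b_dt (γ : ZMod p × ZMod p) (k : ℕ) :
    dt γ ((k : ZMod p × ZMod p) * γ) = 0 := by
  simp only [dt, Prod.fst_mul, Prod.snd_mul, Prod.fst_natCast, Prod.snd_natCast]
  ring

omit [FiniteDimensional F L] in
private theorem C2b_comm {z w : L} (h : ⁅z, w⁆ = 0) (k : ℕ) (y : L) :
    ⁅w, ((LieAlgebra.ad F L z) ^ k) y⁆ = ((LieAlgebra.ad F L z) ^ k) ⁅w, y⁆ := by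
  induction k with
  | zero => simp
  | succ k ih =>
    rw [pow_succ', Module.End.mul_apply, Module.End.mul_apply, LieAlgebra.ad_apply,
      LieAlgebra.ad_apply, ← ih]
    have h1 := leibniz_lie w z (((LieAlgebra.ad F L z) ^ k) y)
    have h2 : ⁅w, z⁆ = 0 := by rw [← lie_skew, h, neg_zero]
    rw [h1, h2, zero_lie, zero_add]

include hz hc in
omit [FiniteDimensional F L] in
/-- Row C2b. The witness of the commutator is `⁅w, w'⁆`; `ad w` commutes with `ad z`. -/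
theorem inU_comm {m m' : ℕ} {θ θ' : Module.End F L} (h : InU Fr (LieAlgebra.ad F L z) γ φ m θ)
    (h' : InU Fr (LieAlgebra.ad F L z) γ φ m' θ') :
    InU Fr (LieAlgebra.ad F L z) γ φ (m + m') (θ * θ' - θ' * θ) := by
  obtain ⟨h1, w, hw, hwx⟩ := h
  obtain ⟨h1', w', hw', hwx'⟩ := h'
  refine ⟨fun x hx => ?_, ⁅w, w'⁆, ?_, fun x hx => ?_⟩
  · exact Submodule.sub_mem _ (h1 _ (h1' x hx)) (h1' _ (h1 x hx))
  · have h2 := Fr.lie hw hw'
    rw [← add_mul, ← Nat.cast_add] at h2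
    exact h2
  · have e1 : ⁅z, w⁆ = 0 := hc _ (C2b_dt γ m) w hw
    have e2 : ⁅z, w'⁆ = 0 := hc _ (C2b_dt γ m') w' hw'
    have k1 : ((LieAlgebra.ad F L z) ^ m') (((LieAlgebra.ad F L z) ^ m) (θ (θ' x))) =
        ((LieAlgebra.ad F L z) ^ (m + m')) ((θ * θ') x) := by
      rw [add_comm m m', pow_add]
      rfl
    have k2 : ((LieAlgebra.ad F L z) ^ m) (((LieAlgebra.ad F L z) ^ m') (θ' (θ x))) =
        ((LieAlgebra.ad F L z) ^ (m + m')) ((θ' * θ) x) := by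
      rw [pow_add]
      rfl
    rw [lie_lie, hwx' x hx, hwx x hx, C2b_comm e1, C2b_comm e2, hwx _ (h1' x hx),
      hwx' _ (h1 x hx), k1, k2, LinearMap.sub_apply, map_sub]
-- END inU_comm

-- BEGIN inU_zero
omit [FiniteDimensional F L] in
private theorem C2b_dt' (γ φ : ZMod p × ZMod p) (k : ℕ) :
    dt γ (φ + (k : ZMod p × ZMod p) * γ) = dt γ φ := by
  simp only [dt, Prod.fst_add, Prod.snd_add, Prod.fst_mul, Prod.snd_mul, Prod.fst_natCast,
    Prod.snd_natCast]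
  ring

include hγ hz hz0 in
omit [FiniteDimensional F L] in
private theorem C2b_inj (k : ℕ) {y : L} (hy : y ∈ Fr.V φ)
    (h : ((LieAlgebra.ad F L z) ^ k) y = 0) : y = 0 := by
  induction k with
  | zero => simpa using h
  | succ k ih =>
    apply ih
    rw [pow_succ', Module.End.mul_apply, LieAlgebra.ad_apply] at h
    exact Fr.inj (φ := φ + (k : ZMod p × ZMod p) * γ) (by rw [C2b_dt']; exact hγ) hz hz0
      (Fr.pow_mem hz hy k) h

include hγ hz hz0 in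
omit [FiniteDimensional F L] in
/-- Row C2b. `V 0 = 0` and `ad z` is injective on `V (φ + k γ)` -/
theorem inU_zero {m : ℕ} (hm : p ∣ m) {θ : Module.End F L}
    (h : InU Fr (LieAlgebra.ad F L z) γ φ m θ) {x : L} (hx : x ∈ Fr.V φ) : θ x = 0 := by
  obtain ⟨h1, w, hw, hwx⟩ := h
  have e : ((m : ZMod p × ZMod p)) * γ = 0 := by
    have e1 : (m : ZMod p) = 0 := (ZMod.natCast_eq_zero_iff m p).2 hm
    ext
    · simp only [Prod.fst_mul, Prod.fst_natCast, e1, zero_mul, Prod.fst_zero]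
    · simp only [Prod.snd_mul, Prod.snd_natCast, e1, zero_mul, Prod.snd_zero]
  rw [e, Fr.zero, Submodule.mem_bot] at hw
  have h2 := hwx x hx
  rw [hw, zero_lie] at h2
  exact C2b_inj Fr hγ hz hz0 m (h1 x hx) h2.symm
-- END inU_zero

-- BEGIN inU_of_mem
omit [FiniteDimensional F L] in
private theorem C2b_pow {z : L} {ψ : ZMod p × ZMod p} {c : F} {q : ℕ}
    (h : ∀ x ∈ Fr.V ψ, ((LieAlgebra.ad F L z) ^ q) x = c • x) (m : ℕ) :
    ∀ x ∈ Fr.V ψ, ((LieAlgebra.ad F L z) ^ (q * m)) x = c ^ m • x := by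
  intro x hx
  induction m with
  | zero => simp
  | succ m ih =>
    rw [Nat.mul_succ, pow_add, Module.End.mul_apply, h x hx, map_smul, ih, smul_smul, pow_succ,
      mul_comm]

include hγ hz hz0 in
omit [FiniteDimensional F L] in
/-- Row C2c. `θ = c Z ^ (p ^ N * m - m) ad w` for a suitable `c`, by `Fr.pow` for `z` -/
theorem inU_of_mem {m : ℕ} {w : L} (hw : w ∈ Fr.V ((m : ZMod p × ZMod p) * γ)) :
    ∃ θ : Module.End F L, (∀ x ∈ Fr.V φ, θ x ∈ Fr.V φ) ∧ ∀ x ∈ Fr.V φ,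
      ⁅w, x⁆ = ((LieAlgebra.ad F L z) ^ m) (θ x) := by
  obtain ⟨l, hl, hlx⟩ := Fr.pow hz hz0
  have hp : p.Prime := Fact.out
  have hle : m ≤ p ^ Fr.N * m := Nat.le_mul_of_pos_left m (pow_pos hp.pos _)
  set c : F := l * ct F (dt γ φ) with hcdef
  have hct : ct F (dt γ φ) ≠ 0 := (map_ne_zero (ct F)).2 hγ
  have hc0 : c ≠ 0 := mul_ne_zero hl hct
  have hV : ∀ x ∈ Fr.V φ, ⁅w, x⁆ ∈ Fr.V (φ + (m : ZMod p × ZMod p) * γ) := by
    intro x hx
    rw [add_comm]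
    exact Fr.lie hw hx
  have hpw : ∀ y ∈ Fr.V (φ + (m : ZMod p × ZMod p) * γ),
      ((LieAlgebra.ad F L z) ^ (p ^ Fr.N * m)) y = c ^ m • y := by
    refine C2b_pow Fr (fun y hy => ?_) m
    rw [hlx _ y hy, C2b_dt']
  refine ⟨(c ^ m)⁻¹ • ((LieAlgebra.ad F L z) ^ (p ^ Fr.N * m - m) * LieAlgebra.ad F L w),
    fun x hx => ?_, fun x hx => ?_⟩
  · rw [LinearMap.smul_apply, Module.End.mul_apply, LieAlgebra.ad_apply]
    refine Submodule.smul_mem _ _ ?_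
    have h1 := Fr.pow_mem hz (hV x hx) (p ^ Fr.N * m - m)
    have e : φ + (m : ZMod p × ZMod p) * γ + ((p ^ Fr.N * m - m : ℕ) : ZMod p × ZMod p) * γ = φ := by
      rw [add_assoc, ← add_mul, ← Nat.cast_add, Nat.add_sub_cancel' hle]
      have e1 : ((p ^ Fr.N * m : ℕ) : ZMod p) = 0 := by
        rw [ZMod.natCast_eq_zero_iff]
        exact Dvd.dvd.mul_right (dvd_pow_self p Fr.N_ne) m
      ext
      · simp only [Prod.fst_add, Prod.fst_mul, Prod.fst_natCast, e1, zero_mul, add_zero]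
      · simp only [Prod.snd_add, Prod.snd_mul, Prod.snd_natCast, e1, zero_mul, add_zero]
    rw [e] at h1
    exact h1
  · rw [LinearMap.smul_apply, map_smul, Module.End.mul_apply, LieAlgebra.ad_apply,
      ← Module.End.mul_apply, ← pow_add, Nat.add_sub_cancel' hle, hpw _ (hV x hx), smul_smul,
      inv_mul_cancel₀ (pow_ne_zero _ hc0), one_smul]
-- END inU_of_mem

-- BEGIN inU_exists
omit [FiniteDimensional F L] in
private theorem C2c_dt (γ φ : ZMod p × ZMod p) (k : ℕ) :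
    dt γ (φ + (k : ZMod p × ZMod p) * γ) = dt γ φ := by
  simp only [dt, Prod.fst_add, Prod.snd_add, Prod.fst_mul, Prod.snd_mul, Prod.fst_natCast,
    Prod.snd_natCast]
  ring

omit [FiniteDimensional F L] in
private theorem C2c_dt' (γ φ : ZMod p × ZMod p) (m : ℕ) :
    dt ((m : ZMod p × ZMod p) * γ) φ = m * dt γ φ := by
  simp only [dt, Prod.fst_mul, Prod.snd_mul, Prod.fst_natCast, Prod.snd_natCast]
  ring

omit [FiniteDimensional F L] in
private theorem C2c_inj {γ φ : ZMod p × ZMod p} (hγ : dt γ φ ≠ 0) {z : L}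
    (hz : z ∈ Fr.V γ) (hz0 : z ≠ 0) (m : ℕ) {x : L} (hx : x ∈ Fr.V φ)
    (h : ((LieAlgebra.ad F L z) ^ m) x = 0) : x = 0 := by
  induction m with
  | zero => rwa [pow_zero, Module.End.one_apply] at h
  | succ m ih =>
    refine ih ?_
    rw [pow_succ', Module.End.mul_apply, LieAlgebra.ad_apply] at h
    refine Fr.inj ?_ hz hz0 (Fr.pow_mem hz hx m) h
    rwa [C2c_dt]

include hd hγ hz hz0 in
/-- Row C2c. `⁅w, x₀⁆ = Z ^ m y` with `w` of degree `m γ` (`Frame.surj`), `θ` by `inU_of_mem`;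
`Z` is injective on every `V (φ + k γ)` (`Frame.inj`) -/
theorem inU_exists {m : ℕ} (hm : ¬ p ∣ m) {x₀ y : L} (hx₀ : x₀ ∈ Fr.V φ) (hx₀' : x₀ ≠ 0)
    (hy : y ∈ Fr.V φ) : ∃ θ, InU Fr (LieAlgebra.ad F L z) γ φ m θ ∧ θ x₀ = y := by
  have h1 : dt ((m : ZMod p × ZMod p) * γ) φ ≠ 0 := by
    rw [C2c_dt']
    refine mul_ne_zero ?_ hγ
    rwa [Ne, ZMod.natCast_eq_zero_iff]
  have h2 := Fr.pow_mem hz hy m
  rw [add_comm] at h2
  obtain ⟨w, hw, hwx⟩ := Fr.surj hd h1 hx₀ hx₀' h2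
  obtain ⟨θ, hθ, hθw⟩ := inU_of_mem Fr hγ hz hz0 hw
  refine ⟨θ, ⟨hθ, w, hw, hθw⟩, ?_⟩
  rw [← sub_eq_zero]
  refine C2c_inj Fr hγ hz hz0 m (Submodule.sub_mem _ (hθ _ hx₀) hy) ?_
  rw [map_sub, ← hθw _ hx₀, hwx, sub_self]
-- END inU_exists

-- BEGIN inU_of_comm
include hd hγ hz hz0 hc in
/-- Row C2d. A map `ρ` of `V φ` which commutes with all `θ` in `InU ((p - 1) * m)` is in `InU m`:
choose `C` in `InU m` with `C x₀ = ρ x₀`; `C` commutes with these `θ` by `inU_comm` and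
`inU_zero`; every `y ∈ V φ` is `θ x₀`, so `C y = C θ x₀ = θ C x₀ = θ ρ x₀ = ρ θ x₀ = ρ y`. -/
theorem inU_of_comm {m : ℕ} (hm : ¬ p ∣ m) {ρ : Module.End F L} (hρ : ∀ x ∈ Fr.V φ, ρ x ∈ Fr.V φ)
    (h : ∀ θ, InU Fr (LieAlgebra.ad F L z) γ φ ((p - 1) * m) θ → ∀ x ∈ Fr.V φ,
      ρ (θ x) = θ (ρ x)) : InU Fr (LieAlgebra.ad F L z) γ φ m ρ := by
  have hp : p.Prime := Fact.out
  have hφ : φ ≠ 0 := by
    rintro rfl
    apply hγ
    simp [dt]
  have hV : Fr.V φ ≠ ⊥ := by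
    intro h0
    have h1 := hd.2 φ hφ
    rw [h0, finrank_bot] at h1
    exact absurd h1 hd.1.ne
  obtain ⟨x₀, hx₀, hx₀'⟩ := (Submodule.ne_bot_iff _).1 hV
  obtain ⟨θC, ⟨hC1, w, hw, hwC⟩, hC2⟩ := inU_exists Fr hd hγ hz hz0 hm hx₀ hx₀' (hρ x₀ hx₀)
  have hm' : ¬ p ∣ (p - 1) * m := by
    rw [hp.dvd_mul, not_or]
    refine ⟨fun h1 => ?_, hm⟩
    have h2 := Nat.le_of_dvd (Nat.sub_pos_of_lt hp.one_lt) h1
    have h3 := hp.one_lt
    omega
  have hCU : InU Fr (LieAlgebra.ad F L z) γ φ m θC := ⟨hC1, w, hw, hwC⟩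
  have hcomm : ∀ θ, InU Fr (LieAlgebra.ad F L z) γ φ ((p - 1) * m) θ → ∀ x ∈ Fr.V φ,
      θC (θ x) = θ (θC x) := by
    intro θ hθ x hx
    have h1 := inU_comm Fr hz hc hCU hθ
    have h2 := inU_zero Fr hγ hz hz0 (m := m + (p - 1) * m) (by
      refine ⟨m, ?_⟩
      have h3 : (p - 1) * m + m = p * m := by
        rw [← Nat.succ_mul, Nat.succ_eq_add_one, Nat.sub_add_cancel hp.one_lt.le]
      rw [add_comm, h3]) h1 hx
    rw [LinearMap.sub_apply, Module.End.mul_apply, Module.End.mul_apply, sub_eq_zero] at h2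
    exact h2
  have heq : ∀ y ∈ Fr.V φ, θC y = ρ y := by
    intro y hy
    obtain ⟨θ, hθ, hθy⟩ := inU_exists Fr hd hγ hz hz0 hm' hx₀ hx₀' hy
    rw [← hθy, hcomm θ hθ x₀ hx₀, hC2, h θ hθ x₀ hx₀]
  exact ⟨hρ, w, hw, fun x hx => by rw [hwC x hx, heq x hx]⟩
-- END inU_of_comm

-- BEGIN inU_mul
include hγ hz hz0 hc in
omit [FiniteDimensional F L] in
private theorem C2e_comm {m : ℕ} {θ η : Module.End F L}
    (h : InU Fr (LieAlgebra.ad F L z) γ φ m θ)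
    (h' : InU Fr (LieAlgebra.ad F L z) γ φ ((p - 1) * m) η) {x : L} (hx : x ∈ Fr.V φ) :
    θ (η x) = η (θ x) := by
  have h1 := inU_comm Fr hz hc h h'
  have h2 : p ∣ m + (p - 1) * m := by
    have h3 : 1 ≤ p := (Fact.out : p.Prime).one_lt.le
    refine ⟨m, ?_⟩
    obtain ⟨k, rfl⟩ := Nat.exists_eq_add_of_le h3
    rw [Nat.add_sub_cancel_left]
    ring
  have h3 := inU_zero Fr hγ hz hz0 h2 h1 hx
  rw [LinearMap.sub_apply, Module.End.mul_apply, Module.End.mul_apply] at h3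
  exact sub_eq_zero.1 h3

include hd hγ hz hz0 hc in
/-- Row C2e. By `inU_of_comm`, `InU m` is closed under products and contains `Z ^ (p * r)`. -/
theorem inU_mul {m : ℕ} (hm : ¬ p ∣ m) {θ θ' : Module.End F L}
    (h : InU Fr (LieAlgebra.ad F L z) γ φ m θ) (h' : InU Fr (LieAlgebra.ad F L z) γ φ m θ') :
    InU Fr (LieAlgebra.ad F L z) γ φ m (θ * θ') := by
  refine inU_of_comm Fr hd hγ hz hz0 hc hm (fun x hx => h.1 _ (h'.1 x hx)) fun η hη x hx => ?_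
  rw [Module.End.mul_apply, Module.End.mul_apply, C2e_comm Fr hγ hz hz0 hc h' hη hx,
    C2e_comm Fr hγ hz hz0 hc h hη (h'.1 x hx)]
-- END inU_mul

-- BEGIN inU_pow
include hγ hz hz0 in
omit [FiniteDimensional F L] in
private theorem C2e_inj (n : ℕ) {y : L} (hy : y ∈ Fr.V φ)
    (h : ((LieAlgebra.ad F L z) ^ n) y = 0) : y = 0 := by
  induction n with
  | zero => simpa using h
  | succ n ih =>
    apply ih
    refine Fr.inj (χ := γ) (φ := φ + (n : ZMod p × ZMod p) * γ) ?_ hz hz0 (Fr.pow_mem hz hy n) ?_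
    · have h1 : dt γ (φ + (n : ZMod p × ZMod p) * γ) = dt γ φ := by
        simp only [dt, Prod.fst_add, Prod.snd_add, Prod.fst_mul, Prod.snd_mul, Prod.fst_natCast,
          Prod.snd_natCast]
        ring
      rwa [h1]
    · rw [pow_succ', Module.End.mul_apply, LieAlgebra.ad_apply] at h
      exact h

include hd hγ hz hz0 hc in
/-- Row C2e. -/
theorem inU_pow {m : ℕ} (hm : ¬ p ∣ m) (r : ℕ) :
    InU Fr (LieAlgebra.ad F L z) γ φ m ((LieAlgebra.ad F L z) ^ (p * r)) := by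
  have h0 : ∀ x ∈ Fr.V φ, ((LieAlgebra.ad F L z) ^ (p * r)) x ∈ Fr.V φ := by
    intro x hx
    have h1 := Fr.pow_mem hz hx (p * r)
    have h2 : ((p * r : ℕ) : ZMod p × ZMod p) = 0 := by
      apply Prod.ext
      · simp
      · simp
    rwa [h2, zero_mul, add_zero] at h1
  refine inU_of_comm Fr hd hγ hz hz0 hc hm h0 fun η hη x hx => ?_
  obtain ⟨h1, w, hw, h2⟩ := hη
  have h3 : ⁅z, w⁆ = 0 := by
    refine hc _ ?_ w hw
    simp only [dt, Prod.fst_mul, Prod.snd_mul, Prod.fst_natCast, Prod.snd_natCast]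
    ring
  have h4 : Commute (LieAlgebra.ad F L z) (LieAlgebra.ad F L w) := by
    ext y
    rw [Module.End.mul_apply, Module.End.mul_apply, LieAlgebra.ad_apply, LieAlgebra.ad_apply,
      LieAlgebra.ad_apply, LieAlgebra.ad_apply, leibniz_lie, h3, zero_lie, zero_add]
  have h5 := (h4.pow_left (p * r)).eq
  have h6 : ((LieAlgebra.ad F L z) ^ (p * r)) ⁅w, x⁆ = ⁅w, ((LieAlgebra.ad F L z) ^ (p * r)) x⁆ := by
    have := DFunLike.congr_fun h5 x
    rwa [Module.End.mul_apply, Module.End.mul_apply, LieAlgebra.ad_apply, LieAlgebra.ad_apply] at this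
  rw [← sub_eq_zero]
  refine C2e_inj Fr hγ hz hz0 ((p - 1) * m) (sub_mem (h0 _ (h1 x hx)) (h1 _ (h0 x hx))) ?_
  have h7 : ((LieAlgebra.ad F L z) ^ ((p - 1) * m)) (((LieAlgebra.ad F L z) ^ (p * r)) (η x)) =
      ((LieAlgebra.ad F L z) ^ (p * r)) (((LieAlgebra.ad F L z) ^ ((p - 1) * m)) (η x)) := by
    rw [← Module.End.mul_apply, ← pow_add, add_comm, pow_add, Module.End.mul_apply]
  rw [map_sub, ← h2 _ (h0 x hx), ← h6, h2 x hx, h7, sub_self]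
-- END inU_pow

end

-- BEGIN false_of_central
private theorem C2f_line {γ ψ : ZMod p × ZMod p} (hγ : γ ≠ 0) (h : dt γ ψ = 0) (hψ : ψ ≠ 0) :
    ∃ k : ℕ, 0 < k ∧ k < p ∧ ψ = (k : ZMod p × ZMod p) * γ := by
  have key : ∃ c : ZMod p, ψ.1 = c * γ.1 ∧ ψ.2 = c * γ.2 := by
    unfold dt at h
    by_cases h1 : γ.1 = 0
    · have h2 : γ.2 ≠ 0 := fun h2 => hγ (Prod.ext h1 h2)
      refine ⟨ψ.2 / γ.2, ?_, by field_simp⟩
      rw [h1] at h ⊢
      have : γ.2 * ψ.1 = 0 := by linear_combination -h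
      rcases mul_eq_zero.mp this with h3 | h3
      · exact absurd h3 h2
      · rw [h3]; ring
    · refine ⟨ψ.1 / γ.1, by field_simp, ?_⟩
      field_simp
      linear_combination h
  obtain ⟨c, hc1, hc2⟩ := key
  have hc0 : c ≠ 0 := by
    intro hc0
    apply hψ
    rw [hc0] at hc1 hc2
    exact Prod.ext (by simpa using hc1) (by simpa using hc2)
  refine ⟨c.val, ?_, ZMod.val_lt c, ?_⟩
  · rcases Nat.eq_zero_or_pos c.val with h0 | h0
    · exact absurd ((ZMod.val_eq_zero c).mp h0) hc0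
    · exact h0
  · refine Prod.ext ?_ ?_
    · simpa using hc1
    · simpa using hc2

private theorem C2f_dt {γ φ : ZMod p × ZMod p} (k : ℕ) :
    dt γ (φ + (k : ZMod p × ZMod p) * γ) = dt γ φ := by
  simp only [dt, Prod.fst_add, Prod.snd_add, Prod.fst_mul, Prod.snd_mul, Prod.fst_natCast,
    Prod.snd_natCast]
  ring

omit [FiniteDimensional F L] in
private theorem C2f_inj {γ φ : ZMod p × ZMod p} (hγ : dt γ φ ≠ 0) {z : L} (hz : z ∈ Fr.V γ)
    (hz0 : z ≠ 0) (m : ℕ) {x : L} (hx : x ∈ Fr.V φ)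
    (h : ((LieAlgebra.ad F L z) ^ m) x = 0) : x = 0 := by
  induction m with
  | zero => simpa using h
  | succ m ih =>
    apply ih
    rw [pow_succ', Module.End.mul_apply, LieAlgebra.ad_apply] at h
    exact Frame.inj Fr (by rw [C2f_dt]; exact hγ) hz hz0 (Frame.pow_mem Fr hz hx m) h

omit [Fact p.Prime] [CharP F p] [FiniteDimensional F L] in
private theorem C2f_comm {z w : L} (h : ⁅z, w⁆ = 0) (m : ℕ) (x : L) :
    ⁅w, ((LieAlgebra.ad F L z) ^ m) x⁆ = ((LieAlgebra.ad F L z) ^ m) ⁅w, x⁆ := by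
  induction m with
  | zero => simp
  | succ m ih =>
    rw [pow_succ', Module.End.mul_apply, Module.End.mul_apply, LieAlgebra.ad_apply,
      LieAlgebra.ad_apply, ← ih]
    have h' : ⁅w, z⁆ = 0 := by rw [← lie_skew, h, neg_zero]
    rw [leibniz_lie w z, h', zero_lie, zero_add]

omit [FiniteDimensional F L] in
private theorem C2f_congr {γ φ : ZMod p × ZMod p} {Z : Module.End F L} {m : ℕ}
    {θ θ' : Module.End F L} (h : InU Fr Z γ φ m θ) (c : F) (he : ∀ x ∈ Fr.V φ, θ' x = c • θ x) :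
    InU Fr Z γ φ m θ' := by
  obtain ⟨h1, w, hw, h2⟩ := h
  refine ⟨fun x hx => ?_, c • w, (Fr.V _).smul_mem c hw, fun x hx => ?_⟩
  · rw [he x hx]; exact (Fr.V φ).smul_mem c (h1 x hx)
  · rw [he x hx, smul_lie, h2 x hx, map_smul]

/-- Row C2f. `p ≠ 2` (for `p = 2` the degrees `ψ₁`, `ψ₂` are equal and `V 0 = 0`). Let
`z = ⁅a, b⁆`, `γ = ψ₁ + ψ₂`; `γ ≠ 0`. `ψ₁ = k γ`, `ψ₂ = j γ`, `0 < k, j < p`, `k + j = p + 1`.
Choose `φ` with `dt γ φ ≠ 0`, `Z = ad z`. There are `A` in `InU k` with `Z ^ k A = ad a` and `B` in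
`InU j` with `Z ^ j B = ad b` on `V φ` (as in `inU_exists`). `Z ^ p (A B - B A) = 1` on `V φ`. If
`A ∈ InU m`, `p ∤ m`, then `A ^ 2 ∈ InU m` and `A ^ 2 B - B A ^ 2 ∈ InU (m + j)`, and
`Z ^ p (A ^ 2 B - B A ^ 2) = 2 A` on `V φ`. If `p ∣ m + j` then `A = 0`, a contradiction;
otherwise `A ∈ InU (m + j)`. But `p ∣ k + n j` for some `n`. -/
theorem false_of_central {d : ℕ} (hd : Fr.Full d) {ψ₁ ψ₂ : ZMod p × ZMod p} {a b : L}
    (ha : a ∈ Fr.V ψ₁) (hb : b ∈ Fr.V ψ₂) (h0 : dt ψ₁ ψ₂ = 0) (hab : ⁅a, b⁆ ≠ 0)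
    (hc : ∀ ψ, dt (ψ₁ + ψ₂) ψ = 0 → ∀ y ∈ Fr.V ψ, ⁅⁅a, b⁆, y⁆ = 0) : False := by
  have hp : p.Prime := Fact.out
  have hz : ⁅a, b⁆ ∈ Fr.V (ψ₁ + ψ₂) := Fr.lie ha hb
  obtain ⟨γ, hγdef⟩ : ∃ γ, γ = ψ₁ + ψ₂ := ⟨_, rfl⟩
  obtain ⟨z, hzdef⟩ : ∃ z, z = ⁅a, b⁆ := ⟨_, rfl⟩
  rw [← hγdef, ← hzdef] at hz hc
  rw [← hzdef] at hab
  have hγ0 : γ ≠ 0 := by
    intro h
    rw [h, Fr.zero] at hz
    exact hab ((Submodule.mem_bot F).mp hz)
  have hψ₁ : ψ₁ ≠ 0 := by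
    intro h
    rw [h, Fr.zero] at ha
    apply hab
    rw [hzdef, (Submodule.mem_bot F).mp ha, zero_lie]
  have hψ₂ : ψ₂ ≠ 0 := by
    intro h
    rw [h, Fr.zero] at hb
    apply hab
    rw [hzdef, (Submodule.mem_bot F).mp hb, lie_zero]
  have hd1 : dt γ ψ₁ = 0 := by
    rw [hγdef]
    simp only [dt, Prod.fst_add, Prod.snd_add] at h0 ⊢
    linear_combination -h0
  have hd2 : dt γ ψ₂ = 0 := by
    rw [hγdef]
    simp only [dt, Prod.fst_add, Prod.snd_add] at h0 ⊢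
    linear_combination h0
  obtain ⟨k, hk0, hkp, hk⟩ := C2f_line hγ0 hd1 hψ₁
  obtain ⟨j, hj0, hjp, hj⟩ := C2f_line hγ0 hd2 hψ₂
  have hkj : k + j = p + 1 := by
    have h1 : γ = ((k + j : ℕ) : ZMod p × ZMod p) * γ := by
      conv_lhs => rw [hγdef, hk, hj]
      push_cast
      ring
    have h2 : ((k + j : ℕ) : ZMod p) = ((1 : ℕ) : ZMod p) := by
      by_cases h3 : γ.1 = 0
      · have h4 : γ.2 ≠ 0 := fun h4 => hγ0 (Prod.ext h3 h4)
        have h5 := congrArg Prod.snd h1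
        rw [Prod.snd_mul, Prod.snd_natCast] at h5
        have h6 : (((k + j : ℕ) : ZMod p) - 1) * γ.2 = 0 := by linear_combination -h5
        rcases mul_eq_zero.mp h6 with h7 | h7
        · rw [Nat.cast_one]; linear_combination h7
        · exact absurd h7 h4
      · have h5 := congrArg Prod.fst h1
        rw [Prod.fst_mul, Prod.fst_natCast] at h5
        have h6 : (((k + j : ℕ) : ZMod p) - 1) * γ.1 = 0 := by linear_combination -h5
        rcases mul_eq_zero.mp h6 with h7 | h7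
        · rw [Nat.cast_one]; linear_combination h7
        · exact absurd h7 h3
    rw [ZMod.natCast_eq_natCast_iff] at h2
    obtain ⟨q, hq⟩ := (Nat.modEq_iff_dvd' (show 1 ≤ k + j by omega)).mp h2.symm
    have hq1 : q = 1 := by
      rcases Nat.lt_or_ge q 1 with h3 | h3
      · have : q = 0 := by omega
        rw [this] at hq
        omega
      · by_contra h4
        have h5 : 2 ≤ q := by omega
        have h6 : p * 2 ≤ p * q := Nat.mul_le_mul_left p h5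
        omega
    rw [hq1] at hq
    omega
  have hp2 : p ≠ 2 := by omega
  have h2F : (2 : F) ≠ 0 := by
    intro h
    have h1 : ((2 : ℕ) : F) = 0 := by exact_mod_cast h
    rw [CharP.cast_eq_zero_iff F p] at h1
    exact hp2 ((Nat.prime_dvd_prime_iff_eq hp Nat.prime_two).mp h1)
  obtain ⟨φ, hφ⟩ : ∃ φ : ZMod p × ZMod p, dt γ φ ≠ 0 := by
    by_cases h3 : γ.1 = 0
    · have h4 : γ.2 ≠ 0 := fun h4 => hγ0 (Prod.ext h3 h4)
      exact ⟨(1, 0), by simpa [dt] using h4⟩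
    · exact ⟨(0, 1), by simpa [dt] using h3⟩
  have hφ0 : φ ≠ 0 := by
    intro h
    apply hφ
    rw [h]
    simp [dt]
  obtain ⟨x₀, hx₀, hx₀'⟩ : ∃ x ∈ Fr.V φ, x ≠ 0 := by
    have h1 : 0 < finrank F (Fr.V φ) := by rw [hd.2 φ hφ0]; exact hd.1
    have h2 : Fr.V φ ≠ ⊥ := by
      intro h
      rw [h, finrank_bot] at h1
      exact lt_irrefl _ h1
    exact (Submodule.ne_bot_iff _).mp h2
  have hpγ : ∀ φ : ZMod p × ZMod p, φ + (p : ZMod p × ZMod p) * γ = φ := by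
    intro φ
    refine Prod.ext ?_ ?_
    · simp
    · simp
  obtain ⟨A, hA1, hA2⟩ := inU_of_mem Fr hφ hz hab (m := k) (w := a) (by rw [← hk]; exact ha)
  obtain ⟨B, hB1, hB2⟩ := inU_of_mem Fr hφ hz hab (m := j) (w := b) (by rw [← hj]; exact hb)
  have hAk : InU Fr (LieAlgebra.ad F L z) γ φ k A := ⟨hA1, a, by rw [← hk]; exact ha, hA2⟩
  have hBj : InU Fr (LieAlgebra.ad F L z) γ φ j B := ⟨hB1, b, by rw [← hj]; exact hb, hB2⟩
  have hza : ⁅z, a⁆ = 0 := hc ψ₁ hd1 a ha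
  have hzb : ⁅z, b⁆ = 0 := hc ψ₂ hd2 b hb
  -- Z ^ p (A B - B A) = 1
  have hone : ∀ x ∈ Fr.V φ, ((LieAlgebra.ad F L z) ^ p) ((A * B - B * A) x) = x := by
    intro x hx
    have e1 : ⁅a, ⁅b, x⁆⁆ = ((LieAlgebra.ad F L z) ^ (p + 1)) ((A * B) x) := by
      rw [hB2 x hx, C2f_comm hza, hA2 _ (hB1 x hx), ← Module.End.mul_apply, ← pow_add,
        Module.End.mul_apply, show j + k = p + 1 by omega]
    have e2 : ⁅b, ⁅a, x⁆⁆ = ((LieAlgebra.ad F L z) ^ (p + 1)) ((B * A) x) := by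
      rw [hA2 x hx, C2f_comm hzb, hB2 _ (hA1 x hx), ← Module.End.mul_apply, ← pow_add,
        Module.End.mul_apply, hkj]
    have e3 : ⁅z, x⁆ = ((LieAlgebra.ad F L z) ^ (p + 1)) ((A * B - B * A) x) := by
      rw [LinearMap.sub_apply, map_sub, ← e1, ← e2, hzdef, lie_lie]
    have hmem : (A * B - B * A) x ∈ Fr.V φ := by
      rw [LinearMap.sub_apply, Module.End.mul_apply, Module.End.mul_apply]
      exact (Fr.V φ).sub_mem (hA1 _ (hB1 x hx)) (hB1 _ (hA1 x hx))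
    have hmem2 : ((LieAlgebra.ad F L z) ^ p) ((A * B - B * A) x) ∈ Fr.V φ := by
      have := Frame.pow_mem Fr hz hmem p
      rwa [hpγ] at this
    have e4 : ⁅z, ((LieAlgebra.ad F L z) ^ p) ((A * B - B * A) x) - x⁆ = 0 := by
      rw [lie_sub, e3, pow_succ', Module.End.mul_apply, LieAlgebra.ad_apply, sub_self]
    exact sub_eq_zero.mp (Frame.inj Fr hφ hz hab ((Fr.V φ).sub_mem hmem2 hx) e4)
  -- the main step
  have step : ∀ m : ℕ, ¬ p ∣ m → InU Fr (LieAlgebra.ad F L z) γ φ m A →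
      InU Fr (LieAlgebra.ad F L z) γ φ (m + j) (A * A * B - B * (A * A)) ∧
      ∀ x ∈ Fr.V φ, ((LieAlgebra.ad F L z) ^ p) ((A * A * B - B * (A * A)) x) = (2 : F) • A x := by
    intro m hm hAm
    refine ⟨inU_comm Fr hz hc (inU_mul Fr hd hφ hz hab hc hm hAm hAm) hBj, ?_⟩
    intro x hx
    have hcomm : ∀ y ∈ Fr.V φ, ((LieAlgebra.ad F L z) ^ p) (A y) =
        A (((LieAlgebra.ad F L z) ^ p) y) := by
      intro y hy
      have hy' : ((LieAlgebra.ad F L z) ^ p) y ∈ Fr.V φ := by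
        have := Frame.pow_mem Fr hz hy p
        rwa [hpγ] at this
      have hAy : ((LieAlgebra.ad F L z) ^ p) (A y) ∈ Fr.V φ := by
        have := Frame.pow_mem Fr hz (hA1 y hy) p
        rwa [hpγ] at this
      have e5 : ((LieAlgebra.ad F L z) ^ k) (((LieAlgebra.ad F L z) ^ p) (A y) -
          A (((LieAlgebra.ad F L z) ^ p) y)) = 0 := by
        have e7 : ((LieAlgebra.ad F L z) ^ k) (((LieAlgebra.ad F L z) ^ p) (A y)) =
            ((LieAlgebra.ad F L z) ^ p) (((LieAlgebra.ad F L z) ^ k) (A y)) := by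
          have e8 : ((LieAlgebra.ad F L z) ^ k) * ((LieAlgebra.ad F L z) ^ p) =
              ((LieAlgebra.ad F L z) ^ p) * ((LieAlgebra.ad F L z) ^ k) := by
            rw [← pow_add, ← pow_add, Nat.add_comm]
          exact LinearMap.congr_fun e8 (A y)
        rw [map_sub, ← hA2 _ hy', C2f_comm hza, hA2 y hy, e7, sub_self]
      exact sub_eq_zero.mp (C2f_inj Fr hφ hz hab k ((Fr.V φ).sub_mem hAy (hA1 _ hy')) e5)
    have e6 : (A * A * B - B * (A * A)) x = A ((A * B - B * A) x) + (A * B - B * A) (A x) := by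
      simp only [LinearMap.sub_apply, Module.End.mul_apply, map_sub]
      abel
    have hmem : (A * B - B * A) x ∈ Fr.V φ := by
      rw [LinearMap.sub_apply, Module.End.mul_apply, Module.End.mul_apply]
      exact (Fr.V φ).sub_mem (hA1 _ (hB1 x hx)) (hB1 _ (hA1 x hx))
    rw [e6, map_add, hcomm _ hmem, hone x hx, hone _ (hA1 x hx), two_smul]
  have hnz : ¬ (∀ x ∈ Fr.V φ, A x = 0) := by
    intro h
    have h1 := hone x₀ hx₀
    rw [LinearMap.sub_apply, Module.End.mul_apply, Module.End.mul_apply, h _ (hB1 x₀ hx₀),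
      h x₀ hx₀, map_zero, sub_zero, map_zero] at h1
    exact hx₀' h1.symm
  have hall : ∀ n : ℕ, InU Fr (LieAlgebra.ad F L z) γ φ (k + n * j) A ∧ ¬ p ∣ k + n * j := by
    intro n
    induction n with
    | zero =>
      rw [Nat.zero_mul, Nat.add_zero]
      refine ⟨hAk, fun h => ?_⟩
      exact absurd (Nat.le_of_dvd hk0 h) (by omega)
    | succ n ih =>
      obtain ⟨ih1, ih2⟩ := ih
      obtain ⟨s1, s2⟩ := step _ ih2 ih1
      have hidx : k + (n + 1) * j = k + n * j + j := by ring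
      rw [hidx]
      have hnd : ¬ p ∣ k + n * j + j := by
        intro hdv
        apply hnz
        intro x hx
        have h1 := s2 x hx
        rw [inU_zero Fr hφ hz hab hdv s1 hx, map_zero] at h1
        rcases smul_eq_zero.mp h1.symm with h3 | h3
        · exact absurd h3 h2F
        · exact h3
      refine ⟨?_, hnd⟩
      have h3 := inU_mul Fr hd hφ hz hab hc hnd (inU_pow Fr hd hφ hz hab hc hnd 1) s1
      refine C2f_congr Fr h3 (2 : F)⁻¹ ?_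
      intro x hx
      rw [Module.End.mul_apply, Nat.mul_one, s2 x hx, smul_smul, inv_mul_cancel₀ h2F, one_smul]
  -- p divides some k + n j
  have hjc : (j : ZMod p) ≠ 0 := by
    intro h
    rw [ZMod.natCast_eq_zero_iff] at h
    exact absurd (Nat.le_of_dvd hj0 h) (by omega)
  have hfin := (hall ((-(k : ZMod p) * (j : ZMod p)⁻¹).val)).2
  apply hfin
  rw [← ZMod.natCast_eq_zero_iff]
  push_cast
  rw [ZMod.natCast_val, ZMod.cast_id', id, mul_assoc, inv_mul_cancel₀ hjc]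
  ring
-- END false_of_central

theorem ab_of_propNil (H : PropNil F L) {d : ℕ} (hd : Fr.Full d) : Fr.Ab := by
  by_contra hna
  obtain ⟨ψ₁, ψ₂, a, ha, b, hb, h0, hab, hc⟩ := exists_central Fr H hd hna
  exact false_of_central Fr hd ha hb h0 hab hc

end Pool.Agent.MP9083S
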