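import Mathlib
import Pool.Agent.Lib.MP_9083e4_al.S.Dims

/-! Rows C4. The normal form if all parts of the grading are one-dimensional. -/

set_option autoImplicit false

namespace Pool.Agent.MP9083S

open Module Pool.Agent.MP9083

variable {p : ℕ} [Fact p.Prime] {F L : Type*} [Field F] [CharP F p] [LieRing L]
  [LieAlgebra F L] [FiniteDimensional F L] (Fr : Frame p F L)

-- BEGIN pow_p
private theorem C4a_scalar {K V : Type*} [Field K] [AddCommGroup V] [Module K V]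
    (W : Submodule K V) (h : finrank K W = 1) (T : V →ₗ[K] V) (hT : ∀ x ∈ W, T x ∈ W) :
    ∃ m : K, ∀ x ∈ W, T x = m • x := by
  obtain ⟨w, -, hw⟩ := finrank_eq_one_iff'.mp h
  obtain ⟨m, hm⟩ := hw ⟨T w, hT _ w.2⟩
  refine ⟨m, fun x hx => ?_⟩
  obtain ⟨c, hc⟩ := hw ⟨x, hx⟩
  have h1 : c • (w : V) = x := by
    have := congrArg Subtype.val hc
    simpa using this
  have h2 : m • (w : V) = T w := by
    have := congrArg Subtype.val hm
    simpa using this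
  rw [← h1, map_smul, ← h2, smul_smul, smul_smul, mul_comm]

private theorem C4a_pow {K V : Type*} [Field K] [AddCommGroup V] [Module K V]
    (T : Module.End K V) {m : K} {x : V} (h : T x = m • x) (k : ℕ) : (T ^ k) x = m ^ k • x := by
  induction k with
  | zero => simp
  | succ k ih =>
    rw [pow_succ, Module.End.mul_apply, h, map_smul, ih, smul_smul, pow_succ, mul_comm]

private theorem C4a_dt {p : ℕ} [Fact p.Prime] {χ : ZMod p × ZMod p} (h : χ ≠ 0) :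
    ∃ φ : ZMod p × ZMod p, dt χ φ = 1 := by
  by_cases h1 : χ.1 = 0
  · have h2 : χ.2 ≠ 0 := fun h2 => h (Prod.ext h1 h2)
    refine ⟨(-(χ.2)⁻¹, 0), ?_⟩
    simp only [dt, mul_zero, mul_neg, sub_neg_eq_add, zero_add]
    exact mul_inv_cancel₀ h2
  · refine ⟨(0, (χ.1)⁻¹), ?_⟩
    simp only [dt, mul_zero, sub_zero]
    exact mul_inv_cancel₀ h1

/-- Row C4a. `(ad v) ^ p` maps the line `V φ` to itself, so it is multiplication by `μ φ`, and
`μ φ ^ (p ^ (N - 1)) = l * dt χ φ`. Choose `φ₁` with `dt χ φ₁ = 1` and `a = μ φ₁`; the Frobenius map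
is injective and fixes `ct F _`, so `μ φ = a * dt χ φ`. -/
theorem pow_p (hd : Fr.Full 1) {χ : ZMod p × ZMod p} {v : L} (hv : v ∈ Fr.V χ) (hv0 : v ≠ 0) :
    ∃ a : F, a ≠ 0 ∧ ∀ φ, ∀ x ∈ Fr.V φ,
      ((LieAlgebra.ad F L v) ^ p) x = (a * ct F (dt χ φ)) • x := by
  obtain ⟨l, hl, hpow⟩ := Fr.pow hv hv0
  have hχ : χ ≠ 0 := by
    rintro rfl
    rw [Fr.zero] at hv
    exact hv0 ((Submodule.mem_bot F).mp hv)
  have hp0 : ((p : ℕ) : ZMod p × ZMod p) = 0 := by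
    apply Prod.ext <;> simp
  have hmem : ∀ φ, ∀ x ∈ Fr.V φ, ((LieAlgebra.ad F L v) ^ p) x ∈ Fr.V φ := by
    intro φ x hx
    have h1 := Fr.pow_mem hv hx p
    rwa [hp0, zero_mul, add_zero] at h1
  have hex : ∀ φ, ∃ m : F, ∀ x ∈ Fr.V φ, ((LieAlgebra.ad F L v) ^ p) x = m • x := by
    intro φ
    by_cases h0 : φ = 0
    · refine ⟨0, fun x hx => ?_⟩
      rw [h0, Fr.zero] at hx
      rw [(Submodule.mem_bot F).mp hx, map_zero, smul_zero]
    · exact C4a_scalar (Fr.V φ) (hd.2 φ h0) _ (hmem φ)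
  choose μ hμ using hex
  have hN : p ^ Fr.N = p * p ^ (Fr.N - 1) := by
    rw [← pow_succ', Nat.sub_add_cancel (Nat.one_le_iff_ne_zero.mpr Fr.N_ne)]
  have hkey : ∀ φ, φ ≠ 0 → μ φ ^ p ^ (Fr.N - 1) = l * ct F (dt χ φ) := by
    intro φ h0
    obtain ⟨w, hw0, -⟩ := finrank_eq_one_iff'.mp (hd.2 φ h0)
    have hw0' : (w : L) ≠ 0 := fun h => hw0 (Subtype.ext h)
    have h1 := hpow φ w w.2
    rw [hN, pow_mul, C4a_pow _ (hμ φ w w.2)] at h1
    exact smul_left_injective F hw0' h1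
  obtain ⟨φ₁, h₁⟩ := C4a_dt hχ
  have hφ₁ : φ₁ ≠ 0 := by
    rintro rfl
    simp [dt] at h₁
  have ha := hkey φ₁ hφ₁
  rw [h₁, map_one, mul_one] at ha
  refine ⟨μ φ₁, ?_, fun φ x hx => ?_⟩
  · intro h0
    rw [h0, zero_pow (pow_ne_zero _ (Fact.out : p.Prime).ne_zero)] at ha
    exact hl ha.symm
  · by_cases h0 : φ = 0
    · rw [h0, Fr.zero] at hx
      rw [(Submodule.mem_bot F).mp hx, map_zero, smul_zero]
    · rw [hμ φ x hx]
      congr 1
      apply iterateFrobenius_inj F p (Fr.N - 1)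
      rw [iterateFrobenius_def, iterateFrobenius_def, hkey φ h0, mul_pow, ha, ← map_pow,
        ZMod.pow_card_pow]
-- END pow_p

-- BEGIN exists_w
private theorem C4b_dim (hd : Fr.Full 1) {χ : ZMod p × ZMod p} (hχ : χ ≠ 0) :
    ∃ w ∈ Fr.V χ, w ≠ 0 := by
  have h : 0 < finrank F (Fr.V χ) := by rw [hd.2 χ hχ]; exact one_pos
  have := finrank_pos_iff.1 h
  obtain ⟨w, hw⟩ := exists_ne (0 : Fr.V χ)
  exact ⟨w, w.2, fun h0 => hw (Subtype.ext h0)⟩

omit [FiniteDimensional F L] in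
private theorem C4b_smul (hd : Fr.Full 1) {χ : ZMod p × ZMod p} (hχ : χ ≠ 0) {x y : L}
    (hx : x ∈ Fr.V χ) (hx0 : x ≠ 0) (hy : y ∈ Fr.V χ) : ∃ c : F, y = c • x := by
  obtain ⟨c, hc⟩ := (finrank_eq_one_iff_of_nonzero' (⟨x, hx⟩ : Fr.V χ)
    (fun h => hx0 (congrArg Subtype.val h))).1 (hd.2 χ hχ) ⟨y, hy⟩
  exact ⟨c, (congrArg Subtype.val hc).symm⟩

omit [FiniteDimensional F L] in
private theorem C4b_iter {A W : L →ₗ[F] L} (hcomm : ∀ y, W (A y) = A (W y)) {i : ℕ} {c : F} {x : L}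
    (h : W x = c • (A ^ i) x) (k : ℕ) : (W ^ k) x = c ^ k • (A ^ (i * k)) x := by
  have h2 : ∀ m y, W ((A ^ m) y) = (A ^ m) (W y) := by
    intro m
    induction m with
    | zero => intro y; rfl
    | succ m ih =>
      intro y
      rw [pow_succ', Module.End.mul_apply, hcomm, ih, Module.End.mul_apply]
  induction k with
  | zero => simp
  | succ k ih =>
    rw [pow_succ', Module.End.mul_apply, ih, map_smul, h2, h, map_smul, smul_smul, ← pow_succ,
      Nat.mul_succ, pow_add A, Module.End.mul_apply]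

omit [FiniteDimensional F L] in
private theorem C4b_eig {A : L →ₗ[F] L} {e : F} {x : L} (h : A x = e • x) (i : ℕ) :
    (A ^ i) x = e ^ i • x := by
  induction i with
  | zero => simp
  | succ i ih => rw [pow_succ', Module.End.mul_apply, ih, map_smul, h, smul_smul, pow_succ]

omit [FiniteDimensional F L] in
private theorem C4b_main (hd : Fr.Full 1) (hab : Fr.Ab) {χ : ZMod p × ZMod p} {v w : L}
    (hv : v ∈ Fr.V χ) {i : ℕ} (hip : i < p) (hw : w ∈ Fr.V ((i : ZMod p × ZMod p) * χ))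
    {a a' : F} (ha : a ≠ 0)
    (hva : ∀ φ, ∀ x ∈ Fr.V φ, ((LieAlgebra.ad F L v) ^ p) x = (a * ct F (dt χ φ)) • x)
    (hwa : ∀ φ, ∀ x ∈ Fr.V φ, ((LieAlgebra.ad F L w) ^ p) x =
      (a' * ct F (dt ((i : ZMod p × ZMod p) * χ) φ)) • x)
    {φ : ZMod p × ZMod p} {x : L} (hx : x ∈ Fr.V φ) (hx0 : x ≠ 0) (hφ : dt χ φ ≠ 0) :
    ∃ c : F, ⁅w, x⁆ = c • ((LieAlgebra.ad F L v) ^ i) x ∧
      c ^ p * (a * ct F (dt χ φ)) ^ i = a' * ((i : F) * ct F (dt χ φ)) := by
  have hs : ct F (dt χ φ) ≠ 0 := by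
    intro h
    exact hφ ((map_eq_zero (ct F)).1 h)
  have hAi : ((LieAlgebra.ad F L v) ^ i) x ≠ 0 := by
    intro h
    have h1 := hva φ x hx
    have h2 : ((LieAlgebra.ad F L v) ^ p) x = 0 := by
      have e : p = (p - i) + i := by omega
      rw [e, pow_add, Module.End.mul_apply, h, map_zero]
    rw [h2] at h1
    exact (smul_ne_zero (mul_ne_zero ha hs) hx0) h1.symm
  have hdt : dt χ ((i : ZMod p × ZMod p) * χ + φ) = dt χ φ := by
    simp only [dt, Prod.fst_add, Prod.snd_add, Prod.fst_mul, Prod.snd_mul, Prod.fst_natCast,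
      Prod.snd_natCast]
    ring
  have hne : (i : ZMod p × ZMod p) * χ + φ ≠ 0 := by
    intro h
    rw [h] at hdt
    apply hφ
    rw [← hdt]
    simp [dt]
  have hmem := Fr.pow_mem hv hx i
  rw [add_comm] at hmem
  obtain ⟨c, hc⟩ := C4b_smul Fr hd hne hmem hAi (Fr.lie hw hx)
  refine ⟨c, hc, ?_⟩
  have h0 : ⁅w, v⁆ = 0 := by
    refine hab _ _ ?_ w hw v hv
    simp only [dt, Prod.fst_mul, Prod.snd_mul, Prod.fst_natCast, Prod.snd_natCast]
    ring
  have hcomm : ∀ y, LieAlgebra.ad F L w (LieAlgebra.ad F L v y) =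
      LieAlgebra.ad F L v (LieAlgebra.ad F L w y) := by
    intro y
    simp only [LieAlgebra.ad_apply]
    rw [leibniz_lie, h0, zero_lie, zero_add]
  have h1 := C4b_iter hcomm (x := x) (c := c) (i := i) (by rw [LieAlgebra.ad_apply]; exact hc) p
  rw [mul_comm i p, pow_mul (LieAlgebra.ad F L v) p i, C4b_eig (hva φ x hx) i, hwa φ x hx,
    smul_smul] at h1
  have h2 := smul_left_injective F hx0 h1
  have h3 : dt ((i : ZMod p × ZMod p) * χ) φ = (i : ZMod p) * dt χ φ := by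
    simp only [dt, Prod.fst_mul, Prod.snd_mul, Prod.fst_natCast, Prod.snd_natCast]
    ring
  simp only [h3, map_mul, map_natCast] at h2
  rw [← h2]

/-- Row C4b. Let `0 < i < p`, `0 ≠ w ∈ V (i χ)`. For `φ` with `dt χ φ ≠ 0` and a generator `x` of the
line `V φ`: `⁅w, x⁆ = c φ • (ad v) ^ i x`, `c φ ≠ 0`, and `c (φ + χ) = c φ` as `⁅w, v⁆ = 0`, so
`(ad w) ^ p x = (c φ) ^ p (ad v) ^ (p i) x`. By `pow_p` for `w` and `v` (values `a'`, `a`):
`(c φ) ^ p (a s) ^ i = a' i s`, `s = dt χ φ`. So `(c φ) ^ p = C s ^ (p - i)` with a constant `C`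
(`s ^ (p - 1) = 1`) and `c φ = κ s ^ (p - i)` (Frobenius). Replace `w` by `κ⁻¹ w`. -/
theorem exists_w (hd : Fr.Full 1) (hab : Fr.Ab) {χ : ZMod p × ZMod p} (hχ : χ ≠ 0) {v : L}
    (hv : v ∈ Fr.V χ) (hv0 : v ≠ 0) {i : ℕ} (hi : 0 < i) (hip : i < p) :
    ∃ w ∈ Fr.V ((i : ZMod p × ZMod p) * χ), w ≠ 0 ∧ ∀ φ, ∀ x ∈ Fr.V φ, dt χ φ ≠ 0 →
      ⁅w, x⁆ = (ct F (dt χ φ)) ^ (p - i) • ((LieAlgebra.ad F L v) ^ i) x := by
  have hpp : p.Prime := Fact.out
  have hi0 : (i : ZMod p) ≠ 0 := by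
    rw [Ne, ZMod.natCast_eq_zero_iff]
    exact fun h => absurd (Nat.le_of_dvd hi h) (not_le.2 hip)
  have hiF : (i : F) ≠ 0 := by
    rw [Ne, CharP.cast_eq_zero_iff F p]
    exact fun h => absurd (Nat.le_of_dvd hi h) (not_le.2 hip)
  have hiχ : (i : ZMod p × ZMod p) * χ ≠ 0 := by
    intro h
    apply hχ
    have h1 := congrArg Prod.fst h
    have h2 := congrArg Prod.snd h
    simp only [Prod.fst_mul, Prod.snd_mul, Prod.fst_natCast, Prod.snd_natCast, Prod.fst_zero,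
      Prod.snd_zero, mul_eq_zero, hi0, false_or] at h1 h2
    exact Prod.ext h1 h2
  obtain ⟨w, hw, hw0⟩ := C4b_dim Fr hd hiχ
  obtain ⟨a, ha, hva⟩ := pow_p Fr hd hv hv0
  obtain ⟨a', ha', hwa⟩ := pow_p Fr hd hw hw0
  obtain ⟨φ0, hφ0⟩ : ∃ φ0 : ZMod p × ZMod p, dt χ φ0 = 1 := by
    by_cases h1 : χ.1 = 0
    · have h2 : χ.2 ≠ 0 := fun h2 => hχ (Prod.ext h1 h2)
      exact ⟨(-χ.2⁻¹, 0), by simp [dt, mul_inv_cancel₀ h2]⟩
    · exact ⟨(0, χ.1⁻¹), by simp [dt, mul_inv_cancel₀ h1]⟩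
  have hφ00 : φ0 ≠ 0 := by
    rintro rfl
    simp [dt] at hφ0
  obtain ⟨x0, hx0, hx00⟩ := C4b_dim Fr hd hφ00
  obtain ⟨κ, -, hκ⟩ := C4b_main Fr hd hab hv hip hw ha hva hwa hx0 hx00
    (by rw [hφ0]; exact one_ne_zero)
  simp only [hφ0, map_one, mul_one] at hκ
  have hκ0 : κ ≠ 0 := by
    rintro rfl
    rw [zero_pow hpp.ne_zero, zero_mul] at hκ
    exact mul_ne_zero ha' hiF hκ.symm
  refine ⟨κ⁻¹ • w, (Fr.V _).smul_mem _ hw, smul_ne_zero (inv_ne_zero hκ0) hw0, ?_⟩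
  intro φ x hx hφ
  by_cases hx1 : x = 0
  · subst hx1; simp
  obtain ⟨c, hc, hc2⟩ := C4b_main Fr hd hab hv hip hw ha hva hwa hx hx1 hφ
  have hs : ct F (dt χ φ) ≠ 0 := by
    intro h
    exact hφ ((map_eq_zero (ct F)).1 h)
  have hsp : (ct F (dt χ φ)) ^ p = ct F (dt χ φ) := by
    rw [← map_pow, ZMod.pow_card]
  have hck : c = κ * (ct F (dt χ φ)) ^ (p - i) := by
    apply frobenius_inj F p
    simp only [frobenius_def]
    apply mul_right_cancel₀ (pow_ne_zero i (mul_ne_zero ha hs))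
    rw [hc2, mul_pow κ, ← pow_mul, mul_comm (p - i) p, pow_mul, hsp]
    calc a' * ((i : F) * ct F (dt χ φ)) = (a' * i) * ct F (dt χ φ) := by ring
      _ = (κ ^ p * a ^ i) * (ct F (dt χ φ)) ^ p := by rw [hκ, hsp]
      _ = κ ^ p * ct F (dt χ φ) ^ (p - i) * (a * ct F (dt χ φ)) ^ i := by
          have e : (ct F (dt χ φ)) ^ p = ct F (dt χ φ) ^ (p - i) * ct F (dt χ φ) ^ i := by
            rw [← pow_add]; congr 1; omega
          rw [e, mul_pow]; ring
  rw [smul_lie, hc, hck, smul_smul, ← mul_assoc, inv_mul_cancel₀ hκ0, one_mul]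
-- END exists_w

/-- The elements `Z i j`, `0 ≤ i, j < p`, as they come out of `exists_w`: `v`, `u` of degrees
`(1, 0)` and `(0, 1)`, `w i` of degree `(i, 0)` and `w' j` of degree `(0, j)` with
`⁅w i, x⁆ = l ^ (p - i) v ^ i x`, `⁅w' j, x⁆ = (- k) ^ (p - j) u ^ j x` for `x` of degree `(k, l)`. -/
structure Gens (a b : F) (v u : L) (w w' : ℕ → L) : Prop where
  ha : a ≠ 0
  hb : b ≠ 0
  hv : v ∈ Fr.V (1, 0)
  hv0 : v ≠ 0
  hu : u ∈ Fr.V (0, 1)
  hu0 : u ≠ 0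
  hvp : ∀ φ, ∀ x ∈ Fr.V φ, ((LieAlgebra.ad F L v) ^ p) x = (a * ct F φ.2) • x
  hup : ∀ φ, ∀ x ∈ Fr.V φ, ((LieAlgebra.ad F L u) ^ p) x = (-(b * ct F φ.1)) • x
  w_one : w 1 = v
  w'_one : w' 1 = u
  hw : ∀ i : ℕ, 0 < i → i < p → w i ∈ Fr.V ((i : ZMod p), 0)
  hw0 : ∀ i : ℕ, 0 < i → i < p → w i ≠ 0
  hw' : ∀ j : ℕ, 0 < j → j < p → w' j ∈ Fr.V (0, (j : ZMod p))
  hw'0 : ∀ j : ℕ, 0 < j → j < p → w' j ≠ 0
  hwx : ∀ i : ℕ, 0 < i → i < p → ∀ φ, ∀ x ∈ Fr.V φ, φ.2 ≠ 0 →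
    ⁅w i, x⁆ = (ct F φ.2) ^ (p - i) • ((LieAlgebra.ad F L v) ^ i) x
  hwx' : ∀ j : ℕ, 0 < j → j < p → ∀ φ, ∀ x ∈ Fr.V φ, φ.1 ≠ 0 →
    ⁅w' j, x⁆ = (-(ct F φ.1)) ^ (p - j) • ((LieAlgebra.ad F L u) ^ j) x

-- BEGIN exists_gens
/-- Row C4c. `pow_p` and `exists_w` for `v` and `u`; for `i = 1` the element of `exists_w` satisfies
`⁅w 1, x⁆ = ⁅v, x⁆` for all `x` of degree `φ`, `φ.2 ≠ 0`, so `w 1 = v` (`Frame.inj`). -/
theorem exists_gens (hd : Fr.Full 1) (hab : Fr.Ab) : ∃ (a b : F) (v u : L) (w w' : ℕ → L),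
    Gens Fr a b v u w w' := by
  have hn1 : ((1 : ZMod p), (0 : ZMod p)) ≠ 0 := fun h => one_ne_zero (congrArg Prod.fst h)
  have hn2 : ((0 : ZMod p), (1 : ZMod p)) ≠ 0 := fun h => one_ne_zero (congrArg Prod.snd h)
  have hex : ∀ χ : ZMod p × ZMod p, χ ≠ 0 → ∃ v ∈ Fr.V χ, v ≠ 0 := by
    intro χ hχ
    have h1 := hd.2 χ hχ
    have h2 : Fr.V χ ≠ ⊥ := by
      intro hb
      rw [hb, finrank_bot] at h1
      exact zero_ne_one h1
    exact (Submodule.ne_bot_iff _).1 h2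
  obtain ⟨v, hv, hv0⟩ := hex _ hn1
  obtain ⟨u, hu, hu0⟩ := hex _ hn2
  obtain ⟨a, ha, hap⟩ := pow_p Fr hd hv hv0
  obtain ⟨b, hb, hbp⟩ := pow_p Fr hd hu hu0
  have d1 : ∀ φ : ZMod p × ZMod p, dt (1, 0) φ = φ.2 := fun φ => by simp [dt]
  have d2 : ∀ φ : ZMod p × ZMod p, dt (0, 1) φ = -φ.1 := fun φ => by simp [dt]
  have hp1 : 1 < p := (Fact.out : p.Prime).one_lt
  have hc1 : ∀ x : ZMod p, x ≠ 0 → (ct F x) ^ (p - 1) = 1 := by
    intro x hx
    rw [← map_pow, ZMod.pow_card_sub_one_eq_one hx, map_one]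
  have hw : ∀ i : ℕ, ∃ w : L, (i = 1 → w = v) ∧ (0 < i → i < p → w ∈ Fr.V ((i : ZMod p), 0) ∧
      w ≠ 0 ∧ ∀ φ, ∀ x ∈ Fr.V φ, φ.2 ≠ 0 →
        ⁅w, x⁆ = (ct F φ.2) ^ (p - i) • ((LieAlgebra.ad F L v) ^ i) x) := by
    intro i
    by_cases h1 : i = 1
    · subst h1
      refine ⟨v, fun _ => rfl, fun _ _ => ⟨by rw [Nat.cast_one]; exact hv, hv0, ?_⟩⟩
      intro φ x hx hφ
      rw [hc1 _ hφ, one_smul, pow_one, LieAlgebra.ad_apply]
    · by_cases h2 : 0 < i ∧ i < p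
      · obtain ⟨w, hw, hw0, hwx⟩ := exists_w Fr hd hab hn1 hv hv0 h2.1 h2.2
        refine ⟨w, fun h => absurd h h1, fun _ _ => ⟨?_, hw0, ?_⟩⟩
        · have e : ((i : ZMod p × ZMod p) * ((1 : ZMod p), (0 : ZMod p))) = ((i : ZMod p), 0) := by
            ext <;> simp
          rwa [e] at hw
        · intro φ x hx hφ
          have h3 := hwx φ x hx (by rw [d1]; exact hφ)
          rwa [d1] at h3
      · exact ⟨0, fun h => absurd h h1, fun h3 h4 => absurd ⟨h3, h4⟩ h2⟩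
  have hw' : ∀ j : ℕ, ∃ w : L, (j = 1 → w = u) ∧ (0 < j → j < p → w ∈ Fr.V (0, (j : ZMod p)) ∧
      w ≠ 0 ∧ ∀ φ, ∀ x ∈ Fr.V φ, φ.1 ≠ 0 →
        ⁅w, x⁆ = (-(ct F φ.1)) ^ (p - j) • ((LieAlgebra.ad F L u) ^ j) x) := by
    intro j
    by_cases h1 : j = 1
    · subst h1
      refine ⟨u, fun _ => rfl, fun _ _ => ⟨by rw [Nat.cast_one]; exact hu, hu0, ?_⟩⟩
      intro φ x hx hφ
      rw [← map_neg, hc1 _ (neg_ne_zero.2 hφ), one_smul, pow_one, LieAlgebra.ad_apply]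
    · by_cases h2 : 0 < j ∧ j < p
      · obtain ⟨w, hw, hw0, hwx⟩ := exists_w Fr hd hab hn2 hu hu0 h2.1 h2.2
        refine ⟨w, fun h => absurd h h1, fun _ _ => ⟨?_, hw0, ?_⟩⟩
        · have e : ((j : ZMod p × ZMod p) * ((0 : ZMod p), (1 : ZMod p))) = (0, (j : ZMod p)) := by
            ext <;> simp
          rwa [e] at hw
        · intro φ x hx hφ
          have h3 := hwx φ x hx (by rw [d2]; exact neg_ne_zero.2 hφ)
          rwa [d2, map_neg] at h3
      · exact ⟨0, fun h => absurd h h1, fun h3 h4 => absurd ⟨h3, h4⟩ h2⟩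
  choose w hw using hw
  choose w' hw' using hw'
  exact ⟨a, b, v, u, w, w',
    { ha := ha
      hb := hb
      hv := hv
      hv0 := hv0
      hu := hu
      hu0 := hu0
      hvp := fun φ x hx => by rw [hap φ x hx, d1]
      hup := fun φ x hx => by rw [hbp φ x hx, d2, map_neg, mul_neg]
      w_one := (hw 1).1 rfl
      w'_one := (hw' 1).1 rfl
      hw := fun i h1 h2 => ((hw i).2 h1 h2).1
      hw0 := fun i h1 h2 => ((hw i).2 h1 h2).2.1
      hw' := fun j h1 h2 => ((hw' j).2 h1 h2).1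
      hw'0 := fun j h1 h2 => ((hw' j).2 h1 h2).2.1
      hwx := fun i h1 h2 => ((hw i).2 h1 h2).2.2
      hwx' := fun j h1 h2 => ((hw' j).2 h1 h2).2.2 }⟩
-- END exists_gens

/-- `Z i j` for `i, j < p` -/
def Z0 (w w' : ℕ → L) (i j : ℕ) : L :=
  if i = 0 then (if j = 0 then 0 else (j : ℕ) • w' j)
  else if j = 0 then (i : ℕ) • w i else ⁅w i, w' j⁆

/-- `Z i j` for all `i, j` -/
def ZZ (p : ℕ) (a b : F) (w w' : ℕ → L) (i j : ℕ) : L :=
  (a ^ (i / p) * b ^ (j / p)) • Z0 w w' (i % p) (j % p)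

section

variable {a b : F} {v u : L} {w w' : ℕ → L} (g : Gens Fr a b v u w w') (hab : Fr.Ab)

include g

-- BEGIN ZZ_mem
/-- Row C4d. degrees -/
theorem ZZ_mem (i j : ℕ) : ZZ p a b w w' i j ∈ Fr.V ((i : ZMod p), (j : ZMod p)) := by
  have hp := (Fact.out : p.Prime).pos
  have key : ∀ i j : ℕ, i < p → j < p → Z0 w w' i j ∈ Fr.V ((i : ZMod p), (j : ZMod p)) := by
    intro i j hi hj
    unfold Z0
    split_ifs with h1 h2 h3
    · exact Submodule.zero_mem _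
    · subst h1
      rw [Nat.cast_zero]
      exact nsmul_mem (g.hw' j (Nat.pos_of_ne_zero h2) hj) j
    · subst h3
      rw [Nat.cast_zero]
      exact nsmul_mem (g.hw i (Nat.pos_of_ne_zero h1) hi) i
    · have h4 := Fr.lie (g.hw i (Nat.pos_of_ne_zero h1) hi) (g.hw' j (Nat.pos_of_ne_zero h3) hj)
      rwa [Prod.mk_add_mk, add_zero, zero_add] at h4
  have h := key (i % p) (j % p) (Nat.mod_lt _ hp) (Nat.mod_lt _ hp)
  rw [ZMod.natCast_mod, ZMod.natCast_mod] at h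
  exact Submodule.smul_mem _ _ h
-- END ZZ_mem

-- BEGIN ZZ_ne
/-- Row C4d. the elements are not zero (`Frame.inj`) -/
theorem ZZ_ne {i j : ℕ} (h : ¬ (p ∣ i ∧ p ∣ j)) : ZZ p a b w w' i j ≠ 0 := by
  have hp := (Fact.out : p.Prime).pos
  have hcast : ∀ i : ℕ, i ≠ 0 → i < p → (i : ZMod p) ≠ 0 := by
    intro i h0 hi h1
    rw [ZMod.natCast_eq_zero_iff] at h1
    exact absurd (Nat.le_of_dvd (Nat.pos_of_ne_zero h0) h1) (not_le.2 hi)
  have hcastF : ∀ i : ℕ, i ≠ 0 → i < p → (i : F) ≠ 0 := by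
    intro i h0 hi h1
    rw [CharP.cast_eq_zero_iff F p] at h1
    exact absurd (Nat.le_of_dvd (Nat.pos_of_ne_zero h0) h1) (not_le.2 hi)
  have key : ∀ i j : ℕ, i < p → j < p → ¬ (i = 0 ∧ j = 0) → Z0 w w' i j ≠ 0 := by
    intro i j hi hj hij
    unfold Z0
    split_ifs with h1 h2 h3
    · exact absurd ⟨h1, h2⟩ hij
    · rw [← Nat.cast_smul_eq_nsmul F]
      exact smul_ne_zero (hcastF j h2 hj) (g.hw'0 j (Nat.pos_of_ne_zero h2) hj)
    · rw [← Nat.cast_smul_eq_nsmul F]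
      exact smul_ne_zero (hcastF i h1 hi) (g.hw0 i (Nat.pos_of_ne_zero h1) hi)
    · intro h4
      have h5 : dt ((i : ZMod p), (0 : ZMod p)) ((0 : ZMod p), (j : ZMod p)) ≠ 0 := by
        simp only [dt, zero_mul, sub_zero]
        exact mul_ne_zero (hcast i h1 hi) (hcast j h3 hj)
      exact g.hw'0 j (Nat.pos_of_ne_zero h3) hj (Fr.inj h5
        (g.hw i (Nat.pos_of_ne_zero h1) hi) (g.hw0 i (Nat.pos_of_ne_zero h1) hi)
        (g.hw' j (Nat.pos_of_ne_zero h3) hj) h4)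
  refine smul_ne_zero (mul_ne_zero (pow_ne_zero _ g.ha) (pow_ne_zero _ g.hb))
    (key _ _ (Nat.mod_lt _ hp) (Nat.mod_lt _ hp) ?_)
  rintro ⟨h1, h2⟩
  exact h ⟨Nat.dvd_of_mod_eq_zero h1, Nat.dvd_of_mod_eq_zero h2⟩
-- END ZZ_ne

-- BEGIN v_ZZ
omit [FiniteDimensional F L] g in
private theorem C4e_cast (l : ℕ) : ((l % p : ℕ) : F) = (l : F) := by
  conv_rhs => rw [← Nat.mod_add_div l p]
  rw [Nat.cast_add, Nat.cast_mul, CharP.cast_eq_zero F p, zero_mul, add_zero]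

omit [FiniteDimensional F L] g in
private theorem C4e_pow (j : ℕ) : (j : F) ^ p = (j : F) := by
  have h1 : ((j : ZMod p)) ^ p = (j : ZMod p) := ZMod.pow_card _
  have h2 := congrArg (ct F) h1
  rw [map_pow, map_natCast] at h2
  exact h2

omit [FiniteDimensional F L] in
private theorem C4e_Z0 {i j : ℕ} (hip : i < p) (hj : 0 < j) (hjp : j < p) :
    Z0 w w' i j = (j : F) ^ (p - i) • ((LieAlgebra.ad F L v) ^ i) (w' j) := by
  by_cases hi : i = 0
  · subst hi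
    rw [Z0, if_pos rfl, if_neg hj.ne', pow_zero, Nat.sub_zero, C4e_pow, Module.End.one_apply,
      Nat.cast_smul_eq_nsmul]
  · have hjne : ((j : ℕ) : ZMod p) ≠ 0 := by
      rw [Ne, ZMod.natCast_eq_zero_iff]
      exact Nat.not_dvd_of_pos_of_lt hj hjp
    rw [Z0, if_neg hi, if_neg hj.ne', g.hwx i (Nat.pos_of_ne_zero hi) hip _ _ (g.hw' j hj hjp) hjne,
      map_natCast]

omit [FiniteDimensional F L] in
include hab in
private theorem C4e_v0 (i : ℕ) (hip : i < p) : ⁅v, Z0 w w' i 0⁆ = 0 := by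
  rw [Z0]
  by_cases hi : i = 0
  · rw [if_pos hi, if_pos rfl, lie_zero]
  · rw [if_neg hi, if_pos rfl, lie_nsmul]
    rw [hab (1, 0) ((i : ZMod p), 0) (by simp [dt]) v g.hv _
      (g.hw i (Nat.pos_of_ne_zero hi) hip), smul_zero]

include hab in
/-- Row C4e. For `0 < i, j < p`: `Z i j = ⁅w i, w' j⁆ = j ^ (p - i) v ^ i w' j`. So
`⁅v, Z i j⁆ = j Z (i + 1) j` if `i + 1 < p`, and `⁅v, Z (p - 1) j⁆ = j v ^ p w' j = j a j w' j
= j a Z 0 j` by `hvp`; `⁅v, Z 0 j⁆ = j ⁅v, w' j⁆ = j Z 1 j`; `⁅v, Z i 0⁆ = 0`. -/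
theorem v_ZZ (k l : ℕ) : ⁅v, ZZ p a b w w' k l⁆ = (l : F) • ZZ p a b w w' (k + 1) l := by
  have hp : 0 < p := (Fact.out : p.Prime).pos
  have hr : k % p < p := Nat.mod_lt _ hp
  have hs : l % p < p := Nat.mod_lt _ hp
  rw [← C4e_cast (p := p) l, ZZ, ZZ, lie_smul]
  rcases Nat.eq_zero_or_pos (l % p) with h0 | h0
  · rw [h0, C4e_v0 Fr g hab _ hr, smul_zero, Nat.cast_zero, zero_smul]
  · rw [C4e_Z0 Fr g hr h0 hs, lie_smul]
    have e1 : ⁅v, ((LieAlgebra.ad F L v) ^ (k % p)) (w' (l % p))⁆ =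
        ((LieAlgebra.ad F L v) ^ (k % p + 1)) (w' (l % p)) := by
      rw [pow_succ', Module.End.mul_apply, LieAlgebra.ad_apply]
    rw [e1]
    have hk : k + 1 = k % p + 1 + p * (k / p) := by
      have := Nat.mod_add_div k p
      omega
    rcases Nat.lt_or_ge (k % p + 1) p with h1 | h1
    · have e2 : (k + 1) % p = k % p + 1 := by
        conv_lhs => rw [hk]
        rw [Nat.add_mul_mod_self_left, Nat.mod_eq_of_lt h1]
      have e3 : (k + 1) / p = k / p := by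
        conv_lhs => rw [hk]
        rw [Nat.add_mul_div_left _ _ hp, Nat.div_eq_of_lt h1, zero_add]
      rw [e2, e3, C4e_Z0 Fr g h1 h0 hs]
      have e4 : p - k % p = (p - (k % p + 1)) + 1 := by omega
      rw [e4, pow_succ]
      simp only [smul_smul]
      congr 1
      ring
    · have e5 : k % p + 1 = p := le_antisymm hr h1
      have e2 : (k + 1) % p = 0 := by
        conv_lhs => rw [hk]
        rw [Nat.add_mul_mod_self_left, e5, Nat.mod_self]
      have e3 : (k + 1) / p = k / p + 1 := by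
        conv_lhs => rw [hk]
        rw [Nat.add_mul_div_left _ _ hp, e5, Nat.div_self hp, add_comm]
      have e6 : p - k % p = 1 := by omega
      rw [e2, e3, C4e_Z0 Fr g hp h0 hs, e5, g.hvp _ _ (g.hw' _ h0 hs), e6, pow_one, pow_zero,
        Module.End.one_apply, Nat.sub_zero, C4e_pow, map_natCast]
      simp only [smul_smul]
      congr 1
      ring
-- END v_ZZ

-- BEGIN u_ZZ
omit g in
private theorem C4f_ct (i : ℕ) : ct F ((i : ℕ) : ZMod p) = (i : F) := map_natCast _ _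

private theorem C4f_w {i j : ℕ} (hi : 0 < i) (hip : i < p) (hj : 0 < j) (hjp : j < p) :
    ⁅w i, w' j⁆ = -((-(i : F)) ^ (p - j)) • ((LieAlgebra.ad F L u) ^ j) (w i) := by
  have hi0 : ((i : ℕ) : ZMod p) ≠ 0 := by
    rw [Ne, ZMod.natCast_eq_zero_iff]
    exact fun h => absurd (Nat.le_of_dvd hi h) (by omega)
  have h := g.hwx' j hj hjp ((i : ZMod p), 0) (w i) (g.hw i hi hip) hi0
  rw [← lie_skew, h]
  simp only [C4f_ct]
  rw [neg_smul]

include hab in
private theorem C4f_aux {i j : ℕ} (hip : i < p) (hjp : j < p) :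
    ⁅u, Z0 w w' i j⁆ =
      -(i : F) • (if j + 1 = p then b • Z0 w w' i 0 else Z0 w w' i (j + 1)) := by
  have hp2 : 2 ≤ p := (Fact.out : p.Prime).two_le
  rcases Nat.eq_zero_or_pos i with rfl | hi
  · rw [Nat.cast_zero, neg_zero, zero_smul]
    rcases Nat.eq_zero_or_pos j with rfl | hj
    · simp [Z0]
    · unfold Z0
      rw [if_pos rfl, if_neg (by omega), lie_nsmul]
      have : ⁅u, w' j⁆ = 0 := hab (0, 1) (0, (j : ZMod p)) (by simp [dt]) u g.hu _
        (g.hw' j hj hjp)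
      rw [this, smul_zero]
  · rcases Nat.eq_zero_or_pos j with rfl | hj
    · rw [if_neg (by omega)]
      unfold Z0
      rw [if_neg (by omega), if_pos rfl, if_neg (by omega), if_neg (by omega), lie_nsmul,
        zero_add, g.w'_one, ← lie_skew, smul_neg, ← Nat.cast_smul_eq_nsmul F, neg_smul]
    · have hz : Z0 w w' i j = ⁅w i, w' j⁆ := by
        unfold Z0
        rw [if_neg (by omega), if_neg (by omega)]
      rw [hz, C4f_w Fr g hi hip hj hjp, lie_smul]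
      have hs : ⁅u, ((LieAlgebra.ad F L u) ^ j) (w i)⁆ =
          ((LieAlgebra.ad F L u) ^ (j + 1)) (w i) := by
        rw [pow_succ']
        rfl
      rw [hs]
      by_cases hj1 : j + 1 = p
      · rw [if_pos hj1, hj1]
        have h := g.hup ((i : ZMod p), 0) (w i) (g.hw i hi hip)
        simp only [C4f_ct] at h
        rw [h]
        unfold Z0
        rw [if_neg (by omega), if_pos rfl, ← Nat.cast_smul_eq_nsmul F]
        simp only [smul_smul]
        congr 1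
        have : p - j = 1 := by omega
        rw [this]
        ring
      · rw [if_neg hj1]
        have hz1 : Z0 w w' i (j + 1) = ⁅w i, w' (j + 1)⁆ := by
          unfold Z0
          rw [if_neg (by omega), if_neg (by omega)]
        rw [hz1, C4f_w Fr g hi hip (by omega) (by omega), smul_smul]
        congr 1
        have : p - j = (p - (j + 1)) + 1 := by omega
        rw [this, pow_succ]
        ring

include hab in
/-- Row C4f. the same with `Z i j = - ⁅w' j, w i⁆ = - (- i) ^ (p - j) u ^ j w i` -/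
theorem u_ZZ (k l : ℕ) : ⁅u, ZZ p a b w w' k l⁆ = -(k : F) • ZZ p a b w w' k (l + 1) := by
  have hp0 : 0 < p := (Fact.out : p.Prime).pos
  have hk := Nat.mod_lt k hp0
  have hl := Nat.mod_lt l hp0
  have hkF : (k : F) = ((k % p : ℕ) : F) := CharP.cast_eq_mod F p k
  unfold ZZ
  rw [lie_smul, C4f_aux Fr g hab hk hl, ← hkF, smul_comm]
  congr 1
  by_cases h1 : l % p + 1 = p
  · have h2 : (l + 1) / p = l / p + 1 := by
      rw [Nat.succ_div_of_dvd]
      have := Nat.div_add_mod l p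
      exact ⟨l / p + 1, by rw [mul_add, mul_one]; omega⟩
    have h3 : (l + 1) % p = 0 := by
      rw [Nat.add_mod]
      have : l % p + 1 % p = p ∨ p = 1 := by
        rcases Nat.lt_or_ge 1 p with h | h
        · left; rw [Nat.mod_eq_of_lt h]; exact h1
        · right; omega
      rcases this with h | h
      · rw [h, Nat.mod_self]
      · rw [h, Nat.mod_one]
    rw [if_pos h1, h2, h3, smul_smul, pow_succ]
    congr 1
    ring
  · have h4 : l % p + 1 < p := by omega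
    have h5 : l + 1 = p * (l / p) + (l % p + 1) := by
      have := Nat.div_add_mod l p
      omega
    have h2 : (l + 1) / p = l / p := by
      rw [h5, Nat.mul_add_div hp0, Nat.div_eq_of_lt h4, add_zero]
    have h3 : (l + 1) % p = l % p + 1 := by
      rw [h5, Nat.mul_add_mod, Nat.mod_eq_of_lt h4]
    rw [if_neg h1, h2, h3]
-- END u_ZZ

-- BEGIN w_ZZ
omit [FiniteDimensional F L] g in
private theorem C4g_pow (x : ZMod p) : (ct F x) ^ p = ct F x := by
  rw [← map_pow, ZMod.pow_card]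

include hab in
private theorem C4g_v (k l i : ℕ) : ((LieAlgebra.ad F L v) ^ i) (ZZ p a b w w' k l) =
    ((l : F) ^ i) • ZZ p a b w w' (k + i) l := by
  induction i with
  | zero => simp
  | succ i ih =>
    rw [pow_succ', Module.End.mul_apply, ih, map_smul, LieAlgebra.ad_apply, v_ZZ Fr g hab,
      smul_smul, ← pow_succ, add_assoc]

include hab in
/-- Row C4g. iterate `v_ZZ`: `⁅w i, Z k l⁆ = l ^ (p - i) v ^ i (Z k l) = l Z (k + i) l` for
`l ≠ 0` in `ZMod p`, and both sides are `0` otherwise -/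
theorem w_ZZ {i : ℕ} (hi : 0 < i) (hip : i < p) (k l : ℕ) :
    ⁅w i, ZZ p a b w w' k l⁆ = (l : F) • ZZ p a b w w' (k + i) l := by
  have e : (l : F) = ct F (l : ZMod p) := (map_natCast (ct F) l).symm
  by_cases hl : (l : ZMod p) = 0
  · rw [e, hl, map_zero, zero_smul]
    refine hab _ _ ?_ _ (g.hw i hi hip) _ (ZZ_mem Fr g k l)
    simp [dt, hl]
  · rw [g.hwx i hi hip _ _ (ZZ_mem Fr g k l) hl, C4g_v Fr g hab, smul_smul]
    congr 1
    change (ct F (l : ZMod p)) ^ (p - i) * (l : F) ^ i = (l : F)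
    rw [e, ← pow_add, Nat.sub_add_cancel hip.le, C4g_pow]
-- END w_ZZ

-- BEGIN w'_ZZ
include hab in
private theorem C4g_u (k l j : ℕ) : ((LieAlgebra.ad F L u) ^ j) (ZZ p a b w w' k l) =
    ((-(k : F)) ^ j) • ZZ p a b w w' k (l + j) := by
  induction j with
  | zero => simp
  | succ j ih =>
    rw [pow_succ', Module.End.mul_apply, ih, map_smul, LieAlgebra.ad_apply, u_ZZ Fr g hab,
      smul_smul, ← pow_succ, add_assoc]

include hab in
/-- Row C4g. -/
theorem w'_ZZ {j : ℕ} (hj : 0 < j) (hjp : j < p) (k l : ℕ) :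
    ⁅w' j, ZZ p a b w w' k l⁆ = -(k : F) • ZZ p a b w w' k (l + j) := by
  have e : (k : F) = ct F (k : ZMod p) := (map_natCast (ct F) k).symm
  by_cases hk : (k : ZMod p) = 0
  · rw [e, hk, map_zero, neg_zero, zero_smul]
    refine hab _ _ ?_ _ (g.hw' j hj hjp) _ (ZZ_mem Fr g k l)
    simp [dt, hk]
  · rw [g.hwx' j hj hjp _ _ (ZZ_mem Fr g k l) hk, C4g_u Fr g hab, smul_smul]
    congr 1
    change (-(ct F (k : ZMod p))) ^ (p - j) * (-(k : F)) ^ j = -(k : F)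
    rw [e, ← pow_add, Nat.sub_add_cancel hjp.le, ← map_neg, C4g_pow]
-- END w'_ZZ

-- BEGIN ZZ_ZZ
omit g in
private theorem C4h_shift (a b : F) (w w' : ℕ → L) (i j m n : ℕ) :
    ZZ p a b w w' (i + p * m) (j + p * n) = (a ^ m * b ^ n) • ZZ p a b w w' i j := by
  have hp : 0 < p := (Fact.out (p := p.Prime)).pos
  rw [ZZ, ZZ, Nat.add_mul_mod_self_left, Nat.add_mul_mod_self_left, Nat.add_mul_div_left _ _ hp,
    Nat.add_mul_div_left _ _ hp, smul_smul]
  congr 1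
  rw [pow_add, pow_add]
  ring

omit g in
private theorem C4h_cast (i : ℕ) : ((i % p : ℕ) : F) = (i : F) := by
  have h0 : ((p : ℕ) : F) = 0 := CharP.cast_eq_zero F p
  have h1 : ((i % p + p * (i / p) : ℕ) : F) = (i : F) := by rw [Nat.mod_add_div]
  rw [← h1, Nat.cast_add, Nat.cast_mul, h0, zero_mul, add_zero]

include hab in
private theorem C4h_Z0 {i j : ℕ} (hi : i < p) (hj : j < p) (k l : ℕ) : ⁅Z0 w w' i j, ZZ p a b w w' k l⁆ =
    ((i : F) * l - j * k) • ZZ p a b w w' (i + k) (j + l) := by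
  rw [Nat.add_comm i k, Nat.add_comm j l]
  by_cases h1 : i = 0
  · subst h1
    by_cases h2 : j = 0
    · subst h2
      rw [Z0, if_pos rfl, if_pos rfl, zero_lie]
      simp
    · rw [Z0, if_pos rfl, if_neg h2, ← Nat.cast_smul_eq_nsmul F, smul_lie,
        w'_ZZ Fr g hab (Nat.pos_of_ne_zero h2) hj, smul_smul, Nat.add_zero]
      congr 1
      push_cast
      ring
  · by_cases h2 : j = 0
    · subst h2
      rw [Z0, if_neg h1, if_pos rfl, ← Nat.cast_smul_eq_nsmul F, smul_lie,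
        w_ZZ Fr g hab (Nat.pos_of_ne_zero h1) hi, smul_smul, Nat.add_zero]
      congr 1
      push_cast
      ring
    · rw [Z0, if_neg h1, if_neg h2, lie_lie, w'_ZZ Fr g hab (Nat.pos_of_ne_zero h2) hj,
        w_ZZ Fr g hab (Nat.pos_of_ne_zero h1) hi, lie_smul, lie_smul,
        w_ZZ Fr g hab (Nat.pos_of_ne_zero h1) hi, w'_ZZ Fr g hab (Nat.pos_of_ne_zero h2) hj, smul_smul,
        smul_smul, ← sub_smul]
      congr 1
      push_cast
      ring

include hab in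
/-- Row C4h. For `i, j < p`: if `i, j > 0` by the Jacobi identity for `⁅w i, w' j⁆`, `w_ZZ`, `w'_ZZ`;
otherwise directly; the general case by `ZZ p a b w w' i j = (a ^ (i / p) * b ^ (j / p)) • ...`. -/
theorem ZZ_ZZ (i j k l : ℕ) : ⁅ZZ p a b w w' i j, ZZ p a b w w' k l⁆ =
    ((i : F) * l - j * k) • ZZ p a b w w' (i + k) (j + l) := by
  have hp : 0 < p := (Fact.out (p := p.Prime)).pos
  have h1 : i + k = (i % p + k) + p * (i / p) := by
    have := Nat.mod_add_div i p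
    omega
  have h2 : j + l = (j % p + l) + p * (j / p) := by
    have := Nat.mod_add_div j p
    omega
  rw [h1, h2, C4h_shift]
  conv_lhs => rw [ZZ]
  rw [smul_lie, C4h_Z0 Fr g hab (Nat.mod_lt _ hp) (Nat.mod_lt _ hp), smul_smul, smul_smul, C4h_cast,
    C4h_cast]
  congr 1
  ring
-- END ZZ_ZZ

end

-- BEGIN exists_std
omit [FiniteDimensional F L] in
private theorem C4i_left (a b : F) (w w' : ℕ → L) (i j : ℕ) :
    ZZ p a b w w' (i + p) j = a • ZZ p a b w w' i j := by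
  have hp : 0 < p := (Fact.out : p.Prime).pos
  unfold ZZ
  rw [Nat.add_div_right _ hp, Nat.add_mod_right, smul_smul]
  congr 1
  rw [pow_succ]
  ring

omit [FiniteDimensional F L] in
private theorem C4i_right (a b : F) (w w' : ℕ → L) (i j : ℕ) :
    ZZ p a b w w' i (j + p) = b • ZZ p a b w w' i j := by
  have hp : 0 < p := (Fact.out : p.Prime).pos
  unfold ZZ
  rw [Nat.add_div_right _ hp, Nat.add_mod_right, smul_smul]
  congr 1
  rw [pow_succ]
  ring

private theorem C4i_cast {i j : Fin p} (h : ((i : ℕ) : ZMod p) = ((j : ℕ) : ZMod p)) : i = j := by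
  rw [ZMod.natCast_eq_natCast_iff', Nat.mod_eq_of_lt i.2, Nat.mod_eq_of_lt j.2] at h
  exact Fin.ext h

/-- Row C4i. `exists_gens`, `u i j = ZZ p a b w w' i j`. `left`, `right` by the definition, `lie` is
`ZZ_ZZ`; the elements are nonzero elements of the lines `V (i, j)`, so they are a basis
(`Fr.P`, `Fr.sum`). -/
theorem exists_std (hd : Fr.Full 1) (hab : Fr.Ab) : ∃ (a b : F) (u : ℕ → ℕ → L), a ≠ 0 ∧ b ≠ 0 ∧
    StdBasis p F L a b u := by
  obtain ⟨a, b, v, u, w, w', g⟩ := exists_gens Fr hd hab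
  have hp : 0 < p := (Fact.out : p.Prime).pos
  have hdvd : ∀ x : {x : Fin p × Fin p // (x.1 : ℕ) + x.2 ≠ 0},
      ¬ (p ∣ (x.1.1 : ℕ) ∧ p ∣ (x.1.2 : ℕ)) := by
    rintro ⟨⟨i, j⟩, hx⟩ ⟨h1, h2⟩
    have h3 : (i : ℕ) = 0 := Nat.eq_zero_of_dvd_of_lt h1 i.2
    have h4 : (j : ℕ) = 0 := Nat.eq_zero_of_dvd_of_lt h2 j.2
    apply hx
    show (i : ℕ) + (j : ℕ) = 0
    rw [h3, h4]
  refine ⟨a, b, ZZ p a b w w', g.ha, g.hb, ?_, ?_, ?_, ?_, ?_, ?_⟩
  · simp [ZZ, Z0]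
  · exact C4i_left a b w w'
  · exact C4i_right a b w w'
  · exact fun i j k l => ZZ_ZZ Fr g hab i j k l
  · rw [Fintype.linearIndependent_iff]
    intro c hc x₀
    have h1 := congrArg (Fr.P (((x₀.1.1 : ℕ) : ZMod p), ((x₀.1.2 : ℕ) : ZMod p))) hc
    rw [map_sum, map_zero, Finset.sum_eq_single x₀] at h1
    · rw [map_smul, Fr.self (ZZ_mem Fr g _ _)] at h1
      rcases smul_eq_zero.1 h1 with h2 | h2
      · exact h2
      · exact absurd h2 (ZZ_ne Fr g (hdvd x₀))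
    · intro x _ hx
      rw [map_smul, Fr.ne (ZZ_mem Fr g _ _), smul_zero]
      intro h2
      apply hx
      have h3 := congrArg Prod.fst h2
      have h4 := congrArg Prod.snd h2
      exact Subtype.ext (Prod.ext (C4i_cast h3) (C4i_cast h4))
    · intro h2
      exact absurd (Finset.mem_univ _) h2
  · rw [eq_top_iff]
    rintro y -
    rw [← Fr.sum y]
    refine Submodule.sum_mem _ fun χ _ => ?_
    by_cases hχ : χ = 0
    · have h1 := Fr.mem χ y
      rw [hχ, Fr.zero, Submodule.mem_bot] at h1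
      rw [hχ, h1]
      exact Submodule.zero_mem _
    · let x : Fin p × Fin p := (⟨χ.1.val, ZMod.val_lt _⟩, ⟨χ.2.val, ZMod.val_lt _⟩)
      have hx : (x.1 : ℕ) + x.2 ≠ 0 := by
        intro h
        have h1 : χ.1.val = 0 := by
          have : χ.1.val + χ.2.val = 0 := h
          omega
        have h2 : χ.2.val = 0 := by
          have : χ.1.val + χ.2.val = 0 := h
          omega
        apply hχ
        exact Prod.ext ((ZMod.val_eq_zero _).1 h1) ((ZMod.val_eq_zero _).1 h2)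
      have hmem : ZZ p a b w w' χ.1.val χ.2.val ∈ Fr.V χ := by
        have h1 := ZZ_mem Fr g χ.1.val χ.2.val
        rw [ZMod.natCast_zmod_val, ZMod.natCast_zmod_val] at h1
        exact h1
      have hne : ZZ p a b w w' χ.1.val χ.2.val ≠ 0 := ZZ_ne Fr g (hdvd ⟨x, hx⟩)
      have hfin := (finrank_eq_one_iff_of_nonzero' (⟨_, hmem⟩ : Fr.V χ)
        (fun h => hne (congrArg Subtype.val h))).1 (hd.2 χ hχ) ⟨Fr.P χ y, Fr.mem χ y⟩
      obtain ⟨c, hc⟩ := hfin
      have hc' : c • ZZ p a b w w' χ.1.val χ.2.val = Fr.P χ y := congrArg Subtype.val hc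
      rw [← hc']
      exact Submodule.smul_mem _ _ (Submodule.subset_span ⟨⟨x, hx⟩, rfl⟩)
-- END exists_std

end Pool.Agent.MP9083S
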