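import Mathlib

/-! Row A2. Finite extensions of separably closed fields are separably closed. -/

set_option autoImplicit false

namespace Pool.Agent.MP9083S

-- BEGIN sepClosed_of_finite
/-- Row A2. An algebraic extension of a separably closed field is purely inseparable
(`IsSepClosed.isPurelyInseparable..`); if `E'` is a finite separable extension of `E`, then `E' / F`
is purely inseparable, so `E' / E` is both and `E' = E`. -/
theorem sepClosed_of_finite (F E : Type*) [Field F] [IsSepClosed F] [Field E] [Algebra F E]
    [FiniteDimensional F E] : IsSepClosed E :=
  haveI : Algebra.IsAlgebraic F E := inferInstance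
  Algebra.IsAlgebraic.isSepClosed (F := F) (E := E)
-- END sepClosed_of_finite

end Pool.Agent.MP9083S
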