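import Mathlib
import Pool.Agent.Lib.MP_9083e4_al.S.FrameEx
import Pool.Agent.Lib.MP_9083e4_al.S.Sep
import Pool.Agent.Lib.MP_9083e4_al.S.Nab
import Pool.Agent.Lib.MP_9083e4_al.S.Mul
import Pool.Agent.Lib.MP_9083e4_al.S.Norm
import Pool.Agent.Lib.MP_9083e4_al.S.Down

/-!
# Simple Lie algebras over separably closed fields all of whose proper subalgebras are nilpotent:
the classification
-/

set_option autoImplicit false

namespace Pool.Agent.MP9083S

open Module Pool.Agent.MP9083

universe u v w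

theorem abelian_of_propNil (p : ℕ) [Fact p.Prime] {F : Type u} {L : Type v} [Field F] [CharP F p]
    [IsSepClosed F] [LieRing L] [LieAlgebra F L] [FiniteDimensional F L]
    [LieAlgebra.IsSimple F L] (H : PropNil F L) :
    ∀ S : LieSubalgebra F L, S ≠ ⊤ → IsLieAbelian S := by
  intro S hS
  refine ⟨fun x y => Subtype.ext ?_⟩
  change ⁅(x : L), (y : L)⁆ = 0
  rcases eq_or_ne (x : L) 0 with hx | hx
  · rw [hx, zero_lie]
  obtain ⟨Fr, h1, h2, h3⟩ := exists_frame (p := p) H hx
  obtain ⟨d, hd⟩ := exists_full Fr h1 h2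
  have hab := ab_of_propNil Fr H hd
  have hx' : ∀ χ : ZMod p × ZMod p, χ.1 ≠ 0 → Fr.P χ (x : L) = 0 := h3 _ ⟨1, by
    rw [pow_one, LieAlgebra.ad_apply, lie_self]⟩
  have hy' : ∀ χ : ZMod p × ZMod p, χ.1 ≠ 0 → Fr.P χ (y : L) = 0 :=
    h3 _ (exists_pow_eq_zero (H S hS) x.2 y.2)
  rw [← Fr.sum (x : L), ← Fr.sum (y : L), sum_lie]
  refine Finset.sum_eq_zero fun χ _ => ?_
  rw [lie_sum]
  refine Finset.sum_eq_zero fun ψ _ => ?_
  rcases eq_or_ne χ.1 0 with hχ | hχ
  · rcases eq_or_ne ψ.1 0 with hψ | hψ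
    · refine hab χ ψ ?_ _ (Fr.mem χ _) _ (Fr.mem ψ _)
      rw [dt, hχ, hψ, zero_mul, mul_zero, sub_zero]
    · rw [hy' ψ hψ, lie_zero]
  · rw [hx' χ hχ, zero_lie]

theorem exists_std_of_propNil (p : ℕ) [Fact p.Prime] {F : Type u} {L : Type v} [Field F]
    [CharP F p] [IsSepClosed F] [LieRing L] [LieAlgebra F L] [FiniteDimensional F L]
    [LieAlgebra.IsSimple F L] (H : PropNil F L) :
    ∃ (E : Type v) (_ : Field E) (_ : Algebra F E) (_ : LieAlgebra E L)
      (_ : IsScalarTower F E L) (a b : E) (u : ℕ → ℕ → L), FiniteDimensional F E ∧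
        StdBasis p E L a b u ∧ PInd p a b := by
  obtain ⟨E, _, _, _, _, h1, h2, h3, h4⟩ := exists_centroid F L
  have hs : IsSepClosed E := sepClosed_of_finite F E
  have hch : CharP E p := charP_of_injective_algebraMap (algebraMap F E).injective p
  have HE : PropNil E L := propNil_ext (F := F) H
  have HA := abelian_of_propNil p HE
  have hnt : Nontrivial L := by
    by_contra hno
    rw [not_nontrivial_iff_subsingleton] at hno
    exact LieAlgebra.IsSimple.non_abelian E (L := L) ⟨fun x y => Subsingleton.elim _ _⟩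
  obtain ⟨x, hx⟩ := exists_ne (0 : L)
  obtain ⟨Fr, h5, h6, h7⟩ := exists_frame (p := p) HE hx
  obtain ⟨d, hd⟩ := exists_full Fr h5 h6
  have hab := ab_of_propNil Fr HE hd
  have hd1 := full_one Fr hd hab h4
  obtain ⟨a, b, u, ha, hb, hu⟩ := exists_std Fr hd1 hab
  exact ⟨E, inferInstance, inferInstance, inferInstance, inferInstance, a, b, u, h1, hu,
    pind_of_std HE HA hu ha hb⟩

/-- The classification. -/
theorem classification {p : ℕ} (hp : p.Prime) {F : Type u} {L : Type v} [Field F] [CharP F p]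
    [IsSepClosed F] [LieRing L] [LieAlgebra F L] [FiniteDimensional F L] :
    List.TFAE [
      LieAlgebra.IsSimple F L ∧ ∀ S : LieSubalgebra F L, S ≠ ⊤ → LieRing.IsNilpotent S,
      LieAlgebra.IsSimple F L ∧ ∀ S : LieSubalgebra F L, S ≠ ⊤ → IsLieAbelian S,
      ∃ (E : Type v) (_ : Field E) (_ : Algebra F E) (_ : LieAlgebra E L)
        (_ : IsScalarTower F E L) (a b : E) (u : ℕ → ℕ → L), FiniteDimensional F E ∧
          StdBasis p E L a b u ∧ PInd p a b ∧
          ∀ (a' b' : E) (u' : ℕ → ℕ → L), StdBasis p E L a' b' u' →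
            IntermediateField.adjoin F {a', b'} = ⊤] := by
  have hf := Fact.mk hp
  tfae_have 1 → 2 := by
    rintro ⟨h1, h2⟩
    exact ⟨h1, abelian_of_propNil p h2⟩
  tfae_have 2 → 3 := by
    rintro ⟨h1, h2⟩
    have H : PropNil F L := fun S hS => by
      have := h2 S hS
      infer_instance
    obtain ⟨E, i1, i2, i3, i4, a, b, u, h3, h4, h5⟩ := exists_std_of_propNil p H
    exact ⟨E, i1, i2, i3, i4, a, b, u, h3, h4, h5, fun a' b' u' h' => adjoin_eq_top h2 h'⟩
  tfae_have 3 → 1 := by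
    rintro ⟨E, i1, i2, i3, i4, a, b, u, h3, h4, h5, h6⟩
    have hch : CharP E p := charP_of_injective_algebraMap (algebraMap F E).injective p
    have hsE := (std_proper h4 h5).1
    have hs := simple_res F E (L := L)
    have HA : ∀ S : LieSubalgebra F L, S ≠ ⊤ → IsLieAbelian S := by
      refine abelian_of_min h4 h5 h6 fun S hS hT => ?_
      have HS : PropNil F S := fun T hT' => by
        have := hT T hT'
        infer_instance
      obtain ⟨E', j1, j2, j3, j4, a', b', u', -, k1, -⟩ := exists_std_of_propNil p HS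
      exact ⟨E', j1, j2, j3, j4, a', b', u', k1⟩
    exact ⟨hs, fun S hS => by
      have := HA S hS
      infer_instance⟩
  tfae_finish

end Pool.Agent.MP9083S
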