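import Mathlib
import Pool.Agent.Lib.MP_9083e4_al.S.Main
import Pool.Agent.Lib.MP_9083e4_al.S.Iso

/-!
# Simple Lie algebras over separably closed fields all of whose proper subalgebras are nilpotent:
the classification up to isomorphism
-/

set_option autoImplicit false

namespace Pool.Agent.MP9083S

open Module Pool.Agent.MP9083

universe u v w

/-- The classification, with the condition in terms of differential forms. -/
theorem classification' {p : ℕ} (hp : p.Prime) {F : Type u} {L : Type v} [Field F] [CharP F p]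
    [IsSepClosed F] [LieRing L] [LieAlgebra F L] [FiniteDimensional F L] :
    List.TFAE [
      LieAlgebra.IsSimple F L ∧ ∀ S : LieSubalgebra F L, S ≠ ⊤ → LieRing.IsNilpotent S,
      LieAlgebra.IsSimple F L ∧ ∀ S : LieSubalgebra F L, S ≠ ⊤ → IsLieAbelian S,
      ∃ (E : Type v) (_ : Field E) (_ : Algebra F E) (_ : LieAlgebra E L)
        (_ : IsScalarTower F E L) (a b : E) (u : ℕ → ℕ → L), FiniteDimensional F E ∧
          StdBasis p E L a b u ∧ PInd p a b ∧
          ∀ a' b' : E, DlogRel p a b a' b' → IntermediateField.adjoin F {a', b'} = ⊤] := by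
  have hf := Fact.mk hp
  have hcl := classification hp (F := F) (L := L)
  tfae_have 1 ↔ 2 := hcl.out 0 1
  tfae_have 1 → 3 := by
    intro h
    obtain ⟨E, i1, i2, i3, i4, a, b, u, h3, h4, h5, h6⟩ := (hcl.out 0 2).1 h
    have hch : CharP E p := charP_of_injective_algebraMap (algebraMap F E).injective p
    refine ⟨E, i1, i2, i3, i4, a, b, u, h3, h4, h5, fun a' b' h' => ?_⟩
    obtain ⟨u', hu'⟩ := std_of_dlogRel h4 h5 h'
    exact h6 a' b' u' hu'
  tfae_have 3 → 1 := by
    rintro ⟨E, i1, i2, i3, i4, a, b, u, h3, h4, h5, h6⟩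
    have hch : CharP E p := charP_of_injective_algebraMap (algebraMap F E).injective p
    refine (hcl.out 0 2).2 ?_
    exact ⟨E, i1, i2, i3, i4, a, b, u, h3, h4, h5,
      fun a' b' u' h' => h6 a' b' (dlogRel_of_std h4 h5 h')⟩
  tfae_finish

end Pool.Agent.MP9083S
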