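import Mathlib
import Pool.Agent.Lib.MP_9083e4_al.S.Dl
import Pool.Agent.Lib.MP_9083e4_al.S.Main

/-! Rows X. Fields `F` with `[F : F ^ p] ≤ p ^ 2`. -/

set_option autoImplicit false

namespace Pool.Agent.MP9083S

open Module Pool.Agent.MP9083

universe u v w

-- BEGIN card_le
/-- Linear algebra: an independent family is not longer than a spanning family, and it spans if the
lengths are equal. -/
private theorem X1_lin {F M : Type*} [Field F] [AddCommGroup M] [Module F M] {I J : Type*}
    [Fintype I] [Fintype J] (w : I → M) (hw : ∀ x : M, ∃ c : I → F, ∑ i, c i • w i = x)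
    (u : J → M) (hu : ∀ c : J → F, ∑ j, c j • u j = 0 → c = 0) :
    Fintype.card J ≤ Fintype.card I ∧ (Fintype.card J = Fintype.card I →
      ∀ x : M, ∃ c : J → F, ∑ j, c j • u j = x) := by
  classical
  have hspan : Submodule.span F (Set.range w) = ⊤ := by
    refine eq_top_iff.2 fun x _ => ?_
    obtain ⟨c, rfl⟩ := hw x
    exact Submodule.sum_mem _ fun i _ =>
      Submodule.smul_mem _ _ (Submodule.subset_span ⟨i, rfl⟩)
  have : Module.Finite F M :=
    ⟨Submodule.fg_def.2 ⟨Set.range w, Set.finite_range w, hspan⟩⟩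
  have hli : LinearIndependent F u := by
    rw [Fintype.linearIndependent_iff]
    intro g hg j
    exact congrFun (hu g hg) j
  have h1 : Fintype.card J ≤ finrank F M := hli.fintype_card_le_finrank
  have h2 : finrank F M ≤ Fintype.card I := by
    have := finrank_range_le_card (R := F) w
    rwa [Set.finrank, hspan, finrank_top] at this
  refine ⟨h1.trans h2, fun hc x => ?_⟩
  have h3 : Fintype.card J = finrank F M := le_antisymm h1 (h2.trans hc.ge)
  have h4 : Submodule.span F (Set.range u) = ⊤ := hli.span_eq_top_of_card_eq_finrank' h3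
  have h5 : x ∈ Submodule.span F (Set.range u) := h4 ▸ Submodule.mem_top
  exact (Submodule.mem_span_range_iff_exists_fun F).1 h5

/-- The same with the scalars acting through a ring homomorphism. -/
private theorem X1_hom {F E : Type*} [Field F] [Field E] (φ : F →+* E) {I J : Type*}
    [Fintype I] [Fintype J] (w : I → E) (hw : ∀ x : E, ∃ c : I → F, ∑ i, φ (c i) * w i = x)
    (u : J → E) (hu : ∀ c : J → F, ∑ j, φ (c j) * u j = 0 → c = 0) :
    Fintype.card J ≤ Fintype.card I ∧ (Fintype.card J = Fintype.card I →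
      ∀ x : E, ∃ c : J → F, ∑ j, φ (c j) * u j = x) := by
  let _ : Algebra F E := φ.toAlgebra
  exact X1_lin (F := F) w hw u hu

/-- Row X1. (`[E : E ^ p] ≤ [F : F ^ p]`.) Let `v 1, ..., v d` be a basis of `E` over `F`. `F` acts on
`E` by `c • x = algebraMap F E (c ^ p) * x`; let `M` be this vector space over `F` (for Lean: a type
synonym or a local instance `Module.compHom E ((algebraMap F E).comp (frobenius F p))`, given
explicitly so that it does not clash with the algebra). `M` is spanned over `F` by the elements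
`α i * v k` (`hF`: `∑ k, x k • v k = ∑ k, ∑ i, c k i ^ p * α i * v k`), so `finrank F M ≤ card ι * d`.
The `card κ * d` elements `v k ^ p * e l` of `M` are independent over `F`: if
`∑ k, ∑ l, f k l ^ p * v k ^ p * e l = 0` with `f k l ∈ F` then `∑ l, (∑ k, f k l • v k) ^ p * e l = 0`
(`sum_pow_char`), so `∑ k, f k l • v k = 0` for every `l` by `he`, so `f = 0`. Hence
`card κ * d ≤ finrank F M ≤ card ι * d`, `d > 0`. If `card κ = card ι` then the `v k ^ p * e l` span
`M` (`LinearIndependent.span_eq_top_of_card_eq_finrank`), so every `x` is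
`∑ k, ∑ l, f k l ^ p * v k ^ p * e l = ∑ l, (∑ k, f k l • v k) ^ p * e l`. -/
theorem card_le {p : ℕ} [Fact p.Prime] {F : Type u} {E : Type v} [Field F] [CharP F p]
    [Field E] [Algebra F E] [FiniteDimensional F E] {ι κ : Type*} [Fintype ι] [Fintype κ]
    {α : ι → F} (hF : ∀ x : F, ∃ c : ι → F, ∑ i, c i ^ p * α i = x) {e : κ → E}
    (he : ∀ c : κ → E, ∑ k, c k ^ p * e k = 0 → c = 0) :
    Fintype.card κ ≤ Fintype.card ι ∧ (Fintype.card κ = Fintype.card ι →
      ∀ x : E, ∃ c : κ → E, ∑ k, c k ^ p * e k = x) := by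
  classical
  have : CharP E p := charP_of_injective_algebraMap (algebraMap F E).injective p
  let v := Module.finBasis F E
  have hd : 0 < finrank F E := Module.finrank_pos
  -- the sum over pairs, regrouped
  have key : ∀ f : κ × Fin (finrank F E) → F,
      ∑ j, ((algebraMap F E).comp (frobenius F p)) (f j) * (v j.2 ^ p * e j.1) =
        ∑ l, (∑ k, f (l, k) • v k) ^ p * e l := by
    intro f
    rw [Fintype.sum_prod_type]
    refine Finset.sum_congr rfl fun l _ => ?_
    rw [sum_pow_char, Finset.sum_mul]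
    refine Finset.sum_congr rfl fun k _ => ?_
    rw [RingHom.comp_apply, frobenius_def, map_pow, Algebra.smul_def, mul_pow, mul_assoc]
  have main := X1_hom ((algebraMap F E).comp (frobenius F p))
    (fun i : ι × Fin (finrank F E) => algebraMap F E (α i.1) * v i.2)
    (fun x => by
      choose c hc using fun k => hF (v.repr x k)
      refine ⟨fun i => c i.2 i.1, ?_⟩
      rw [Fintype.sum_prod_type_right]
      conv_rhs => rw [← v.sum_repr x]
      refine Finset.sum_congr rfl fun k _ => ?_
      rw [Algebra.smul_def, ← hc k, map_sum, Finset.sum_mul]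
      refine Finset.sum_congr rfl fun i _ => ?_
      rw [RingHom.comp_apply, frobenius_def, map_mul, mul_assoc])
    (fun j : κ × Fin (finrank F E) => v j.2 ^ p * e j.1)
    (fun f hf => by
      rw [key f] at hf
      have h1 := he _ hf
      funext j
      have h2 : ∑ k, f (j.1, k) • v k = 0 := congrFun h1 j.1
      exact Fintype.linearIndependent_iff.1 v.linearIndependent (fun k => f (j.1, k)) h2 j.2)
  rw [Fintype.card_prod, Fintype.card_prod, Fintype.card_fin] at main
  refine ⟨Nat.le_of_mul_le_mul_right main.1 hd, fun hc x => ?_⟩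
  obtain ⟨f, hf⟩ := main.2 (by rw [hc]) x
  exact ⟨fun l => ∑ k, f (l, k) • v k, by rw [← hf, key f]⟩
-- END card_le

-- BEGIN adjoin_of_coeff
/-- Row X2. `E / F` is purely inseparable since `F` is separably closed: there is `n` with
`x ^ (p ^ n) ∈ F` for all `x ∈ E` (finite dimension; `n` with this property for a basis is enough; or
`IsPurelyInseparable` and its exponent in Mathlib). By induction on `m` every `x ∈ E` is in the subring
generated by `F`, `a`, `b` and the `y ^ (p ^ m)`, `y ∈ E` (`m = 0` trivial; replace every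
`y ^ (p ^ m)` by `(∑ c k ^ p * a ^ k.1 * b ^ k.2) ^ (p ^ m)`). Take `m = n`. -/
theorem adjoin_of_coeff {p : ℕ} [Fact p.Prime] {F : Type u} {E : Type v} [Field F] [CharP F p]
    [IsSepClosed F] [Field E] [Algebra F E] [FiniteDimensional F E] {a b : E}
    (h : ∀ x : E, ∃ c : Fin p × Fin p → E,
      ∑ k, c k ^ p * (a ^ (k.1 : ℕ) * b ^ (k.2 : ℕ)) = x) :
    IntermediateField.adjoin F {a, b} = ⊤ := by
  have hE : CharP E p := charP_of_injective_algebraMap (algebraMap F E).injective p
  have hexp : ExpChar F p := ExpChar.prime Fact.out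
  have key : ∀ (m : ℕ) (x : E), x ∈ IntermediateField.adjoin F
      (({a, b} : Set E) ∪ Set.range (fun y : E => y ^ (p ^ m))) := by
    intro m
    induction m with
    | zero =>
      intro x
      exact IntermediateField.subset_adjoin F _ (Or.inr ⟨x, by simp⟩)
    | succ m ih =>
      intro x
      refine (IntermediateField.adjoin_le_iff.2 ?_) (ih x)
      have ha : a ∈ IntermediateField.adjoin F
          (({a, b} : Set E) ∪ Set.range (fun y : E => y ^ (p ^ (m + 1)))) :=
        IntermediateField.subset_adjoin F _ (Or.inl (Or.inl rfl))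
      have hb : b ∈ IntermediateField.adjoin F
          (({a, b} : Set E) ∪ Set.range (fun y : E => y ^ (p ^ (m + 1)))) :=
        IntermediateField.subset_adjoin F _ (Or.inl (Or.inr rfl))
      rintro z (hz | ⟨y, rfl⟩)
      · exact IntermediateField.subset_adjoin F _ (Or.inl hz)
      · obtain ⟨c, hc⟩ := h y
        show y ^ (p ^ m) ∈ IntermediateField.adjoin F
          (({a, b} : Set E) ∪ Set.range (fun y : E => y ^ (p ^ (m + 1))))
        rw [← hc, sum_pow_char_pow]
        refine sum_mem fun k _ => ?_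
        rw [mul_pow, ← pow_mul, ← pow_succ']
        refine mul_mem ?_ (pow_mem (mul_mem (pow_mem ha _) (pow_mem hb _)) _)
        exact IntermediateField.subset_adjoin F _ (Or.inr ⟨c k, rfl⟩)
  rw [eq_top_iff]
  intro x _
  refine (IntermediateField.adjoin_le_iff.2 ?_) (key (IsPurelyInseparable.exponent F E) x)
  rintro z (hz | ⟨y, rfl⟩)
  · exact IntermediateField.subset_adjoin F _ hz
  · obtain ⟨w, hw⟩ := IsPurelyInseparable.exponent_def' F p y
    show y ^ (p ^ IsPurelyInseparable.exponent F E) ∈ IntermediateField.adjoin F {a, b}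
    rw [← hw]
    exact IntermediateField.algebraMap_mem _ w
-- END adjoin_of_coeff

-- BEGIN pind_of_dlogRel
/-- Row X3. Take `K`, `s`, `t` from `exists_field`, `P` from `exists_pois'`, `T` from `exists_tor`,
`s'`, `t'`, `n` from `exists_B_root` and `Q` from `exists_scale` with `n`: `Q.B s' t' = s' t'`, so the
`s' ^ i * t' ^ j` are independent over `E` (`indep_of_B`). `∑ c i j ^ p * a' ^ i * b' ^ j = 0` gives
`(∑ c i j • (s' ^ i * t' ^ j)) ^ p = 0`. -/
theorem pind_of_dlogRel {p : ℕ} [Fact p.Prime] {E : Type u} [Field E] [CharP E p]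
    {a b a' b' : E} (hp : PInd p a b) (h : DlogRel p a b a' b') : PInd p a' b' := by
  obtain ⟨K, _, _, s, t, hs, ht, hdim, hpow, hind, hsp⟩ := exists_field hp
  obtain ⟨P, hP⟩ := exists_pois' p hdim hpow hind
  obtain ⟨ha, hb⟩ := pind_ne hp
  have hpp : p.Prime := Fact.out
  have hne : ∀ {z : K} {c : E}, c ≠ 0 → z ^ p = algebraMap E K c → z ≠ 0 := by
    intro z c hc hz h0
    rw [h0, zero_pow hpp.ne_zero] at hz
    exact hc ((map_eq_zero (algebraMap E K)).1 hz.symm)
  obtain ⟨T⟩ := exists_tor P (hne ha hs) (hne hb ht) hsp hP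
  obtain ⟨s', t', n, hn, hs', ht', hB⟩ := exists_B_root T hpow hp hs ht hsp h
  have hn0 : (n : E) ≠ 0 := fun h0 => hn ((CharP.cast_eq_zero_iff E p n).1 h0)
  obtain ⟨Q, hQ, -⟩ := exists_scale P hn0
  have hi := indep_of_B Q (hne h.1 hs') (hne h.2.1 ht') (by rw [hQ, hB])
  have cK : CharP K p := charP_of_injective_algebraMap (algebraMap E K).injective p
  intro c hc
  have h1 : (∑ x : Fin p × Fin p, c x.1 x.2 • (s' ^ (x.1 : ℕ) * t' ^ (x.2 : ℕ))) ^ p = 0 := by
    rw [sum_pow_char p]
    have h2 : ∀ x : Fin p × Fin p, (c x.1 x.2 • (s' ^ (x.1 : ℕ) * t' ^ (x.2 : ℕ))) ^ p =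
        algebraMap E K (c x.1 x.2 ^ p * a' ^ (x.1 : ℕ) * b' ^ (x.2 : ℕ)) := by
      intro x
      rw [Algebra.smul_def, mul_pow, mul_pow, ← pow_mul, ← pow_mul, mul_comm (x.1 : ℕ) p,
        mul_comm (x.2 : ℕ) p, pow_mul, pow_mul, hs', ht', map_mul, map_mul, map_pow, map_pow,
        map_pow, mul_assoc]
    rw [Finset.sum_congr rfl fun x _ => h2 x, ← map_sum, Fintype.sum_prod_type, hc, map_zero]
  have h3 := Fintype.linearIndependent_iff.1 hi (fun x => c x.1 x.2)
    (pow_eq_zero_iff hpp.ne_zero |>.1 h1)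
  funext i j
  exact h3 (i, j)
-- END pind_of_dlogRel

theorem pind_iff_prod {p : ℕ} {E : Type*} [Field E] {a b : E} (h : PInd p a b)
    (c : Fin p × Fin p → E) (hc : ∑ k, c k ^ p * (a ^ (k.1 : ℕ) * b ^ (k.2 : ℕ)) = 0) : c = 0 := by
  have h1 := h (fun i j => c (i, j)) (by
    rw [← hc, Fintype.sum_prod_type]
    refine Finset.sum_congr rfl fun i _ => Finset.sum_congr rfl fun j _ => ?_
    rw [mul_assoc])
  funext k
  exact congrFun (congrFun h1 k.1) k.2

/-- If `[F : F ^ p] < p ^ 2` then no finite extension of `F` contains `p`-independent elements. -/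
theorem le_card_of_pind {p : ℕ} [Fact p.Prime] {F : Type u} {E : Type v} [Field F] [CharP F p]
    [Field E] [Algebra F E] [FiniteDimensional F E] {r : ℕ} {α : Fin r → F}
    (hF : ∀ x : F, ∃ c : Fin r → F, ∑ i, c i ^ p * α i = x) {a b : E} (hp : PInd p a b) :
    p ^ 2 ≤ r := by
  have h1 := (card_le hF (fun c => pind_iff_prod hp c)).1
  rwa [Fintype.card_prod, Fintype.card_fin, Fintype.card_fin, ← sq] at h1

/-- If `[F : F ^ p] ≤ p ^ 2` then the condition in the classification is always satisfied. -/
theorem adjoin_of_rank {p : ℕ} [Fact p.Prime] {F : Type u} {E : Type v} [Field F] [CharP F p]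
    [IsSepClosed F] [Field E] [Algebra F E] [FiniteDimensional F E] {α : Fin (p ^ 2) → F}
    (hF : ∀ x : F, ∃ c : Fin (p ^ 2) → F, ∑ i, c i ^ p * α i = x) {a b : E} (hp : PInd p a b)
    {a' b' : E} (h : DlogRel p a b a' b') : IntermediateField.adjoin F {a', b'} = ⊤ := by
  have c1 : CharP E p := charP_of_injective_algebraMap (algebraMap F E).injective p
  have hp' := pind_of_dlogRel hp h
  refine adjoin_of_coeff ((card_le hF (fun c => pind_iff_prod hp' c)).2 ?_)
  rw [Fintype.card_prod, Fintype.card_fin, Fintype.card_fin, sq]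

/-- If `[F : F ^ p] < p ^ 2` there are no simple algebras all of whose proper subalgebras are
nilpotent. -/
theorem not_simple_of_rank {p : ℕ} (hp : p.Prime) {F : Type u} {L : Type v} [Field F] [CharP F p]
    [IsSepClosed F] [LieRing L] [LieAlgebra F L] [FiniteDimensional F L]
    [LieAlgebra.IsSimple F L] (H : ∀ S : LieSubalgebra F L, S ≠ ⊤ → LieRing.IsNilpotent S)
    {r : ℕ} {α : Fin r → F} (hF : ∀ x : F, ∃ c : Fin r → F, ∑ i, c i ^ p * α i = x) :
    p ^ 2 ≤ r := by
  have hf := Fact.mk hp
  obtain ⟨E, i1, i2, i3, i4, a, b, u, h3, h4, h5⟩ := exists_std_of_propNil p (F := F) (L := L) H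
  exact le_card_of_pind hF h5

end Pool.Agent.MP9083S
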